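import Pool.Agent.Lib.Linnik.BTq

/-!
# From thin exceptional sets to relative density zero (helper56)

If a property `Bad` of primes holds for only `O(X ^ (1 - δ))` primes `p ≤ X` with `2 ^ v ∤ p + 1`
(every `v`, with `C` and `δ > 0` depending on `v`), then the primes with `Bad` have relative
density zero (Brun-Titchmarsh `Lnk.btq` for `p ≡ -1` modulo `2 ^ v`, and Chebyshev's lower bound).
-/

set_option autoImplicit false

open Finset Filter Topology

namespace Thin42b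

/-- Primes `p ≤ X` with `2 ^ v ∣ p + 1`: Brun–Titchmarsh. -/
lemma card_progression : ∃ C : ℝ, 0 < C ∧ ∀ v : ℕ, 1 ≤ v → ∀ X : ℕ, 2 ≤ X →
    ((2 : ℝ) ^ v) ^ 2 ≤ X →
    (((range (X + 1)).filter (fun p : ℕ => p.Prime ∧ 2 ^ v ∣ p + 1)).card : ℝ) ≤
      C / 2 ^ v * (X / Real.log X) := by
  obtain ⟨C, hC, hBT⟩ := Lnk.btq
  refine ⟨2 * C, by positivity, ?_⟩
  intro v hv X hX hvX
  have h1 := hBT (2 ^ v) (-1) 0 X (by positivity) isUnit_one.neg le_rfl (by exact_mod_cast hX)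
    (by push_cast; exact hvX)
  rw [zero_add, Nat.floor_zero, Nat.floor_natCast] at h1
  have h2 : ((range (X + 1)).filter (fun p : ℕ => p.Prime ∧ 2 ^ v ∣ p + 1)).card ≤
      ((Ioc 0 X).filter (fun p : ℕ => p.Prime ∧ ((p : ℕ) : ZMod (2 ^ v)) = -1)).card := by
    apply card_le_card
    intro p hp
    rw [mem_filter, mem_range] at hp
    obtain ⟨hp1, hp2, hp3⟩ := hp
    rw [mem_filter, mem_Ioc]
    refine ⟨⟨hp2.pos, by omega⟩, hp2, ?_⟩
    rw [← ZMod.natCast_eq_zero_iff] at hp3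
    push_cast at hp3
    linear_combination hp3
  have h3 : (((range (X + 1)).filter (fun p : ℕ => p.Prime ∧ 2 ^ v ∣ p + 1)).card : ℝ) ≤
      (((Ioc 0 X).filter (fun p : ℕ => p.Prime ∧ ((p : ℕ) : ZMod (2 ^ v)) = -1)).card : ℝ) := by
    exact_mod_cast h2
  refine h3.trans (h1.trans (le_of_eq ?_))
  obtain ⟨w, rfl⟩ : ∃ w, v = w + 1 := ⟨v - 1, by omega⟩
  rw [Nat.totient_prime_pow_succ Nat.prime_two]
  push_cast
  have hlog : Real.log X ≠ 0 := by
    have : 0 < Real.log X := Real.log_pos (by exact_mod_cast (by omega : 1 < X))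
    exact this.ne'
  have h2w : (2 : ℝ) ^ w ≠ 0 := by positivity
  rw [pow_succ]
  field_simp

/-- Chebyshev's lower bound. -/
lemma pi_lower (X : ℕ) (hX : 4 ≤ X) : (X : ℝ) / (4 * Real.log X) ≤ Nat.primeCounting X := by
  refine le_trans ?_ (Chebyshev.pi_ge X)
  have hX4 : (4 : ℝ) ≤ X := by exact_mod_cast hX
  have hlog : 0 < Real.log X := Real.log_pos (by linarith)
  have h1 : Real.log (X + 1) ≤ X / 8 + 5 / 4 := by
    have h2 : Real.log (X + 1) = Real.log ((X + 1) / 8) + 3 * Real.log 2 := by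
      rw [Real.log_div (by positivity) (by norm_num)]
      have : Real.log 8 = 3 * Real.log 2 := by
        rw [show (8 : ℝ) = 2 ^ 3 by norm_num, Real.log_pow]; norm_num
      rw [this]; ring
    have h3 := Real.log_le_sub_one_of_pos (show (0 : ℝ) < ((X : ℝ) + 1) / 8 by positivity)
    have h4 := Real.log_two_lt_d9
    rw [h2]
    linarith
  have h5 := Real.log_two_gt_d9
  rw [div_le_div_iff₀ (by positivity) hlog]
  have h6 : (X : ℝ) ≤ 4 * (X * Real.log 2 - Real.log (X + 1)) := by nlinarith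
  nlinarith

/-- Thin for every `v` implies relative density zero. -/
theorem density_zero (Bad : ℕ → Prop) [DecidablePred Bad]
    (h : ∀ v : ℕ, ∃ C δ : ℝ, 0 < δ ∧ ∀ X : ℕ,
      (((range (X + 1)).filter (fun p : ℕ => p.Prime ∧ ¬ 2 ^ v ∣ p + 1 ∧ Bad p)).card : ℝ) ≤
        C * (X : ℝ) ^ (1 - δ)) :
    Tendsto (fun X : ℕ => (((range (X + 1)).filter (fun p : ℕ => p.Prime ∧ Bad p)).card : ℝ) /
      Nat.primeCounting X) atTop (𝓝 0) := by
  obtain ⟨C₁, hC₁, hprog⟩ := card_progression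
  rw [Metric.tendsto_atTop]
  intro ε hε
  -- choose v
  obtain ⟨v, hv⟩ : ∃ v : ℕ, 8 * C₁ / ε < 2 ^ v := pow_unbounded_of_one_lt _ (by norm_num)
  have hv' : 8 * C₁ / ε < 2 ^ (v + 1) := hv.trans_le (pow_le_pow_right₀ (by norm_num) (by omega))
  obtain ⟨C, δ, hδ, hthin⟩ := h (v + 1)
  have hlim : Tendsto (fun X : ℕ => 4 * |C| * (Real.log X / (X : ℝ) ^ δ)) atTop (𝓝 0) := by
    have h1 : Tendsto (fun x : ℝ => Real.log x / x ^ δ) atTop (𝓝 0) :=
      (isLittleO_log_rpow_atTop hδ).tendsto_div_nhds_zero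
    have h2 := (h1.comp tendsto_natCast_atTop_atTop).const_mul (4 * |C|)
    simpa using h2
  have hev := (hlim.eventually (gt_mem_nhds (show (0 : ℝ) < ε / 2 by positivity)))
  rw [eventually_atTop] at hev
  obtain ⟨X₁, hX₁⟩ := hev
  obtain ⟨X₂, hX₂⟩ := exists_nat_gt (((2 : ℝ) ^ (v + 1)) ^ 2)
  refine ⟨max 4 (max X₁ X₂), ?_⟩
  intro X hX
  have hX4 : 4 ≤ X := (le_max_left _ _).trans hX
  have hXX₁ : X₁ ≤ X := ((le_max_left _ _).trans (le_max_right _ _)).trans hX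
  have hXX₂ : X₂ ≤ X := ((le_max_right _ _).trans (le_max_right _ _)).trans hX
  have hX4' : (4 : ℝ) ≤ X := by exact_mod_cast hX4
  have hlog : 0 < Real.log X := Real.log_pos (by linarith)
  have hXpos : (0 : ℝ) < X := by linarith
  have hpi := pi_lower X hX4
  have hpipos : (0 : ℝ) < Nat.primeCounting X := lt_of_lt_of_le (by positivity) hpi
  have h1 := hX₁ X hXX₁
  have h2 := hprog (v + 1) (by omega) X (by omega) (hX₂.le.trans (by exact_mod_cast hXX₂))
  have h3 := hthin X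
  have hsplit : (((range (X + 1)).filter (fun p : ℕ => p.Prime ∧ Bad p)).card : ℝ) ≤
      (((range (X + 1)).filter (fun p : ℕ => p.Prime ∧ ¬ 2 ^ (v + 1) ∣ p + 1 ∧ Bad p)).card : ℝ) +
      (((range (X + 1)).filter (fun p : ℕ => p.Prime ∧ 2 ^ (v + 1) ∣ p + 1)).card : ℝ) := by
    have h4 : ((range (X + 1)).filter (fun p : ℕ => p.Prime ∧ Bad p)) ⊆
        ((range (X + 1)).filter (fun p : ℕ => p.Prime ∧ ¬ 2 ^ (v + 1) ∣ p + 1 ∧ Bad p)) ∪
        ((range (X + 1)).filter (fun p : ℕ => p.Prime ∧ 2 ^ (v + 1) ∣ p + 1)) := by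
      intro p hp
      rw [mem_filter] at hp
      rw [mem_union, mem_filter, mem_filter]
      by_cases hd : 2 ^ (v + 1) ∣ p + 1
      · exact Or.inr ⟨hp.1, hp.2.1, hd⟩
      · exact Or.inl ⟨hp.1, hp.2.1, hd, hp.2.2⟩
    have h5 := (card_le_card h4).trans (card_union_le _ _)
    exact_mod_cast h5
  rw [Real.dist_eq, sub_zero, abs_of_nonneg (by positivity), div_lt_iff₀ hpipos]
  refine lt_of_le_of_lt (hsplit.trans (add_le_add h3 h2)) ?_
  have hmain : C * (X : ℝ) ^ (1 - δ) + C₁ / 2 ^ (v + 1) * (X / Real.log X) <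
      ε * (X / (4 * Real.log X)) := by
    have h6 : C * (X : ℝ) ^ (1 - δ) < ε / 2 * (X / (4 * Real.log X)) := by
      have h7 : C * (X : ℝ) ^ (1 - δ) ≤ |C| * (X : ℝ) ^ (1 - δ) := by
        apply mul_le_mul_of_nonneg_right (le_abs_self C) (by positivity)
      refine lt_of_le_of_lt h7 ?_
      have h8 : |C| * (X : ℝ) ^ (1 - δ) =
          (4 * |C| * (Real.log X / (X : ℝ) ^ δ)) * (X / (4 * Real.log X)) := by
        rw [Real.rpow_sub hXpos, Real.rpow_one]
        have : (X : ℝ) ^ δ ≠ 0 := by positivity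
        field_simp
      rw [h8]
      exact mul_lt_mul_of_pos_right h1 (by positivity)
    have h9 : C₁ / 2 ^ (v + 1) * (X / Real.log X) < ε / 2 * (X / (4 * Real.log X)) := by
      have h10 : ε / 2 * ((X : ℝ) / (4 * Real.log X)) = ε / 8 * (X / Real.log X) := by
        field_simp; norm_num
      rw [h10]
      apply mul_lt_mul_of_pos_right _ (by positivity)
      rw [div_lt_iff₀ (by positivity)]
      rw [div_lt_iff₀ hε] at hv'
      linarith
    have h11 : ε * ((X : ℝ) / (4 * Real.log X)) = ε / 2 * (X / (4 * Real.log X)) +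
        ε / 2 * (X / (4 * Real.log X)) := by ring
    rw [h11]
    exact add_lt_add h6 h9
  exact hmain.trans_le (mul_le_mul_of_nonneg_left hpi hε.le)

/-- Thinness for each exact power of two dividing `p + 1` gives thinness for all `p` with
`2 ^ v ∤ p + 1`. -/
theorem thin_union (Bad : ℕ → Prop) [DecidablePred Bad]
    (h : ∀ v : ℕ, ∃ C δ : ℝ, 0 < δ ∧ ∀ X : ℕ,
      (((range (X + 1)).filter (fun p : ℕ => p.Prime ∧ (2 ^ v ∣ p + 1 ∧ ¬ 2 ^ (v + 1) ∣ p + 1) ∧
        Bad p)).card : ℝ) ≤ C * (X : ℝ) ^ (1 - δ)) (v : ℕ) :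
    ∃ C δ : ℝ, 0 ≤ C ∧ 0 < δ ∧ δ ≤ 1 ∧ ∀ X : ℕ,
      (((range (X + 1)).filter (fun p : ℕ => p.Prime ∧ ¬ 2 ^ v ∣ p + 1 ∧ Bad p)).card : ℝ) ≤
        C * (X : ℝ) ^ (1 - δ) := by
  induction v with
  | zero =>
    refine ⟨0, 1, le_rfl, one_pos, le_rfl, fun X => ?_⟩
    rw [zero_mul]
    have : ((range (X + 1)).filter (fun p : ℕ => p.Prime ∧ ¬ 2 ^ 0 ∣ p + 1 ∧ Bad p)) = ∅ := by
      rw [filter_eq_empty_iff]
      intro p _ hp
      exact hp.2.1 (by simp)
    rw [this]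
    simp
  | succ v ih =>
    obtain ⟨C₁, δ₁, hC₁, hδ₁, hδ₁', h₁⟩ := ih
    obtain ⟨C₂, δ₂, hδ₂, h₂⟩ := h v
    refine ⟨C₁ + |C₂|, min δ₁ δ₂, by positivity, lt_min hδ₁ hδ₂, (min_le_left _ _).trans hδ₁',
      fun X => ?_⟩
    by_cases hX : X = 0
    · subst hX
      have : ((range (0 + 1)).filter
          (fun p : ℕ => p.Prime ∧ ¬ 2 ^ (v + 1) ∣ p + 1 ∧ Bad p)) = ∅ := by
        rw [filter_eq_empty_iff]
        intro p hp hp2
        rw [mem_range] at hp
        have := hp2.1.two_le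
        omega
      rw [this]
      simp only [card_empty, Nat.cast_zero]
      positivity
    · have hX1 : (1 : ℝ) ≤ X := by exact_mod_cast Nat.one_le_iff_ne_zero.2 hX
      have hsub : ((range (X + 1)).filter (fun p : ℕ => p.Prime ∧ ¬ 2 ^ (v + 1) ∣ p + 1 ∧ Bad p)) ⊆
          ((range (X + 1)).filter (fun p : ℕ => p.Prime ∧ ¬ 2 ^ v ∣ p + 1 ∧ Bad p)) ∪
          ((range (X + 1)).filter (fun p : ℕ => p.Prime ∧ (2 ^ v ∣ p + 1 ∧ ¬ 2 ^ (v + 1) ∣ p + 1) ∧
            Bad p)) := by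
        intro p hp
        rw [mem_filter] at hp
        rw [mem_union, mem_filter, mem_filter]
        by_cases hd : 2 ^ v ∣ p + 1
        · exact Or.inr ⟨hp.1, hp.2.1, ⟨hd, hp.2.2.1⟩, hp.2.2.2⟩
        · exact Or.inl ⟨hp.1, hp.2.1, hd, hp.2.2.2⟩
      have h3 : (((range (X + 1)).filter
          (fun p : ℕ => p.Prime ∧ ¬ 2 ^ (v + 1) ∣ p + 1 ∧ Bad p)).card : ℝ) ≤
          (((range (X + 1)).filter (fun p : ℕ => p.Prime ∧ ¬ 2 ^ v ∣ p + 1 ∧ Bad p)).card : ℝ) +
          (((range (X + 1)).filter (fun p : ℕ => p.Prime ∧ (2 ^ v ∣ p + 1 ∧ ¬ 2 ^ (v + 1) ∣ p + 1) ∧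
            Bad p)).card : ℝ) := by
        exact_mod_cast (card_le_card hsub).trans (card_union_le _ _)
      refine h3.trans ((add_le_add (h₁ X) (h₂ X)).trans ?_)
      rw [add_mul]
      refine add_le_add ?_ ?_
      · apply mul_le_mul_of_nonneg_left _ hC₁
        apply Real.rpow_le_rpow_of_exponent_le hX1
        have := min_le_left δ₁ δ₂
        linarith
      · refine (mul_le_mul_of_nonneg_right (le_abs_self C₂) (by positivity)).trans ?_
        apply mul_le_mul_of_nonneg_left _ (abs_nonneg _)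
        apply Real.rpow_le_rpow_of_exponent_le hX1
        have := min_le_right δ₁ δ₂
        linarith

end Thin42b
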