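import Pool.Agent.Lib.MP_42b82d_co.H78Jac

/-!
# Sextic classes of the points of the line `x + y + 1 = 0`, for `p = 1 mod 6`
-/

set_option autoImplicit false
open Finset

namespace Pool.Agent.Lib.MP42b82d

/-- powers of `ζ` indexed by `Z/6` -/
noncomputable def e6 (ζ : ℂ) (k : ZMod 6) : ℂ := ζ ^ k.val

/-- powers of `ζ - 1` indexed by `Z/3` -/
noncomputable def e3 (ζ : ℂ) (k : ZMod 3) : ℂ := (ζ - 1) ^ k.val

section roots

variable {ζ : ℂ} (hζ : ζ ^ 2 = ζ - 1)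

include hζ

lemma z3 : ζ ^ 3 = -1 := by
  have : ζ ^ 3 = ζ ^ 2 * ζ := by ring
  rw [this, hζ]; linear_combination hζ

lemma z6 : ζ ^ 6 = 1 := by
  have : ζ ^ 6 = (ζ ^ 3) ^ 2 := by ring
  rw [this, z3 hζ]; norm_num

lemma z_ne : ζ ≠ 0 := by
  rintro rfl
  norm_num at hζ

lemma e6_add (k l : ZMod 6) : e6 ζ (k + l) = e6 ζ k * e6 ζ l := by
  unfold e6
  rw [← pow_add, ZMod.val_add, ← pow_eq_pow_mod _ (z6 hζ)]

lemma e6_zero : e6 ζ 0 = 1 := by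
  unfold e6
  rw [ZMod.val_zero, pow_zero]

lemma e6_two_mul (k : ZMod 6) : e6 ζ k ^ 2 = e3 ζ (ZMod.castHom (by norm_num : 3 ∣ 6) (ZMod 3) k) := by
  unfold e6 e3
  rw [← pow_mul, mul_comm, pow_mul, hζ]
  have h3 : (ζ - 1) ^ 3 = 1 := by
    rw [← hζ, ← pow_mul]; exact z6 hζ
  fin_cases k
  · rfl
  · rfl
  · rfl
  · show (ζ - 1) ^ 3 = (ζ - 1) ^ 0
    rw [h3, pow_zero]
  · show (ζ - 1) ^ 4 = (ζ - 1) ^ 1
    rw [show (ζ - 1) ^ 4 = (ζ - 1) ^ 3 * (ζ - 1) ^ 1 by ring, h3, one_mul]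
  · show (ζ - 1) ^ 5 = (ζ - 1) ^ 2
    rw [show (ζ - 1) ^ 5 = (ζ - 1) ^ 3 * (ζ - 1) ^ 2 by ring, h3, one_mul]

lemma z_im : ζ.im ≠ 0 := by
  intro h
  have h1 := congrArg Complex.re hζ
  have h2 : (ζ ^ 2).re = ζ.re ^ 2 - ζ.im ^ 2 := by
    rw [sq, Complex.mul_re]; ring
  rw [h2, h, Complex.sub_re, Complex.one_re] at h1
  nlinarith [sq_nonneg (ζ.re - 1 / 2)]

lemma int_basis {P Q : ℤ} (h : (P : ℂ) + Q * ζ = 0) : P = 0 ∧ Q = 0 := by
  have h1 := congrArg Complex.im h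
  simp only [Complex.add_im, Complex.mul_im, Complex.intCast_im, Complex.intCast_re,
    Complex.zero_im, zero_add, zero_mul, add_zero] at h1
  have hQ : (Q : ℝ) = 0 := by
    rcases mul_eq_zero.1 h1 with h | h
    · exact h
    · exact absurd h (z_im hζ)
  have hQ' : Q = 0 := by exact_mod_cast hQ
  subst hQ'
  rw [Int.cast_zero, zero_mul, add_zero] at h
  exact ⟨by exact_mod_cast h, rfl⟩

end roots

variable {p : ℕ} [hp : Fact p.Prime]

/-- the set of `x` with `x` and `-1 - x` both nonzero -/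
def TS (p : ℕ) [Fact p.Prime] : Finset (ZMod p) := univ.filter fun x => x ≠ 0 ∧ -1 - x ≠ 0

/-- reduction from `Z/6` to `Z/3` -/
def red3 : ZMod 6 →+* ZMod 3 := ZMod.castHom (by norm_num : 3 ∣ 6) (ZMod 3)

/-- signed class numbers of the line `x + y + 1 = 0` -/
def DD (c : ZMod p → ZMod 6) (u : ZMod 3) (v : ZMod 6) : ℤ :=
  ∑ x ∈ TS p, ((if red3 (c (2 * x)) = u ∧ c (-1 - x) = v then (1 : ℤ) else 0) -
    (if red3 (c (2 * x)) = u ∧ c (-1 - x) = v + 3 then 1 else 0))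

lemma key6 {R : Type} [AddCommGroup R] (f : ZMod 6 → R) (hf : ∀ v, f (v + 3) = -f v)
    (b : ZMod 6) : ∑ v ∈ ({0, 1, 2} : Finset (ZMod 6)),
      ((if b = v then (1 : ℤ) else 0) - (if b = v + 3 then 1 else 0)) • f v = f b := by
  have h3 : f 3 = -f 0 := hf 0
  have h4 : f 4 = -f 1 := hf 1
  have h5 : f 5 = -f 2 := hf 2
  rw [sum_insert (by decide), sum_insert (by decide), sum_singleton]
  fin_cases b
  · show ((1 : ℤ) - 0) • f 0 + (((0 : ℤ) - 0) • f 1 + ((0 : ℤ) - 0) • f 2) = f 0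
    simp
  · show ((0 : ℤ) - 0) • f 0 + (((1 : ℤ) - 0) • f 1 + ((0 : ℤ) - 0) • f 2) = f 1
    simp
  · show ((0 : ℤ) - 0) • f 0 + (((0 : ℤ) - 0) • f 1 + ((1 : ℤ) - 0) • f 2) = f 2
    simp
  · show ((0 : ℤ) - 1) • f 0 + (((0 : ℤ) - 0) • f 1 + ((0 : ℤ) - 0) • f 2) = f 3
    rw [h3]; simp
  · show ((0 : ℤ) - 0) • f 0 + (((0 : ℤ) - 1) • f 1 + ((0 : ℤ) - 0) • f 2) = f 4
    rw [h4]; simp
  · show ((0 : ℤ) - 0) • f 0 + (((0 : ℤ) - 0) • f 1 + ((0 : ℤ) - 1) • f 2) = f 5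
    rw [h5]; simp

/-- sums of odd functions of the class over the line `x + y + 1 = 0` -/
lemma expand {R : Type} [AddCommGroup R] (c : ZMod p → ZMod 6) (Φ : ZMod 3 → ZMod 6 → R)
    (hΦ : ∀ u v, Φ u (v + 3) = -Φ u v) :
    ∑ x ∈ TS p, Φ (red3 (c (2 * x))) (c (-1 - x)) =
      ∑ u : ZMod 3, ∑ v ∈ ({0, 1, 2} : Finset (ZMod 6)), DD c u v • Φ u v := by
  classical
  have h1 : ∀ u v, DD c u v • Φ u v = ∑ x ∈ TS p,
      ((if red3 (c (2 * x)) = u ∧ c (-1 - x) = v then (1 : ℤ) else 0) -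
        (if red3 (c (2 * x)) = u ∧ c (-1 - x) = v + 3 then 1 else 0)) • Φ u v := by
    intro u v
    unfold DD
    rw [sum_smul]
  simp only [h1]
  have h2 : ∀ u : ZMod 3, ∑ v ∈ ({0, 1, 2} : Finset (ZMod 6)), ∑ x ∈ TS p,
      ((if red3 (c (2 * x)) = u ∧ c (-1 - x) = v then (1 : ℤ) else 0) -
        (if red3 (c (2 * x)) = u ∧ c (-1 - x) = v + 3 then 1 else 0)) • Φ u v =
      ∑ x ∈ TS p, if red3 (c (2 * x)) = u then Φ u (c (-1 - x)) else 0 := by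
    intro u
    rw [sum_comm]
    apply sum_congr rfl
    intro x _
    by_cases h : red3 (c (2 * x)) = u
    · rw [if_pos h, ← key6 (Φ u) (hΦ u) (c (-1 - x))]
      apply sum_congr rfl
      intro v _
      simp only [h, true_and]
    · rw [if_neg h]
      apply sum_eq_zero
      intro v _
      simp only [h, false_and, if_false, sub_zero, zero_smul]
  rw [sum_congr rfl fun u _ => h2 u, sum_comm]
  apply sum_congr rfl
  intro x _
  rw [sum_ite_eq univ, if_pos (mem_univ _)]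

end Pool.Agent.Lib.MP42b82d
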