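import Mathlib

/-!
# Internal partitions, intimacy, and the incidence graph of `PG(2, p)`
-/

set_option autoImplicit false

namespace Pool.Agent.Lib.MP42b82d

/-- `A` and its complement form a `t`-internal partition of `G`: both parts are nonempty and
every vertex `v` has at least `d(v) / 2 + t` neighbours in its own part. -/
def IsInternalPartition {V : Type} (G : SimpleGraph V) (t : ℤ) (A : Set V) : Prop :=
  A.Nonempty ∧ Aᶜ.Nonempty ∧
    (∀ v ∈ A, ((G.neighborSet v).ncard : ℚ) / 2 + t ≤ ((G.neighborSet v ∩ A).ncard : ℚ)) ∧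
    (∀ v ∈ Aᶜ, ((G.neighborSet v).ncard : ℚ) / 2 + t ≤ ((G.neighborSet v ∩ Aᶜ).ncard : ℚ))

/-- The intimacy of `G`: the largest integer `t` such that `G` has a `t`-internal partition. -/
noncomputable def intimacy {V : Type} (G : SimpleGraph V) : ℤ :=
  sSup {t : ℤ | ∃ A : Set V, IsInternalPartition G t A}

/-- Points and lines of `PG(2, p)`: the subspaces of `F_p ^ 3` of dimension one or two. -/
def PGVertex (p : ℕ) : Type :=
  {W : Submodule (ZMod p) (Fin 3 → ZMod p) //
    Module.finrank (ZMod p) W = 1 ∨ Module.finrank (ZMod p) W = 2}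

/-- The incidence graph of `PG(2, p)`: a point is adjacent to a line when it is contained
in it. -/
def PGGraph (p : ℕ) : SimpleGraph (PGVertex p) where
  Adj v w := v.1 < w.1 ∨ w.1 < v.1
  symm := ⟨fun _ _ h => h.symm⟩
  loopless := ⟨fun v h => h.elim (fun h => lt_irrefl _ h) (fun h => lt_irrefl _ h)⟩

end Pool.Agent.Lib.MP42b82d
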