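import Mathlib

/-!
# Two elementary identities between Jacobi sums
-/

set_option autoImplicit false
open Finset

namespace Pool.Agent.Lib.MP42b82d

variable {p : ℕ} [hp : Fact p.Prime]

/-- `J(α, β) = α(-1) J(α, (αβ)⁻¹)` -/
lemma jac_third (α β : MulChar (ZMod p) ℂ) :
    jacobiSum α β = α (-1) * jacobiSum α (α * β)⁻¹ := by
  classical
  unfold jacobiSum
  rw [mul_sum]
  -- restrict both sums to `x ≠ 1`
  have hL : ∑ x : ZMod p, α x * β (1 - x) = ∑ x ∈ univ.erase (1 : ZMod p), α x * β (1 - x) := by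
    rw [← Finset.sum_erase_add univ _ (mem_univ (1 : ZMod p))]
    rw [sub_self, MulChar.map_zero, mul_zero, add_zero]
  have hR : ∑ t : ZMod p, α (-1) * (α t * (α * β)⁻¹ (1 - t)) =
      ∑ t ∈ univ.erase (1 : ZMod p), α (-1) * (α t * (α * β)⁻¹ (1 - t)) := by
    rw [← Finset.sum_erase_add univ _ (mem_univ (1 : ZMod p))]
    rw [sub_self, MulChar.map_zero, mul_zero, mul_zero, add_zero]
  rw [hL, hR]
  symm
  refine Finset.sum_nbij' (fun t => t / (t - 1)) (fun x => x / (x - 1)) ?_ ?_ ?_ ?_ ?_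
  · intro t ht
    rw [mem_erase] at ht ⊢
    refine ⟨?_, mem_univ _⟩
    have h1 : t - 1 ≠ 0 := sub_ne_zero.2 ht.1
    intro h
    rw [div_eq_one_iff_eq h1] at h
    have : (1 : ZMod p) = 0 := by linear_combination h
    exact one_ne_zero this
  · intro t ht
    rw [mem_erase] at ht ⊢
    refine ⟨?_, mem_univ _⟩
    have h1 : t - 1 ≠ 0 := sub_ne_zero.2 ht.1
    intro h
    rw [div_eq_one_iff_eq h1] at h
    have : (1 : ZMod p) = 0 := by linear_combination h
    exact one_ne_zero this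
  · intro t ht
    rw [mem_erase] at ht
    have h1 : t - 1 ≠ 0 := sub_ne_zero.2 ht.1
    have h2 : t / (t - 1) - 1 = 1 / (t - 1) := by field_simp; ring
    rw [h2]
    field_simp
  · intro t ht
    rw [mem_erase] at ht
    have h1 : t - 1 ≠ 0 := sub_ne_zero.2 ht.1
    have h2 : t / (t - 1) - 1 = 1 / (t - 1) := by field_simp; ring
    rw [h2]
    field_simp
  · intro t ht
    rw [mem_erase] at ht
    have h1 : 1 - t ≠ 0 := sub_ne_zero.2 (Ne.symm ht.1)
    have e1 : t / (t - 1) = (-1) * (t * (1 - t)⁻¹) := by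
      have : t - 1 ≠ 0 := sub_ne_zero.2 ht.1
      field_simp
      ring
    have e2 : 1 - t / (t - 1) = (1 - t)⁻¹ := by
      have : t - 1 ≠ 0 := sub_ne_zero.2 ht.1
      field_simp
      ring
    rw [e2, e1, map_mul, map_mul]
    have e3 : ∀ χ : MulChar (ZMod p) ℂ, χ (1 - t)⁻¹ = χ⁻¹ (1 - t) := by
      intro χ
      rw [MulChar.inv_apply']
    rw [e3 α, e3 β, mul_inv, MulChar.mul_apply]
    ring

/-- the number of square roots through a character of order two -/
lemma card_sqrts (ρ : MulChar (ZMod p) ℂ) (hp2 : p ≠ 2) (h1 : ρ ≠ 1) (h2 : ρ ^ 2 = 1)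
    (a : ZMod p) : (((univ.filter fun w : ZMod p => w ^ 2 = a).card : ℕ) : ℂ) = 1 + ρ a := by
  classical
  have hchar : ringChar (ZMod p) ≠ 2 := by rwa [ZMod.ringChar_zmod_n]
  have hcount := quadraticChar_card_sqrts (F := ZMod p) hchar a
  have hset : ({x : ZMod p | x ^ 2 = a}.toFinset) = univ.filter fun w : ZMod p => w ^ 2 = a := by
    ext x; simp
  rw [hset] at hcount
  have hsq : ∀ w : ZMod p, w ≠ 0 → ρ (w ^ 2) = 1 := by
    intro w hw
    rw [map_pow, ← MulChar.pow_apply' ρ (by norm_num : (2 : ℕ) ≠ 0), h2]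
    exact MulChar.one_apply (IsUnit.mk0 w hw)
  have hval : ∀ a : ZMod p, a ≠ 0 → ρ a = 1 ∨ ρ a = -1 := by
    intro a ha
    have := hsq a ha
    rw [map_pow] at this
    exact mul_self_eq_one_iff.1 (by rwa [← sq])
  have hqc : ρ a = ((quadraticChar (ZMod p) a : ℤ) : ℂ) := by
    by_cases ha : a = 0
    · rw [ha, MulChar.map_zero, MulChar.map_zero]; norm_num
    · rcases quadraticChar_dichotomy ha with h | h
      · rw [h]
        obtain ⟨w, hw⟩ := (quadraticChar_one_iff_isSquare ha).1 h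
        have hw0 : w ≠ 0 := by
          rintro rfl
          rw [mul_zero] at hw; exact ha hw
        rw [hw, ← sq, hsq w hw0]; norm_num
      · rw [h]
        obtain ⟨x, hx⟩ : ∃ x : (ZMod p)ˣ, ρ x ≠ 1 := MulChar.ne_one_iff.1 h1
        have hx0 : (x : ZMod p) ≠ 0 := x.ne_zero
        have hx1 : ρ x = -1 := (hval _ hx0).resolve_left hx
        have hqx : quadraticChar (ZMod p) (x : ZMod p) = -1 := by
          rcases quadraticChar_dichotomy hx0 with h' | h'
          · exfalso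
            obtain ⟨w, hw⟩ := (quadraticChar_one_iff_isSquare hx0).1 h'
            have hw0 : w ≠ 0 := by
              rintro rfl
              rw [mul_zero] at hw; exact hx0 hw
            apply hx
            rw [hw, ← sq, hsq w hw0]
          · exact h'
        have hax : quadraticChar (ZMod p) (a * x) = 1 := by
          rw [map_mul, h, hqx]; norm_num
        obtain ⟨w, hw⟩ := (quadraticChar_one_iff_isSquare (mul_ne_zero ha hx0)).1 hax
        have hw0 : w ≠ 0 := by
          rintro rfl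
          rw [mul_zero] at hw; exact mul_ne_zero ha hx0 hw
        have h3 : ρ (a * x) = 1 := by rw [hw, ← sq, hsq w hw0]
        rw [map_mul, hx1] at h3
        push_cast
        linear_combination -h3
  rw [hqc]
  have : (((univ.filter fun w : ZMod p => w ^ 2 = a).card : ℤ) : ℂ) =
      ((quadraticChar (ZMod p) a + 1 : ℤ) : ℂ) := by rw [hcount]
  push_cast at this ⊢
  rw [this]; ring

/-- `J(ψ, ψ) = ψ⁻¹(4) J(ρ, ψ)` for `ρ` of order two -/
lemma jac_quad (ψ ρ : MulChar (ZMod p) ℂ) (hp2 : p ≠ 2) (hψ : ψ ≠ 1) (h1 : ρ ≠ 1)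
    (h2 : ρ ^ 2 = 1) : jacobiSum ψ ψ = ψ⁻¹ 4 * jacobiSum ρ ψ := by
  classical
  have hchar : ringChar (ZMod p) ≠ 2 := by rwa [ZMod.ringChar_zmod_n]
  have h20 : (2 : ZMod p) ≠ 0 := Ring.two_ne_zero hchar
  have h40 : (4 : ZMod p) ≠ 0 := by
    have : (4 : ZMod p) = 2 * 2 := by norm_num
    rw [this]; exact mul_ne_zero h20 h20
  unfold jacobiSum
  have e1 : ∑ x : ZMod p, ψ x * ψ (1 - x) = ∑ w : ZMod p, ψ⁻¹ 4 * ψ (1 - w ^ 2) := by
    refine Finset.sum_nbij' (fun x => 1 - 2 * x) (fun w => (1 - w) / 2) ?_ ?_ ?_ ?_ ?_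
    · intro _ _; exact mem_univ _
    · intro _ _; exact mem_univ _
    · intro x _; field_simp; ring
    · intro w _; field_simp; ring
    · intro x _
      have : 1 - (1 - 2 * x) ^ 2 = 4 * (x * (1 - x)) := by ring
      rw [this, map_mul, map_mul, ← mul_assoc]
      have e : ψ⁻¹ (4 : ZMod p) * ψ 4 = 1 := by
        rw [← MulChar.mul_apply, inv_mul_cancel]
        exact MulChar.one_apply (IsUnit.mk0 _ h40)
      rw [e, one_mul]
  rw [e1, ← mul_sum]
  congr 1
  have e2 : ∑ w : ZMod p, ψ (1 - w ^ 2) =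
      ∑ a : ZMod p, ∑ w ∈ univ.filter (fun w : ZMod p => w ^ 2 = a), ψ (1 - a) := by
    rw [← Finset.sum_fiberwise_of_maps_to (s := univ) (t := univ) (g := fun w : ZMod p => w ^ 2)
      (fun _ _ => mem_univ _)]
    apply sum_congr rfl
    intro a _
    apply sum_congr rfl
    intro w hw
    rw [mem_filter] at hw
    rw [hw.2]
  rw [e2]
  have e3 : ∀ a : ZMod p, ∑ w ∈ univ.filter (fun w : ZMod p => w ^ 2 = a), ψ (1 - a) =
      ψ (1 - a) + ρ a * ψ (1 - a) := by
    intro a
    rw [sum_const, nsmul_eq_mul, card_sqrts ρ hp2 h1 h2 a]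
    ring
  rw [sum_congr rfl fun a _ => e3 a, sum_add_distrib]
  have e4 : ∑ a : ZMod p, ψ (1 - a) = 0 := by
    rw [← MulChar.sum_eq_zero_of_ne_one hψ]
    exact Equiv.sum_comp (Equiv.subLeft (1 : ZMod p)) fun a => ψ a
  rw [e4, zero_add]

end Pool.Agent.Lib.MP42b82d
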