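import Pool.Agent.Lib.MP_42b82d_co.H78Split

/-!
# The split torus: all lines have large margins
-/

set_option autoImplicit false
open Finset

namespace Pool.Agent.Lib.MP42b82d

variable {p : ℕ} [hp : Fact p.Prime]

lemma fP_mk (c : ZMod p → ZMod 6) (F : ZMod 3 → ZMod 6 → ℤ) (m : ZMod 6 → ℤ) (x y z : ZMod p) :
    fP c F m ![x, y, z] = if z = 0 ∨ y = 0 then 1
      else if x = 0 then m (c (y / z)) else F (red3 (c (4 * (x / z)))) (c (y / z)) := rfl

lemma vec_comb (x y z x' y' z' s : ZMod p) :
    (![x, y, z] : Fin 3 → ZMod p) + s • ![x', y', z'] = ![x + s * x', y + s * y', z + s * z'] := by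
  ext i
  fin_cases i <;> rfl

lemma vec_ext {w : Fin 3 → ZMod p} {x y z : ZMod p} (h0 : w 0 = x) (h1 : w 1 = y) (h2 : w 2 = z) :
    w = ![x, y, z] := by
  ext i
  fin_cases i
  · exact h0
  · exact h1
  · exact h2

lemma vec_comb2 (x y z x' y' z' s t : ZMod p) :
    s • (![x, y, z] : Fin 3 → ZMod p) + t • ![x', y', z'] =
      ![s * x + t * x', s * y + t * y', s * z + t * z'] := by
  ext i
  fin_cases i <;> rfl

lemma vec_eq_zero {x y z : ZMod p} (h : (![x, y, z] : Fin 3 → ZMod p) = 0) :
    x = 0 ∧ y = 0 ∧ z = 0 :=
  ⟨congrFun h 0, congrFun h 1, congrFun h 2⟩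

lemma sum_erase_zero (g : ZMod p → ℤ) :
    ∑ s : ZMod p, g s = g 0 + ∑ s ∈ univ.erase (0 : ZMod p), g s := by
  rw [add_comm, sum_erase_add _ _ (mem_univ _)]

lemma sum_TS (g : ZMod p → ℤ) :
    ∑ s : ZMod p, g s = g 0 + g (-1) + ∑ s ∈ TS p, g s := by
  classical
  have h1 : (-1 : ZMod p) ≠ 0 := neg_ne_zero.2 one_ne_zero
  have h2 : (univ.erase (0 : ZMod p)).erase (-1) = TS p := by
    ext x
    unfold TS
    simp only [mem_erase, mem_filter, mem_univ, true_and, and_true, ne_eq]
    constructor
    · rintro ⟨a, b⟩
      refine ⟨b, fun h => a ?_⟩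
      linear_combination -h
    · rintro ⟨a, b⟩
      refine ⟨fun h => b ?_, a⟩
      rw [h]; ring
  rw [sum_erase_zero, ← sum_erase_add (univ.erase (0 : ZMod p)) g
    (mem_erase.2 ⟨h1, mem_univ (-1 : ZMod p)⟩), h2]
  ring

theorem line_margin {c : ZMod p → ZMod 6} (hp13 : 13 ≤ p)
    (hc : ∀ x y, x ≠ 0 → y ≠ 0 → c (x * y) = c x + c y) (hr : ∃ r, r ≠ 0 ∧ c r = 1)
    {F G : ZMod 3 → ZMod 6 → ℤ} (hF : ∀ u v, F u (v + 3) = -F u v)
    (hG : ∀ u v, G u (v + 3) = -G u v)
    (hF1 : ∀ u v, F u v = 1 ∨ F u v = -1) (hG1 : ∀ u v, G u v = 1 ∨ G u v = -1)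
    (hreg : ∀ a b, 5 ≤ G a b * marg (DD c) F a b) (a : Fin 3 → ZMod p) (ha : a ≠ 0) :
    2 * 1 * ((p : ℤ) - 1) ≤ fP c G (maj F (c (-1))) a *
      ∑ w ∈ univ.filter (fun w => w ≠ 0 ∧ dotB p a w = 0), fP c F (maj G (c (-1))) w := by
  classical
  have hp' : (13 : ℤ) ≤ (p : ℤ) := by exact_mod_cast hp13
  have hm1 : (-1 : ZMod p) ≠ 0 := neg_ne_zero.2 one_ne_zero
  have h20 : (2 : ZMod p) ≠ 0 := by
    intro h
    have h1 : ((2 : ℕ) : ZMod p) = 0 := by exact_mod_cast h
    rw [ZMod.natCast_eq_zero_iff] at h1
    have := Nat.le_of_dvd (by norm_num) h1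
    omega
  have h40 : (4 : ZMod p) ≠ 0 := by
    have e : (4 : ZMod p) = 2 * 2 := by norm_num
    rw [e]; exact mul_ne_zero h20 h20
  set mP := maj G (c (-1)) with hmP
  set mL := maj F (c (-1)) with hmL
  have hmP1 : ∀ v, mP v = 1 ∨ mP v = -1 := fun v => maj_pm _ _
  have hmPn : ∀ v, mP (v + 3) = -mP v := fun v => maj_neg hG hG1 _ v
  set P := fP c F mP with hPdef
  have hPs : ∀ (k : ZMod p) (x : Fin 3 → ZMod p), k ≠ 0 → x ≠ 0 → P (k • x) = P x :=
    fun k x hk _ => fP_smul c F mP k x hk
  obtain ⟨α, hα⟩ : ∃ α, α = a 0 := ⟨_, rfl⟩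
  obtain ⟨β, hβ⟩ : ∃ β, β = a 1 := ⟨_, rfl⟩
  obtain ⟨γ, hγ⟩ : ∃ γ, γ = a 2 := ⟨_, rfl⟩
  have haeq : a = ![α, β, γ] := vec_ext hα.symm hβ.symm hγ.symm
  have hB : ∀ x y z, dotB p a ![x, y, z] = α * x + β * y + γ * z := by
    intro x y z
    rw [dotB_apply, hα, hβ, hγ]
    rfl
  have hBw : ∀ w, dotB p a w = α * w 0 + β * w 1 + γ * w 2 := by
    intro w
    rw [dotB_apply, hα, hβ, hγ]
  -- reduction to the projective sum
  have key : ∀ T : ℤ, ∑ w ∈ univ.filter (fun w => w ≠ 0 ∧ dotB p a w = 0), P w =
      ((p : ℤ) - 1) * T → 2 ≤ fP c G mL a * T → 2 * 1 * ((p : ℤ) - 1) ≤ fP c G mL a *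
      ∑ w ∈ univ.filter (fun w => w ≠ 0 ∧ dotB p a w = 0), P w := by
    intro T h1 h2
    rw [h1]
    have h3 : 2 * ((p : ℤ) - 1) ≤ (fP c G mL a * T) * ((p : ℤ) - 1) :=
      mul_le_mul_of_nonneg_right h2 (by linarith)
    linarith
  by_cases hγ0 : γ = 0
  · -- lines through `(0 : 0 : 1)`
    have hLa : fP c G mL a = 1 := by
      rw [haeq, fP_mk, if_pos (Or.inl hγ0)]
    by_cases hα0 : α = 0
    · have hβ0 : β ≠ 0 := by
        intro h
        apply ha
        rw [haeq, hα0, h, hγ0]
        ext i
        fin_cases i <;> rfl
      have hs := plane_sum (dotB p) a ![0, 0, 1] ![1, 0, 0] (by rw [hB, hγ0]; ring)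
        (by rw [hB, hα0]; ring)
        (by
          intro s t h
          rw [vec_comb2] at h
          obtain ⟨h1, h2, h3⟩ := vec_eq_zero h
          exact ⟨by linear_combination h3, by linear_combination h1⟩)
        (by
          intro w hw
          rw [hBw, hα0, hγ0] at hw
          have h1 : w 1 = 0 := by
            have : β * w 1 = 0 := by linear_combination hw
            exact (mul_eq_zero.1 this).resolve_left hβ0
          refine ⟨w 2, w 0, ?_⟩
          rw [vec_comb2]
          exact vec_ext (by ring) (by rw [h1]; ring) (by ring))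
        P hPs
      refine key _ hs ?_
      rw [hLa, one_mul]
      have h1 : P ![1, 0, 0] = 1 := by rw [hPdef, fP_mk, if_pos (Or.inl rfl)]
      have h2 : ∀ s : ZMod p, P (![0, 0, 1] + s • ![1, 0, 0]) = 1 := by
        intro s
        rw [vec_comb, hPdef, fP_mk, if_pos]
        right; ring
      rw [h1, sum_congr rfl fun s _ => h2 s, sum_const, card_univ, ZMod.card, nsmul_eq_mul]
      linarith
    · by_cases hβ0 : β = 0
      · have hs := plane_sum (dotB p) a ![0, 0, 1] ![0, 1, 0] (by rw [hB, hγ0]; ring)
          (by rw [hB, hβ0]; ring)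
          (by
            intro s t h
            rw [vec_comb2] at h
            obtain ⟨h1, h2, h3⟩ := vec_eq_zero h
            exact ⟨by linear_combination h3, by linear_combination h2⟩)
          (by
            intro w hw
            rw [hBw, hβ0, hγ0] at hw
            have h1 : w 0 = 0 := by
              have : α * w 0 = 0 := by linear_combination hw
              exact (mul_eq_zero.1 this).resolve_left hα0
            refine ⟨w 2, w 1, ?_⟩
            rw [vec_comb2]
            exact vec_ext (by rw [h1]; ring) (by ring) (by ring))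
          P hPs
        refine key _ hs ?_
        rw [hLa, one_mul]
        have h1 : P ![0, 1, 0] = 1 := by rw [hPdef, fP_mk, if_pos (Or.inl rfl)]
        have h2 : P (![0, 0, 1] + (0 : ZMod p) • ![0, 1, 0]) = 1 := by
          rw [vec_comb, hPdef, fP_mk, if_pos]
          right; ring
        have h3 : ∑ s ∈ univ.erase (0 : ZMod p), P (![0, 0, 1] + s • ![0, 1, 0]) = 0 := by
          have h4 : ∀ s ∈ univ.erase (0 : ZMod p), P (![0, 0, 1] + s • ![0, 1, 0]) =
              mP (c s) := by
            intro s hs
            have hs0 := ne_of_mem_erase hs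
            rw [vec_comb, hPdef, fP_mk, if_neg, if_pos (by ring)]
            · congr 2
              rw [zero_add, mul_one, mul_zero, add_zero, div_one]
            · rw [mul_zero, add_zero, zero_add, mul_one]
              rintro (h | h)
              · exact one_ne_zero h
              · exact hs0 h
          rw [sum_congr rfl h4]
          apply sum_odd hc hr
          intro r x hr0 hx0 hr3
          rw [hc r x hr0 hx0, hr3, add_comm, hmPn]
        rw [h1, sum_erase_zero, h2, h3]
        norm_num
      · have hs := plane_sum (dotB p) a ![-β / α, 1, 0] ![0, 0, 1]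
          (by rw [hB]; field_simp; ring)
          (by rw [hB, hγ0]; ring)
          (by
            intro s t h
            rw [vec_comb2] at h
            obtain ⟨h1, h2, h3⟩ := vec_eq_zero h
            exact ⟨by linear_combination h2, by linear_combination h3⟩)
          (by
            intro w hw
            rw [hBw, hγ0] at hw
            refine ⟨w 1, w 2, ?_⟩
            rw [vec_comb2]
            refine vec_ext ?_ (by ring) (by ring)
            field_simp
            linear_combination hw)
          P hPs
        refine key _ hs ?_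
        rw [hLa, one_mul]
        have h1 : P ![0, 0, 1] = 1 := by rw [hPdef, fP_mk, if_pos (Or.inr rfl)]
        have h2 : P (![-β / α, 1, 0] + (0 : ZMod p) • ![0, 0, 1]) = 1 := by
          rw [vec_comb, hPdef, fP_mk, if_pos]
          left; ring
        have hβα : -β / α ≠ 0 := div_ne_zero (neg_ne_zero.2 hβ0) hα0
        have h3 : ∑ s ∈ univ.erase (0 : ZMod p), P (![-β / α, 1, 0] + s • ![0, 0, 1]) = 0 := by
          have h4 : ∀ s ∈ univ.erase (0 : ZMod p), P (![-β / α, 1, 0] + s • ![0, 0, 1]) =
              F (red3 (c (4 * (-β / α / s)))) (c (1 / s)) := by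
            intro s hs
            have hs0 := ne_of_mem_erase hs
            have e1 : -β / α + s * 0 = -β / α := by ring
            have e2 : (1 : ZMod p) + s * 0 = 1 := by ring
            have e3 : 0 + s * 1 = s := by ring
            rw [vec_comb, hPdef, fP_mk, e1, e2, e3, if_neg, if_neg hβα]
            rintro (h | h)
            · exact hs0 h
            · exact one_ne_zero h
          rw [sum_congr rfl h4]
          apply sum_odd hc hr
          intro r x hr0 hx0 hr3
          have hy0 : 4 * (-β / α / x) ≠ 0 := mul_ne_zero h40 (div_ne_zero hβα hx0)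
          have e1 : 4 * (-β / α / (r * x)) = 4 * (-β / α / x) / r := by
            field_simp
          have e2 : 1 / (r * x) = 1 / x / r := by
            field_simp
          have e3 : red3 (c (4 * (-β / α / x) / r)) = red3 (c (4 * (-β / α / x))) := by
            rw [c_div hc hy0 hr0, hr3, map_sub]
            have : red3 3 = 0 := rfl
            rw [this, sub_zero]
          have e4 : c (1 / x / r) = c (1 / x) + 3 := by
            rw [c_div hc (one_div_ne_zero hx0) hr0, hr3]
            have h6 : (6 : ZMod 6) = 0 := rfl
            linear_combination (-1 : ZMod 6) * h6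
          rw [e1, e2, e3, e4, hF]
        rw [h1, sum_erase_zero, h2, h3]
        norm_num
  · by_cases hβ0 : β = 0
    · have hLa : fP c G mL a = 1 := by
        rw [haeq, fP_mk, if_pos (Or.inr hβ0)]
      by_cases hα0 : α = 0
      · have hs := plane_sum (dotB p) a ![0, 1, 0] ![1, 0, 0] (by rw [hB, hβ0]; ring)
          (by rw [hB, hα0]; ring)
          (by
            intro s t h
            rw [vec_comb2] at h
            obtain ⟨h1, h2, h3⟩ := vec_eq_zero h
            exact ⟨by linear_combination h2, by linear_combination h1⟩)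
          (by
            intro w hw
            rw [hBw, hα0, hβ0] at hw
            have h1 : w 2 = 0 := by
              have : γ * w 2 = 0 := by linear_combination hw
              exact (mul_eq_zero.1 this).resolve_left hγ0
            refine ⟨w 1, w 0, ?_⟩
            rw [vec_comb2]
            exact vec_ext (by ring) (by ring) (by rw [h1]; ring))
          P hPs
        refine key _ hs ?_
        rw [hLa, one_mul]
        have h1 : P ![1, 0, 0] = 1 := by rw [hPdef, fP_mk, if_pos (Or.inl rfl)]
        have h2 : ∀ s : ZMod p, P (![0, 1, 0] + s • ![1, 0, 0]) = 1 := by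
          intro s
          rw [vec_comb, hPdef, fP_mk, if_pos]
          left; ring
        rw [h1, sum_congr rfl fun s _ => h2 s, sum_const, card_univ, ZMod.card, nsmul_eq_mul]
        linarith
      · have hs := plane_sum (dotB p) a ![-γ / α, 0, 1] ![0, 1, 0]
          (by rw [hB]; field_simp; ring)
          (by rw [hB, hβ0]; ring)
          (by
            intro s t h
            rw [vec_comb2] at h
            obtain ⟨h1, h2, h3⟩ := vec_eq_zero h
            exact ⟨by linear_combination h3, by linear_combination h2⟩)
          (by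
            intro w hw
            rw [hBw, hβ0] at hw
            refine ⟨w 2, w 1, ?_⟩
            rw [vec_comb2]
            refine vec_ext ?_ (by ring) (by ring)
            field_simp
            linear_combination hw)
          P hPs
        refine key _ hs ?_
        rw [hLa, one_mul]
        have h1 : P ![0, 1, 0] = 1 := by rw [hPdef, fP_mk, if_pos (Or.inl rfl)]
        have h2 : P (![-γ / α, 0, 1] + (0 : ZMod p) • ![0, 1, 0]) = 1 := by
          rw [vec_comb, hPdef, fP_mk, if_pos]
          right; ring
        have hγα : -γ / α ≠ 0 := div_ne_zero (neg_ne_zero.2 hγ0) hα0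
        have h3 : ∑ s ∈ univ.erase (0 : ZMod p), P (![-γ / α, 0, 1] + s • ![0, 1, 0]) = 0 := by
          have h4 : ∀ s ∈ univ.erase (0 : ZMod p), P (![-γ / α, 0, 1] + s • ![0, 1, 0]) =
              F (red3 (c (4 * (-γ / α)))) (c s) := by
            intro s hs
            have hs0 := ne_of_mem_erase hs
            have e1 : -γ / α + s * 0 = -γ / α := by ring
            have e2 : (1 : ZMod p) + s * 0 = 1 := by ring
            have e3 : 0 + s * 1 = s := by ring
            rw [vec_comb, hPdef, fP_mk, e1, e2, e3, if_neg, if_neg hγα, div_one, div_one]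
            rintro (h | h)
            · exact one_ne_zero h
            · exact hs0 h
          rw [sum_congr rfl h4]
          apply sum_odd hc hr
          intro r x hr0 hx0 hr3
          rw [hc r x hr0 hx0, hr3, add_comm, hF]
        rw [h1, sum_erase_zero, h2, h3]
        norm_num
    · by_cases hα0 : α = 0
      · have hγβ : -γ / β ≠ 0 := div_ne_zero (neg_ne_zero.2 hγ0) hβ0
        have hβγ : β / γ ≠ 0 := div_ne_zero hβ0 hγ0
        have hLa : fP c G mL a = mL (c (β / γ)) := by
          rw [haeq, fP_mk, if_neg (by tauto), if_pos hα0]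
        have hs := plane_sum (dotB p) a ![0, -γ / β, 1] ![1, 0, 0]
          (by rw [hB, hα0]; field_simp; ring)
          (by rw [hB, hα0]; ring)
          (by
            intro s t h
            rw [vec_comb2] at h
            obtain ⟨h1, h2, h3⟩ := vec_eq_zero h
            exact ⟨by linear_combination h3, by linear_combination h1⟩)
          (by
            intro w hw
            rw [hBw, hα0] at hw
            refine ⟨w 2, w 0, ?_⟩
            rw [vec_comb2]
            refine vec_ext (by ring) ?_ (by ring)
            field_simp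
            linear_combination hw)
          P hPs
        refine key _ hs ?_
        have h1 : P ![1, 0, 0] = 1 := by rw [hPdef, fP_mk, if_pos (Or.inl rfl)]
        have hk : c (-γ / β) = c (-1) - c (β / γ) := by
          rw [← c_div hc hm1 hβγ]
          congr 1
          field_simp
        have h2 : P (![0, -γ / β, 1] + (0 : ZMod p) • ![1, 0, 0]) = mP (c (-1) - c (β / γ)) := by
          have e1 : (0 : ZMod p) + 0 * 1 = 0 := by ring
          have e2 : -γ / β + 0 * 0 = -γ / β := by ring
          have e3 : (1 : ZMod p) + 0 * 0 = 1 := by ring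
          rw [vec_comb, hPdef, fP_mk, e1, e2, e3, if_neg, if_pos rfl, div_one, hk]
          rintro (h | h)
          · exact one_ne_zero h
          · exact hγβ h
        have h3 : 3 * ∑ s ∈ univ.erase (0 : ZMod p), P (![0, -γ / β, 1] + s • ![1, 0, 0]) =
            ((p : ℤ) - 1) * colS F (c (-1) - c (β / γ)) := by
          have h4 : ∀ s ∈ univ.erase (0 : ZMod p), P (![0, -γ / β, 1] + s • ![1, 0, 0]) =
              (fun u => F u (c (-1) - c (β / γ))) (red3 (c (4 * s))) := by
            intro s hs
            have hs0 := ne_of_mem_erase hs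
            have e1 : 0 + s * 1 = s := by ring
            have e2 : -γ / β + s * 0 = -γ / β := by ring
            have e3 : (1 : ZMod p) + s * 0 = 1 := by ring
            rw [vec_comb, hPdef, fP_mk, e1, e2, e3, if_neg, if_neg hs0, div_one, div_one, hk]
            rintro (h | h)
            · exact one_ne_zero h
            · exact hγβ h
          rw [sum_congr rfl h4]
          exact sum_third hc hr (fun u => F u (c (-1) - c (β / γ))) 4 h40
        have h5 := maj_mul hF1 (c (-1)) (c (β / γ))
        rw [← hmL] at h5
        rw [hLa, h1, sum_erase_zero, h2]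
        set T := ∑ s ∈ univ.erase (0 : ZMod p), P (![0, -γ / β, 1] + s • ![1, 0, 0]) with hT
        have h6 : ((p : ℤ) - 1) * 1 ≤ ((p : ℤ) - 1) *
            (mL (c (β / γ)) * colS F (c (-1) - c (β / γ))) :=
          mul_le_mul_of_nonneg_left h5 (by linarith)
        have h7 : 3 * (mL (c (β / γ)) * T) = ((p : ℤ) - 1) *
            (mL (c (β / γ)) * colS F (c (-1) - c (β / γ))) := by
          linear_combination mL (c (β / γ)) * h3
        have h8 : 4 ≤ mL (c (β / γ)) * T := by
          rw [← h7] at h6
          omega
        rcases hmP1 (c (-1) - c (β / γ)) with h9 | h9 <;>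
          rcases (maj_pm (F := F) (c (-1)) (c (β / γ))) with h10 | h10 <;>
          rw [← hmL] at h10 <;> rw [h10] at h8 ⊢ <;> rw [h9] <;> linarith
      · -- regular lines
        have hLa : fP c G mL a = G (red3 (c (4 * (α / γ)))) (c (β / γ)) := by
          rw [haeq, fP_mk, if_neg (by tauto), if_neg hα0]
        have hγα : γ / α ≠ 0 := div_ne_zero hγ0 hα0
        have hαγ : α / γ ≠ 0 := div_ne_zero hα0 hγ0
        have hβγ : β / γ ≠ 0 := div_ne_zero hβ0 hγ0
        have hγβ : γ / β ≠ 0 := div_ne_zero hγ0 hβ0
        have hs := plane_sum (dotB p) a ![0, -(γ / β), 1] ![γ / α, -(γ / β), 0]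
          (by rw [hB]; field_simp; ring)
          (by rw [hB]; field_simp; ring)
          (by
            intro s t h
            rw [vec_comb2] at h
            obtain ⟨h1, h2, h3⟩ := vec_eq_zero h
            refine ⟨by linear_combination h3, ?_⟩
            have h4 : t * (γ / α) = 0 := by linear_combination h1
            exact (mul_eq_zero.1 h4).resolve_right hγα)
          (by
            intro w hw
            rw [hBw] at hw
            refine ⟨w 2, α * w 0 / γ, ?_⟩
            rw [vec_comb2]
            refine vec_ext ?_ ?_ (by ring)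
            · field_simp; ring
            · field_simp
              linear_combination hw)
          P hPs
        refine key _ hs ?_
        have h1 : P ![γ / α, -(γ / β), 0] = 1 := by rw [hPdef, fP_mk, if_pos (Or.inl rfl)]
        obtain ⟨x, hx⟩ : ∃ x, x = P (![0, -(γ / β), 1] + (0 : ZMod p) • ![γ / α, -(γ / β), 0]) :=
          ⟨_, rfl⟩
        have hx1 : x = 1 ∨ x = -1 := by
          rw [hx]; exact fP_pm hF1 hmP1 c _
        have h2 : P (![0, -(γ / β), 1] + (-1 : ZMod p) • ![γ / α, -(γ / β), 0]) = 1 := by
          rw [vec_comb, hPdef, fP_mk, if_pos]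
          right; ring
        have h8 : c 8 = c 2 + c 2 + c 2 := by
          have e : (8 : ZMod p) = 2 * 2 * 2 := by norm_num
          rw [e, hc _ _ (mul_ne_zero h20 h20) h20, hc _ _ h20 h20]
        have hred : red3 (c (2 * (γ / α))) = -red3 (c (4 * (α / γ))) := by
          have e : c (2 * (γ / α)) + c (4 * (α / γ)) = c 8 := by
            rw [← hc _ _ (mul_ne_zero h20 hγα) (mul_ne_zero h40 hαγ)]
            congr 1
            field_simp
            norm_num
          have e2 : red3 (c (2 * (γ / α))) + red3 (c (4 * (α / γ))) = 0 := by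
            rw [← map_add, e, h8, map_add, map_add]
            generalize red3 (c 2) = k
            revert k; decide
          linear_combination e2
        have h3 : ∑ s ∈ TS p, P (![0, -(γ / β), 1] + s • ![γ / α, -(γ / β), 0]) =
            marg (DD c) F (red3 (c (4 * (α / γ)))) (c (β / γ)) := by
          have h4 : ∀ s ∈ TS p, P (![0, -(γ / β), 1] + s • ![γ / α, -(γ / β), 0]) =
              (fun u v => F (u - red3 (c (4 * (α / γ)))) (v - c (β / γ)))
                (red3 (c (2 * s))) (c (-1 - s)) := by
            intro s hs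
            unfold TS at hs
            rw [mem_filter] at hs
            obtain ⟨_, hs0, hs1⟩ := hs
            have e1 : 0 + s * (γ / α) = s * (γ / α) := by ring
            have e2 : -(γ / β) + s * -(γ / β) = (-1 - s) * (γ / β) := by ring
            have e3 : (1 : ZMod p) + s * 0 = 1 := by ring
            rw [vec_comb, hPdef, fP_mk, e1, e2, e3, if_neg, if_neg (mul_ne_zero hs0 hγα),
              div_one, div_one]
            · have e4 : 4 * (s * (γ / α)) = (2 * s) * (2 * (γ / α)) := by ring
              have e5 : c (γ / β) = -c (β / γ) := by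
                rw [← c_inv hc hβγ]
                congr 1
                rw [inv_div]
              simp only
              rw [e4, hc _ _ (mul_ne_zero h20 hs0) (mul_ne_zero h20 hγα), map_add, hred,
                hc _ _ hs1 hγβ, e5, ← sub_eq_add_neg, ← sub_eq_add_neg]
            · rintro (h | h)
              · exact one_ne_zero h
              · exact (mul_ne_zero hs1 hγβ) h
          rw [sum_congr rfl h4, expand c (fun u v =>
            F (u - red3 (c (4 * (α / γ)))) (v - c (β / γ)))]
          · unfold marg
            apply sum_congr rfl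
            intro u _
            apply sum_congr rfl
            intro v _
            rw [zsmul_eq_mul]
            push_cast
            rfl
          · intro u v
            have e : v + 3 - c (β / γ) = (v - c (β / γ)) + 3 := by ring
            rw [e, hF]
        have h5 := hreg (red3 (c (4 * (α / γ)))) (c (β / γ))
        rw [hLa, h1, sum_TS, ← hx, h2, h3]
        rcases hG1 (red3 (c (4 * (α / γ)))) (c (β / γ)) with h6 | h6 <;> rw [h6] at h5 ⊢ <;>
          rcases hx1 with h7 | h7 <;> rw [h7] <;> linarith

end Pool.Agent.Lib.MP42b82d
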