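import Pool.Agent.Lib.MP_42b82d_co.H78Red

/-!
# Sums over the vectors of a plane
-/

set_option autoImplicit false
open Finset

namespace Pool.Agent.Lib.MP42b82d

variable {p : ℕ} [hp : Fact p.Prime]

/-- the sum of a scaling invariant function over the nonzero vectors of a plane -/
lemma plane_sum (B : (Fin 3 → ZMod p) →ₗ[ZMod p] (Fin 3 → ZMod p) →ₗ[ZMod p] ZMod p)
    (a u v : Fin 3 → ZMod p) (hu : B a u = 0) (hv : B a v = 0)
    (hind : ∀ s t : ZMod p, s • u + t • v = 0 → s = 0 ∧ t = 0)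
    (hspan : ∀ w, B a w = 0 → ∃ s t : ZMod p, w = s • u + t • v)
    (f : (Fin 3 → ZMod p) → ℤ)
    (hf : ∀ (c : ZMod p) (x : Fin 3 → ZMod p), c ≠ 0 → x ≠ 0 → f (c • x) = f x) :
    ∑ w ∈ univ.filter (fun w => w ≠ 0 ∧ B a w = 0), f w =
      ((p : ℤ) - 1) * (f v + ∑ s : ZMod p, f (u + s • v)) := by
  classical
  have hp1 : ((univ.erase (0 : ZMod p)).card : ℤ) = (p : ℤ) - 1 := by
    rw [card_erase_of_mem (mem_univ _), card_univ, ZMod.card, Nat.cast_sub hp.out.one_lt.le]
    norm_num
  have hv0 : v ≠ 0 := by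
    intro h
    have h1 := (hind 0 1 (by rw [h]; simp)).2
    exact one_ne_zero h1
  have huv : ∀ t : ZMod p, u + t • v ≠ 0 := by
    intro t h
    have h1 := (hind 1 t (by rw [one_smul]; exact h)).1
    exact one_ne_zero h1
  set S1 : Finset (Fin 3 → ZMod p) :=
    ((univ.erase (0 : ZMod p)) ×ˢ (univ : Finset (ZMod p))).image
      fun st => st.1 • (u + st.2 • v) with hS1
  set S2 : Finset (Fin 3 → ZMod p) := (univ.erase (0 : ZMod p)).image fun t => t • v with hS2
  have hS : univ.filter (fun w => w ≠ 0 ∧ B a w = 0) = S1 ∪ S2 := by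
    ext w
    simp only [mem_filter, mem_univ, true_and, mem_union, hS1, hS2, mem_image, mem_product,
      mem_erase, ne_eq, and_true, Prod.exists]
    constructor
    · rintro ⟨hw0, hw⟩
      obtain ⟨s, t, rfl⟩ := hspan w hw
      by_cases hs : s = 0
      · right
        refine ⟨t, ?_, ?_⟩
        · rintro rfl
          apply hw0
          rw [hs, zero_smul, zero_smul, add_zero]
        · rw [hs, zero_smul, zero_add]
      · left
        refine ⟨s, s⁻¹ * t, hs, ?_⟩
        rw [smul_add, smul_smul, ← mul_assoc, mul_inv_cancel₀ hs, one_mul]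
    · rintro (⟨s, t, hs, rfl⟩ | ⟨t, ht, rfl⟩)
      · refine ⟨smul_ne_zero hs (huv t), ?_⟩
        rw [map_smul, map_add, map_smul, hu, hv, smul_zero, add_zero, smul_zero]
      · refine ⟨smul_ne_zero ht hv0, ?_⟩
        rw [map_smul, hv, smul_zero]
  have hdisj : Disjoint S1 S2 := by
    rw [disjoint_left]
    intro w h1 h2
    simp only [hS1, hS2, mem_image, mem_product, mem_erase, ne_eq, mem_univ, and_true,
      Prod.exists] at h1 h2
    obtain ⟨s, t, hs, rfl⟩ := h1
    obtain ⟨t', ht', h⟩ := h2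
    have h3 : s • u + (s * t - t') • v = 0 := by
      rw [sub_smul, h, smul_add, smul_smul]; abel
    exact hs (hind _ _ h3).1
  rw [hS, sum_union hdisj, hS1, hS2, sum_image, sum_image, sum_product]
  · have e1 : ∀ s ∈ univ.erase (0 : ZMod p), ∑ t : ZMod p, f ((s, t).1 • (u + (s, t).2 • v)) =
        ∑ t : ZMod p, f (u + t • v) := by
      intro s hs
      apply sum_congr rfl
      intro t _
      exact hf s _ (ne_of_mem_erase hs) (huv t)
    have e2 : ∀ t ∈ univ.erase (0 : ZMod p), f (t • v) = f v := by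
      intro t ht
      exact hf t v (ne_of_mem_erase ht) hv0
    rw [sum_congr rfl e1, sum_congr rfl e2, sum_const, sum_const, nsmul_eq_mul, nsmul_eq_mul, hp1]
    ring
  · intro t ht t' ht' h
    have h3 : (0 : ZMod p) • u + (t - t') • v = 0 := by
      rw [zero_smul, zero_add, sub_smul, sub_eq_zero]; exact h
    exact sub_eq_zero.1 (hind _ _ h3).2
  · rintro ⟨s, t⟩ hs ⟨s', t'⟩ hs' h
    simp only [coe_product, Set.mem_prod, mem_coe, mem_erase, ne_eq, mem_univ, and_true] at hs hs'
    simp only at h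
    have h3 : (s - s') • u + (s * t - s' * t') • v = 0 := by
      rw [sub_smul, sub_smul, mul_smul, mul_smul]
      rw [smul_add, smul_add] at h
      rw [← sub_eq_zero] at h
      rw [← h]; abel
    obtain ⟨h4, h5⟩ := hind _ _ h3
    have h6 : s = s' := sub_eq_zero.1 h4
    subst h6
    have h7 : t = t' := mul_left_cancel₀ hs (sub_eq_zero.1 h5)
    rw [h7]

/-- the dot product -/
def dotB (p : ℕ) : (Fin 3 → ZMod p) →ₗ[ZMod p] (Fin 3 → ZMod p) →ₗ[ZMod p] ZMod p :=
  LinearMap.mk₂ (ZMod p) (fun a w => a 0 * w 0 + a 1 * w 1 + a 2 * w 2)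
    (fun a b w => by simp only [Pi.add_apply]; ring)
    (fun c a w => by simp only [Pi.smul_apply, smul_eq_mul]; ring)
    (fun a w w' => by simp only [Pi.add_apply]; ring)
    (fun c a w => by simp only [Pi.smul_apply, smul_eq_mul]; ring)

lemma dotB_apply (a w : Fin 3 → ZMod p) :
    dotB p a w = a 0 * w 0 + a 1 * w 1 + a 2 * w 2 := rfl

lemma dotB_comm (a w : Fin 3 → ZMod p) : dotB p a w = dotB p w a := by
  rw [dotB_apply, dotB_apply]; ring

lemma dotB_sep (a : Fin 3 → ZMod p) (h : ∀ w, dotB p a w = 0) : a = 0 := by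
  ext i
  fin_cases i
  · have := h ![1, 0, 0]
    simpa [dotB_apply] using this
  · have := h ![0, 1, 0]
    simpa [dotB_apply] using this
  · have := h ![0, 0, 1]
    simpa [dotB_apply] using this

end Pool.Agent.Lib.MP42b82d
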