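import Pool.Agent.Lib.MP_42b82d_co.H78Defs

/-!
# Reduction of internal partitions of `PG(2, p)` to sign functions on vectors
-/

set_option autoImplicit false
open Finset

namespace Pool.Agent.Lib.MP42b82d

variable {p : ℕ} [hp : Fact p.Prime]

/-- counting vectors by the subspaces they define -/
lemma fiber_count {T : Type} (V : Type) [AddCommGroup V] [Module (ZMod p) V] [Finite V]
    (π : V → T)
    (hπ : ∀ a b : V, a ≠ 0 → b ≠ 0 → (π a = π b ↔ ∃ c : ZMod p, c ≠ 0 ∧ b = c • a)) (Q : Set T) :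
    {a : V | a ≠ 0 ∧ π a ∈ Q}.ncard = (p - 1) * {t : T | t ∈ Q ∧ ∃ a, a ≠ 0 ∧ π a = t}.ncard := by
  classical
  have : Fintype V := Fintype.ofFinite V
  set S : Finset V := univ.filter fun a => a ≠ 0 ∧ π a ∈ Q with hS
  have h1 : {a : V | a ≠ 0 ∧ π a ∈ Q} = (S : Set V) := by
    ext a; simp [hS]
  have h2 : {t : T | t ∈ Q ∧ ∃ a, a ≠ 0 ∧ π a = t} = ((S.image π : Finset T) : Set T) := by
    ext t
    simp only [hS, coe_image, Set.mem_image, mem_coe, mem_filter, mem_univ, true_and]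
    constructor
    · rintro ⟨ht, a, ha, rfl⟩
      exact ⟨a, ⟨ha, ht⟩, rfl⟩
    · rintro ⟨a, ⟨ha, hq⟩, rfl⟩
      exact ⟨hq, a, ha, rfl⟩
  rw [h1, h2, Set.ncard_coe_finset, Set.ncard_coe_finset,
    card_eq_sum_card_fiberwise (f := π) (t := S.image π) (fun a ha => mem_image_of_mem π ha)]
  have h3 : ∀ t ∈ S.image π, (S.filter fun a => π a = t).card = p - 1 := by
    intro t ht
    rw [mem_image] at ht
    obtain ⟨a, ha, rfl⟩ := ht
    rw [hS, mem_filter] at ha
    have h4 : (S.filter fun b => π b = π a) =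
        ((univ : Finset (ZMod p)).filter fun c => c ≠ 0).image fun c => c • a := by
      ext b
      simp only [hS, mem_filter, mem_univ, true_and, mem_image]
      constructor
      · rintro ⟨⟨hb, _⟩, hba⟩
        obtain ⟨c, hc, rfl⟩ := (hπ a b ha.2.1 hb).1 hba.symm
        exact ⟨c, hc, rfl⟩
      · rintro ⟨c, hc, rfl⟩
        have hne : c • a ≠ 0 := smul_ne_zero hc ha.2.1
        have h5 : π a = π (c • a) := (hπ a (c • a) ha.2.1 hne).2 ⟨c, hc, rfl⟩
        exact ⟨⟨hne, h5 ▸ ha.2.2⟩, h5.symm⟩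
    rw [h4, card_image_of_injective _ (smul_left_injective _ ha.2.1)]
    rw [filter_ne' univ (0 : ZMod p), card_erase_of_mem (mem_univ _), card_univ, ZMod.card]
  rw [sum_congr rfl h3, sum_const, smul_eq_mul, mul_comm]

section

variable (B : (Fin 3 → ZMod p) →ₗ[ZMod p] (Fin 3 → ZMod p) →ₗ[ZMod p] ZMod p)

/-- the vertex of a nonzero vector seen as a point -/
noncomputable def ptV (x : Fin 3 → ZMod p) : Submodule (ZMod p) (Fin 3 → ZMod p) :=
  Submodule.span (ZMod p) {x}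

/-- the vertex of a nonzero vector seen as a line -/
noncomputable def lnV (a : Fin 3 → ZMod p) : Submodule (ZMod p) (Fin 3 → ZMod p) :=
  LinearMap.ker (B a)

lemma finrank_V : Module.finrank (ZMod p) (Fin 3 → ZMod p) = 3 := by simp

lemma ptV_eq_iff (x y : Fin 3 → ZMod p) (_ : x ≠ 0) (hy : y ≠ 0) :
    ptV x = ptV y ↔ ∃ c : ZMod p, c ≠ 0 ∧ y = c • x := by
  unfold ptV
  constructor
  · intro h
    have h1 : y ∈ Submodule.span (ZMod p) {x} := h ▸ Submodule.mem_span_singleton_self y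
    rw [Submodule.mem_span_singleton] at h1
    obtain ⟨c, hc⟩ := h1
    refine ⟨c, ?_, hc.symm⟩
    rintro rfl
    rw [zero_smul] at hc
    exact hy hc.symm
  · rintro ⟨c, hc, rfl⟩
    rw [Submodule.span_singleton_smul_eq (IsUnit.mk0 c hc)]

lemma finrank_ptV (x : Fin 3 → ZMod p) (hx : x ≠ 0) :
    Module.finrank (ZMod p) (ptV x) = 1 := finrank_span_singleton hx

variable (hB : ∀ a, (∀ w, B a w = 0) → a = 0)

include hB in
lemma B_ne {a : Fin 3 → ZMod p} (ha : a ≠ 0) : B a ≠ 0 := by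
  intro h
  exact ha (hB a fun w => by rw [h]; rfl)

include hB in
lemma finrank_lnV (a : Fin 3 → ZMod p) (ha : a ≠ 0) :
    Module.finrank (ZMod p) (lnV B a) = 2 := by
  have h1 := LinearMap.finrank_range_add_finrank_ker (B a)
  have h2 : Module.finrank (ZMod p) (LinearMap.range (B a)) = 1 := by
    rw [LinearMap.range_eq_top.2 (LinearMap.surjective (B_ne B hB ha)), finrank_top,
      Module.finrank_self]
  rw [finrank_V, h2] at h1
  unfold lnV
  omega

include hB in
lemma exists_dual (f : (Fin 3 → ZMod p) →ₗ[ZMod p] ZMod p) : ∃ a, B a = f := by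
  have hinj : Function.Injective B := by
    rw [← LinearMap.ker_eq_bot, LinearMap.ker_eq_bot']
    intro a ha
    exact hB a fun w => by rw [ha]; rfl
  have hfin : Module.finrank (ZMod p) (Fin 3 → ZMod p) =
      Module.finrank (ZMod p) ((Fin 3 → ZMod p) →ₗ[ZMod p] ZMod p) := by
    rw [Module.finrank_linearMap]; simp
  have hsurj := (LinearMap.injective_iff_surjective_of_finrank_eq_finrank hfin).1 hinj
  exact hsurj f

include hB in
lemma lnV_eq_iff (a b : Fin 3 → ZMod p) (ha : a ≠ 0) (hb : b ≠ 0) :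
    lnV B a = lnV B b ↔ ∃ c : ZMod p, c ≠ 0 ∧ b = c • a := by
  constructor
  · intro h
    obtain ⟨w, hw⟩ : ∃ w, B a w ≠ 0 := by
      by_contra hcon
      push Not at hcon
      exact ha (hB a hcon)
    have hker : ∀ v, B a v = 0 → B b v = 0 := by
      intro v hv
      have : v ∈ lnV B a := hv
      rw [h] at this
      exact this
    have hbc : b = (B b w / B a w) • a := by
      apply eq_of_sub_eq_zero
      apply hB
      intro v
      have h1 : B a (v - (B a v / B a w) • w) = 0 := by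
        rw [map_sub, map_smul, smul_eq_mul, div_mul_cancel₀ _ hw, sub_self]
      have h2 := hker _ h1
      rw [map_sub, map_smul, smul_eq_mul, sub_eq_zero] at h2
      rw [map_sub, map_smul, LinearMap.sub_apply, LinearMap.smul_apply, smul_eq_mul, h2]
      field_simp
      ring
    refine ⟨B b w / B a w, ?_, hbc⟩
    intro h0
    rw [h0, zero_smul] at hbc
    exact hb hbc
  · rintro ⟨c, hc, rfl⟩
    unfold lnV
    rw [map_smul]
    exact (LinearMap.ker_smul _ c hc).symm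

include hB in
lemma exists_lnV (W : Submodule (ZMod p) (Fin 3 → ZMod p))
    (hW : Module.finrank (ZMod p) W = 2) : ∃ a, a ≠ 0 ∧ lnV B a = W := by
  have hlt : W < ⊤ := by
    rw [lt_top_iff_ne_top]
    rintro rfl
    rw [finrank_top, finrank_V] at hW
    omega
  obtain ⟨f, hf, hle⟩ := Submodule.exists_le_ker_of_lt_top W hlt
  obtain ⟨a, rfl⟩ := exists_dual B hB f
  have ha : a ≠ 0 := by
    rintro rfl
    rw [map_zero] at hf
    exact hf rfl
  refine ⟨a, ha, ?_⟩
  have h1 := finrank_lnV B hB a ha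
  have h2 : W ≤ lnV B a := hle
  exact (Submodule.eq_of_le_of_finrank_eq h2 (by rw [hW, h1])).symm

lemma exists_ptV (W : Submodule (ZMod p) (Fin 3 → ZMod p))
    (hW : Module.finrank (ZMod p) W = 1) : ∃ x, x ≠ 0 ∧ ptV x = W := by
  obtain ⟨v, hv, hspan⟩ := finrank_eq_one_iff'.1 hW
  refine ⟨v, ?_, ?_⟩
  · intro h
    exact hv (Subtype.ext h)
  · apply le_antisymm
    · unfold ptV
      rw [Submodule.span_singleton_le_iff_mem]
      exact v.2
    · intro w hw
      obtain ⟨c, hc⟩ := hspan ⟨w, hw⟩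
      unfold ptV
      rw [Submodule.mem_span_singleton]
      exact ⟨c, congrArg Subtype.val hc⟩

end

section

variable (B : (Fin 3 → ZMod p) →ₗ[ZMod p] (Fin 3 → ZMod p) →ₗ[ZMod p] ZMod p)
variable (hB : ∀ a, (∀ w, B a w = 0) → a = 0)

lemma ptV_le_lnV {x a : Fin 3 → ZMod p} : ptV x ≤ lnV B a ↔ B a x = 0 := by
  unfold ptV lnV
  rw [Submodule.span_singleton_le_iff_mem, LinearMap.mem_ker]

include hB in
lemma nbr_pt (v : PGVertex p) (x : Fin 3 → ZMod p) (hx : x ≠ 0) (hv : ptV x = v.1)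
    (w : PGVertex p) : w ∈ (PGGraph p).neighborSet v ↔
      ∃ a, a ≠ 0 ∧ lnV B a = w.1 ∧ B a x = 0 := by
  have hv1 : Module.finrank (ZMod p) v.1 = 1 := hv ▸ finrank_ptV x hx
  rw [SimpleGraph.mem_neighborSet]
  constructor
  · intro h
    rcases h with h | h
    · have h1 := Submodule.finrank_lt_finrank_of_lt h
      rw [hv1] at h1
      have h2 : Module.finrank (ZMod p) w.1 = 2 := by
        rcases w.2 with h2 | h2
        · omega
        · exact h2
      obtain ⟨a, ha, haw⟩ := exists_lnV B hB w.1 h2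
      refine ⟨a, ha, haw, ?_⟩
      rw [← ptV_le_lnV, haw, hv]
      exact h.le
    · have h1 := Submodule.finrank_lt_finrank_of_lt h
      rw [hv1] at h1
      rcases w.2 with h2 | h2 <;> omega
  · rintro ⟨a, ha, haw, hax⟩
    left
    rw [← ptV_le_lnV, haw, hv] at hax
    refine lt_of_le_of_ne hax ?_
    intro h
    have h2 := finrank_lnV B hB a ha
    rw [haw, ← h, hv1] at h2
    omega

include hB in
lemma nbr_ln (v : PGVertex p) (a : Fin 3 → ZMod p) (ha : a ≠ 0) (hv : lnV B a = v.1)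
    (w : PGVertex p) : w ∈ (PGGraph p).neighborSet v ↔
      ∃ x, x ≠ 0 ∧ ptV x = w.1 ∧ B a x = 0 := by
  have hv1 : Module.finrank (ZMod p) v.1 = 2 := hv ▸ finrank_lnV B hB a ha
  rw [SimpleGraph.mem_neighborSet]
  constructor
  · intro h
    rcases h with h | h
    · have h1 := Submodule.finrank_lt_finrank_of_lt h
      rw [hv1] at h1
      rcases w.2 with h2 | h2 <;> omega
    · have h1 := Submodule.finrank_lt_finrank_of_lt h
      rw [hv1] at h1
      have h2 : Module.finrank (ZMod p) w.1 = 1 := by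
        rcases w.2 with h2 | h2
        · exact h2
        · omega
      obtain ⟨x, hx, hxw⟩ := exists_ptV w.1 h2
      refine ⟨x, hx, hxw, ?_⟩
      rw [← ptV_le_lnV, hxw, hv]
      exact h.le
  · rintro ⟨x, hx, hxw, hax⟩
    right
    rw [← ptV_le_lnV, hxw, hv] at hax
    refine lt_of_le_of_ne hax ?_
    intro h
    have h2 := finrank_ptV x hx
    rw [hxw, h, hv1] at h2
    omega

lemma count_side (v : PGVertex p) (Z : Set (PGVertex p))
    (π : (Fin 3 → ZMod p) → Submodule (ZMod p) (Fin 3 → ZMod p))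
    (hπ : ∀ a b, a ≠ 0 → b ≠ 0 → (π a = π b ↔ ∃ c : ZMod p, c ≠ 0 ∧ b = c • a))
    (S : Set (Fin 3 → ZMod p))
    (hS : ∀ a, a ∈ S ↔ a ≠ 0 ∧ ∃ w ∈ (PGGraph p).neighborSet v ∩ Z, w.1 = π a)
    (hr : ∀ w ∈ (PGGraph p).neighborSet v ∩ Z, ∃ a, a ≠ 0 ∧ π a = w.1) :
    S.ncard = (p - 1) * ((PGGraph p).neighborSet v ∩ Z).ncard := by
  have h1 : S = {a | a ≠ 0 ∧ π a ∈ Subtype.val '' ((PGGraph p).neighborSet v ∩ Z)} := by
    ext a
    rw [hS]
    rfl
  rw [h1, fiber_count _ π hπ]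
  congr 1
  rw [← Set.ncard_image_of_injective ((PGGraph p).neighborSet v ∩ Z) Subtype.val_injective]
  congr 1
  ext t
  constructor
  · rintro ⟨h, _⟩; exact h
  · intro h
    refine ⟨h, ?_⟩
    obtain ⟨w, hw, rfl⟩ := h
    obtain ⟨a, ha, haw⟩ := hr w hw
    exact ⟨a, ha, haw⟩

/-- arithmetic: from the signed sum to the degree condition -/
lemma deg_arith (n nA nB : ℕ) (t S : ℤ) (hp2 : 2 ≤ p) (hn : n = nA + nB)
    (hS : S = ((p : ℤ) - 1) * nA - ((p : ℤ) - 1) * nB)
    (h : 2 * t * ((p : ℤ) - 1) ≤ S) : (n : ℚ) / 2 + t ≤ nA := by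
  have hp' : (0 : ℤ) < (p : ℤ) - 1 := by
    have : (2 : ℤ) ≤ p := by exact_mod_cast hp2
    linarith
  have h1 : 2 * t ≤ (nA : ℤ) - nB := by
    have h2 : (2 * t) * ((p : ℤ) - 1) ≤ ((nA : ℤ) - nB) * ((p : ℤ) - 1) := by
      rw [hS] at h; linarith
    exact le_of_mul_le_mul_right h2 hp'
  have h3 : (2 : ℚ) * t ≤ (nA : ℚ) - nB := by exact_mod_cast h1
  rw [hn]
  push_cast
  linarith

lemma sum_split (S : Finset (Fin 3 → ZMod p)) (f : (Fin 3 → ZMod p) → ℤ)
    (hf : ∀ a ∈ S, f a = 1 ∨ f a = -1) :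
    ∑ a ∈ S, f a = ({a | a ∈ S ∧ f a = 1}.ncard : ℤ) - ({a | a ∈ S ∧ f a = -1}.ncard : ℤ) := by
  classical
  have e1 : {a | a ∈ S ∧ f a = 1} = ((S.filter fun a => f a = 1 : Finset _) : Set _) := by
    ext a; simp
  have e2 : {a | a ∈ S ∧ f a = -1} = ((S.filter fun a => f a = -1 : Finset _) : Set _) := by
    ext a; simp
  rw [e1, e2, Set.ncard_coe_finset, Set.ncard_coe_finset, card_filter, card_filter]
  push_cast
  rw [← sum_sub_distrib]
  apply sum_congr rfl
  intro a ha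
  rcases hf a ha with h | h <;> rw [h] <;> norm_num

variable (P L : (Fin 3 → ZMod p) → ℤ)

/-- the vertex set defined by the two sign functions -/
def sideA : Set (PGVertex p) :=
  {v | (∃ x, x ≠ 0 ∧ ptV x = v.1 ∧ P x = 1) ∨ ∃ a, a ≠ 0 ∧ lnV B a = v.1 ∧ L a = 1}

include hB in
/-- Reduction: sign functions on vectors give internal partitions. -/
theorem internal_of_signs (t : ℤ) (hP1 : ∀ x, P x = 1 ∨ P x = -1)
    (hL1 : ∀ a, L a = 1 ∨ L a = -1)
    (hPs : ∀ (c : ZMod p) (x : Fin 3 → ZMod p), c ≠ 0 → x ≠ 0 → P (c • x) = P x)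
    (hLs : ∀ (c : ZMod p) (a : Fin 3 → ZMod p), c ≠ 0 → a ≠ 0 → L (c • a) = L a)
    (hL : ∀ a, a ≠ 0 → 2 * t * ((p : ℤ) - 1) ≤
      L a * ∑ w ∈ univ.filter (fun w => w ≠ 0 ∧ B a w = 0), P w)
    (hP : ∀ x, x ≠ 0 → 2 * t * ((p : ℤ) - 1) ≤
      P x * ∑ a ∈ univ.filter (fun a => a ≠ 0 ∧ B a x = 0), L a)
    (hpos : ∃ x, x ≠ 0 ∧ P x = 1) (hneg : ∃ x, x ≠ 0 ∧ P x = -1) :
    IsInternalPartition (PGGraph p) t (sideA B P L) := by
  classical
  have hp2 : 2 ≤ p := hp.out.two_le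
  have hp1 : ((p - 1 : ℕ) : ℤ) = (p : ℤ) - 1 := by
    rw [Nat.cast_sub (by omega)]; norm_num
  -- membership for points and lines
  have memP : ∀ (v : PGVertex p) (x : Fin 3 → ZMod p), x ≠ 0 → ptV x = v.1 →
      (v ∈ sideA B P L ↔ P x = 1) := by
    intro v x hx hv
    constructor
    · rintro (⟨y, hy, hyv, h⟩ | ⟨a, ha, hav, _⟩)
      · obtain ⟨c, hc, rfl⟩ := (ptV_eq_iff x y hx hy).1 (hv.trans hyv.symm)
        rwa [hPs c x hc hx] at h
      · exfalso
        have h1 := finrank_lnV B hB a ha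
        rw [hav, ← hv, finrank_ptV x hx] at h1
        omega
    · intro h; exact Or.inl ⟨x, hx, hv, h⟩
  have memL : ∀ (v : PGVertex p) (a : Fin 3 → ZMod p), a ≠ 0 → lnV B a = v.1 →
      (v ∈ sideA B P L ↔ L a = 1) := by
    intro v a ha hv
    constructor
    · rintro (⟨y, hy, hyv, _⟩ | ⟨b, hb, hbv, h⟩)
      · exfalso
        have h1 := finrank_lnV B hB a ha
        rw [hv, ← hyv, finrank_ptV y hy] at h1
        omega
      · obtain ⟨c, hc, rfl⟩ := (lnV_eq_iff B hB a b ha hb).1 (hv.trans hbv.symm)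
        rwa [hLs c a hc ha] at h
    · intro h; exact Or.inr ⟨a, ha, hv, h⟩
  have hsplit : ∀ v : PGVertex p, ((PGGraph p).neighborSet v).ncard =
      ((PGGraph p).neighborSet v ∩ sideA B P L).ncard +
        ((PGGraph p).neighborSet v ∩ (sideA B P L)ᶜ).ncard := by
    intro v
    have hfin : Finite (PGVertex p) := by
      unfold PGVertex
      infer_instance
    rw [← Set.ncard_inter_add_ncard_diff_eq_ncard ((PGGraph p).neighborSet v) (sideA B P L)
      (Set.toFinite _), Set.diff_eq]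
  -- counts at a point
  have cntP : ∀ (v : PGVertex p) (x : Fin 3 → ZMod p), x ≠ 0 → ptV x = v.1 →
      ∑ a ∈ univ.filter (fun a => a ≠ 0 ∧ B a x = 0), L a =
        ((p : ℤ) - 1) * ((PGGraph p).neighborSet v ∩ sideA B P L).ncard -
        ((p : ℤ) - 1) * ((PGGraph p).neighborSet v ∩ (sideA B P L)ᶜ).ncard := by
    intro v x hx hv
    rw [sum_split _ L fun a _ => hL1 a, ← hp1]
    have c1 := count_side v (sideA B P L) (lnV B) (lnV_eq_iff B hB)
      {a | a ∈ univ.filter (fun a => a ≠ 0 ∧ B a x = 0) ∧ L a = 1}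
      (by
        intro a
        simp only [mem_filter, mem_univ, true_and, Set.mem_setOf_eq]
        constructor
        · rintro ⟨⟨ha, hax⟩, h⟩
          refine ⟨ha, ⟨lnV B a, Or.inr (finrank_lnV B hB a ha)⟩, ⟨?_, ?_⟩, rfl⟩
          · exact (nbr_pt B hB v x hx hv _).2 ⟨a, ha, rfl, hax⟩
          · exact (memL _ a ha rfl).2 h
        · rintro ⟨ha, w, ⟨hw1, hw2⟩, hwa⟩
          obtain ⟨b, hb, hbw, hbx⟩ := (nbr_pt B hB v x hx hv w).1 hw1
          refine ⟨⟨ha, ?_⟩, (memL w a ha hwa.symm).1 hw2⟩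
          rw [← ptV_le_lnV] at hbx ⊢
          rwa [← hwa, ← hbw])
      (by
        rintro w ⟨hw1, _⟩
        obtain ⟨b, hb, hbw, _⟩ := (nbr_pt B hB v x hx hv w).1 hw1
        exact ⟨b, hb, hbw⟩)
    have c2 := count_side v (sideA B P L)ᶜ (lnV B) (lnV_eq_iff B hB)
      {a | a ∈ univ.filter (fun a => a ≠ 0 ∧ B a x = 0) ∧ L a = -1}
      (by
        intro a
        simp only [mem_filter, mem_univ, true_and, Set.mem_setOf_eq]
        constructor
        · rintro ⟨⟨ha, hax⟩, h⟩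
          refine ⟨ha, ⟨lnV B a, Or.inr (finrank_lnV B hB a ha)⟩, ⟨?_, ?_⟩, rfl⟩
          · exact (nbr_pt B hB v x hx hv _).2 ⟨a, ha, rfl, hax⟩
          · intro hcon
            have := (memL _ a ha rfl).1 hcon
            omega
        · rintro ⟨ha, w, ⟨hw1, hw2⟩, hwa⟩
          obtain ⟨b, hb, hbw, hbx⟩ := (nbr_pt B hB v x hx hv w).1 hw1
          refine ⟨⟨ha, ?_⟩, ?_⟩
          · rw [← ptV_le_lnV] at hbx ⊢
            rwa [← hwa, ← hbw]
          · rcases hL1 a with h | h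
            · exact absurd ((memL w a ha hwa.symm).2 h) hw2
            · exact h)
      (by
        rintro w ⟨hw1, _⟩
        obtain ⟨b, hb, hbw, _⟩ := (nbr_pt B hB v x hx hv w).1 hw1
        exact ⟨b, hb, hbw⟩)
    rw [c1, c2]
    push_cast
    ring
  -- counts at a line
  have cntL : ∀ (v : PGVertex p) (a : Fin 3 → ZMod p), a ≠ 0 → lnV B a = v.1 →
      ∑ w ∈ univ.filter (fun w => w ≠ 0 ∧ B a w = 0), P w =
        ((p : ℤ) - 1) * ((PGGraph p).neighborSet v ∩ sideA B P L).ncard -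
        ((p : ℤ) - 1) * ((PGGraph p).neighborSet v ∩ (sideA B P L)ᶜ).ncard := by
    intro v a ha hv
    rw [sum_split _ P fun a _ => hP1 a, ← hp1]
    have c1 := count_side v (sideA B P L) ptV ptV_eq_iff
      {x | x ∈ univ.filter (fun x => x ≠ 0 ∧ B a x = 0) ∧ P x = 1}
      (by
        intro x
        simp only [mem_filter, mem_univ, true_and, Set.mem_setOf_eq]
        constructor
        · rintro ⟨⟨hx, hax⟩, h⟩
          refine ⟨hx, ⟨ptV x, Or.inl (finrank_ptV x hx)⟩, ⟨?_, ?_⟩, rfl⟩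
          · exact (nbr_ln B hB v a ha hv _).2 ⟨x, hx, rfl, hax⟩
          · exact (memP _ x hx rfl).2 h
        · rintro ⟨hx, w, ⟨hw1, hw2⟩, hwa⟩
          obtain ⟨y, hy, hyw, hay⟩ := (nbr_ln B hB v a ha hv w).1 hw1
          refine ⟨⟨hx, ?_⟩, (memP w x hx hwa.symm).1 hw2⟩
          rw [← ptV_le_lnV] at hay ⊢
          rwa [← hwa, ← hyw])
      (by
        rintro w ⟨hw1, _⟩
        obtain ⟨b, hb, hbw, _⟩ := (nbr_ln B hB v a ha hv w).1 hw1
        exact ⟨b, hb, hbw⟩)
    have c2 := count_side v (sideA B P L)ᶜ ptV ptV_eq_iff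
      {x | x ∈ univ.filter (fun x => x ≠ 0 ∧ B a x = 0) ∧ P x = -1}
      (by
        intro x
        simp only [mem_filter, mem_univ, true_and, Set.mem_setOf_eq]
        constructor
        · rintro ⟨⟨hx, hax⟩, h⟩
          refine ⟨hx, ⟨ptV x, Or.inl (finrank_ptV x hx)⟩, ⟨?_, ?_⟩, rfl⟩
          · exact (nbr_ln B hB v a ha hv _).2 ⟨x, hx, rfl, hax⟩
          · intro hcon
            have := (memP _ x hx rfl).1 hcon
            omega
        · rintro ⟨hx, w, ⟨hw1, hw2⟩, hwa⟩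
          obtain ⟨y, hy, hyw, hay⟩ := (nbr_ln B hB v a ha hv w).1 hw1
          refine ⟨⟨hx, ?_⟩, ?_⟩
          · rw [← ptV_le_lnV] at hay ⊢
            rwa [← hwa, ← hyw]
          · rcases hP1 x with h | h
            · exact absurd ((memP w x hx hwa.symm).2 h) hw2
            · exact h)
      (by
        rintro w ⟨hw1, _⟩
        obtain ⟨b, hb, hbw, _⟩ := (nbr_ln B hB v a ha hv w).1 hw1
        exact ⟨b, hb, hbw⟩)
    rw [c1, c2]
    push_cast
    ring
  refine ⟨?_, ?_, ?_, ?_⟩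
  · obtain ⟨x, hx, h⟩ := hpos
    exact ⟨⟨ptV x, Or.inl (finrank_ptV x hx)⟩, (memP _ x hx rfl).2 h⟩
  · obtain ⟨x, hx, h⟩ := hneg
    refine ⟨⟨ptV x, Or.inl (finrank_ptV x hx)⟩, ?_⟩
    intro hcon
    have := (memP _ x hx rfl).1 hcon
    omega
  · intro v hv
    rcases v.2 with h | h
    · obtain ⟨x, hx, hxv⟩ := exists_ptV v.1 h
      have h1 := (memP v x hx hxv).1 hv
      have h2 := hP x hx
      rw [h1, one_mul] at h2
      exact deg_arith _ _ _ t _ hp2 (hsplit v) (cntP v x hx hxv) h2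
    · obtain ⟨a, ha, hav⟩ := exists_lnV B hB v.1 h
      have h1 := (memL v a ha hav).1 hv
      have h2 := hL a ha
      rw [h1, one_mul] at h2
      exact deg_arith _ _ _ t _ hp2 (hsplit v) (cntL v a ha hav) h2
  · intro v hv
    rcases v.2 with h | h
    · obtain ⟨x, hx, hxv⟩ := exists_ptV v.1 h
      have h1 : P x = -1 := by
        rcases hP1 x with h1 | h1
        · exact absurd ((memP v x hx hxv).2 h1) hv
        · exact h1
      have h2 := hP x hx
      rw [h1, cntP v x hx hxv] at h2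
      refine deg_arith _ _ _ t (-1 * (((p : ℤ) - 1) *
        ((PGGraph p).neighborSet v ∩ sideA B P L).ncard -
        ((p : ℤ) - 1) * ((PGGraph p).neighborSet v ∩ (sideA B P L)ᶜ).ncard)) hp2
        ((hsplit v).trans (add_comm _ _)) (by ring) h2
    · obtain ⟨a, ha, hav⟩ := exists_lnV B hB v.1 h
      have h1 : L a = -1 := by
        rcases hL1 a with h1 | h1
        · exact absurd ((memL v a ha hav).2 h1) hv
        · exact h1
      have h2 := hL a ha
      rw [h1, cntL v a ha hav] at h2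
      refine deg_arith _ _ _ t (-1 * (((p : ℤ) - 1) *
        ((PGGraph p).neighborSet v ∩ sideA B P L).ncard -
        ((p : ℤ) - 1) * ((PGGraph p).neighborSet v ∩ (sideA B P L)ᶜ).ncard)) hp2
        ((hsplit v).trans (add_comm _ _)) (by ring) h2

/-- the intimacy is at least `t` when there is a `t`-internal partition -/
theorem le_intimacy (t : ℤ) (A : Set (PGVertex p)) (h : IsInternalPartition (PGGraph p) t A) :
    t ≤ intimacy (PGGraph p) := by
  have hfin : Finite (PGVertex p) := by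
    unfold PGVertex
    infer_instance
  unfold intimacy
  refine le_csSup ⟨(Nat.card (PGVertex p) : ℤ), ?_⟩ ⟨A, h⟩
  rintro s ⟨A', h'⟩
  obtain ⟨v, hv⟩ := h'.1
  have h1 := h'.2.2.1 v hv
  have h2 : ((PGGraph p).neighborSet v ∩ A').ncard ≤ Nat.card (PGVertex p) := by
    exact Set.ncard_le_card _
  have h3 : (((PGGraph p).neighborSet v ∩ A').ncard : ℚ) ≤ (Nat.card (PGVertex p) : ℚ) := by
    exact_mod_cast h2
  have h4 : (0 : ℚ) ≤ (((PGGraph p).neighborSet v).ncard : ℚ) / 2 := by positivity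
  have h5 : (s : ℚ) ≤ (Nat.card (PGVertex p) : ℚ) := by linarith
  exact_mod_cast h5

end

end Pool.Agent.Lib.MP42b82d
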