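import Pool.Agent.Lib.MP_42b82d_co.H78Class

/-!
# The signed class numbers for `p = 1 mod 6`
-/

set_option autoImplicit false
open Finset

namespace Pool.Agent.Lib.MP42b82d

variable {p : ℕ} [hp : Fact p.Prime]

lemma sumT (ψ : MulChar (ZMod p) ℂ) (hψ : ψ ≠ 1) :
    ∑ x ∈ TS p, ψ (-1 - x) = -ψ (-1) := by
  classical
  have h1 : ∑ x : ZMod p, ψ (-1 - x) = 0 := by
    rw [← MulChar.sum_eq_zero_of_ne_one hψ]
    exact Equiv.sum_comp (Equiv.subLeft (-1 : ZMod p)) fun a => ψ a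
  have h2 : ∑ x : ZMod p, ψ (-1 - x) = ∑ x ∈ univ.erase (0 : ZMod p), ψ (-1 - x) + ψ (-1) := by
    rw [← Finset.sum_erase_add univ _ (mem_univ (0 : ZMod p)), sub_zero]
  have h3 : ∑ x ∈ TS p, ψ (-1 - x) = ∑ x ∈ univ.erase (0 : ZMod p), ψ (-1 - x) := by
    apply sum_subset
    · intro x hx
      unfold TS at hx
      rw [mem_filter] at hx
      rw [mem_erase]
      exact ⟨hx.2.1, mem_univ _⟩
    · intro x hx hx2
      rw [mem_erase] at hx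
      have h : -1 - x = 0 := by
        by_contra h
        apply hx2
        unfold TS
        rw [mem_filter]
        exact ⟨mem_univ _, hx.1, h⟩
      rw [h, MulChar.map_zero]
  rw [h3]
  rw [h1] at h2
  linear_combination -h2

lemma sumT2 (α β : MulChar (ZMod p) ℂ) :
    ∑ x ∈ TS p, α (2 * x) * β (-1 - x) = α 2 * (α (-1) * β (-1)) * jacobiSum α β := by
  classical
  have h1 : ∑ x ∈ TS p, α (2 * x) * β (-1 - x) = ∑ x : ZMod p, α (2 * x) * β (-1 - x) := by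
    apply sum_subset (subset_univ _)
    intro x _ hx2
    by_cases h0 : x = 0
    · rw [h0, mul_zero, MulChar.map_zero, zero_mul]
    · have h : -1 - x = 0 := by
        by_contra h
        apply hx2
        unfold TS
        rw [mem_filter]
        exact ⟨mem_univ _, h0, h⟩
      rw [h, MulChar.map_zero, mul_zero]
  rw [h1]
  unfold jacobiSum
  rw [mul_sum, ← Equiv.sum_comp (Equiv.neg (ZMod p))]
  apply sum_congr rfl
  intro x _
  rw [Equiv.neg_apply]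
  have e1 : (2 : ZMod p) * -x = 2 * (-1 * x) := by ring
  have e2 : (-1 : ZMod p) - -x = -1 * (1 - x) := by ring
  rw [e1, e2, map_mul, map_mul, map_mul]
  ring

/-- The signed class numbers. -/
theorem class_numbers (h6 : 6 ∣ p - 1) : ∃ (c : ZMod p → ZMod 6) (ε e b : ℤ),
    (∀ x y, x ≠ 0 → y ≠ 0 → c (x * y) = c x + c y) ∧
    ((ε = 1 ∧ c (-1) = 0) ∨ (ε = -1 ∧ c (-1) = 3)) ∧
    (∃ r, r ≠ 0 ∧ c r = 1) ∧
    DD c 0 0 = e ∧ DD c 0 1 = b ∧ DD c 0 2 = b ∧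
    2 * DD c 1 0 = b - e - ε ∧ DD c 1 1 = -b ∧ DD c 1 2 = 0 ∧
    2 * DD c 2 0 = -b - e - ε ∧ DD c 2 1 = 0 ∧ DD c 2 2 = -b ∧
    (3 * e + ε) ^ 2 + 27 * b ^ 2 = 4 * (p : ℤ) := by
  classical
  have hp2 : p ≠ 2 := by
    rintro rfl
    norm_num at h6
  set ζ : ℂ := Complex.exp (2 * Real.pi * Complex.I / (6 : ℕ)) with hζdef
  have hprim : IsPrimitiveRoot ζ 6 := Complex.isPrimitiveRoot_exp 6 (by norm_num)
  have hζ : ζ ^ 2 = ζ - 1 := by
    have h1 : ζ ^ 6 = 1 := hprim.pow_eq_one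
    have h2 : ζ ^ 3 ≠ 1 := hprim.pow_ne_one_of_pos_of_lt (by norm_num) (by norm_num)
    have h3 : ζ ^ 2 ≠ 1 := hprim.pow_ne_one_of_pos_of_lt (by norm_num) (by norm_num)
    have h4 : (ζ ^ 3 - 1) * (ζ ^ 3 + 1) = 0 := by linear_combination h1
    have h5 : ζ ^ 3 + 1 = 0 := (mul_eq_zero.1 h4).resolve_left (sub_ne_zero.2 h2)
    have h6 : (ζ + 1) * (ζ ^ 2 - ζ + 1) = 0 := by linear_combination h5
    have h7 : ζ + 1 ≠ 0 := by
      intro h
      apply h3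
      have : ζ = -1 := by linear_combination h
      rw [this]; norm_num
    have h8 := (mul_eq_zero.1 h6).resolve_left h7
    linear_combination h8
  obtain ⟨χ, hχ⟩ := MulChar.exists_mulChar_orderOf (ZMod p)
    (by rw [ZMod.card]; exact h6 : 6 ∣ Fintype.card (ZMod p) - 1) hprim
  have hpow : ∀ k : ℕ, 0 < k → k < 6 → χ ^ k ≠ 1 := by
    intro k hk hk6 h
    have := orderOf_dvd_of_pow_eq_one h
    rw [hχ] at this
    have := Nat.le_of_dvd hk this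
    omega
  have hχ6 : χ ^ 6 = 1 := by rw [← hχ]; exact pow_orderOf_eq_one χ
  have hone : ∀ x : ZMod p, x ≠ 0 → χ x ^ 6 = 1 := by
    intro x hx
    rw [← MulChar.pow_apply' χ (by norm_num), hχ6]
    exact MulChar.one_apply (IsUnit.mk0 x hx)
  have hex : ∀ x : ZMod p, ∃ k : ZMod 6, x ≠ 0 → χ x = e6 ζ k := by
    intro x
    by_cases hx : x = 0
    · exact ⟨0, fun h => absurd hx h⟩
    · obtain ⟨i, hi, hζi⟩ := hprim.eq_pow_of_pow_eq_one (hone x hx)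
      refine ⟨(i : ZMod 6), fun _ => ?_⟩
      unfold e6
      rw [ZMod.val_natCast_of_lt hi, hζi]
  choose c hc using hex
  have hinj : ∀ k l : ZMod 6, e6 ζ k = e6 ζ l → k = l := by
    intro k l h
    unfold e6 at h
    exact ZMod.val_injective 6 (hprim.pow_inj (ZMod.val_lt k) (ZMod.val_lt l) h)
  have hmul : ∀ x y, x ≠ 0 → y ≠ 0 → c (x * y) = c x + c y := by
    intro x y hx hy
    apply hinj
    rw [e6_add hζ, ← hc x hx, ← hc y hy, ← hc (x * y) (mul_ne_zero hx hy), map_mul]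
  have e60 : e6 ζ 0 = 1 := e6_zero hζ
  have e61 : e6 ζ 1 = ζ := by
    show ζ ^ (1 : ZMod 6).val = ζ
    rw [show (1 : ZMod 6).val = 1 from rfl, pow_one]
  have e62 : e6 ζ 2 = ζ - 1 := by
    show ζ ^ (2 : ZMod 6).val = ζ - 1
    rw [show (2 : ZMod 6).val = 2 from rfl, hζ]
  have e63 : e6 ζ 3 = -1 := by
    show ζ ^ (3 : ZMod 6).val = -1
    rw [show (3 : ZMod 6).val = 3 from rfl, z3 hζ]
  have e30 : e3 ζ 0 = 1 := by
    show (ζ - 1) ^ (0 : ZMod 3).val = 1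
    rw [show (0 : ZMod 3).val = 0 from rfl, pow_zero]
  have e31 : e3 ζ 1 = ζ - 1 := by
    show (ζ - 1) ^ (1 : ZMod 3).val = ζ - 1
    rw [show (1 : ZMod 3).val = 1 from rfl, pow_one]
  have e32 : e3 ζ 2 = -ζ := by
    show (ζ - 1) ^ (2 : ZMod 3).val = -ζ
    rw [show (2 : ZMod 3).val = 2 from rfl]
    linear_combination hζ
  have hm1 : (-1 : ZMod p) ≠ 0 := neg_ne_zero.2 one_ne_zero
  have h20 : (2 : ZMod p) ≠ 0 := by
    apply Ring.two_ne_zero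
    rwa [ZMod.ringChar_zmod_n]
  -- the sign
  have hcm : c (-1) = 0 ∨ c (-1) = 3 := by
    have h1 : c ((-1) * (-1)) = c (-1) + c (-1) := hmul _ _ hm1 hm1
    have h2 : c ((-1 : ZMod p) * (-1)) = 0 := by
      apply hinj
      rw [← hc _ (mul_ne_zero hm1 hm1), e60]
      norm_num
    rw [h2] at h1
    revert h1
    generalize c (-1) = k
    revert k
    decide
  obtain ⟨ε, hε, hε2, hεc⟩ : ∃ ε : ℤ, χ (-1) = (ε : ℂ) ∧ ε ^ 2 = 1 ∧
      ((ε = 1 ∧ c (-1) = 0) ∨ (ε = -1 ∧ c (-1) = 3)) := by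
    rcases hcm with h | h
    · refine ⟨1, ?_, by norm_num, Or.inl ⟨rfl, h⟩⟩
      rw [hc _ hm1, h, e60]; norm_num
    · refine ⟨-1, ?_, by norm_num, Or.inr ⟨rfl, h⟩⟩
      rw [hc _ hm1, h, e63]; norm_num
  have hεC : (ε : ℂ) ^ 2 = 1 := by exact_mod_cast hε2
  have hχk : ∀ (k : ℕ), k ≠ 0 → ∀ x : ZMod p, (χ ^ k) x = χ x ^ k := fun k hk x =>
    MulChar.pow_apply' χ hk x
  -- surjectivity
  have hsurj : ∃ r, r ≠ 0 ∧ c r = 1 := by
    have hcpow : ∀ x : ZMod p, x ≠ 0 → ∀ k : ℕ, c (x ^ (k + 1)) = (k + 1 : ℕ) • c x := by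
      intro x hx k
      induction k with
      | zero => simp
      | succ k ih =>
        rw [pow_succ, hmul _ _ (pow_ne_zero _ hx) hx, ih, succ_nsmul (c x) (k + 1)]
    obtain ⟨x, hx⟩ : ∃ x : (ZMod p)ˣ, (χ ^ 3) x ≠ 1 :=
      MulChar.ne_one_iff.1 (hpow 3 (by norm_num) (by norm_num))
    obtain ⟨y, hy⟩ : ∃ y : (ZMod p)ˣ, (χ ^ 2) y ≠ 1 :=
      MulChar.ne_one_iff.1 (hpow 2 (by norm_num) (by norm_num))
    have hx0 : (x : ZMod p) ≠ 0 := x.ne_zero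
    have hy0 : (y : ZMod p) ≠ 0 := y.ne_zero
    have hcx : c x = 1 ∨ c x = 3 ∨ c x = 5 := by
      have h1 : (e6 ζ (c x)) ^ 3 ≠ 1 := by
        rw [← hc _ hx0, ← hχk 3 (by norm_num)]; exact hx
      have h2 : ∀ k : ZMod 6, (k = 0 ∨ k = 2 ∨ k = 4) ∨ (k = 1 ∨ k = 3 ∨ k = 5) := by decide
      rcases h2 (c x) with h | h
      · exfalso
        apply h1
        have h3 : ∀ k : ZMod 6, (k = 0 ∨ k = 2 ∨ k = 4) → k + k + k = 0 := by decide
        have h4 : e6 ζ (c x) ^ 3 = e6 ζ (c x + c x + c x) := by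
          rw [e6_add hζ, e6_add hζ]; ring
        rw [h4, h3 _ h, e60]
      · exact h
    have hcy : c y = 1 ∨ c y = 2 ∨ c y = 4 ∨ c y = 5 := by
      have h1 : (e6 ζ (c y)) ^ 2 ≠ 1 := by
        rw [← hc _ hy0, ← hχk 2 (by norm_num)]; exact hy
      have h2 : ∀ k : ZMod 6, (k = 0 ∨ k = 3) ∨ (k = 1 ∨ k = 2 ∨ k = 4 ∨ k = 5) := by decide
      rcases h2 (c y) with h | h
      · exfalso
        apply h1
        have h3 : ∀ k : ZMod 6, (k = 0 ∨ k = 3) → k + k = 0 := by decide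
        have h4 : e6 ζ (c y) ^ 2 = e6 ζ (c y + c y) := by
          rw [e6_add hζ]; ring
        rw [h4, h3 _ h, e60]
      · exact h
    have hfive : ∀ z : ZMod p, z ≠ 0 → c z = 5 → ∃ r, r ≠ 0 ∧ c r = 1 := by
      intro z hz h
      refine ⟨z ^ 5, pow_ne_zero _ hz, ?_⟩
      rw [hcpow z hz 4, h]
      decide
    rcases hcx with h | h | h
    · exact ⟨x, hx0, h⟩
    · rcases hcy with h' | h' | h' | h'
      · exact ⟨y, hy0, h'⟩
      · apply hfive (x * y) (mul_ne_zero hx0 hy0)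
        rw [hmul _ _ hx0 hy0, h, h']; decide
      · refine ⟨x * y, mul_ne_zero hx0 hy0, ?_⟩
        rw [hmul _ _ hx0 hy0, h, h']; decide
      · exact hfive y hy0 h'
    · exact hfive x hx0 h
  -- powers of the character at `-1`
  have hn2 : (χ ^ 2) (-1) = 1 := by rw [hχk 2 (by norm_num), hε, hεC]
  have hn3 : (χ ^ 3) (-1) = ε := by
    rw [hχk 3 (by norm_num), hε]; linear_combination (ε : ℂ) * hεC
  have hn5 : (χ ^ 5) (-1) = ε := by
    rw [hχk 5 (by norm_num), hε]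
    linear_combination ((ε : ℂ) ^ 3 + ε) * hεC
  have hnk : ∀ k : ℕ, k = 1 ∨ k = 3 ∨ k = 5 → (χ ^ k) (-1) = ε := by
    rintro k (rfl | rfl | rfl)
    · rw [pow_one]; exact hε
    · exact hn3
    · exact hn5
  -- values on `TS`
  have hTS : ∀ x ∈ TS p, x ≠ 0 ∧ -1 - x ≠ 0 := by
    intro x hx
    unfold TS at hx
    rw [mem_filter] at hx
    exact hx.2
  have hodd : ∀ k : ℕ, k = 1 ∨ k = 3 ∨ k = 5 → ∀ v : ZMod 6,
      e6 ζ (v + 3) ^ k = -(e6 ζ v ^ k) := by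
    rintro k hk v
    rw [e6_add hζ, e63, mul_pow]
    rcases hk with rfl | rfl | rfl <;> ring
  have hX : ∀ k : ℕ, k = 1 ∨ k = 3 ∨ k = 5 →
      ∑ u : ZMod 3, ∑ v ∈ ({0, 1, 2} : Finset (ZMod 6)), DD c u v • (e3 ζ u * e6 ζ v ^ k) =
        (χ ^ 2) 2 * ε * jacobiSum (χ ^ 2) (χ ^ k) := by
    intro k hk
    have hk0 : k ≠ 0 := by rcases hk with rfl | rfl | rfl <;> norm_num
    rw [← expand c (fun u v => e3 ζ u * e6 ζ v ^ k) (by
      intro u v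
      simp only [hodd k hk v]
      ring)]
    have h1 : ∀ x ∈ TS p, e3 ζ (red3 (c (2 * x))) * e6 ζ (c (-1 - x)) ^ k =
        (χ ^ 2) (2 * x) * (χ ^ k) (-1 - x) := by
      intro x hx
      obtain ⟨hx0, hy0⟩ := hTS x hx
      rw [hχk 2 (by norm_num), hχk k hk0, hc _ hy0, hc _ (mul_ne_zero h20 hx0), e6_two_mul hζ]
      rfl
    rw [sum_congr rfl h1, sumT2, hn2, hnk k hk, one_mul]
  have hY : ∀ k : ℕ, k = 1 ∨ k = 3 →
      ∑ u : ZMod 3, ∑ v ∈ ({0, 1, 2} : Finset (ZMod 6)), DD c u v • (e6 ζ v ^ k) = -(ε : ℂ) := by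
    intro k hk
    have hk' : k = 1 ∨ k = 3 ∨ k = 5 := by tauto
    have hk0 : k ≠ 0 := by rcases hk with rfl | rfl <;> norm_num
    have hk6 : χ ^ k ≠ 1 := by
      rcases hk with rfl | rfl
      · exact hpow 1 (by norm_num) (by norm_num)
      · exact hpow 3 (by norm_num) (by norm_num)
    rw [← expand c (fun _ v => e6 ζ v ^ k) (fun _ v => hodd k hk' v)]
    have h1 : ∀ x ∈ TS p, e6 ζ (c (-1 - x)) ^ k = (χ ^ k) (-1 - x) := by
      intro x hx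
      obtain ⟨hx0, hy0⟩ := hTS x hx
      rw [hχk k hk0, hc _ hy0]
    rw [sum_congr rfl h1, sumT _ hk6, hnk k hk']
  -- Jacobi sum relations
  have hJ1 : jacobiSum (χ ^ 2) (χ ^ 1) = jacobiSum (χ ^ 2) (χ ^ 3) := by
    rw [jac_third (χ ^ 2) (χ ^ 1), hn2, one_mul]
    congr 1
    rw [← pow_add]
    apply inv_eq_of_mul_eq_one_left
    rw [← pow_add]
    exact hχ6
  have hinv1 : (χ ^ 5)⁻¹ = χ := by
    apply inv_eq_of_mul_eq_one_left
    rw [← pow_succ']; exact hχ6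
  have hJ5 : jacobiSum (χ ^ 2) (χ ^ 5) = (χ ^ 2) 2 * jacobiSum (χ ^ 4) (χ ^ 3) := by
    rw [jacobiSum_comm, jac_third (χ ^ 5) (χ ^ 2), hn5]
    have a1 : (χ ^ 5 * χ ^ 2)⁻¹ = χ ^ 5 := by
      apply inv_eq_of_mul_eq_one_left
      rw [← pow_add, ← pow_add]
      have : χ ^ (5 + (5 + 2)) = (χ ^ 6) ^ 2 := by rw [← pow_mul]
      rw [this, hχ6, one_pow]
    rw [a1, jac_quad (χ ^ 5) (χ ^ 3) hp2 (hpow 5 (by norm_num) (by norm_num))
      (hpow 3 (by norm_num) (by norm_num)) (by rw [← pow_mul]; exact hχ6), hinv1,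
      jac_third (χ ^ 3) (χ ^ 5), hn3]
    have a2 : (χ ^ 3 * χ ^ 5)⁻¹ = χ ^ 4 := by
      apply inv_eq_of_mul_eq_one_left
      rw [← pow_add, ← pow_add]
      have : χ ^ (4 + (3 + 5)) = (χ ^ 6) ^ 2 := by rw [← pow_mul]
      rw [this, hχ6, one_pow]
    rw [a2, jacobiSum_comm (χ ^ 3) (χ ^ 4)]
    have a3 : χ (4 : ZMod p) = (χ ^ 2) 2 := by
      rw [hχk 2 (by norm_num), ← map_pow]; norm_num
    rw [a3]
    linear_combination ((χ ^ 2) 2 * jacobiSum (χ ^ 4) (χ ^ 3)) * hεC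
  have hstar : ∀ k : ℕ, k ≤ 6 → (χ ^ k)⁻¹ = χ ^ (6 - k) := by
    intro k hk
    apply inv_eq_of_mul_eq_one_left
    rw [← pow_add, Nat.sub_add_cancel hk, hχ6]
  have hconj : ∀ (ψ : MulChar (ZMod p) ℂ) (a : ZMod p), (starRingEnd ℂ) (ψ a) = ψ⁻¹ a := by
    intro ψ a
    exact MulChar.star_apply' ψ a
  have hconjJ : (starRingEnd ℂ) (jacobiSum (χ ^ 2) (χ ^ 3)) = jacobiSum (χ ^ 4) (χ ^ 3) := by
    unfold jacobiSum
    rw [map_sum]
    apply sum_congr rfl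
    intro x _
    rw [map_mul, hconj, hconj, hstar 2 (by norm_num), hstar 3 (by norm_num)]
  have hconj2 : (starRingEnd ℂ) ((χ ^ 2) 2) = (χ ^ 4) 2 := by
    rw [hconj, hstar 2 (by norm_num)]
  have hε_conj : (starRingEnd ℂ) (ε : ℂ) = ε := by
    rw [← Complex.ofReal_intCast]; exact Complex.conj_ofReal _
  have h22 : (χ ^ 4) 2 = (χ ^ 2) 2 * (χ ^ 2) 2 := by
    rw [hχk 4 (by norm_num), hχk 2 (by norm_num)]; ring
  have h222 : (χ ^ 2) 2 * (χ ^ 4) 2 = 1 := by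
    rw [hχk 4 (by norm_num), hχk 2 (by norm_num), ← pow_add]
    exact hone 2 h20
  have hJp : jacobiSum (χ ^ 2) (χ ^ 3) * jacobiSum (χ ^ 4) (χ ^ 3) = (p : ℂ) := by
    have h := jacobiSum_mul_jacobiSum_inv (F := ZMod p) (F' := ℂ) (χ := χ ^ 2) (φ := χ ^ 3)
      (by rw [ringChar.eq_zero, ZMod.ringChar_zmod_n]; exact hp.out.ne_zero.symm)
      (hpow 2 (by norm_num) (by norm_num)) (hpow 3 (by norm_num) (by norm_num))
      (by rw [← pow_add]; exact hpow 5 (by norm_num) (by norm_num))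
    rw [hstar 2 (by norm_num), hstar 3 (by norm_num), ZMod.card] at h
    exact h
  -- expansion of the relations
  have hs2 : ∀ f : ZMod 6 → ℂ, ∑ v ∈ ({0, 1, 2} : Finset (ZMod 6)), f v = f 0 + f 1 + f 2 := by
    intro f
    rw [sum_insert (by decide), sum_insert (by decide), sum_singleton]; ring
  have hs3 : ∀ f : ZMod 3 → ℂ, ∑ u : ZMod 3, f u = f 0 + f 1 + f 2 := fun f =>
    Fin.sum_univ_three f
  have hX1 := hX 1 (Or.inl rfl)
  have hX3 := hX 3 (Or.inr (Or.inl rfl))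
  have hX5 := hX 5 (Or.inr (Or.inr rfl))
  have hY1 := hY 1 (Or.inl rfl)
  have hY3 := hY 3 (Or.inr rfl)
  rw [hJ1] at hX1
  rw [hJ5] at hX5
  simp only [hs3, hs2, e30, e31, e32, e60, e61, e62, zsmul_eq_mul] at hX1 hX3 hX5 hY1 hY3
  set d00 : ℤ := DD c 0 0 with hd00
  set d01 : ℤ := DD c 0 1 with hd01
  set d02 : ℤ := DD c 0 2 with hd02
  set d10 : ℤ := DD c 1 0 with hd10
  set d11 : ℤ := DD c 1 1 with hd11
  set d12 : ℤ := DD c 1 2 with hd12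
  set d20 : ℤ := DD c 2 0 with hd20
  set d21 : ℤ := DD c 2 1 with hd21
  set d22 : ℤ := DD c 2 2 with hd22
  set J := jacobiSum (χ ^ 2) (χ ^ 3) with hJdef
  set J' := jacobiSum (χ ^ 4) (χ ^ 3) with hJ'def
  set w := (χ ^ 2) (2 : ZMod p) with hw
  have z3' : ζ ^ 3 = -1 := z3 hζ
  have hcz : (starRingEnd ℂ) ζ = 1 - ζ := by
    have h1 := congrArg Complex.im hζ
    have h2 : (ζ ^ 2).im = 2 * ζ.re * ζ.im := by
      rw [sq, Complex.mul_im]; ring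
    rw [h2, Complex.sub_im, Complex.one_im, sub_zero] at h1
    have h3 : ζ.im * (2 * ζ.re - 1) = 0 := by linarith
    have h4 : 2 * ζ.re - 1 = 0 := (mul_eq_zero.1 h3).resolve_left (z_im hζ)
    apply Complex.ext
    · rw [Complex.conj_re, Complex.sub_re, Complex.one_re]; linarith
    · rw [Complex.conj_im, Complex.sub_im, Complex.one_im]; ring
  -- the three quantities
  obtain ⟨P1, hP1⟩ : ∃ P : ℤ, P = d00 - d02 - d10 - d11 + d21 + d22 := ⟨_, rfl⟩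
  obtain ⟨Q1, hQ1⟩ : ∃ P : ℤ, P = d01 + d02 + d10 - d12 - d20 - d21 := ⟨_, rfl⟩
  obtain ⟨P3, hP3⟩ : ∃ P : ℤ, P = (d00 - d01 + d02) - (d10 - d11 + d12) := ⟨_, rfl⟩
  obtain ⟨Q3, hQ3⟩ : ∃ P : ℤ, P = (d10 - d11 + d12) - (d20 - d21 + d22) := ⟨_, rfl⟩
  obtain ⟨P5, hP5⟩ : ∃ P : ℤ, P = d00 + d01 - d10 + d12 - d21 - d22 := ⟨_, rfl⟩
  obtain ⟨Q5, hQ5⟩ : ∃ P : ℤ, P = -d01 - d02 + d10 + d11 - d20 + d22 := ⟨_, rfl⟩
  have g1 : (P1 : ℂ) + Q1 * ζ = w * ε * J := by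
    rw [← hX1, hP1, hQ1]
    push_cast
    linear_combination (-(d11 : ℂ) - d12 + d21 + d22) * hζ
  have g3 : (P3 : ℂ) + Q3 * ζ = w * ε * J := by
    rw [← hX3, hP3, hQ3]
    push_cast
    linear_combination (-(((d01 : ℂ) * (ζ + 1) + d02 * (ζ - 2)) +
      (ζ - 1) * ((d11 : ℂ) * (ζ + 1) + d12 * (ζ - 2)) +
      (-ζ) * ((d21 : ℂ) * (ζ + 1) + d22 * (ζ - 2)))) * hζ
  have g5 : (P5 : ℂ) + Q5 * ζ = w * ε * (w * J') := by
    rw [← hX5, hP5, hQ5]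
    push_cast
    linear_combination (-((d01 : ℂ) * (ζ ^ 3 + ζ ^ 2 - 1) +
      d02 * ((ζ - 1) ^ 3 - (ζ - 1) ^ 2 + 1) +
      d11 * (-1 + (ζ - 1) * (ζ ^ 3 + ζ ^ 2 - 1)) +
      d12 * (-1 + (ζ - 1) * ((ζ - 1) ^ 3 - (ζ - 1) ^ 2 + 1)) +
      d21 * (1 - ζ * (ζ ^ 3 + ζ ^ 2 - 1)) +
      d22 * (1 - ζ * ((ζ - 1) ^ 3 - (ζ - 1) ^ 2 + 1)))) * hζ
  have k1 : ((P1 - P3 : ℤ) : ℂ) + (Q1 - Q3 : ℤ) * ζ = 0 := by
    push_cast
    linear_combination g1 - g3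
  obtain ⟨k1a, k1b⟩ := int_basis hζ k1
  have g5' : (P3 : ℂ) + Q3 * (1 - ζ) = w * ε * (w * J') := by
    have h := congrArg (starRingEnd ℂ) g3
    rw [map_add, map_mul, map_mul, map_mul, hcz, hε_conj, hconj2, hconjJ, h22,
      ← Complex.ofReal_intCast P3, ← Complex.ofReal_intCast Q3, Complex.conj_ofReal,
      Complex.conj_ofReal, Complex.ofReal_intCast, Complex.ofReal_intCast] at h
    rw [h]; ring
  have k5 : ((P5 - P3 - Q3 : ℤ) : ℂ) + (Q5 + Q3 : ℤ) * ζ = 0 := by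
    push_cast
    linear_combination g5 - g5'
  obtain ⟨k5a, k5b⟩ := int_basis hζ k5
  have kn : P3 ^ 2 + P3 * Q3 + Q3 ^ 2 = (p : ℤ) := by
    have h1 : ((P3 ^ 2 + P3 * Q3 + Q3 ^ 2 : ℤ) : ℂ) = (p : ℂ) := by
      rw [← hJp]
      push_cast
      have h2 : w * (w * w) = 1 := by rw [← h22]; exact h222
      have h3 : ((P3 : ℂ) + Q3 * ζ) * ((P3 : ℂ) + Q3 * (1 - ζ)) = J * J' := by
        rw [g3, g5']
        linear_combination (ε : ℂ) ^ 2 * (J * J') * h2 + J * J' * hεC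
      rw [← h3]
      linear_combination (Q3 : ℂ) ^ 2 * hζ
    exact_mod_cast h1
  have kY1 : ((d00 + d10 + d20 - (d02 + d12 + d22) + ε : ℤ) : ℂ) +
      ((d01 + d11 + d21) + (d02 + d12 + d22) : ℤ) * ζ = 0 := by
    push_cast
    linear_combination hY1
  obtain ⟨kY1a, kY1b⟩ := int_basis hζ kY1
  have kY3 : d00 + d10 + d20 - (d01 + d11 + d21) + (d02 + d12 + d22) + ε = 0 := by
    have h1 : ((d00 + d10 + d20 - (d01 + d11 + d21) + (d02 + d12 + d22) + ε : ℤ) : ℂ) = 0 := by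
      push_cast
      linear_combination hY3 - (((d01 : ℂ) + d11 + d21) * (ζ + 1) +
        ((d02 : ℂ) + d12 + d22) * (ζ - 2)) * hζ
    exact_mod_cast h1
  refine ⟨c, ε, d00, d01, hmul, hεc, hsurj, rfl, rfl, ?_, ?_, ?_, ?_, ?_, ?_, ?_, ?_⟩
  · omega
  · omega
  · omega
  · omega
  · omega
  · omega
  · omega
  · have e1 : 2 * P3 = 3 * d00 - 3 * d01 + ε := by omega
    have e2 : Q3 = 3 * d01 := by omega
    have e3' : (2 * P3 + Q3) ^ 2 + 3 * Q3 ^ 2 = 4 * (p : ℤ) := by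
      rw [← kn]; ring
    rw [e1, e2] at e3'
    rw [← e3']; ring

end Pool.Agent.Lib.MP42b82d
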