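import Pool.Agent.Lib.MP_42b82d_co.H78Plane
import Pool.Agent.Lib.MP_42b82d_co.H78Class

/-!
# The split torus: margins of class functions
-/

set_option autoImplicit false
open Finset

namespace Pool.Agent.Lib.MP42b82d

variable {p : ℕ} [hp : Fact p.Prime]

/-- the sign function of the class pattern `F` -/
def fP (c : ZMod p → ZMod 6) (F : ZMod 3 → ZMod 6 → ℤ) (m : ZMod 6 → ℤ)
    (w : Fin 3 → ZMod p) : ℤ :=
  if w 2 = 0 ∨ w 1 = 0 then 1
  else if w 0 = 0 then m (c (w 1 / w 2))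
  else F (red3 (c (4 * (w 0 / w 2)))) (c (w 1 / w 2))

/-- the signed count of the pattern `F` on the line of class `(a, b)` -/
def marg (D : ZMod 3 → ZMod 6 → ℤ) (F : ZMod 3 → ZMod 6 → ℤ) (a : ZMod 3) (b : ZMod 6) : ℤ :=
  ∑ u : ZMod 3, ∑ v ∈ ({0, 1, 2} : Finset (ZMod 6)), D u v * F (u - a) (v - b)

/-- the sum of the pattern over a coset -/
def colS (F : ZMod 3 → ZMod 6 → ℤ) (v : ZMod 6) : ℤ := F 0 v + F 1 v + F 2 v

/-- majority signs -/
def maj (F : ZMod 3 → ZMod 6 → ℤ) (κ v : ZMod 6) : ℤ := if 0 < colS F (κ - v) then 1 else -1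

lemma fP_smul (c : ZMod p → ZMod 6) (F : ZMod 3 → ZMod 6 → ℤ) (m : ZMod 6 → ℤ)
    (k : ZMod p) (w : Fin 3 → ZMod p) (hk : k ≠ 0) : fP c F m (k • w) = fP c F m w := by
  unfold fP
  have e1 : (k • w) 2 = 0 ↔ w 2 = 0 := by
    rw [Pi.smul_apply, smul_eq_mul, mul_eq_zero]; tauto
  have e2 : (k • w) 1 = 0 ↔ w 1 = 0 := by
    rw [Pi.smul_apply, smul_eq_mul, mul_eq_zero]; tauto
  have e3 : (k • w) 0 = 0 ↔ w 0 = 0 := by
    rw [Pi.smul_apply, smul_eq_mul, mul_eq_zero]; tauto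
  have e4 : (k • w) 1 / (k • w) 2 = w 1 / w 2 := by
    rw [Pi.smul_apply, Pi.smul_apply, smul_eq_mul, smul_eq_mul, mul_div_mul_left _ _ hk]
  have e5 : (k • w) 0 / (k • w) 2 = w 0 / w 2 := by
    rw [Pi.smul_apply, Pi.smul_apply, smul_eq_mul, smul_eq_mul, mul_div_mul_left _ _ hk]
  simp only [e1, e2, e3, e4, e5]

section

variable {F G : ZMod 3 → ZMod 6 → ℤ} (hF : ∀ u v, F u (v + 3) = -F u v)
  (hF1 : ∀ u v, F u v = 1 ∨ F u v = -1)

include hF1 in
lemma colS_odd (v : ZMod 6) : 1 ≤ colS F v ∨ colS F v ≤ -1 := by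
  unfold colS
  rcases hF1 0 v with h | h <;> rcases hF1 1 v with h' | h' <;> rcases hF1 2 v with h'' | h'' <;>
    rw [h, h', h''] <;> norm_num

include hF hF1 in
lemma maj_neg (κ v : ZMod 6) : maj F κ (v + 3) = -maj F κ v := by
  have h1 : colS F (κ - (v + 3)) = -colS F (κ - v) := by
    have e : κ - (v + 3) = (κ - v) + 3 := by
      have h6 : (6 : ZMod 6) = 0 := rfl
      linear_combination (-1 : ZMod 6) * h6
    rw [e]
    unfold colS
    rw [hF, hF, hF]; ring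
  unfold maj
  rw [h1]
  rcases colS_odd hF1 (κ - v) with h | h
  · rw [if_neg (by omega), if_pos (by omega)]
  · rw [if_pos (by omega), if_neg (by omega)]; norm_num

lemma maj_pm (κ v : ZMod 6) : maj F κ v = 1 ∨ maj F κ v = -1 := by
  unfold maj
  split_ifs
  · left; rfl
  · right; rfl

include hF1 in
lemma maj_mul (κ v : ZMod 6) : 1 ≤ maj F κ v * colS F (κ - v) := by
  unfold maj
  rcases colS_odd hF1 (κ - v) with h | h
  · rw [if_pos (by omega), one_mul]; exact h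
  · rw [if_neg (by omega)]; linarith

lemma fP_pm (hF1 : ∀ u v, F u v = 1 ∨ F u v = -1) {m : ZMod 6 → ℤ} (hm : ∀ v, m v = 1 ∨ m v = -1)
    (c : ZMod p → ZMod 6) (w : Fin 3 → ZMod p) : fP c F m w = 1 ∨ fP c F m w = -1 := by
  unfold fP
  split_ifs
  · left; rfl
  · exact hm _
  · exact hF1 _ _

end

section

variable {c : ZMod p → ZMod 6} (hc : ∀ x y, x ≠ 0 → y ≠ 0 → c (x * y) = c x + c y)

include hc

lemma c_one : c 1 = 0 := by
  have h := hc 1 1 one_ne_zero one_ne_zero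
  rw [mul_one] at h
  linear_combination -h

lemma c_inv {x : ZMod p} (hx : x ≠ 0) : c x⁻¹ = -c x := by
  have h := hc x x⁻¹ hx (inv_ne_zero hx)
  rw [mul_inv_cancel₀ hx, c_one hc] at h
  linear_combination -h

lemma c_div {x y : ZMod p} (hx : x ≠ 0) (hy : y ≠ 0) : c (x / y) = c x - c y := by
  rw [div_eq_mul_inv, hc _ _ hx (inv_ne_zero hy), c_inv hc hy]; ring

/-- shifting a sum over `F_p^*` -/
lemma sum_shift (g : ZMod p → ℤ) (r : ZMod p) (hr : r ≠ 0) :
    ∑ x ∈ univ.erase (0 : ZMod p), g (r * x) = ∑ x ∈ univ.erase (0 : ZMod p), g x := by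
  classical
  apply sum_nbij' (fun x => r * x) (fun x => r⁻¹ * x)
  · intro x hx
    exact mem_erase.2 ⟨mul_ne_zero hr (ne_of_mem_erase hx), mem_univ _⟩
  · intro x hx
    exact mem_erase.2 ⟨mul_ne_zero (inv_ne_zero hr) (ne_of_mem_erase hx), mem_univ _⟩
  · intro x _
    rw [← mul_assoc, inv_mul_cancel₀ hr, one_mul]
  · intro x _
    rw [← mul_assoc, mul_inv_cancel₀ hr, one_mul]
  · intro x _
    rfl

lemma exists_three (hr : ∃ r, r ≠ 0 ∧ c r = 1) : ∃ r, r ≠ 0 ∧ c r = 3 := by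
  obtain ⟨r, hr0, hr1⟩ := hr
  refine ⟨r * (r * r), mul_ne_zero hr0 (mul_ne_zero hr0 hr0), ?_⟩
  rw [hc _ _ hr0 (mul_ne_zero hr0 hr0), hc _ _ hr0 hr0, hr1]
  rfl

/-- sums of odd functions of the class vanish -/
lemma sum_odd (hr : ∃ r, r ≠ 0 ∧ c r = 1) (g : ZMod p → ℤ)
    (hg : ∀ r x, r ≠ 0 → x ≠ 0 → c r = 3 → g (r * x) = -g x) :
    ∑ x ∈ univ.erase (0 : ZMod p), g x = 0 := by
  obtain ⟨r, hr0, hr3⟩ := exists_three hc hr
  have h1 := sum_shift hc g r hr0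
  have h2 : ∑ x ∈ univ.erase (0 : ZMod p), g (r * x) = ∑ x ∈ univ.erase (0 : ZMod p), -g x :=
    sum_congr rfl fun x hx => hg r x hr0 (ne_of_mem_erase hx) hr3
  rw [h2, sum_neg_distrib] at h1
  omega

/-- sums over cosets -/
lemma sum_third (hr : ∃ r, r ≠ 0 ∧ c r = 1) (h : ZMod 3 → ℤ) (k : ZMod p) (hk : k ≠ 0) :
    3 * ∑ x ∈ univ.erase (0 : ZMod p), h (red3 (c (k * x))) =
      ((p : ℤ) - 1) * (h 0 + h 1 + h 2) := by
  obtain ⟨r, hr0, hr1⟩ := hr
  have hp1 : ((univ.erase (0 : ZMod p)).card : ℤ) = (p : ℤ) - 1 := by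
    rw [card_erase_of_mem (mem_univ _), card_univ, ZMod.card, Nat.cast_sub hp.out.one_lt.le]
    norm_num
  have h1 : ∀ j : ℕ, ∑ x ∈ univ.erase (0 : ZMod p), h (red3 (c (k * x)) + j) =
      ∑ x ∈ univ.erase (0 : ZMod p), h (red3 (c (k * x))) := by
    intro j
    induction j with
    | zero => simp
    | succ j ih =>
      rw [← ih, ← sum_shift hc (fun x => h (red3 (c (k * x)) + j)) r hr0]
      apply sum_congr rfl
      intro x hx
      have hx0 := ne_of_mem_erase hx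
      have e : k * (r * x) = r * (k * x) := by ring
      simp only [e]
      rw [hc r (k * x) hr0 (mul_ne_zero hk hx0), hr1, map_add, map_one]
      congr 1
      push_cast; ring
  have h2 : ∀ z : ZMod 3, h z + h (z + 1) + h (z + 2) = h 0 + h 1 + h 2 := by
    intro z
    fin_cases z
    · rfl
    · show h 1 + h 2 + h 0 = _
      ring
    · show h 2 + h 0 + h 1 = _
      ring
  have h3 : ∑ x ∈ univ.erase (0 : ZMod p), (h (red3 (c (k * x))) + h (red3 (c (k * x)) + 1) +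
      h (red3 (c (k * x)) + 2)) = ((p : ℤ) - 1) * (h 0 + h 1 + h 2) := by
    rw [sum_congr rfl fun x _ => h2 _, sum_const, nsmul_eq_mul, hp1]
  rw [sum_add_distrib, sum_add_distrib] at h3
  have h4 := h1 1
  have h5 := h1 2
  push_cast at h4 h5
  rw [h4, h5] at h3
  linarith

end

end Pool.Agent.Lib.MP42b82d
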