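import Pool.Agent.Lib.MP_42b82d_co.H78Line
import Pool.Agent.Lib.MP_42b82d_co.H78Rel

/-!
# Intimacy of `PG(2, p)` for `p = 1 mod 3`
-/

set_option autoImplicit false
open Finset

namespace Pool.Agent.Lib.MP42b82d

/-- sign patterns -/
def pat (l : List ℤ) (u : ZMod 3) (v : ZMod 6) : ℤ :=
  if v.val < 3 then l.getD (3 * u.val + v.val) 1 else -l.getD (3 * u.val + (v.val - 3)) 1

/-- twice the signed count of a pattern as a linear form in `e`, `b`, `ε` -/
def coef (F G : ZMod 3 → ZMod 6 → ℤ) (a : ZMod 3) (b : ZMod 6) : ℤ × ℤ × ℤ :=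
  (2 * (G a b * F (0 - a) (0 - b)) - G a b * F (1 - a) (0 - b) - G a b * F (2 - a) (0 - b),
    2 * (G a b * F (0 - a) (1 - b)) + 2 * (G a b * F (0 - a) (2 - b)) + G a b * F (1 - a) (0 - b)
      - 2 * (G a b * F (1 - a) (1 - b)) - G a b * F (2 - a) (0 - b)
      - 2 * (G a b * F (2 - a) (2 - b)),
    -(G a b * F (1 - a) (0 - b)) - G a b * F (2 - a) (0 - b))

/-- the finite check for a pair of patterns -/
def Good (l l' : List ℤ) (fs : List (ℤ × ℤ × ℤ)) : Prop :=
  (∀ u v, (pat l u (v + 3) = -pat l u v ∧ pat l' u (v + 3) = -pat l' u v) ∧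
    (pat l u v = 1 ∨ pat l u v = -1) ∧ (pat l' u v = 1 ∨ pat l' u v = -1)) ∧
  ∀ a b, coef (pat l) (pat l') a b ∈ fs ∧ coef (pat l') (pat l) a b ∈ fs

lemma good1pp : Good [1, 1, 1, -1, -1, -1, -1, -1, -1] [1, -1, -1, -1, 1, 1, -1, 1, 1]
    [(2, -6, 0), (2, -2, 0), (2, 2, 0), (2, 6, 0), (4, -8, 2), (4, 0, 2), (4, 8, 2)] := by
  unfold Good; decide

lemma good1nn : Good [1, 1, 1, -1, -1, -1, -1, -1, -1] [-1, 1, 1, 1, -1, -1, 1, -1, -1]
    [(-4, -8, -2), (-4, 0, -2), (-4, 8, -2), (-2, -6, 0), (-2, -2, 0), (-2, 2, 0), (-2, 6, 0)] := by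
  unfold Good; decide

lemma good2pp : Good [-1, 1, 1, 1, -1, -1, -1, -1, -1] [1, -1, -1, -1, 1, 1, 1, 1, 1]
    [(-2, 10, 0), (2, -2, 0), (2, 2, 0), (2, 6, 0), (4, -4, 2), (4, 0, 2), (4, 4, 2)] := by
  unfold Good; decide

lemma good2nn : Good [-1, 1, 1, 1, -1, -1, -1, -1, -1] [-1, 1, 1, 1, -1, -1, -1, -1, -1]
    [(-4, -4, -2), (-4, 0, -2), (-4, 4, -2), (-2, -6, 0), (-2, -2, 0), (-2, 2, 0), (2, -10, 0)] := by
  unfold Good; decide

lemma good2pn : Good [-1, -1, -1, -1, 1, 1, 1, 1, 1] [1, 1, 1, 1, -1, -1, -1, -1, -1]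
    [(-2, -10, 0), (2, -6, 0), (2, -2, 0), (2, 2, 0), (4, -4, 2), (4, 0, 2), (4, 4, 2)] := by
  unfold Good; decide

lemma good2np : Good [-1, -1, -1, -1, 1, 1, 1, 1, 1] [-1, -1, -1, -1, 1, 1, 1, 1, 1]
    [(-4, -4, -2), (-4, 0, -2), (-4, 4, -2), (-2, -2, 0), (-2, 2, 0), (-2, 6, 0), (2, 10, 0)] := by
  unfold Good; decide

lemma good3pp : Good [1, 1, 1, -1, 1, -1, -1, -1, -1] [1, 1, -1, -1, -1, 1, -1, 1, -1]
    [(-4, 8, -2), (-2, 10, 0), (2, 2, 0), (4, 4, 2)] := by
  unfold Good; decide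

lemma good3nn : Good [1, 1, 1, -1, 1, -1, -1, -1, -1] [-1, -1, 1, 1, 1, -1, 1, -1, 1]
    [(-4, -4, -2), (-2, -2, 0), (2, -10, 0), (4, -8, 2)] := by
  unfold Good; decide

lemma good3pn : Good [1, -1, -1, -1, 1, 1, -1, 1, -1] [1, 1, -1, -1, 1, -1, -1, -1, 1]
    [(-4, -8, -2), (-2, -10, 0), (2, -2, 0), (4, -4, 2)] := by
  unfold Good; decide

lemma good3np : Good [1, -1, -1, -1, 1, 1, -1, 1, -1] [-1, -1, 1, 1, -1, 1, 1, 1, -1]
    [(-4, 4, -2), (-2, 2, 0), (2, 10, 0), (4, 8, 2)] := by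
  unfold Good; decide


lemma marg_coef (D : ZMod 3 → ZMod 6 → ℤ) (e b ε : ℤ) (h00 : D 0 0 = e) (h01 : D 0 1 = b)
    (h02 : D 0 2 = b) (h10 : 2 * D 1 0 = b - e - ε) (h11 : D 1 1 = -b) (h12 : D 1 2 = 0)
    (h20 : 2 * D 2 0 = -b - e - ε) (h21 : D 2 1 = 0) (h22 : D 2 2 = -b)
    (F G : ZMod 3 → ZMod 6 → ℤ) (a : ZMod 3) (k : ZMod 6) :
    2 * (G a k * marg D F a k) =
      (coef F G a k).1 * e + (coef F G a k).2.1 * b + (coef F G a k).2.2 * ε := by
  unfold marg coef
  have hs2 : ∀ f : ZMod 6 → ℤ, ∑ v ∈ ({0, 1, 2} : Finset (ZMod 6)), f v = f 0 + f 1 + f 2 := by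
    intro f
    rw [sum_insert (by decide), sum_insert (by decide), sum_singleton]; ring
  have hs3 : ∀ f : ZMod 3 → ℤ, ∑ u : ZMod 3, f u = f 0 + f 1 + f 2 := fun f =>
    Fin.sum_univ_three f
  rw [hs3, hs2, hs2, hs2, h00, h01, h02, h11, h12, h21, h22]
  linear_combination (G a k * F (1 - a) (0 - k)) * h10 + (G a k * F (2 - a) (0 - k)) * h20

theorem split_final {p : ℕ} [hp : Fact p.Prime] (hp13 : 13 ≤ p) {c : ZMod p → ZMod 6}
    (hc : ∀ x y, x ≠ 0 → y ≠ 0 → c (x * y) = c x + c y) (hr : ∃ r, r ≠ 0 ∧ c r = 1)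
    {e b ε : ℤ} (h00 : DD c 0 0 = e) (h01 : DD c 0 1 = b)
    (h02 : DD c 0 2 = b) (h10 : 2 * DD c 1 0 = b - e - ε) (h11 : DD c 1 1 = -b)
    (h12 : DD c 1 2 = 0)
    (h20 : 2 * DD c 2 0 = -b - e - ε) (h21 : DD c 2 1 = 0) (h22 : DD c 2 2 = -b)
    {l l' : List ℤ} {fs : List (ℤ × ℤ × ℤ)} (hg : Good l l' fs)
    (hfs : ∀ f ∈ fs, 9 ≤ f.1 * e + f.2.1 * b + f.2.2 * ε) :
    1 ≤ intimacy (PGGraph p) := by
  obtain ⟨g1, g2⟩ := hg
  have m1 : ∀ a k, 5 ≤ pat l' a k * marg (DD c) (pat l) a k := by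
    intro a k
    have h := marg_coef (DD c) e b ε h00 h01 h02 h10 h11 h12 h20 h21 h22 (pat l) (pat l') a k
    have h' := hfs _ (g2 a k).1
    omega
  have m2 : ∀ a k, 5 ≤ pat l a k * marg (DD c) (pat l') a k := by
    intro a k
    have h := marg_coef (DD c) e b ε h00 h01 h02 h10 h11 h12 h20 h21 h22 (pat l') (pat l) a k
    have h' := hfs _ (g2 a k).2
    omega
  have o1 : ∀ u v, pat l u (v + 3) = -pat l u v := fun u v => (g1 u v).1.1
  have o2 : ∀ u v, pat l' u (v + 3) = -pat l' u v := fun u v => (g1 u v).1.2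
  have s1 : ∀ u v, pat l u v = 1 ∨ pat l u v = -1 := fun u v => (g1 u v).2.1
  have s2 : ∀ u v, pat l' u v = 1 ∨ pat l' u v = -1 := fun u v => (g1 u v).2.2
  apply le_intimacy 1 (sideA (dotB p) (fP c (pat l) (maj (pat l') (c (-1))))
    (fP c (pat l') (maj (pat l) (c (-1)))))
  apply internal_of_signs (dotB p) dotB_sep
  · exact fun x => fP_pm s1 (fun v => maj_pm _ _) c x
  · exact fun x => fP_pm s2 (fun v => maj_pm _ _) c x
  · exact fun k x hk _ => fP_smul c _ _ k x hk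
  · exact fun k x hk _ => fP_smul c _ _ k x hk
  · intro a ha
    exact line_margin hp13 hc hr o1 o2 s1 s2 m1 a ha
  · intro x hx
    have h := line_margin hp13 hc hr o2 o1 s2 s1 m2 x hx
    have e1 : univ.filter (fun w : Fin 3 → ZMod p => w ≠ 0 ∧ dotB p x w = 0) =
        univ.filter (fun a : Fin 3 → ZMod p => a ≠ 0 ∧ dotB p a x = 0) := by
      ext w
      simp only [mem_filter, mem_univ, true_and, dotB_comm x w]
    rw [e1] at h
    exact h
  · refine ⟨![1, 0, 0], ?_, ?_⟩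
    · intro h
      exact one_ne_zero (congrFun h 0)
    · rw [fP_mk, if_pos (Or.inl rfl)]
  · -- a point with sign `-1`
    obtain ⟨r, hr0, hr3⟩ := exists_three hc hr
    rcases s1 (red3 (c (4 * 1))) (c 1) with h | h
    · refine ⟨![1, r, 1], ?_, ?_⟩
      · intro h
        exact one_ne_zero (congrFun h 0)
      · have e1 : c r = c 1 + 3 := by
          rw [c_one hc, hr3, zero_add]
        rw [fP_mk, if_neg, if_neg one_ne_zero, div_one, div_one, e1, o1, h]
        rintro (h | h)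
        · exact one_ne_zero h
        · exact hr0 h
    · refine ⟨![1, 1, 1], ?_, ?_⟩
      · intro h
        exact one_ne_zero (congrFun h 0)
      · rw [fP_mk, if_neg, if_neg one_ne_zero, div_one, h]
        rintro (h | h)
        · exact one_ne_zero h
        · exact one_ne_zero h

/-- The intimacy of `PG(2, p)` is at least one for all large primes `p = 1 mod 6`. -/
theorem split_main (p : ℕ) [hp : Fact p.Prime] (hp0 : 40000 ≤ p) (h6 : 6 ∣ p - 1) :
    1 ≤ intimacy (PGGraph p) := by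
  obtain ⟨c, ε, e, b, hc, hε, hr, h00, h01, h02, h10, h11, h12, h20, h21, h22, hN⟩ :=
    class_numbers (p := p) h6
  have hp' : (40000 : ℤ) ≤ (p : ℤ) := by exact_mod_cast hp0
  have hε1 : ε = 1 ∨ ε = -1 := by
    rcases hε with ⟨h, _⟩ | ⟨h, _⟩
    · left; exact h
    · right; exact h
  have hbig : (60 ≤ e ∨ e ≤ -60) ∨ (60 ≤ b ∨ b ≤ -60) := by
    by_contra hcon
    push Not at hcon
    obtain ⟨⟨h1, h2⟩, h3, h4⟩ := hcon
    have h5 : (3 * e + ε) ^ 2 ≤ 181 ^ 2 := by
      apply sq_le_sq'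
      · rcases hε1 with h | h <;> rw [h] <;> linarith
      · rcases hε1 with h | h <;> rw [h] <;> linarith
    have h6 : b ^ 2 ≤ 60 ^ 2 := by
      apply sq_le_sq' <;> linarith
    nlinarith
  have hp13 : 13 ≤ p := by omega
  have fin := fun {l l' : List ℤ} {fs : List (ℤ × ℤ × ℤ)} (hg : Good l l' fs) hfs =>
    split_final hp13 hc hr h00 h01 h02 h10 h11 h12 h20 h21 h22 hg hfs
  rcases le_total 0 e with he | he <;> rcases le_total 0 b with hb | hb
  · rcases le_total (4 * b) e with h1 | h1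
    · apply fin good1pp
      intro f hf
      fin_cases hf <;> simp only <;> omega
    · rcases le_total (4 * b) (3 * e) with h2 | h2
      · apply fin good2pp
        intro f hf
        fin_cases hf <;> simp only <;> omega
      · apply fin good3pp
        intro f hf
        fin_cases hf <;> simp only <;> omega
  · rcases le_total (-(4 * b)) e with h1 | h1
    · apply fin good1pp
      intro f hf
      fin_cases hf <;> simp only <;> omega
    · rcases le_total (-(4 * b)) (3 * e) with h2 | h2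
      · apply fin good2pn
        intro f hf
        fin_cases hf <;> simp only <;> omega
      · apply fin good3pn
        intro f hf
        fin_cases hf <;> simp only <;> omega
  · rcases le_total (4 * b) (-e) with h1 | h1
    · apply fin good1nn
      intro f hf
      fin_cases hf <;> simp only <;> omega
    · rcases le_total (4 * b) (3 * -e) with h2 | h2
      · apply fin good2np
        intro f hf
        fin_cases hf <;> simp only <;> omega
      · apply fin good3np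
        intro f hf
        fin_cases hf <;> simp only <;> omega
  · rcases le_total (-(4 * b)) (-e) with h1 | h1
    · apply fin good1nn
      intro f hf
      fin_cases hf <;> simp only <;> omega
    · rcases le_total (-(4 * b)) (3 * -e) with h2 | h2
      · apply fin good2nn
        intro f hf
        fin_cases hf <;> simp only <;> omega
      · apply fin good3nn
        intro f hf
        fin_cases hf <;> simp only <;> omega

end Pool.Agent.Lib.MP42b82d
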