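import Pool.Agent.Lib.MP_42b82d_co.PgPat

/-!
# The case p = 7 mod 16: explicit patterns
-/

set_option linter.unusedSectionVars false
set_option linter.unusedVariables false
set_option linter.unusedSimpArgs false

namespace Pool.Agent.Lib.MP_42b82d_co

open Finset

/-- the class differences for `m = 16` -/
def vec8 (a b c d : ℤ) : ℕ → ℤ := fun j => match j with
  | 0 => a
  | 1 => b
  | 2 => c
  | 3 => d
  | 4 => 0
  | 5 => d
  | 6 => -c
  | 7 => b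
  | _ => 0

/-- there is a good pair of patterns -/
def Good8 (c : ℕ → ℤ) : Prop := ∃ X Y : ℕ, rowsOK 8 c X Y ∧ rowsOK 8 c Y X

section cones

variable {a b c d : ℤ}

theorem c2n (ha : 0 < a) (hb : 0 < b) (hd : 0 < d) (hc : c < 0)
    (h1 : 3 ≤ a - 2 * b)
    (h2 : 3 ≤ a + 2 * b - 2 * c - 2 * d) :
    Good8 (vec8 a b c d) := by
  refine ⟨12, 158, ?_, ?_⟩ <;>
  · intro i hi
    interval_cases i <;>
    · simp [vec8, sum_range_succ, sb, Nat.testBit]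
      omega

theorem c3p (ha : 0 < a) (hb : 0 < b) (hd : 0 < d) (hc : 0 < c)
    (h1 : 3 ≤ a - 2 * b - 2 * c)
    (h2 : 3 ≤ a + 2 * b - 2 * d) :
    Good8 (vec8 a b c d) := by
  refine ⟨24, 206, ?_, ?_⟩ <;>
  · intro i hi
    interval_cases i <;>
    · simp [vec8, sum_range_succ, sb, Nat.testBit]
      omega

theorem c4n (ha : 0 < a) (hb : 0 < b) (hd : 0 < d) (hc : c < 0)
    (h1 : 3 ≤ -a - 2 * c - 2 * d)
    (h2 : 3 ≤ -a + 2 * d) :
    Good8 (vec8 a b c d) := by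
  refine ⟨0, 128, ?_, ?_⟩ <;>
  · intro i hi
    interval_cases i <;>
    · simp [vec8, sum_range_succ, sb, Nat.testBit]
      omega

theorem c5p (ha : 0 < a) (hb : 0 < b) (hd : 0 < d) (hc : 0 < c)
    (h1 : 3 ≤ a - 2 * b + 2 * c - 2 * d)
    (h2 : 3 ≤ a - 2 * d) :
    Good8 (vec8 a b c d) := by
  refine ⟨2, 126, ?_, ?_⟩ <;>
  · intro i hi
    interval_cases i <;>
    · simp [vec8, sum_range_succ, sb, Nat.testBit]
      omega

theorem c6p (ha : 0 < a) (hb : 0 < b) (hd : 0 < d) (hc : 0 < c)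
    (h1 : 3 ≤ a - 2 * b - 2 * d) :
    Good8 (vec8 a b c d) := by
  refine ⟨0, 254, ?_, ?_⟩ <;>
  · intro i hi
    interval_cases i <;>
    · simp [vec8, sum_range_succ, sb, Nat.testBit]
      omega

theorem c7n (ha : 0 < a) (hb : 0 < b) (hd : 0 < d) (hc : c < 0)
    (h1 : 3 ≤ -a - 2 * b - 2 * c + 2 * d)
    (h2 : 3 ≤ -a + 2 * b)
    (h3 : 3 ≤ a - 2 * c - 2 * d)
    (h4 : 3 ≤ a) :
    Good8 (vec8 a b c d) := by
  refine ⟨14, 188, ?_, ?_⟩ <;>
  · intro i hi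
    interval_cases i <;>
    · simp [vec8, sum_range_succ, sb, Nat.testBit]
      omega

theorem c8n (ha : 0 < a) (hb : 0 < b) (hd : 0 < d) (hc : c < 0)
    (h1 : 3 ≤ -a - 2 * b - 2 * c)
    (h2 : 3 ≤ -a + 2 * d)
    (h3 : 3 ≤ -a + 2 * b - 2 * c - 2 * d)
    (h4 : 3 ≤ a) :
    Good8 (vec8 a b c d) := by
  refine ⟨8, 132, ?_, ?_⟩ <;>
  · intro i hi
    interval_cases i <;>
    · simp [vec8, sum_range_succ, sb, Nat.testBit]
      omega

theorem c11n (ha : 0 < a) (hb : 0 < b) (hd : 0 < d) (hc : c < 0)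
    (h1 : 3 ≤ -a + 2 * d)
    (h2 : 3 ≤ a)
    (h3 : 3 ≤ a + 2 * c + 2 * d) :
    Good8 (vec8 a b c d) := by
  refine ⟨2, 244, ?_, ?_⟩ <;>
  · intro i hi
    interval_cases i <;>
    · simp [vec8, sum_range_succ, sb, Nat.testBit]
      omega

theorem c12p (ha : 0 < a) (hb : 0 < b) (hd : 0 < d) (hc : 0 < c)
    (h1 : 3 ≤ -a - 2 * b + 2 * c)
    (h2 : 3 ≤ -a + 2 * b - 2 * d) :
    Good8 (vec8 a b c d) := by
  refine ⟨24, 56, ?_, ?_⟩ <;>
  · intro i hi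
    interval_cases i <;>
    · simp [vec8, sum_range_succ, sb, Nat.testBit]
      omega

theorem c13p (ha : 0 < a) (hb : 0 < b) (hd : 0 < d) (hc : 0 < c)
    (h1 : 3 ≤ -a + 2 * d)
    (h2 : 3 ≤ a + 2 * c - 2 * d) :
    Good8 (vec8 a b c d) := by
  refine ⟨0, 248, ?_, ?_⟩ <;>
  · intro i hi
    interval_cases i <;>
    · simp [vec8, sum_range_succ, sb, Nat.testBit]
      omega

theorem c15n (ha : 0 < a) (hb : 0 < b) (hd : 0 < d) (hc : c < 0)
    (h1 : 3 ≤ -a + 2 * b - 2 * c)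
    (h2 : 3 ≤ -a + 2 * b + 2 * c + 2 * d)
    (h3 : 3 ≤ a + 2 * c)
    (h4 : 3 ≤ a + 2 * b - 2 * d) :
    Good8 (vec8 a b c d) := by
  refine ⟨6, 124, ?_, ?_⟩ <;>
  · intro i hi
    interval_cases i <;>
    · simp [vec8, sum_range_succ, sb, Nat.testBit]
      omega

theorem c16p (ha : 0 < a) (hb : 0 < b) (hd : 0 < d) (hc : 0 < c)
    (h1 : 3 ≤ -a + 2 * b + 2 * d)
    (h2 : 3 ≤ a - 2 * d) :
    Good8 (vec8 a b c d) := by
  refine ⟨0, 252, ?_, ?_⟩ <;>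
  · intro i hi
    interval_cases i <;>
    · simp [vec8, sum_range_succ, sb, Nat.testBit]
      omega

theorem c16n (ha : 0 < a) (hb : 0 < b) (hd : 0 < d) (hc : c < 0)
    (h1 : 3 ≤ -a + 2 * b + 2 * d)
    (h2 : 3 ≤ a + 2 * c - 2 * d) :
    Good8 (vec8 a b c d) := by
  refine ⟨0, 252, ?_, ?_⟩ <;>
  · intro i hi
    interval_cases i <;>
    · simp [vec8, sum_range_succ, sb, Nat.testBit]
      omega

theorem c18n (ha : 0 < a) (hb : 0 < b) (hd : 0 < d) (hc : c < 0)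
    (h1 : 3 ≤ -a - 2 * c)
    (h2 : 3 ≤ -a + 2 * d)
    (h3 : 3 ≤ a + 2 * c + 2 * d) :
    Good8 (vec8 a b c d) := by
  refine ⟨0, 192, ?_, ?_⟩ <;>
  · intro i hi
    interval_cases i <;>
    · simp [vec8, sum_range_succ, sb, Nat.testBit]
      omega

theorem c19p (ha : 0 < a) (hb : 0 < b) (hd : 0 < d) (hc : 0 < c)
    (h1 : 3 ≤ -a + 2 * b)
    (h2 : 3 ≤ -a + 2 * b + 2 * c - 2 * d)
    (h3 : 3 ≤ a)
    (h4 : 3 ≤ a + 2 * b - 2 * c - 2 * d) :
    Good8 (vec8 a b c d) := by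
  refine ⟨12, 60, ?_, ?_⟩ <;>
  · intro i hi
    interval_cases i <;>
    · simp [vec8, sum_range_succ, sb, Nat.testBit]
      omega

theorem c20p (ha : 0 < a) (hb : 0 < b) (hd : 0 < d) (hc : 0 < c)
    (h1 : 3 ≤ -a + 2 * b - 2 * d)
    (h2 : 3 ≤ a - 2 * c) :
    Good8 (vec8 a b c d) := by
  refine ⟨24, 156, ?_, ?_⟩ <;>
  · intro i hi
    interval_cases i <;>
    · simp [vec8, sum_range_succ, sb, Nat.testBit]
      omega

theorem c20n (ha : 0 < a) (hb : 0 < b) (hd : 0 < d) (hc : c < 0)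
    (h1 : 3 ≤ -a + 2 * b - 2 * d)
    (h2 : 3 ≤ -a + 2 * b + 2 * c) :
    Good8 (vec8 a b c d) := by
  refine ⟨24, 156, ?_, ?_⟩ <;>
  · intro i hi
    interval_cases i <;>
    · simp [vec8, sum_range_succ, sb, Nat.testBit]
      omega

theorem c21p (ha : 0 < a) (hb : 0 < b) (hd : 0 < d) (hc : 0 < c)
    (h1 : 3 ≤ -a - 2 * c + 2 * d) :
    Good8 (vec8 a b c d) := by
  refine ⟨0, 240, ?_, ?_⟩ <;>
  · intro i hi
    interval_cases i <;>
    · simp [vec8, sum_range_succ, sb, Nat.testBit]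
      omega

theorem c25p (ha : 0 < a) (hb : 0 < b) (hd : 0 < d) (hc : 0 < c)
    (h1 : 3 ≤ -a + 2 * c)
    (h2 : 3 ≤ -a + 2 * b - 2 * d)
    (h3 : 3 ≤ a + 2 * b - 2 * c) :
    Good8 (vec8 a b c d) := by
  refine ⟨24, 24, ?_, ?_⟩ <;>
  · intro i hi
    interval_cases i <;>
    · simp [vec8, sum_range_succ, sb, Nat.testBit]
      omega

end cones

end Pool.Agent.Lib.MP_42b82d_co
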