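import Pool.Agent.Lib.MP_42b82d_co.PgPat

/-!
# Patterns for index 24, p = 11 mod 24
-/

set_option linter.unusedSectionVars false
set_option linter.unusedVariables false
set_option linter.unusedSimpArgs false
set_option maxHeartbeats 4000000

namespace Pool.Agent.Lib.MP_42b82d_co

open Finset

/-- the class differences for `m = 24` -/
def vec12 (a b c d : ℤ) : ℕ → ℤ := fun j => match j with
  | 0 => a
  | 1 => b
  | 2 => c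
  | 3 => d
  | 4 => -a
  | 5 => -b
  | 6 => 0
  | 7 => -b
  | 8 => a
  | 9 => d
  | 10 => -c
  | 11 => b
  | _ => 0

/-- there is a good pair of patterns -/
def Good12 (c : ℕ → ℤ) : Prop := ∃ X Y : ℕ, rowsOK 12 c X Y ∧ rowsOK 12 c Y X

variable {a b c d : ℤ}

theorem d1 (h0 : 1 ≤ a) (h1 : 3 ≤ 3 * a - 2 * (2 * b + d)) (hB : 0 < 2 * b + d) :
    Good12 (vec12 a b c d) := by
  refine ⟨240, 3614, ?_, ?_⟩ <;>
    (intro i hi; interval_cases i <;>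
      (simp [vec12, sum_range_succ, sb, Nat.testBit]; omega))

theorem d2 (h0 : 1 ≤ a) (h1 : 3 ≤ 2 * (2 * b + d) - 3 * a) :
    Good12 (vec12 a b c d) := by
  refine ⟨240, 3132, ?_, ?_⟩ <;>
    (intro i hi; interval_cases i <;>
      (simp [vec12, sum_range_succ, sb, Nat.testBit]; omega))

theorem d3 (h1 : 3 ≤ -a + 2 * c) (h2 : 3 ≤ -a + 4 * b + 2 * d)
    (h3 : 3 ≤ -a + 4 * b + 2 * c + 2 * d) (h4 : 3 ≤ a - 4 * b + 2 * c - 2 * d) (h5 : 3 ≤ a)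
    (h6 : 3 ≤ 3 * a + 2 * d) (h7 : 3 ≤ 3 * a + 4 * b - 2 * d) :
    Good12 (vec12 a b c d) := by
  refine ⟨114, 3262, ?_, ?_⟩ <;>
    (intro i hi; interval_cases i <;>
      (simp [vec12, sum_range_succ, sb, Nat.testBit]; omega))

theorem d4 (h1 : 3 ≤ -3 * a - 2 * b + 2 * d) (h2 : 3 ≤ -a - 2 * b + 2 * c)
    (h3 : 3 ≤ -a + 2 * b + 2 * d) (h4 : 3 ≤ -a + 2 * b + 2 * c + 2 * d)
    (h5 : 3 ≤ a - 4 * b + 2 * c) (h6 : 3 ≤ a + 2 * d) (h7 : 3 ≤ a + 2 * b)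
    (h8 : 3 ≤ a + 2 * b + 2 * c) (h9 : 3 ≤ 3 * a - 2 * b - 2 * c + 2 * d)
    (h10 : 3 ≤ 3 * a + 2 * c) :
    Good12 (vec12 a b c d) := by
  refine ⟨108, 3321, ?_, ?_⟩ <;>
    (intro i hi; interval_cases i <;>
      (simp [vec12, sum_range_succ, sb, Nat.testBit]; omega))

theorem d5 (h1 : 3 ≤ -3 * a + 4 * b) (h2 : 3 ≤ a + 4 * b + 2 * d)
    (h3 : 3 ≤ 3 * a - 2 * b - 2 * d) (h4 : 3 ≤ 3 * a - 2 * c) (h5 : 3 ≤ 3 * a)
    (h6 : 3 ≤ 3 * a + 2 * d) (h7 : 3 ≤ 3 * a + 2 * c) (h8 : 3 ≤ 3 * a + 2 * b) :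
    Good12 (vec12 a b c d) := by
  refine ⟨120, 2108, ?_, ?_⟩ <;>
    (intro i hi; interval_cases i <;>
      (simp [vec12, sum_range_succ, sb, Nat.testBit]; omega))

theorem d6 (h1 : 3 ≤ -3 * a - 4 * b - 2 * c + 2 * d) (h2 : 3 ≤ -a + 2 * c + 2 * d)
    (h3 : 3 ≤ -a + 2 * b + 2 * d) (h4 : 3 ≤ -a + 2 * b + 2 * c + 2 * d)
    (h5 : 3 ≤ a - 4 * b + 2 * c) (h6 : 3 ≤ a - 2 * b) (h7 : 3 ≤ a - 2 * b + 2 * c)
    (h8 : 3 ≤ a) (h9 : 3 ≤ 3 * a - 2 * c + 2 * d) (h10 : 3 ≤ 3 * a + 2 * d) :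
    Good12 (vec12 a b c d) := by
  refine ⟨118, 3518, ?_, ?_⟩ <;>
    (intro i hi; interval_cases i <;>
      (simp [vec12, sum_range_succ, sb, Nat.testBit]; omega))

end Pool.Agent.Lib.MP_42b82d_co
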