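import Pool.Agent.Lib.MP_42b82d_co.PgCover12

/-!
# The six cones cover everything for p = 11 mod 24
-/

set_option linter.unusedSectionVars false
set_option linter.unusedVariables false
set_option linter.unusedSimpArgs false
set_option maxHeartbeats 4000000

namespace Pool.Agent.Lib.MP_42b82d_co

lemma sq_mod8 (x : ℤ) : (∃ k, x ^ 2 = 4 * k ∧ x % 2 = 0) ∨ (∃ k, x ^ 2 = 8 * k + 1 ∧ x % 2 = 1) := by
  rcases Int.even_or_odd' x with ⟨k, hk | hk⟩
  · left
    exact ⟨k ^ 2, by rw [hk]; ring, by omega⟩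
  · right
    obtain ⟨r, hr⟩ := Int.even_mul_succ_self k
    refine ⟨r, ?_, by omega⟩
    rw [hk]
    linear_combination 4 * hr

theorem cover12 (p a b c d : ℤ) (ha : 0 < a) (hc : 0 < c) (hB : 0 < 2 * b + d)
    (h1 : 9 * a ^ 2 + 2 * (2 * b + d) ^ 2 = p) (h2 : 3 * c ^ 2 + 2 * (b - d) ^ 2 = p)
    (hp : p % 24 = 11) (h11 : 11 < p) : Good12 (vec12 a b c d) := by
  obtain ⟨B, hBd⟩ : ∃ B, B = 2 * b + d := ⟨_, rfl⟩
  obtain ⟨x, hx⟩ : ∃ x, x = b - d := ⟨_, rfl⟩
  rw [← hBd] at h1 hB
  rw [← hx] at h2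
  have oa : a % 2 = 1 ∧ B % 2 = 1 := by
    rcases sq_mod8 a with ⟨k, hk, ok⟩ | ⟨k, hk, ok⟩ <;>
    rcases sq_mod8 B with ⟨l, hl, ol⟩ | ⟨l, hl, ol⟩ <;> omega
  have oc : c % 2 = 1 ∧ x % 2 = 0 := by
    rcases sq_mod8 c with ⟨k, hk, ok⟩ | ⟨k, hk, ok⟩ <;>
    rcases sq_mod8 x with ⟨l, hl, ol⟩ | ⟨l, hl, ol⟩ <;> omega
  obtain ⟨oa, oB⟩ := oa
  obtain ⟨oc, ox⟩ := oc
  by_cases k1 : 3 ≤ 3 * a - 2 * B
  · exact d1 (by omega) (by omega) (by omega)
  by_cases k2 : 3 ≤ 2 * B - 3 * a
  · exact d2 (by omega) (by omega)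
  obtain ⟨e, he, he'⟩ : ∃ e : ℤ, (e = 1 ∨ e = -1) ∧ 3 * a = 2 * B + e :=
    ⟨3 * a - 2 * B, by omega, by ring⟩
  have a3 : 3 ≤ a := by
    by_contra h
    have h' : a = 1 := by omega
    subst h'
    have hB1 : B = 1 := by omega
    rw [hB1] at h1
    omega
  have e2 : e ^ 2 = 1 := by rcases he with rfl | rfl <;> norm_num
  -- p in terms of B
  have hp6 : p = 6 * B ^ 2 + 4 * (e * B) + 1 := by
    rw [← h1]
    linear_combination (3 * a + 2 * B + e) * he' + e2
  have hd : d = B - 2 * b := by omega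
  have hxb : x = 3 * b - B := by omega
  have heB : e * B ≤ B ∧ - B ≤ e * B := by
    rcases he with rfl | rfl <;> constructor <;> linarith
  obtain ⟨heB1, heB2⟩ := heB
  have hB4 : 4 ≤ B := by omega
  have hx2 : x ^ 2 < (2 * B) ^ 2 := by nlinarith [sq_nonneg (B - 1)]
  have hxlt : x < 2 * B := lt_of_pow_lt_pow_left₀ 2 (by omega) hx2
  have hc2 : c < 2 * B := by
    apply lt_of_pow_lt_pow_left₀ 2 (by omega)
    nlinarith [sq_nonneg x]
  rcases le_or_gt 1 b with hb | hb
  · -- positive `b`
    by_cases hca : a < c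
    · exact d3 (by omega) (by omega) (by omega) (by omega) a3 (by omega) (by omega)
    · have hca' : c ≤ a := by omega
      have hcsq : c ^ 2 ≤ a ^ 2 := by nlinarith
      have hxsq : 3 * a ^ 2 + B ^ 2 ≤ x ^ 2 := by nlinarith
      have hxB : B < x := by
        by_contra hcon
        have h3 : x ≤ B := by omega
        have h4 : - B ≤ x := by omega
        have h5 : x ^ 2 ≤ B ^ 2 := sq_le_sq' h4 h3
        nlinarith [mul_pos ha ha]
      exact d5 (by omega) (by omega) (by omega) (by omega) (by omega) (by omega) (by omega)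
        (by omega)
  · have hb1 : b ≤ -1 := by omega
    by_cases hcase : 2 * c ≤ a + 2 * b + 1
    · have hcsq : 4 * c ^ 2 ≤ a ^ 2 := by nlinarith
      have hxsq : 33 * a ^ 2 + 8 * B ^ 2 ≤ 8 * x ^ 2 := by nlinarith
      have hkey : a + 5 ≤ -10 * b := by
        by_contra hcon
        have h3 : -10 * b ≤ a + 4 := by omega
        have h4 : -10 * x ≤ 10 * B + 3 * a + 12 := by omega
        have h5 : (10 * x) ^ 2 ≤ (10 * B + 3 * a + 12) ^ 2 := by
          have : (10 * x) ^ 2 = (-10 * x) ^ 2 := by ring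
          rw [this]
          exact pow_le_pow_left₀ (by omega) h4 2
        nlinarith
      exact d6 (by omega) (by omega) (by omega) (by omega) (by omega) (by omega) (by omega)
        (by omega) (by omega) (by omega)
    · have hab : 2 ≤ a + 2 * b := by
        by_contra hcon
        have h3 : a + 2 * b ≤ 1 := by omega
        have h4 : 4 * B + e - 3 ≤ -2 * x := by omega
        have h5 : (4 * B + e - 3) ^ 2 ≤ (-2 * x) ^ 2 :=
          pow_le_pow_left₀ (by omega) h4 2
        have h6 : 4 * x ^ 2 ≤ 12 * B ^ 2 + 8 * (e * B) - 4 := by nlinarith [mul_pos hc hc]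
        have h8 : 4 * B ^ 2 - 24 * B - 6 * e + 14 ≤ 0 := by linarith [h5, h6, e2]
        have h7 : B ≤ 5 := by
          by_contra h
          have h9 : 6 ≤ B := by omega
          have h10 : 0 ≤ B * (B - 6) := mul_nonneg (by omega) (by omega)
          have h11 : e ≤ 1 := by rcases he with rfl | rfl <;> norm_num
          linarith [h8, h10, h11]
        have hB5 : B = 5 := by omega
        subst hB5
        have he1 : e = -1 := by omega
        subst he1
        have hx8 : -8 ≤ x := by
          by_contra h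
          have : x ≤ -9 := by omega
          nlinarith
        have hb1' : b = -1 := by omega
        have hxe : x = -8 := by omega
        subst hxe
        have hcc : (c - 1) * (c + 1) = 0 := by linarith
        have hc1 : c = 1 := by
          rcases mul_eq_zero.1 hcc with h | h <;> omega
        omega
      exact d4 (by omega) (by omega) (by omega) (by omega) (by omega) (by omega) (by omega)
        (by omega) (by omega) (by omega)

end Pool.Agent.Lib.MP_42b82d_co
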