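import Pool.Agent.Lib.MP_42b82d_co.PgCover12b

/-!
# Patterns for index 24, p = 19 mod 24
-/

set_option linter.unusedSectionVars false
set_option linter.unusedVariables false
set_option linter.unusedSimpArgs false
set_option maxHeartbeats 4000000

namespace Pool.Agent.Lib.MP_42b82d_co

open Finset

/-- the class differences for `m = 24`, p = 19 mod 24 -/
def vec19 (x y z b : ℤ) : ℕ → ℤ := fun j => match j with
  | 0 => x
  | 1 => b
  | 2 => 0
  | 3 => b
  | 4 => -y
  | 5 => -b
  | 6 => 0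
  | 7 => -b
  | 8 => z
  | 9 => b
  | 10 => 0
  | 11 => b
  | _ => 0

variable {x y z b : ℤ}

theorem k1 (hb : 0 < b) (h0 : 0 < x + y + z) (h1 : 3 ≤ x + y + z - 6 * b) :
    Good12 (vec19 x y z b) := by
  refine ⟨240, 3614, ?_, ?_⟩ <;>
    (intro i hi; interval_cases i <;>
      (simp [vec19, sum_range_succ, sb, Nat.testBit]; omega))

theorem k2 (hb : 0 < b) (h0 : 3 ≤ x + y + z) (h1 : 3 ≤ 6 * b - (x + y + z)) :
    Good12 (vec19 x y z b) := by
  refine ⟨240, 3132, ?_, ?_⟩ <;>
    (intro i hi; interval_cases i <;>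
      (simp [vec19, sum_range_succ, sb, Nat.testBit]; omega))

theorem k3 (h1 : 3 ≤ -x - y - z + 4 * b) (h2 : 3 ≤ -x + y - z + 2 * b)
    (h3 : 3 ≤ x - y - z - 2 * b) (h4 : 3 ≤ x - y - z + 2 * b) (h5 : 3 ≤ x - y + z + 2 * b)
    (h6 : 3 ≤ x + y - z - 2 * b) (h7 : 3 ≤ x + y - z + 2 * b) (h8 : 3 ≤ x + y + z + 4 * b) :
    Good12 (vec19 x y z b) := by
  refine ⟨52, 246, ?_, ?_⟩ <;>
    (intro i hi; interval_cases i <;>
      (simp [vec19, sum_range_succ, sb, Nat.testBit]; omega))

theorem k4 (h1 : 3 ≤ -x - y - z + 2 * b) (h2 : 3 ≤ -x - y - z + 4 * b)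
    (h3 : 3 ≤ -x + y - z) (h4 : 3 ≤ x - y - z) (h5 : 3 ≤ x + y - z)
    (h6 : 3 ≤ x + y + z + 6 * b) :
    Good12 (vec19 x y z b) := by
  refine ⟨176, 244, ?_, ?_⟩ <;>
    (intro i hi; interval_cases i <;>
      (simp [vec19, sum_range_succ, sb, Nat.testBit]; omega))

theorem k5 (h1 : 3 ≤ -x - y - z + 2 * b) (h2 : 3 ≤ -x - y - z + 4 * b)
    (h3 : 3 ≤ x - y - z) (h4 : 3 ≤ x - y + z) (h5 : 3 ≤ x + y - z)
    (h6 : 3 ≤ x + y + z + 6 * b) :
    Good12 (vec19 x y z b) := by
  refine ⟨176, 1268, ?_, ?_⟩ <;>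
    (intro i hi; interval_cases i <;>
      (simp [vec19, sum_range_succ, sb, Nat.testBit]; omega))

theorem k6 (h1 : 3 ≤ -x + y - z + 6 * b) (h2 : 3 ≤ x - y - z + 6 * b)
    (h3 : 3 ≤ x + y - z - 6 * b) (h4 : 3 ≤ x + y + z - 2 * b) (h5 : 3 ≤ x + y + z)
    (h6 : 3 ≤ x + y + z + 4 * b) :
    Good12 (vec19 x y z b) := by
  refine ⟨112, 3134, ?_, ?_⟩ <;>
    (intro i hi; interval_cases i <;>
      (simp [vec19, sum_range_succ, sb, Nat.testBit]; omega))

theorem k7 (h1 : 3 ≤ x - y - z - 2 * b) (h2 : 3 ≤ x - y - z) (h3 : 3 ≤ x - y - z + 2 * b)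
    (h4 : 3 ≤ x - y + z - 2 * b) (h5 : 3 ≤ x - y + z) (h6 : 3 ≤ x - y + z + 2 * b)
    (h7 : 3 ≤ x + y - z - 2 * b) (h8 : 3 ≤ x + y - z) (h9 : 3 ≤ x + y - z + 2 * b) :
    Good12 (vec19 x y z b) := by
  refine ⟨0, 4094, ?_, ?_⟩ <;>
    (intro i hi; interval_cases i <;>
      (simp [vec19, sum_range_succ, sb, Nat.testBit]; omega))

theorem cover19 (p x y z b : ℤ) (hb : 0 < b) (hA : 0 < x + y + z) (hxy : y ≤ x) (hyz : z ≤ y)
    (h1 : x ^ 2 + y ^ 2 + z ^ 2 + 6 * b ^ 2 = p)
    (h2 : x * y + y * z + z * x = - 6 * b ^ 2) (hp : p % 24 = 19) (h19 : 19 < p) :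
    Good12 (vec19 x y z b) := by
  obtain ⟨A, hAd⟩ : ∃ A, A = x + y + z := ⟨_, rfl⟩
  have hAp : A ^ 2 + 18 * b ^ 2 = p := by
    rw [hAd, ← h1]; linear_combination 2 * h2
  have oA : A % 2 = 1 := by
    rcases sq_mod8 A with ⟨k, hk, ok⟩ | ⟨k, hk, ok⟩ <;> omega
  have hz0 : z < 0 := by
    by_contra h
    have hz : 0 ≤ z := by omega
    have hy : 0 ≤ y := by omega
    have hx : 0 ≤ x := by omega
    nlinarith [mul_nonneg hx hy, mul_nonneg hy hz, mul_nonneg hz hx, mul_pos hb hb]
  by_cases c1 : 3 ≤ A - 6 * b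
  · exact k1 hb hA (by omega)
  by_cases c2 : 3 ≤ 6 * b - A
  · by_cases c3 : 3 ≤ A
    · exact k2 hb (by omega) (by omega)
    · have hA1 : A = 1 := by omega
      have hb2 : 2 ≤ b := by
        by_contra h
        have hb1 : b = 1 := by omega
        rw [hb1, hA1] at hAp
        omega
      have hx2 : 2 ≤ x := by
        by_contra h
        have hx1 : x ≤ 1 := by omega
        have : -1 ≤ z := by omega
        have : -1 ≤ y := by omega
        nlinarith
      by_cases hy2 : 2 ≤ y
      · exact k4 (by omega) (by omega) (by omega) (by omega) (by omega) (by omega)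
      · by_cases hy1 : y ≤ -1
        · exact k5 (by omega) (by omega) (by omega) (by omega) (by omega) (by omega)
        · have hy : y = 0 ∨ y = 1 := by omega
          rcases hy with rfl | rfl
          · have hzz : z = 1 - x := by omega
            have hxx : x * (x - 1) = 6 * b ^ 2 := by
              rw [hzz] at h2
              linear_combination -h2
            have hxb : b + 2 ≤ x := by
              by_contra h
              have h' : x ≤ b + 1 := by omega
              nlinarith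
            exact k3 (by omega) (by omega) (by omega) (by omega) (by omega) (by omega)
              (by omega) (by omega)
          · exfalso
            have hzz : z = - x := by omega
            have hxx : x ^ 2 = 6 * b ^ 2 := by
              rw [hzz] at h2
              linear_combination -h2
            have hA' : A ^ 2 = 1 := by rw [hA1]; norm_num
            rcases sq_mod8 x with ⟨k, hk, ok⟩ | ⟨k, hk, ok⟩ <;>
            rcases sq_mod8 b with ⟨l, hl, ol⟩ | ⟨l, hl, ol⟩ <;> omega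
  · obtain ⟨e, he, he'⟩ : ∃ e : ℤ, (e = 1 ∨ e = -1) ∧ A = 6 * b + e :=
      ⟨A - 6 * b, by omega, by ring⟩
    by_cases hy2 : 2 ≤ y
    · have hz2 : z ≤ -2 := by
        by_contra h
        have hz1 : z = -1 := by omega
        rw [hz1] at h2
        nlinarith [mul_pos hb hb, mul_nonneg (by omega : (0:ℤ) ≤ x - 1) (by omega : (0:ℤ) ≤ y - 1)]
      exact k6 (by omega) (by omega) (by omega) (by omega) (by omega) (by omega)
    · by_cases hspec : b = 1 ∧ e = -1 ∧ y = 1
      · exfalso
        obtain ⟨rfl, rfl, rfl⟩ := hspec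
        have hzz : z = 4 - x := by omega
        have hxx : (x - 2) ^ 2 = 14 := by
          rw [hzz] at h2
          linear_combination -h2
        have hx1 : x - 2 < 4 := by nlinarith
        have hx2 : 3 < x - 2 := by nlinarith
        omega
      · have : y ≤ 0 ∨ (y = 1 ∧ (2 ≤ b ∨ e = 1)) := by omega
        exact k7 (by omega) (by omega) (by omega) (by omega) (by omega) (by omega) (by omega)
          (by omega) (by omega)

end Pool.Agent.Lib.MP_42b82d_co
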