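import Pool.Agent.Lib.MP_42b82d_co.PgPat

/-!
# Patterns for index 12
-/

set_option linter.unusedSectionVars false
set_option linter.unusedVariables false
set_option linter.unusedSimpArgs false
set_option maxHeartbeats 4000000

namespace Pool.Agent.Lib.MP_42b82d_co

open Finset

/-- the class differences for `m = 12` -/
def vec6 (a b c d : ℤ) : ℕ → ℤ := fun j => match j with
  | 0 => a
  | 1 => b
  | 2 => c
  | 3 => d
  | 4 => -c
  | 5 => b
  | _ => 0

/-- there is a good pair of patterns -/
def Good6 (c : ℕ → ℤ) : Prop := ∃ X Y : ℕ, rowsOK 6 c X Y ∧ rowsOK 6 c Y X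

/-- family (iii), sign + -/
theorem fam3p (s t : ℤ) (hs : 0 < s) (ho : (s + t) % 2 = 1) (hex : ¬ (s = 1 ∧ t = 0)) :
    Good6 (vec6 s (-(s - t)) (s - t) t) := by
  by_cases h1 : 3 ≤ s + t
  · rcases lt_trichotomy s t with h2 | h2 | h2
    · refine ⟨12, 38, ?_, ?_⟩ <;>
        (intro i hi; interval_cases i <;>
          (simp [vec6, sum_range_succ, sb, Nat.testBit]; omega))
    · omega
    · refine ⟨12, 51, ?_, ?_⟩ <;>
        (intro i hi; interval_cases i <;>
          (simp [vec6, sum_range_succ, sb, Nat.testBit]; omega))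
  · by_cases h2 : 3 ≤ -s - t
    · refine ⟨12, 25, ?_, ?_⟩ <;>
        (intro i hi; interval_cases i <;>
          (simp [vec6, sum_range_succ, sb, Nat.testBit]; omega))
    · by_cases h3 : s + t = -1
      · refine ⟨6, 35, ?_, ?_⟩ <;>
          (intro i hi; interval_cases i <;>
            (simp [vec6, sum_range_succ, sb, Nat.testBit]; omega))
      · have h4 : s + t = 1 := by omega
        have h5 : 3 ≤ s ∨ s = 2 := by omega
        rcases h5 with h5 | h5
        · refine ⟨6, 35, ?_, ?_⟩ <;>
            (intro i hi; interval_cases i <;>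
              (simp [vec6, sum_range_succ, sb, Nat.testBit]; omega))
        · refine ⟨6, 35, ?_, ?_⟩ <;>
            (intro i hi; interval_cases i <;>
              (simp [vec6, sum_range_succ, sb, Nat.testBit]; omega))

/-- family (iii), sign - -/
theorem fam3n (s t : ℤ) (hs : 0 < s) (ho : (s + t) % 2 = 1) (hex : ¬ (s = 1 ∧ t = 0)) :
    Good6 (vec6 s (s - t) (s - t) (-t)) := by
  by_cases h1 : 3 ≤ s + t
  · rcases lt_trichotomy s t with h2 | h2 | h2
    · refine ⟨12, 38, ?_, ?_⟩ <;>
        (intro i hi; interval_cases i <;>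
          (simp [vec6, sum_range_succ, sb, Nat.testBit]; omega))
    · omega
    · refine ⟨12, 12, ?_, ?_⟩ <;>
        (intro i hi; interval_cases i <;>
          (simp [vec6, sum_range_succ, sb, Nat.testBit]; omega))
  · by_cases h2 : 3 ≤ -s - t
    · refine ⟨12, 25, ?_, ?_⟩ <;>
        (intro i hi; interval_cases i <;>
          (simp [vec6, sum_range_succ, sb, Nat.testBit]; omega))
    · by_cases h3 : s + t = -1
      · refine ⟨4, 24, ?_, ?_⟩ <;>
          (intro i hi; interval_cases i <;>
            (simp [vec6, sum_range_succ, sb, Nat.testBit]; omega))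
      · have h4 : s + t = 1 := by omega
        refine ⟨4, 24, ?_, ?_⟩ <;>
          (intro i hi; interval_cases i <;>
            (simp [vec6, sum_range_succ, sb, Nat.testBit]; omega))

/-- family (iv) -/
theorem fam4 (a t : ℤ) (ha : 0 < a) (ht : t ≠ 0) (ho : (a + t) % 2 = 1)
    (hex : 13 < a ^ 2 + 9 * t ^ 2) (hex2 : a ^ 2 + 9 * t ^ 2 ≠ 25) :
    Good6 (vec6 a (2 * t) 0 t) := by
  rcases lt_or_gt_of_ne ht with ht | ht
  · by_cases h1 : 3 ≤ -3 * t - a
    · refine ⟨12, 51, ?_, ?_⟩ <;>
        (intro i hi; interval_cases i <;>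
          (simp [vec6, sum_range_succ, sb, Nat.testBit]; omega))
    · by_cases h2 : 3 ≤ a + 3 * t
      · refine ⟨12, 38, ?_, ?_⟩ <;>
          (intro i hi; interval_cases i <;>
            (simp [vec6, sum_range_succ, sb, Nat.testBit]; omega))
      · by_cases h3 : t = -1
        · exfalso
          subst h3
          have h4 : a = 2 ∨ a = 4 := by omega
          rcases h4 with rfl | rfl
          · norm_num at hex
          · norm_num at hex2
        · refine ⟨0, 63, ?_, ?_⟩ <;>
            (intro i hi; interval_cases i <;>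
              (simp [vec6, sum_range_succ, sb, Nat.testBit]; omega))
  · by_cases h1 : 3 ≤ 3 * t - a
    · refine ⟨12, 12, ?_, ?_⟩ <;>
        (intro i hi; interval_cases i <;>
          (simp [vec6, sum_range_succ, sb, Nat.testBit]; omega))
    · by_cases h2 : 3 ≤ a - 3 * t
      · refine ⟨12, 38, ?_, ?_⟩ <;>
          (intro i hi; interval_cases i <;>
            (simp [vec6, sum_range_succ, sb, Nat.testBit]; omega))
      · by_cases h3 : t = 1
        · exfalso
          subst h3
          have h4 : a = 2 ∨ a = 4 := by omega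
          rcases h4 with rfl | rfl
          · norm_num at hex
          · norm_num at hex2
        · refine ⟨0, 60, ?_, ?_⟩ <;>
            (intro i hi; interval_cases i <;>
              (simp [vec6, sum_range_succ, sb, Nat.testBit]; omega))

/-- family (v) -/
theorem fam5 (s B : ℤ) (hB : 0 < B) (hs : s ≠ 0) (ho : (s + B) % 2 = 1)
    (hex : 13 < 9 * s ^ 2 + B ^ 2) (hex2 : 9 * s ^ 2 + B ^ 2 ≠ 25) :
    Good6 (vec6 s 0 (2 * s) B) := by
  rcases lt_or_gt_of_ne hs with hs | hs
  · by_cases h1 : 3 ≤ -3 * s - B
    · refine ⟨12, 38, ?_, ?_⟩ <;>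
        (intro i hi; interval_cases i <;>
          (simp [vec6, sum_range_succ, sb, Nat.testBit]; omega))
    · by_cases h2 : 3 ≤ B + 3 * s
      · refine ⟨12, 51, ?_, ?_⟩ <;>
          (intro i hi; interval_cases i <;>
            (simp [vec6, sum_range_succ, sb, Nat.testBit]; omega))
      · by_cases h3 : s = -1
        · exfalso
          subst h3
          have h4 : B = 2 ∨ B = 4 := by omega
          rcases h4 with rfl | rfl
          · norm_num at hex
          · norm_num at hex2
        · refine ⟨0, 32, ?_, ?_⟩ <;>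
            (intro i hi; interval_cases i <;>
              (simp [vec6, sum_range_succ, sb, Nat.testBit]; omega))
  · by_cases h1 : 3 ≤ 3 * s - B
    · refine ⟨12, 25, ?_, ?_⟩ <;>
        (intro i hi; interval_cases i <;>
          (simp [vec6, sum_range_succ, sb, Nat.testBit]; omega))
    · by_cases h2 : 3 ≤ B - 3 * s
      · refine ⟨12, 51, ?_, ?_⟩ <;>
          (intro i hi; interval_cases i <;>
            (simp [vec6, sum_range_succ, sb, Nat.testBit]; omega))
      · by_cases h3 : s = 1
        · exfalso
          subst h3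
          have h4 : B = 2 ∨ B = 4 := by omega
          rcases h4 with rfl | rfl
          · norm_num at hex
          · norm_num at hex2
        · refine ⟨0, 56, ?_, ?_⟩ <;>
            (intro i hi; interval_cases i <;>
              (simp [vec6, sum_range_succ, sb, Nat.testBit]; omega))

end Pool.Agent.Lib.MP_42b82d_co
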