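import Pool.Agent.Lib.MP_42b82d_co.PgCones8

/-!
# The case p = 7 mod 16: every admissible vector has a good pair of patterns
-/

set_option linter.unusedSectionVars false
set_option linter.unusedVariables false
set_option linter.unusedSimpArgs false

namespace Pool.Agent.Lib.MP_42b82d_co

open Finset

lemma mod8_aux : ∀ b d s t : ZMod 8, (s = 1 ∨ s = -1) → (t = 1 ∨ t = -1) →
    (2 * (2 * d + 1) + s) * ((2 * (2 * d + 1) + s) + 2 * (2 * b + 1) - t)
      ≠ (2 * b + 1) ^ 2 - 2 * (2 * b + 1) * (2 * d + 1) - (2 * d + 1) ^ 2 := by
  decide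

lemma mod8_int (b d s t : ℤ) (hs : s = 1 ∨ s = -1) (ht : t = 1 ∨ t = -1)
    (h : (2 * (2 * d + 1) + s) * ((2 * (2 * d + 1) + s) + 2 * (2 * b + 1) - t)
      = (2 * b + 1) ^ 2 - 2 * (2 * b + 1) * (2 * d + 1) - (2 * d + 1) ^ 2) : False := by
  have h' := congrArg (Int.cast : ℤ → ZMod 8) h
  push_cast at h'
  refine mod8_aux (b : ZMod 8) (d : ZMod 8) (s : ZMod 8) (t : ZMod 8) ?_ ?_ h'
  · rcases hs with rfl | rfl <;> simp
  · rcases ht with rfl | rfl <;> simp

/-- positive `c` -/
theorem cover8_pos (a b c d : ℤ) (ha : 0 < a) (hb : 0 < b) (hd : 0 < d) (hc : 0 < c)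
    (oa : Odd a) (ob : Odd b) (oc : Odd c) (od : Odd d)
    (hQ : 2 * (a * c) = b ^ 2 - 2 * (b * d) - d ^ 2)
    (hex : ¬ (a = 1 ∧ b = 3 ∧ c = 1 ∧ d = 1)) : Good8 (vec8 a b c d) := by
  obtain ⟨a', ha'⟩ := oa
  obtain ⟨b', hb'⟩ := ob
  obtain ⟨c', hc'⟩ := oc
  obtain ⟨d', hd'⟩ := od
  have hac : 0 < a * c := mul_pos ha hc
  have hb2 : 2 * d + 1 ≤ b := by
    by_contra h
    push Not at h
    have h1 : b ≤ 2 * d := by omega
    have h2 : b * (b - 2 * d) ≤ 0 := mul_nonpos_of_nonneg_of_nonpos hb.le (by linarith)
    nlinarith [mul_pos hd hd]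
  rcases lt_or_ge (2 * d + 2) a with h1 | h1
  · -- a ≥ 2d+3
    by_cases h2 : 3 ≤ a - 2 * b - 2 * d
    · exact c6p ha hb hd hc h2
    · by_cases h3 : 3 ≤ -a + 2 * b + 2 * d
      · exact c16p ha hb hd hc h3 (by omega)
      · by_cases h4 : a = 2 * b + 2 * d + 1
        · exact c5p ha hb hd hc (by omega) (by omega)
        · have h5 : a = 2 * b + 2 * d - 1 := by omega
          by_cases h6 : 3 ≤ c
          · exact c5p ha hb hd hc (by omega) (by omega)
          · have h7 : c = 1 := by omega
            by_cases h8 : 3 ≤ d
            · exact c3p ha hb hd hc (by omega) (by omega)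
            · exfalso
              have h9 : d = 1 := by omega
              subst h7 h9
              rw [h5] at hQ
              rcases le_or_gt b 6 with h10 | h10
              · nlinarith
              · nlinarith
  · rcases lt_or_ge a (2 * d - 2) with h2 | h2
    · -- a ≤ 2d-3
      by_cases h3 : 3 ≤ a + 2 * c - 2 * d
      · exact c13p ha hb hd hc (by omega) h3
      · by_cases h4 : 3 ≤ -a - 2 * c + 2 * d
        · exact c21p ha hb hd hc h4
        · by_cases h5 : 3 ≤ a
          · exact c19p ha hb hd hc (by omega) (by omega) h5 (by omega)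
          · have h6 : a = 1 := by omega
            have h7 : c = d := by omega
            exact c25p ha hb hd hc (by omega) (by omega) (by omega)
    · -- a = 2d ± 1
      have h3 : 2 * d + 3 ≤ b := by
        by_contra h
        have h4 : b = 2 * d + 1 := by omega
        subst h4
        have h5 : d ≤ 2 := by
          by_contra h6
          push Not at h6
          nlinarith
        have h6 : d = 1 := by omega
        subst h6
        have h7 : a * c = 1 := by nlinarith
        have h8 : a = 1 := by
          rcases le_or_gt a 1 with h | h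
          · omega
          · nlinarith
        have h9 : c = 1 := by
          rw [h8] at h7
          linarith
        exact hex ⟨h8, by norm_num, h9, rfl⟩
      by_cases h4 : 3 ≤ a - 2 * c
      · exact c20p ha hb hd hc (by omega) h4
      · by_cases h5 : 3 ≤ -a + 2 * c
        · by_cases h6 : 3 ≤ a + 2 * b - 2 * c
          · exact c25p ha hb hd hc h5 (by omega) h6
          · by_cases h7 : 3 ≤ -a - 2 * b + 2 * c
            · exact c12p ha hb hd hc h7 (by omega)
            · exfalso
              -- a = 2d + s, 2c = a + 2b - t
              have hs : a - 2 * d = 1 ∨ a - 2 * d = -1 := by omega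
              have ht : a + 2 * b - 2 * c = 1 ∨ a + 2 * b - 2 * c = -1 := by omega
              apply mod8_int b' d' (a - 2 * d) (a + 2 * b - 2 * c) hs ht
              rw [← hb', ← hd']
              have e1 : 2 * d + (a - 2 * d) = a := by ring
              rw [e1]
              have e2 : a + 2 * b - (a + 2 * b - 2 * c) = 2 * c := by ring
              rw [e2]
              linear_combination hQ
        · by_cases h6 : 3 ≤ a
          · exact c19p ha hb hd hc (by omega) (by omega) h6 (by omega)
          · exfalso
            have h7 : a = 1 := by omega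
            have h8 : d = 1 := by omega
            have h9 : c = 1 := by omega
            subst h7 h8 h9
            nlinarith

/-- negative `c` -/
theorem cover8_neg (a b c d : ℤ) (ha : 0 < a) (hb : 0 < b) (hd : 0 < d) (hc : c < 0)
    (oa : Odd a) (ob : Odd b) (oc : Odd c) (od : Odd d)
    (hQ : 2 * (a * c) = b ^ 2 - 2 * (b * d) - d ^ 2)
    (hex : ¬ (a = 1 ∧ b = 1 ∧ c = -1 ∧ d = 1)) : Good8 (vec8 a b c d) := by
  obtain ⟨a', ha'⟩ := oa
  obtain ⟨b', hb'⟩ := ob
  obtain ⟨c', hc'⟩ := oc
  obtain ⟨d', hd'⟩ := od
  obtain ⟨e, he⟩ : ∃ e, e = -c := ⟨_, rfl⟩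
  have he0 : 0 < e := by omega
  have hce : c = -e := by omega
  have hQ' : 2 * (a * e) = 2 * d ^ 2 - (b - d) ^ 2 := by
    rw [hce] at hQ
    linear_combination -hQ
  have hae : 0 < a * e := mul_pos ha he0
  have hd3 : 3 ≤ d := by
    by_contra h
    have h1 : d = 1 := by omega
    subst h1
    have h2 : b ≤ 2 := by
      by_contra h3
      push Not at h3
      nlinarith
    have h3 : b = 1 := by omega
    subst h3
    have h4 : a * e = 1 := by nlinarith
    have h5 : a = 1 := by
      rcases le_or_gt a 1 with h | h
      · omega
      · nlinarith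
    have h6 : e = 1 := by
      rw [h5] at h4
      linarith
    exact hex ⟨h5, rfl, by omega, rfl⟩
  rcases lt_or_ge a (2 * d - 2) with h1 | h1
  · -- a ≤ 2d - 3
    by_cases h2 : 3 ≤ a
    · by_cases h3 : 3 ≤ a + 2 * c + 2 * d
      · exact c11n ha hb hd hc (by omega) h2 h3
      · by_cases h4 : 3 ≤ -a - 2 * c - 2 * d
        · exact c4n ha hb hd hc h4 (by omega)
        · -- wall: 2e = a + 2d + s
          obtain ⟨s, hs⟩ : ∃ s, s = 2 * e - a - 2 * d := ⟨_, rfl⟩
          have hs' : s = 1 ∨ s = -1 := by omega
          have hE : a * (a + 2 * d + s) = 2 * d ^ 2 - (b - d) ^ 2 := by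
            rw [← hQ', hs]
            ring
          rcases lt_or_ge b d with h5 | h5
          · have h5' : b ≤ d - 2 := by omega
            by_cases h6 : 3 ≤ 2 * b + s
            · exact c8n ha hb hd hc (by omega) (by omega) (by omega) h2
            · have h7 : b = 1 := by omega
              have h8 : s = -1 := by omega
              by_cases h9 : 5 ≤ a
              · exact c2n ha hb hd hc (by omega) (by omega)
              · exfalso
                have h10 : a = 3 := by omega
                rw [h7, h8, h10] at hE
                rcases le_or_gt d 5 with h11 | h11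
                · nlinarith
                · nlinarith
          · by_cases h6 : 3 ≤ 4 * d - 2 * b + s
            · exact c7n ha hb hd hc (by omega) (by omega) (by omega) h2
            · have h7 : 2 * d - 1 ≤ b := by omega
              have h8 : (d - 1) ^ 2 ≤ (b - d) ^ 2 := by
                apply pow_le_pow_left₀ (by omega)
                omega
              have h9 : a ≤ d - 3 := by
                by_contra h10
                push Not at h10
                have h11 : d - 2 ≤ a := by omega
                rcases le_or_gt d 4 with h12 | h12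
                · have h13 : d = 3 := by omega
                  have h14 : a = 3 := by omega
                  rw [h13, h14] at hE
                  rw [h13] at h8
                  rcases hs' with h | h <;> rw [h] at hE <;> nlinarith
                · have h13 : (d - 2) * (3 * d - 3) ≤ a * (a + 2 * d + s) := by
                    apply mul_le_mul h11 (by rcases hs' with h | h <;> omega) (by omega) ha.le
                  nlinarith
              exact c20n ha hb hd hc (by omega) (by omega)
    · have h3 : a = 1 := by omega
      have hQ1 : 2 * e = 2 * d ^ 2 - (b - d) ^ 2 := by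
        rw [← hQ', h3]; ring
      have hlow : ∀ (_ : e ≤ d), d + 2 ≤ b := by
        intro h4
        by_contra h5
        push Not at h5
        have h6 : b ≤ d := by omega
        have h7 : (b - d) ^ 2 ≤ (d - 1) ^ 2 := by
          rw [← neg_sub d b, neg_sq]
          apply pow_le_pow_left₀ (by omega)
          omega
        nlinarith
      by_cases h4 : e = 1
      · have h5 := hlow (by omega)
        exact c20n ha hb hd hc (by omega) (by omega)
      · by_cases h5 : e ≤ d - 2
        · exact c18n ha hb hd hc (by omega) (by omega) (by omega)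
        · by_cases h6 : e = d
          · have h7 := hlow (by omega)
            exact c20n ha hb hd hc (by omega) (by omega)
          · exact c4n ha hb hd hc (by omega) (by omega)
  · by_cases h2 : 3 ≤ a - 2 * b
    · exact c2n ha hb hd hc h2 (by omega)
    · have h3 : a ≤ 2 * b + 1 := by omega
      have h4 : 2 * e ≤ d + 1 := by
        by_contra h5
        push Not at h5
        have h6 : d + 3 ≤ 2 * e := by omega
        have h7 : (2 * d - 1) * (d + 3) ≤ a * (2 * e) := by
          apply mul_le_mul (by omega) h6 (by omega) ha.le
        nlinarith [sq_nonneg (b - d)]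
      by_cases h5 : a = 2 * b + 1 ∧ e = 1
      · obtain ⟨h6, h7⟩ := h5
        have h8 : b ≠ d := by
          intro h9
          rw [h9] at h6 hQ'
          rw [h6, h7] at hQ'
          nlinarith
        exact c16n ha hb hd hc (by omega) (by omega)
      · exact c15n ha hb hd hc (by omega) (by omega) (by omega) (by omega)

theorem cover8 (a b c d : ℤ) (ha : 0 < a) (hb : 0 < b) (hd : 0 < d)
    (oa : Odd a) (ob : Odd b) (oc : Odd c) (od : Odd d)
    (hQ : 2 * (a * c) = b ^ 2 - 2 * (b * d) - d ^ 2)
    (hex : 23 < a ^ 2 + 2 * b ^ 2 + 2 * c ^ 2 + 2 * d ^ 2) : Good8 (vec8 a b c d) := by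
  rcases lt_trichotomy c 0 with hc | hc | hc
  · apply cover8_neg a b c d ha hb hd hc oa ob oc od hQ
    rintro ⟨rfl, rfl, rfl, rfl⟩
    norm_num at hex
  · exfalso
    rw [hc] at oc
    obtain ⟨k, hk⟩ := oc
    omega
  · apply cover8_pos a b c d ha hb hd hc oa ob oc od hQ
    rintro ⟨rfl, rfl, rfl, rfl⟩
    norm_num at hex

end Pool.Agent.Lib.MP_42b82d_co
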