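import Mathlib

/-!
# Intimacy of the incidence graph of PG(2,p): definitions
-/

namespace Pool.Agent.Lib.MP_42b82d_co

/-- `G` has a `t`-internal partition: a partition of the vertex set into two nonempty disjoint
sets `A`, `B` such that every vertex `v` has at least `d(v)/2 + t` neighbours in its own part. -/
def HasInternalPartition {V : Type*} (G : SimpleGraph V) (t : ℤ) : Prop :=
  ∃ A B : Set V, A.Nonempty ∧ B.Nonempty ∧ Disjoint A B ∧ A ∪ B = Set.univ ∧
    (∀ v ∈ A, ((G.neighborSet v).ncard : ℚ) / 2 + t ≤ ((G.neighborSet v ∩ A).ncard : ℚ)) ∧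
    (∀ v ∈ B, ((G.neighborSet v).ncard : ℚ) / 2 + t ≤ ((G.neighborSet v ∩ B).ncard : ℚ))

/-- The intimacy of `G`: the largest integer `t` for which `G` has a `t`-internal partition. -/
noncomputable def intimacy {V : Type*} (G : SimpleGraph V) : ℤ :=
  sSup {t : ℤ | HasInternalPartition G t}

/-- The points of the projective plane over the field `K`: the 1-dimensional subspaces of
`K ^ 3`. -/
abbrev Point (K : Type) [Field K] : Type :=
  {W : Submodule K (Fin 3 → K) // Module.finrank K W = 1}

/-- The lines of the projective plane over the field `K`: the 2-dimensional subspaces of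
`K ^ 3`. -/
abbrev Line (K : Type) [Field K] : Type :=
  {W : Submodule K (Fin 3 → K) // Module.finrank K W = 2}

/-- The incidence graph of the projective plane over the field `K`: the vertices are the points
and the lines, and a point is adjacent to a line when it is contained in it. -/
def incidenceGraph (K : Type) [Field K] : SimpleGraph (Point K ⊕ Line K) where
  Adj x y := (∃ (P : Point K) (L : Line K), P.1 ≤ L.1 ∧
    ((x = Sum.inl P ∧ y = Sum.inr L) ∨ (x = Sum.inr L ∧ y = Sum.inl P)))
  symm := by
    constructor
    rintro x y ⟨P, L, h, h'⟩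
    exact ⟨P, L, h, h'.symm.imp (fun h => ⟨h.2, h.1⟩) (fun h => ⟨h.2, h.1⟩)⟩
  loopless := by
    constructor
    rintro x ⟨P, L, _, ⟨h1, h2⟩ | ⟨h1, h2⟩⟩ <;> simp [h1] at h2

end Pool.Agent.Lib.MP_42b82d_co
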