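import Pool.Agent.Lib.MP_42b82d_co.PgV2c

/-!
# p = 19 mod 24, conclusion
-/

set_option linter.unusedSectionVars false
set_option linter.unusedVariables false
set_option linter.unusedSimpArgs false
set_option maxHeartbeats 4000000

namespace Pool.Agent.Lib.MP_42b82d_co

open Finset

variable {p : ℕ} [Fact p.Prime] {E : Type*} [Field E] [Fintype E] [DecidableEq E]
  [Algebra (ZMod p) E] (hE : Module.finrank (ZMod p) E = 2)

include hE in
/-- The case p = 19 mod 24. -/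
theorem internal_nineteen (hp : p % 24 = 19) (hp19 : 19 < p) :
    HasInternalPartition (incidenceGraph (ZMod p)) 1 := by
  obtain ⟨q, hq⟩ : ∃ q, p = 24 * q + 19 := ⟨p / 24, by omega⟩
  have hsq : p ^ 2 - 1 = 24 * (24 * q ^ 2 + 38 * q + 15) := by
    rw [hq]
    have : (24 * q + 19) ^ 2 = 24 * (24 * q ^ 2 + 38 * q + 15) + 1 := by ring
    rw [this]; rfl
  have hm : 2 * 12 ∣ p ^ 2 - 1 := ⟨_, hsq⟩
  have he : (p ^ 2 - 1) / (2 * 12) = 24 * q ^ 2 + 38 * q + 15 := by
    rw [hsq]; exact Nat.mul_div_cancel_left _ (by norm_num)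
  obtain ⟨D, ξ, hw, hξt, hξ⟩ := exists_dlog' hE (2 * 12) hm 12 3 (by
    have : ((p + 1) * 3) % 24 = 12 % 24 := by omega
    exact (ZMod.natCast_eq_natCast_iff' ((p + 1) * 3) 12 (2 * 12)).2 this) (by decide)
    (by decide)
  rw [he] at hξt
  have hw' : D.w = ((12 : ℕ) : ZMod (2 * 12)) := by rw [hw]; rfl
  have hp19' : (p : ZMod (2 * 12)) = 19 :=
    (ZMod.natCast_eq_natCast_iff' p 19 (2 * 12)).2 (by omega)
  have hF : ∀ x, fD D (19 * x) = fD D x := by
    intro x
    have := fD_frob hE D hm (by rw [hp19', hw]; decide) x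
    rwa [hp19'] at this
  -- the root of unity
  have h12 : ξ ^ 12 = -1 := by
    have h24 : ξ ^ 24 = 1 := (hξ 24).2 (by norm_num)
    have h12' : ξ ^ 12 ≠ 1 := by
      intro h
      have := (hξ 12).1 h
      omega
    have : (ξ ^ 12 - 1) * (ξ ^ 12 + 1) = 0 := by linear_combination h24
    rcases mul_eq_zero.1 this with h | h
    · exact absurd (sub_eq_zero.1 h) h12'
    · linear_combination h
  have hΦ : ξ ^ 8 - ξ ^ 4 + 1 = 0 := by
    have : (ξ ^ 4 + 1) * (ξ ^ 8 - ξ ^ 4 + 1) = 0 := by linear_combination h12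
    rcases mul_eq_zero.1 this with h | h
    · exfalso
      have h8 : ξ ^ 8 = 1 := by linear_combination (ξ ^ 4 - 1) * h
      have := (hξ 8).1 h8
      omega
    · exact h
  have T1 := char_sum D hw' ξ _ hξt 1 (by rw [pow_one, h12])
  have T13 := char_sum D hw' ξ _ hξt 13 (by
    rw [← pow_mul]
    calc ξ ^ (13 * 12) = (ξ ^ 12) ^ 13 := by ring
      _ = -1 := by rw [h12]; ring)
  have S1 : ∑ t ∈ univ.filter (fun t : E => Tr p E t = 1),
      t ^ ((24 * q ^ 2 + 38 * q + 15) * 1) = 0 := by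
    have : (24 * q ^ 2 + 38 * q + 15) * 1 = (19 * q + 15) + p * q := by rw [hq]; ring
    rw [this]
    exact sum_pow_frob hE _ _ (by omega)
  have S13 : ∑ t ∈ univ.filter (fun t : E => Tr p E t = 1),
      t ^ ((24 * q ^ 2 + 38 * q + 15) * 13) = 0 := by
    have : (24 * q ^ 2 + 38 * q + 15) * 13 = (7 * q + 5) + p * (13 * q + 10) := by rw [hq]; ring
    rw [this]
    exact sum_pow_frob hE _ _ (by omega)
  rw [S1] at T1
  rw [S13] at T13
  obtain ⟨r2, r6, r7, r9, r10, r11⟩ := rel19 D hw hF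
  obtain ⟨q1, q2⟩ := corr19 hE D hw hF
  have c0 : ((0 : ℕ) : ZMod (2 * 12)) = 0 := rfl
  have c1 : ((1 : ℕ) : ZMod (2 * 12)) = 1 := rfl
  have c2 : ((2 : ℕ) : ZMod (2 * 12)) = 2 := rfl
  have c3 : ((3 : ℕ) : ZMod (2 * 12)) = 3 := rfl
  have c4 : ((4 : ℕ) : ZMod (2 * 12)) = 4 := rfl
  have c5 : ((5 : ℕ) : ZMod (2 * 12)) = 5 := rfl
  have c6 : ((6 : ℕ) : ZMod (2 * 12)) = 6 := rfl
  have c7 : ((7 : ℕ) : ZMod (2 * 12)) = 7 := rfl
  have c8 : ((8 : ℕ) : ZMod (2 * 12)) = 8 := rfl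
  have c9 : ((9 : ℕ) : ZMod (2 * 12)) = 9 := rfl
  have c10 : ((10 : ℕ) : ZMod (2 * 12)) = 10 := rfl
  have c11 : ((11 : ℕ) : ZMod (2 * 12)) = 11 := rfl
  simp only [sum_range_succ, range_zero, sum_empty, zero_add] at T1 T13
  rw [c0, c1, c2, c3, c4, c5, c6, c7, c8, c9, c10, c11, r2, r6, r7, r9, r10, r11] at T1 T13
  push_cast at T1 T13
  have e13 : ∀ j : ℕ, (ξ ^ 13) ^ j = (-1) ^ j * ξ ^ j := by
    intro j
    have : ξ ^ 13 = (-1) * ξ := by linear_combination ξ * h12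
    rw [this, mul_pow]
  simp only [e13] at T13
  obtain ⟨f0, hf0⟩ : ∃ x, x = fD D 0 := ⟨_, rfl⟩
  obtain ⟨f1, hf1⟩ : ∃ x, x = fD D 1 := ⟨_, rfl⟩
  obtain ⟨f3, hf3⟩ : ∃ x, x = fD D 3 := ⟨_, rfl⟩
  obtain ⟨f4, hf4⟩ : ∃ x, x = fD D 4 := ⟨_, rfl⟩
  obtain ⟨f5, hf5⟩ : ∃ x, x = fD D 5 := ⟨_, rfl⟩
  obtain ⟨f8, hf8⟩ : ∃ x, x = fD D 8 := ⟨_, rfl⟩
  rw [← hf0, ← hf1, ← hf3, ← hf4, ← hf5, ← hf8] at T1 T13 q1 q2
  have h2E : (2 : E) ≠ 0 := two_ne_zero_E (p := p) (by omega)
  have hξ0 : ξ ≠ 0 := by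
    rintro rfl
    rw [zero_pow (by norm_num)] at h12
    exact one_ne_zero (neg_eq_zero.1 h12.symm)
  have R3 : (ξ ^ 3 + ξ ^ 9) ^ 2 = -2 := by
    linear_combination (2 + ξ ^ 6) * h12
  have hs3 : ξ ^ 3 + ξ ^ 9 ≠ 0 := by
    intro h
    rw [h] at R3
    apply h2E
    linear_combination R3
  have P1 : ((f0 : E) - f8) + ((f4 : E) + f8) * ξ ^ 4 = 0 := by
    apply mul_left_cancel₀ h2E
    linear_combination -T1 - T13 - 2 * (f8 : E) * hΦ
  have P2 : ((f3 : E) + f5) - ((f1 : E) + f5) * ξ ^ 4 = 0 := by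
    apply mul_left_cancel₀ (mul_ne_zero h2E hs3)
    linear_combination -T1 + T13 + 2 * (f5 : E) * (ξ + ξ ^ 3) * hΦ
      - 2 * ((f1 : E) + f5) * ξ * h12
  have G1 : (p : ℤ) ∣ (f0 - f8) ^ 2 + (f0 - f8) * (f4 + f8) + (f4 + f8) ^ 2 := by
    apply int_dvd_of_cast (E := E)
    push_cast
    linear_combination (((f0 : E) - f8) + (f4 + f8) - (f4 + f8) * ξ ^ 4) * P1
      + ((f4 : E) + f8) ^ 2 * hΦ
  have G2 : (p : ℤ) ∣ (f3 + f5) ^ 2 - (f3 + f5) * (f1 + f5) + (f1 + f5) ^ 2 := by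
    apply int_dvd_of_cast (E := E)
    push_cast
    linear_combination (((f3 : E) + f5) - (f1 + f5) + (f1 + f5) * ξ ^ 4) * P2
      + ((f1 : E) + f5) ^ 2 * hΦ
  have hpos : (0 : ℤ) < p := by exact_mod_cast (Fact.out : p.Prime).pos
  obtain ⟨g3, g5, w1, w2⟩ := shape19 (p : ℤ) f0 f1 f3 f4 f5 f8 hpos q1 q2 G1 G2
  obtain ⟨y, hy⟩ : ∃ y, y = -f4 := ⟨_, rfl⟩
  have g4 : f4 = -y := by omega
  have w1' : f0 ^ 2 + y ^ 2 + f8 ^ 2 + 6 * f1 ^ 2 = (p : ℤ) := by
    rw [hy]; linear_combination w1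
  have w2' : f0 * y + y * f8 + f8 * f0 = - 6 * f1 ^ 2 := by
    rw [hy]; linear_combination w2
  have f12 : ∀ j : ZMod (2 * 12), fD D (j + 12) = - fD D j := fD_twelve D hw
  have v0 : fD D 0 = f0 := hf0.symm
  have v1 : fD D 1 = f1 := hf1.symm
  have v3 : fD D 3 = f1 := by rw [← hf3, g3]
  have v4 : fD D 4 = -y := by rw [← hf4, g4]
  have v5 : fD D 5 = -f1 := by rw [← hf5, g5]
  have v7 : fD D 7 = -f1 := by rw [r7, v1]
  have v8 : fD D 8 = f8 := hf8.symm
  have v9 : fD D 9 = f1 := by rw [r9, v3]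
  have v11 : fD D 11 = f1 := by rw [r11, v5, neg_neg]
  -- `A` and `b` do not vanish
  have hAp : (f0 + y + f8) ^ 2 + 18 * f1 ^ 2 = (p : ℤ) := by
    linear_combination w1' + 2 * w2'
  have nA : f0 + y + f8 ≠ 0 := by
    intro h
    rw [h] at hAp
    have : 18 * f1 ^ 2 = (p : ℤ) := by linear_combination hAp
    omega
  have nb : f1 ≠ 0 := by
    rintro rfl
    exact prime_ne_sq (p := p) (f0 + y + f8) (by rw [← hAp]; ring)
  -- scaled versions
  have scaled : ∀ (u : ZMod (2 * 12)) (hu : u * D.w = D.w) (huu : u * u = 1)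
      (x y z b : ℤ) (_ : fD D (u * 0) = x) (_ : fD D (u * 1) = b) (_ : fD D (u * 2) = 0)
      (_ : fD D (u * 3) = b) (_ : fD D (u * 4) = -y) (_ : fD D (u * 5) = -b)
      (_ : fD D (u * 6) = 0) (_ : fD D (u * 7) = -b) (_ : fD D (u * 8) = z)
      (_ : fD D (u * 9) = b) (_ : fD D (u * 10) = 0) (_ : fD D (u * 11) = b)
      (_ : x ^ 2 + y ^ 2 + z ^ 2 + 6 * b ^ 2 = (p : ℤ))
      (_ : x * y + y * z + z * x = - 6 * b ^ 2)
      (s : ℤ) (hs : s = 1 ∨ s = -1) (_ : 0 < s * b) (_ : 0 < s * (x + y + z))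
      (_ : (s * y ≤ s * x ∧ s * z ≤ s * y) ∨ (s * x ≤ s * z ∧ s * y ≤ s * x) ∨
        (s * z ≤ s * y ∧ s * x ≤ s * z)),
      HasInternalPartition (incidenceGraph (ZMod p)) 1 := by
    intro u hu huu x y z b a0 a1 a2 a3 a4 a5 a6 a7 a8 a9 a10 a11 k1 k2 s hs hb hA hord
    apply core19' hE (D.scale u hu) hw hp hp19 s hs x y z b _ _ _ _ _ _ _ _ _ _ _ _
      k1 k2 hb hA hord <;>
    (rw [fD_scale D u u hu huu]; assumption)
  have t13 : fD D 13 = -f1 := by rw [← v1, ← f12]; congr 1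
  have g1 := scaled 1 (by rw [hw]; decide) (by decide) f0 y f8 f1
    (by rw [mul_zero]; exact v0) (by rw [one_mul]; exact v1) (by rw [one_mul]; exact r2)
    (by rw [one_mul]; exact v3) (by rw [one_mul]; exact v4) (by rw [one_mul]; exact v5)
    (by rw [one_mul]; exact r6) (by rw [one_mul]; exact v7) (by rw [one_mul]; exact v8)
    (by rw [one_mul]; exact v9) (by rw [one_mul]; exact r10) (by rw [one_mul]; exact v11)
    w1' w2'
  have g13 := scaled 13 (by rw [hw]; decide) (by decide) f0 y f8 (-f1)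
    (by rw [mul_zero]; exact v0)
    (by
      have h : (13 * 1 : ZMod (2 * 12)) = 1 + 12 := by decide
      rw [h, f12, v1])
    (by
      have h : (13 * 2 : ZMod (2 * 12)) = 2 := by decide
      rw [h, r2])
    (by
      have h : (13 * 3 : ZMod (2 * 12)) = 3 + 12 := by decide
      rw [h, f12, v3])
    (by
      have h : (13 * 4 : ZMod (2 * 12)) = 4 := by decide
      rw [h, v4])
    (by
      have h : (13 * 5 : ZMod (2 * 12)) = 5 + 12 := by decide
      rw [h, f12, v5])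
    (by
      have h : (13 * 6 : ZMod (2 * 12)) = 6 := by decide
      rw [h, r6])
    (by
      have h : (13 * 7 : ZMod (2 * 12)) = 7 + 12 := by decide
      rw [h, f12, v7])
    (by
      have h : (13 * 8 : ZMod (2 * 12)) = 8 := by decide
      rw [h, v8])
    (by
      have h : (13 * 9 : ZMod (2 * 12)) = 9 + 12 := by decide
      rw [h, f12, v9])
    (by
      have h : (13 * 10 : ZMod (2 * 12)) = 10 := by decide
      rw [h, r10])
    (by
      have h : (13 * 11 : ZMod (2 * 12)) = 11 + 12 := by decide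
      rw [h, f12, v11])
    (by rw [← w1']; ring) (by rw [w2']; ring)
  have g11 := scaled 11 (by rw [hw]; decide) (by decide) f0 f8 y f1
    (by rw [mul_zero]; exact v0)
    (by
      have h : (11 * 1 : ZMod (2 * 12)) = 11 := by decide
      rw [h, v11])
    (by
      have h : (11 * 2 : ZMod (2 * 12)) = 10 + 12 := by decide
      rw [h, f12, r10, neg_zero])
    (by
      have h : (11 * 3 : ZMod (2 * 12)) = 9 := by decide
      rw [h, v9])
    (by
      have h : (11 * 4 : ZMod (2 * 12)) = 8 + 12 := by decide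
      rw [h, f12, v8])
    (by
      have h : (11 * 5 : ZMod (2 * 12)) = 7 := by decide
      rw [h, v7])
    (by
      have h : (11 * 6 : ZMod (2 * 12)) = 6 + 12 := by decide
      rw [h, f12, r6, neg_zero])
    (by
      have h : (11 * 7 : ZMod (2 * 12)) = 5 := by decide
      rw [h, v5])
    (by
      have h : (11 * 8 : ZMod (2 * 12)) = 4 + 12 := by decide
      rw [h, f12, v4, neg_neg])
    (by
      have h : (11 * 9 : ZMod (2 * 12)) = 3 := by decide
      rw [h, v3])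
    (by
      have h : (11 * 10 : ZMod (2 * 12)) = 2 + 12 := by decide
      rw [h, f12, r2, neg_zero])
    (by
      have h : (11 * 11 : ZMod (2 * 12)) = 1 := by decide
      rw [h, v1])
    (by rw [← w1']; ring) (by rw [← w2']; ring)
  have g23 := scaled 23 (by rw [hw]; decide) (by decide) f0 f8 y (-f1)
    (by rw [mul_zero]; exact v0)
    (by
      have h : (23 * 1 : ZMod (2 * 12)) = 11 + 12 := by decide
      rw [h, f12, v11])
    (by
      have h : (23 * 2 : ZMod (2 * 12)) = 10 + 12 := by decide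
      rw [h, f12, r10, neg_zero])
    (by
      have h : (23 * 3 : ZMod (2 * 12)) = 9 + 12 := by decide
      rw [h, f12, v9])
    (by
      have h : (23 * 4 : ZMod (2 * 12)) = 8 + 12 := by decide
      rw [h, f12, v8])
    (by
      have h : (23 * 5 : ZMod (2 * 12)) = 7 + 12 := by decide
      rw [h, f12, v7])
    (by
      have h : (23 * 6 : ZMod (2 * 12)) = 6 + 12 := by decide
      rw [h, f12, r6, neg_zero])
    (by
      have h : (23 * 7 : ZMod (2 * 12)) = 5 + 12 := by decide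
      rw [h, f12, v5])
    (by
      have h : (23 * 8 : ZMod (2 * 12)) = 4 + 12 := by decide
      rw [h, f12, v4, neg_neg])
    (by
      have h : (23 * 9 : ZMod (2 * 12)) = 3 + 12 := by decide
      rw [h, f12, v3])
    (by
      have h : (23 * 10 : ZMod (2 * 12)) = 2 + 12 := by decide
      rw [h, f12, r2, neg_zero])
    (by
      have h : (23 * 11 : ZMod (2 * 12)) = 1 + 12 := by decide
      rw [h, f12, v1])
    (by rw [← w1']; ring) (by rw [mul_comm (-6 : ℤ)] at w2' ⊢; linear_combination w2')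
  have main : ∀ s : ℤ, (s = 1 ∨ s = -1) → 0 < s * (f0 + y + f8) →
      HasInternalPartition (incidenceGraph (ZMod p)) 1 := by
    intro s hs hA
    have hA' : 0 < s * (f0 + f8 + y) := by
      have : f0 + f8 + y = f0 + y + f8 := by ring
      rw [this]; exact hA
    have hsb : 0 < s * f1 ∨ 0 < s * (-f1) := by
      rcases hs with rfl | rfl
      · rcases lt_or_gt_of_ne nb with h | h
        · right; linarith
        · left; linarith
      · rcases lt_or_gt_of_ne nb with h | h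
        · left; linarith
        · right; linarith
    have hord : ((s * y ≤ s * f0 ∧ s * f8 ≤ s * y) ∨ (s * f0 ≤ s * f8 ∧ s * y ≤ s * f0) ∨
        (s * f8 ≤ s * y ∧ s * f0 ≤ s * f8)) ∨
        ((s * f8 ≤ s * f0 ∧ s * y ≤ s * f8) ∨ (s * f0 ≤ s * y ∧ s * f8 ≤ s * f0) ∨
        (s * y ≤ s * f8 ∧ s * f0 ≤ s * y)) := by
      rcases le_total (s * y) (s * f0) with h1 | h1 <;>
      rcases le_total (s * f8) (s * y) with h2 | h2 <;>
      rcases le_total (s * f8) (s * f0) with h3 | h3 <;>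
      simp [h1, h2, h3]
    rcases hsb with hb | hb <;> rcases hord with ho | ho
    · exact g1 s hs hb hA ho
    · exact g11 s hs hb hA' ho
    · exact g13 s hs hb hA ho
    · exact g23 s hs hb hA' ho
  rcases lt_or_gt_of_ne nA with h | h
  · exact main (-1) (Or.inr rfl) (by linarith)
  · exact main 1 (Or.inl rfl) (by linarith)

end Pool.Agent.Lib.MP_42b82d_co
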