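import Pool.Agent.Lib.MP_42b82d_co.PgSym
import Pool.Agent.Lib.MP_42b82d_co.PgCover8

/-!
# p = 7 mod 16
-/

set_option linter.unusedSectionVars false
set_option linter.unusedVariables false
set_option linter.unusedSimpArgs false

namespace Pool.Agent.Lib.MP_42b82d_co

open Finset

variable {p : ℕ} [Fact p.Prime] {E : Type*} [Field E] [Fintype E] [DecidableEq E]
  [Algebra (ZMod p) E] (hE : Module.finrank (ZMod p) E = 2)

lemma odd_of_sq_sum (p : ℤ) (hp : p % 8 = 7) (a b c d : ℤ)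
    (h : a ^ 2 + 2 * b ^ 2 + 2 * c ^ 2 + 2 * d ^ 2 = p) :
    Odd a ∧ Odd b ∧ Odd c ∧ Odd d := by
  have sq : ∀ x : ℤ, (∃ k, x ^ 2 = 4 * k ∧ ¬ Odd x) ∨ (∃ k, x ^ 2 = 8 * k + 1 ∧ Odd x) := by
    intro x
    rcases Int.even_or_odd' x with ⟨k, hk | hk⟩
    · left
      refine ⟨k ^ 2, by rw [hk]; ring, ?_⟩
      rw [Int.not_odd_iff_even]
      exact ⟨k, by rw [hk]; ring⟩
    · right
      obtain ⟨r, hr⟩ := Int.even_mul_succ_self k
      refine ⟨r, ?_, ⟨k, hk⟩⟩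
      rw [hk]
      linear_combination 4 * hr
  rcases sq a with ⟨ka, ha, oa⟩ | ⟨ka, ha, oa⟩ <;> rcases sq b with ⟨kb, hb, ob⟩ | ⟨kb, hb, ob⟩ <;>
  rcases sq c with ⟨kc, hc, oc⟩ | ⟨kc, hc, oc⟩ <;> rcases sq d with ⟨kd, hd, od⟩ | ⟨kd, hd, od⟩ <;>
  first
  | exact ⟨oa, ob, oc, od⟩
  | (exfalso; omega)

section

variable (D : DLog p E (2 * 8)) (hw : D.w = 8) (hF : ∀ x, fD D (7 * x) = fD D x)

include hw hF in
lemma rel8 : fD D 4 = 0 ∧ fD D 5 = fD D 3 ∧ fD D 6 = - fD D 2 ∧ fD D 7 = fD D 1 := by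
  refine ⟨?_, ?_, ?_, ?_⟩
  · have h1 := hF 4
    have h2 : (7 * 4 : ZMod (2 * 8)) = 4 + D.w := by rw [hw]; decide
    rw [h2, fD_add_w] at h1
    omega
  · have h1 := hF 3
    have h2 : (7 * 3 : ZMod (2 * 8)) = 5 := by decide
    rw [h2] at h1
    exact h1
  · have h1 := hF 2
    have h2 : (7 * 2 : ZMod (2 * 8)) = 6 + D.w := by rw [hw]; decide
    rw [h2, fD_add_w] at h1
    omega
  · have h1 := hF 1
    have h2 : (7 * 1 : ZMod (2 * 8)) = 7 := by decide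
    rw [h2] at h1
    exact h1

include hE hw hF in
lemma quad8 : (fD D 0) ^ 2 + 2 * (fD D 1) ^ 2 + 2 * (fD D 2) ^ 2 + 2 * (fD D 3) ^ 2 = (p : ℤ) ∧
    2 * (fD D 0 * fD D 2) = (fD D 1) ^ 2 - 2 * (fD D 1 * fD D 3) - (fD D 3) ^ 2 := by
  obtain ⟨r4, r5, r6, r7⟩ := rel8 D hw hF
  have hw' : D.w = ((8 : ℕ) : ZMod (2 * 8)) := by rw [hw]; rfl
  constructor
  · have h := corr_half hE D hw' 0 (by rw [hw]; decide)
    simp only [sum_range_succ, range_zero, sum_empty, zero_add, add_zero, if_true] at h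
    have c0 : ((0 : ℕ) : ZMod (2 * 8)) = 0 := rfl
    have c1 : ((1 : ℕ) : ZMod (2 * 8)) = 1 := rfl
    have c2 : ((2 : ℕ) : ZMod (2 * 8)) = 2 := rfl
    have c3 : ((3 : ℕ) : ZMod (2 * 8)) = 3 := rfl
    have c4 : ((4 : ℕ) : ZMod (2 * 8)) = 4 := rfl
    have c5 : ((5 : ℕ) : ZMod (2 * 8)) = 5 := rfl
    have c6 : ((6 : ℕ) : ZMod (2 * 8)) = 6 := rfl
    have c7 : ((7 : ℕ) : ZMod (2 * 8)) = 7 := rfl
    rw [c0, c1, c2, c3, c4, c5, c6, c7, r4, r5, r6, r7] at h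
    rw [← h]
    ring
  · have h := corr_half hE D hw' 2 (by rw [hw]; decide)
    rw [if_neg (by decide)] at h
    simp only [sum_range_succ, range_zero, sum_empty, zero_add] at h
    have c0 : ((0 : ℕ) : ZMod (2 * 8)) = 0 := rfl
    have c1 : ((1 : ℕ) : ZMod (2 * 8)) = 1 := rfl
    have c2 : ((2 : ℕ) : ZMod (2 * 8)) = 2 := rfl
    have c3 : ((3 : ℕ) : ZMod (2 * 8)) = 3 := rfl
    have c4 : ((4 : ℕ) : ZMod (2 * 8)) = 4 := rfl
    have c5 : ((5 : ℕ) : ZMod (2 * 8)) = 5 := rfl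
    have c6 : ((6 : ℕ) : ZMod (2 * 8)) = 6 := rfl
    have c7 : ((7 : ℕ) : ZMod (2 * 8)) = 7 := rfl
    have s0 : (0 + 2 : ZMod (2 * 8)) = 2 := by decide
    have s1 : (1 + 2 : ZMod (2 * 8)) = 3 := by decide
    have s2 : (2 + 2 : ZMod (2 * 8)) = 4 := by decide
    have s3 : (3 + 2 : ZMod (2 * 8)) = 5 := by decide
    have s4 : (4 + 2 : ZMod (2 * 8)) = 6 := by decide
    have s5 : (5 + 2 : ZMod (2 * 8)) = 7 := by decide
    have s6 : (6 + 2 : ZMod (2 * 8)) = 0 + D.w := by rw [hw]; decide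
    have s7 : (7 + 2 : ZMod (2 * 8)) = 1 + D.w := by rw [hw]; decide
    rw [c0, c1, c2, c3, c4, c5, c6, c7, s0, s1, s2, s3, s4, s5, s6, s7, fD_add_w, fD_add_w,
      r4, r5, r6, r7] at h
    linear_combination h

include hE hw hF in
lemma core8 (hp : p % 16 = 7) (hp23 : 23 < p) (s : ℤ) (hs : s = 1 ∨ s = -1)
    (h0 : 0 < s * fD D 0) (h1 : 0 < s * fD D 1) (h3 : 0 < s * fD D 3) :
    HasInternalPartition (incidenceGraph (ZMod p)) 1 := by
  obtain ⟨q1, q2⟩ := quad8 hE D hw hF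
  have hs2 : s ^ 2 = 1 := by rcases hs with rfl | rfl <;> norm_num
  have hw' : D.w = ((8 : ℕ) : ZMod (2 * 8)) := by rw [hw]; rfl
  have q1' : (s * fD D 0) ^ 2 + 2 * (s * fD D 1) ^ 2 + 2 * (s * fD D 2) ^ 2
      + 2 * (s * fD D 3) ^ 2 = (p : ℤ) := by
    rw [← q1]
    linear_combination ((fD D 0) ^ 2 + 2 * (fD D 1) ^ 2 + 2 * (fD D 2) ^ 2
      + 2 * (fD D 3) ^ 2) * hs2
  have q2' : 2 * ((s * fD D 0) * (s * fD D 2)) = (s * fD D 1) ^ 2
      - 2 * ((s * fD D 1) * (s * fD D 3)) - (s * fD D 3) ^ 2 := by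
    linear_combination s ^ 2 * q2
  obtain ⟨o0, o1, o2, o3⟩ := odd_of_sq_sum (p : ℤ) (by omega) _ _ _ _ q1'
  obtain ⟨X, Y, g1, g2⟩ := cover8 (s * fD D 0) (s * fD D 1) (s * fD D 2) (s * fD D 3)
    h0 h1 h3 o0 o1 o2 o3 q2' (by rw [q1']; exact_mod_cast hp23)
  obtain ⟨r4, r5, r6, r7⟩ := rel8 D hw hF
  have hc : ∀ j, j < 8 → vec8 (s * fD D 0) (s * fD D 1) (s * fD D 2) (s * fD D 3) j
      = s * cc D j := by
    intro j hj
    rw [cc_eq_fD D hw']
    interval_cases j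
    · rfl
    · rfl
    · rfl
    · rfl
    · change 0 = s * fD D 4
      rw [r4, mul_zero]
    · change s * fD D 3 = s * fD D 5
      rw [r5]
    · change -(s * fD D 2) = s * fD D 6
      rw [r6]; ring
    · change s * fD D 1 = s * fD D 7
      rw [r7]
  exact internal_of_pattern_sign hE D hw' (by omega) s hs X Y (rowsOK_congr hc g1)
    (rowsOK_congr hc g2)

end

include hE in
/-- The case p = 7 mod 16. -/
theorem internal_seven (hp : p % 16 = 7) (hp23 : 23 < p) :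
    HasInternalPartition (incidenceGraph (ZMod p)) 1 := by
  have hm : 2 * 8 ∣ p ^ 2 - 1 := by
    have h1 : p ^ 2 % 16 = 1 := by
      rw [Nat.pow_mod, hp]
    have h2 : 1 ≤ p ^ 2 := Nat.one_le_pow _ _ (by omega)
    omega
  obtain ⟨D, hw⟩ := exists_dlog hE (2 * 8) hm 8 (by
    have : (p + 1) % 16 = 8 % 16 := by omega
    exact (ZMod.natCast_eq_natCast_iff' (p + 1) 8 (2 * 8)).2 this) (by decide) (by decide)
  have hp7 : (p : ZMod (2 * 8)) = 7 :=
    (ZMod.natCast_eq_natCast_iff' p 7 (2 * 8)).2 (by omega)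
  have hF : ∀ x, fD D (7 * x) = fD D x := by
    intro x
    have := fD_frob hE D hm (by rw [hp7, hw]; decide) x
    rwa [hp7] at this
  -- scaled versions
  have scaled : ∀ (u v : ZMod (2 * 8)) (hu : u * D.w = D.w) (hvu : v * u = 1)
      (x0 x1 x3 : ℤ) (_ : fD D (v * 0) = x0) (_ : fD D (v * 1) = x1) (_ : fD D (v * 3) = x3)
      (s : ℤ) (hs : s = 1 ∨ s = -1) (_ : 0 < s * x0) (_ : 0 < s * x1) (_ : 0 < s * x3),
      HasInternalPartition (incidenceGraph (ZMod p)) 1 := by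
    intro u v hu hvu x0 x1 x3 e0 e1 e3 s hs h0 h1 h3
    have hF' : ∀ x, fD (D.scale u hu) (7 * x) = fD (D.scale u hu) x := by
      intro x
      rw [fD_scale D u v hu hvu, fD_scale D u v hu hvu]
      have : v * (7 * x) = 7 * (v * x) := by ring
      rw [this, hF]
    apply core8 hE (D.scale u hu) hw hF' hp hp23 s hs
    · rw [fD_scale D u v hu hvu, e0]; exact h0
    · rw [fD_scale D u v hu hvu, e1]; exact h1
    · rw [fD_scale D u v hu hvu, e3]; exact h3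
  obtain ⟨q1, q2⟩ := quad8 hE D hw hF
  obtain ⟨o0, o1, o2, o3⟩ := odd_of_sq_sum (p : ℤ) (by omega) _ _ _ _ q1
  obtain ⟨r4, r5, r6, r7⟩ := rel8 D hw hF
  have f9 : fD D 9 = - fD D 1 := by
    have : (9 : ZMod (2 * 8)) = 1 + D.w := by rw [hw]; decide
    rw [this, fD_add_w]
  have f11 : fD D 11 = - fD D 3 := by
    have : (11 : ZMod (2 * 8)) = 3 + D.w := by rw [hw]; decide
    rw [this, fD_add_w]
  have n0 : fD D 0 ≠ 0 := by rintro h; rw [h] at o0; exact absurd o0 (by decide)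
  have n1 : fD D 1 ≠ 0 := by rintro h; rw [h] at o1; exact absurd o1 (by decide)
  have n3 : fD D 3 ≠ 0 := by rintro h; rw [h] at o3; exact absurd o3 (by decide)
  -- v = 1: (f1, f3), v = 3: (f3, -f1), v = 9: (-f1, -f3), v = 11: (-f3, f1)
  have g1 := scaled 1 1 (by rw [hw]; decide) (by decide) (fD D 0) (fD D 1) (fD D 3)
    (by rw [mul_zero]) (by rw [one_mul]) (by rw [one_mul])
  have g3 := scaled 11 3 (by rw [hw]; decide) (by decide) (fD D 0) (fD D 3) (- fD D 1)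
    (by rw [mul_zero]) (by rw [mul_one])
    (by rw [← f9]; congr 1)
  have g9 := scaled 9 9 (by rw [hw]; decide) (by decide) (fD D 0) (- fD D 1) (- fD D 3)
    (by rw [mul_zero]) (by rw [mul_one, f9])
    (by rw [← f11]; congr 1)
  have g11 := scaled 3 11 (by rw [hw]; decide) (by decide) (fD D 0) (- fD D 3) (fD D 1)
    (by rw [mul_zero]) (by rw [mul_one, f11])
    (by congr 1)
  rcases lt_or_gt_of_ne n0 with k0 | k0
  · -- s = -1
    rcases lt_or_gt_of_ne n1 with k1 | k1 <;> rcases lt_or_gt_of_ne n3 with k3 | k3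
    · exact g1 (-1) (Or.inr rfl) (by linarith) (by linarith) (by linarith)
    · exact g11 (-1) (Or.inr rfl) (by linarith) (by linarith) (by linarith)
    · exact g3 (-1) (Or.inr rfl) (by linarith) (by linarith) (by linarith)
    · exact g9 (-1) (Or.inr rfl) (by linarith) (by linarith) (by linarith)
  · rcases lt_or_gt_of_ne n1 with k1 | k1 <;> rcases lt_or_gt_of_ne n3 with k3 | k3
    · exact g9 1 (Or.inl rfl) (by linarith) (by linarith) (by linarith)
    · exact g3 1 (Or.inl rfl) (by linarith) (by linarith) (by linarith)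
    · exact g11 1 (Or.inl rfl) (by linarith) (by linarith) (by linarith)
    · exact g1 1 (Or.inl rfl) (by linarith) (by linarith) (by linarith)

end Pool.Agent.Lib.MP_42b82d_co
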