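import Pool.Agent.Lib.MP_42b82d_co.PgV1c
import Pool.Agent.Lib.MP_42b82d_co.PgV2d
import Pool.Agent.Lib.MP_42b82d_co.PgV3

/-!
# All primes p > 23 with p <> 15 mod 16
-/

set_option linter.unusedSectionVars false
set_option linter.unusedVariables false
set_option linter.unusedSimpArgs false

namespace Pool.Agent.Lib.MP_42b82d_co

/-- the internal partition, for all primes p > 23 with 16 not dividing p + 1 -/
theorem internal_all (p : ℕ) [Fact p.Prime] (hp : 23 < p) (h16 : ¬ 16 ∣ p + 1) :
    HasInternalPartition (incidenceGraph (ZMod p)) 1 := by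
  classical
  haveI : Fintype (GaloisField p 2) := Fintype.ofFinite _
  have hE : Module.finrank (ZMod p) (GaloisField p 2) = 2 :=
    GaloisField.finrank p (by norm_num)
  have hodd : p % 2 = 1 := by
    rcases (Fact.out : p.Prime).eq_two_or_odd with h | h
    · omega
    · exact h
  have h3 : p % 3 ≠ 0 := by
    intro h
    have := (Nat.prime_dvd_prime_iff_eq Nat.prime_three (Fact.out : p.Prime)).1
      (Nat.dvd_of_mod_eq_zero h)
    omega
  have hcase : p % 4 = 1 ∨ p % 8 = 3 ∨ p % 16 = 7 := by omega
  rcases hcase with h | h | h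
  · exact internal_one hE h (by omega)
  · have h24 : p % 24 = 11 ∨ p % 24 = 19 := by
      clear h16 hodd hp
      omega
    rcases h24 with h24 | h24
    · exact internal_eleven hE h24 (by omega)
    · exact internal_nineteen hE h24 (by omega)
  · exact internal_seven hE h hp

/-- an internal partition with `t = 1` bounds the intimacy from below -/
theorem le_intimacy {V : Type*} [Finite V] (G : SimpleGraph V) (t : ℤ)
    (h : HasInternalPartition G t) : t ≤ intimacy G := by
  unfold intimacy
  apply le_csSup
  · refine ⟨(Nat.card V : ℤ), ?_⟩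
    rintro s ⟨A, B, ⟨v, hv⟩, _, _, _, hA, _⟩
    have h1 := hA v hv
    have h2 : (G.neighborSet v ∩ A).ncard ≤ Nat.card V := by
      rw [← Set.ncard_univ]
      exact Set.ncard_le_ncard (Set.subset_univ _) Set.finite_univ
    have h3 : (0 : ℚ) ≤ ((G.neighborSet v).ncard : ℚ) / 2 := by positivity
    have h4 : ((G.neighborSet v ∩ A).ncard : ℚ) ≤ (Nat.card V : ℚ) := by exact_mod_cast h2
    have h5 : (s : ℚ) ≤ ((Nat.card V : ℤ) : ℚ) := by push_cast; linarith
    exact_mod_cast h5
  · exact h

/-- The intimacy of the incidence graph of PG(2,p) is at least 1 for every prime p > 23 with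
16 not dividing p + 1. -/
theorem one_le_intimacy (p : ℕ) [Fact p.Prime] (hp : 23 < p) (h16 : ¬ 16 ∣ p + 1) :
    1 ≤ intimacy (incidenceGraph (ZMod p)) :=
  le_intimacy _ _ (internal_all p hp h16)

end Pool.Agent.Lib.MP_42b82d_co
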