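import Pool.Agent.Lib.MP_42b82d_co.PgDefs

/-!
# From signings of nonzero vectors to internal partitions of the incidence graph
-/

set_option linter.unusedSectionVars false
set_option linter.unusedVariables false
set_option linter.unusedSimpArgs false
set_option linter.deprecated false

namespace Pool.Agent.Lib.MP_42b82d_co

open Finset

variable {p : ℕ} [Fact p.Prime]

lemma card_nonzero : (univ.filter (fun c : ZMod p => c ≠ 0)).card = p - 1 := by
  have h : (univ.filter (fun c : ZMod p => c ≠ 0)) = univ.erase 0 := by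
    ext c; simp
  rw [h, card_erase_of_mem (mem_univ _), card_univ, ZMod.card]

section scale

variable {V : Type*} [AddCommGroup V] [Module (ZMod p) V] [DecidableEq V]
  {ι : Type*} [DecidableEq ι]

lemma scale_card (T : V → ι)
    (hT : ∀ a b : V, a ≠ 0 → b ≠ 0 → (T a = T b ↔ ∃ c : ZMod p, c ≠ 0 ∧ b = c • a))
    (S : Finset V) (hS0 : ∀ a ∈ S, a ≠ 0) (hS : ∀ a ∈ S, ∀ c : ZMod p, c ≠ 0 → c • a ∈ S) :
    S.card = (p - 1) * (S.image T).card := by
  rw [Finset.card_eq_sum_card_image T S]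
  rw [Finset.sum_const_nat (m := p - 1), mul_comm]
  intro b hb
  obtain ⟨a0, ha0, rfl⟩ := mem_image.1 hb
  have h0 := hS0 a0 ha0
  rw [← card_nonzero (p := p)]
  symm
  apply Finset.card_bij (fun c _ => c • a0)
  · intro c hc
    simp only [mem_filter, mem_univ, true_and] at hc ⊢
    refine ⟨hS a0 ha0 c hc, ?_⟩
    symm
    rw [hT a0 _ h0 (smul_ne_zero hc h0)]
    exact ⟨c, hc, rfl⟩
  · intro c _ d _ h
    exact smul_left_injective _ h0 h
  · intro a ha
    simp only [mem_filter] at ha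
    obtain ⟨c, hc, rfl⟩ := (hT a0 a h0 (hS0 a ha.1)).1 ha.2.symm
    exact ⟨c, by simpa using hc, rfl⟩

lemma bip_count (T : V → ι)
    (hT : ∀ a b : V, a ≠ 0 → b ≠ 0 → (T a = T b ↔ ∃ c : ZMod p, c ≠ 0 ∧ b = c • a))
    (S : Finset V) (hS0 : ∀ a ∈ S, a ≠ 0) (hS : ∀ a ∈ S, ∀ c : ZMod p, c ≠ 0 → c • a ∈ S)
    (g : V → ℤ) (hg : ∀ a, a ≠ 0 → g a = 1 ∨ g a = -1)
    (hgs : ∀ a, a ≠ 0 → ∀ c : ZMod p, c ≠ 0 → g (c • a) = g a)
    (s : ℤ) (hs : s = 1 ∨ s = -1) (h : 2 * ((p : ℤ) - 1) ≤ s * ∑ a ∈ S, g a) :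
    ((S.image T).card : ℚ) / 2 + 1 ≤ (((S.filter (fun a => g a = s)).image T).card : ℚ) := by
  have hp1 : 1 < p := (Fact.out : p.Prime).one_lt
  have h1 := scale_card T hT S hS0 hS
  have h2 := scale_card T hT (S.filter (fun a => g a = s))
    (fun a ha => hS0 a (mem_filter.1 ha).1)
    (fun a ha c hc => mem_filter.2 ⟨hS a (mem_filter.1 ha).1 c hc, by
      rw [hgs a (hS0 a (mem_filter.1 ha).1) c hc]; exact (mem_filter.1 ha).2⟩)
  have h3 : s * ∑ a ∈ S, g a
      = 2 * ((S.filter (fun a => g a = s)).card : ℤ) - (S.card : ℤ) := by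
    have : ∀ a ∈ S, s * g a = 2 * (if g a = s then 1 else 0) - 1 := by
      intro a ha
      rcases hs with rfl | rfl <;> rcases hg a (hS0 a ha) with h | h <;> simp [h]
    rw [mul_sum, sum_congr rfl this, sum_sub_distrib, ← mul_sum, sum_boole]
    simp
  rw [h3, h1, h2] at h
  push_cast [Nat.cast_sub hp1.le] at h
  have hpos : (0 : ℤ) < (p : ℤ) - 1 := by omega
  set x : ℤ := (((S.filter (fun a => g a = s)).image T).card : ℤ)
  set y : ℤ := ((S.image T).card : ℤ)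
  have h4 : ((p : ℤ) - 1) * (2 * x - y - 2) ≥ 0 := by nlinarith
  have h5 : 2 * x - y - 2 ≥ 0 := by
    by_contra hcon
    push Not at hcon
    have := mul_neg_of_pos_of_neg hpos hcon
    omega
  have h6 : (2 : ℚ) * (x : ℚ) - (y : ℚ) - 2 ≥ 0 := by exact_mod_cast h5
  have hx : ((((S.filter (fun a => g a = s)).image T).card : ℕ) : ℚ) = (x : ℚ) := by
    simp [x]
  have hy : (((S.image T).card : ℕ) : ℚ) = (y : ℚ) := by simp [y]
  rw [hx, hy]
  linarith

end scale

section main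

variable {V : Type*} [AddCommGroup V] [Module (ZMod p) V] [Fintype V] [DecidableEq V]
  (e : (Fin 3 → ZMod p) ≃ₗ[ZMod p] V) (β : V →ₗ[ZMod p] V →ₗ[ZMod p] ZMod p)

/-- the subspace spanned by the vector `v` -/
def ptS (v : V) : Submodule (ZMod p) (Fin 3 → ZMod p) := Submodule.span (ZMod p) {e.symm v}

/-- the hyperplane orthogonal to `a` -/
def lnS (a : V) : Submodule (ZMod p) (Fin 3 → ZMod p) :=
  LinearMap.ker ((β.flip a) ∘ₗ (e : (Fin 3 → ZMod p) →ₗ[ZMod p] V))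

lemma mem_lnS (a : V) (x : Fin 3 → ZMod p) : x ∈ lnS e β a ↔ β (e x) a = 0 := by
  simp [lnS]

lemma ptS_le_lnS (v a : V) : ptS e v ≤ lnS e β a ↔ β v a = 0 := by
  rw [ptS, Submodule.span_singleton_le_iff_mem, mem_lnS]
  simp

lemma finrank_ptS {v : V} (hv : v ≠ 0) : Module.finrank (ZMod p) (ptS e v) = 1 :=
  finrank_span_singleton (by simpa using hv)

lemma ptS_eq_iff (a b : V) (ha : a ≠ 0) (hb : b ≠ 0) :
    ptS e a = ptS e b ↔ ∃ c : ZMod p, c ≠ 0 ∧ b = c • a := by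
  rw [ptS, ptS, Submodule.span_singleton_eq_span_singleton]
  constructor
  · rintro ⟨z, hz⟩
    refine ⟨z, z.ne_zero, ?_⟩
    have : e ((z : ZMod p) • e.symm a) = e (e.symm b) := by rw [← hz]; rfl
    simpa using this.symm
  · rintro ⟨c, hc, rfl⟩
    exact ⟨Units.mk0 c hc, by simp [Units.smul_def]⟩

lemma exists_ptS (P : Submodule (ZMod p) (Fin 3 → ZMod p))
    (hP : Module.finrank (ZMod p) P = 1) : ∃ v : V, v ≠ 0 ∧ P = ptS e v := by
  obtain ⟨⟨v, hv⟩, hv0, hsp⟩ := finrank_eq_one_iff'.1 hP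
  refine ⟨e v, ?_, ?_⟩
  · intro h
    apply hv0
    have : v = 0 := by simpa using h
    simp [this]
  · rw [ptS]
    simp only [LinearEquiv.symm_apply_apply]
    apply le_antisymm
    · intro w hw
      obtain ⟨c, hc⟩ := hsp ⟨w, hw⟩
      rw [Submodule.mem_span_singleton]
      exact ⟨c, by simpa using congrArg Subtype.val hc⟩
    · rw [Submodule.span_singleton_le_iff_mem]
      exact hv

variable (hinj : ∀ a : V, (∀ v, β v a = 0) → a = 0)
  (hsurj : ∀ φ : V →ₗ[ZMod p] ZMod p, ∃ a, ∀ v, β v a = φ v)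

include hinj in
lemma finrank_lnS {a : V} (ha : a ≠ 0) : Module.finrank (ZMod p) (lnS e β a) = 2 := by
  have h := LinearMap.finrank_range_add_finrank_ker
    ((β.flip a) ∘ₗ (e : (Fin 3 → ZMod p) →ₗ[ZMod p] V))
  have h3 : Module.finrank (ZMod p) (Fin 3 → ZMod p) = 3 := by simp
  have hr : LinearMap.range ((β.flip a) ∘ₗ (e : (Fin 3 → ZMod p) →ₗ[ZMod p] V)) = ⊤ := by
    rw [LinearMap.range_eq_top]
    apply LinearMap.surjective
    intro h0
    apply ha
    apply hinj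
    intro v
    have := congrArg (fun f => f (e.symm v)) h0
    simpa using this
  rw [hr, finrank_top, Module.finrank_self, h3] at h
  unfold lnS
  omega

include hinj in
lemma lnS_eq_iff (a b : V) (ha : a ≠ 0) (hb : b ≠ 0) :
    lnS e β a = lnS e β b ↔ ∃ c : ZMod p, c ≠ 0 ∧ b = c • a := by
  constructor
  · intro h
    obtain ⟨x0, hx0⟩ : ∃ x0, β x0 a ≠ 0 := by
      by_contra hcon
      push Not at hcon
      exact ha (hinj a hcon)
    have key : ∀ v, β v b = β v a * ((β x0 a)⁻¹ * β x0 b) := by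
      intro v
      have h1 : e.symm (v - (β v a * (β x0 a)⁻¹) • x0) ∈ lnS e β a := by
        rw [mem_lnS]
        simp only [LinearEquiv.apply_symm_apply, map_sub, map_smul, LinearMap.sub_apply,
          LinearMap.smul_apply, smul_eq_mul]
        rw [mul_assoc, inv_mul_cancel₀ hx0]
        ring
      rw [h, mem_lnS] at h1
      simp only [LinearEquiv.apply_symm_apply, map_sub, map_smul, LinearMap.sub_apply,
        LinearMap.smul_apply, smul_eq_mul] at h1
      linear_combination h1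
    have hb' : b = ((β x0 a)⁻¹ * β x0 b) • a := by
      rw [← sub_eq_zero]
      apply hinj
      intro v
      rw [map_sub, map_smul, key v]
      simp only [smul_eq_mul]
      ring
    refine ⟨_, ?_, hb'⟩
    intro h0
    rw [h0, zero_smul] at hb'
    exact hb hb'
  · rintro ⟨c, hc, rfl⟩
    ext x
    simp [mem_lnS, hc]

include hinj hsurj in
lemma exists_lnS (L : Submodule (ZMod p) (Fin 3 → ZMod p))
    (hL : Module.finrank (ZMod p) L = 2) : ∃ a : V, a ≠ 0 ∧ L = lnS e β a := by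
  have h3 : Module.finrank (ZMod p) (Fin 3 → ZMod p) = 3 := by simp
  have hlt : L < ⊤ := by
    rw [lt_top_iff_ne_top]
    rintro rfl
    rw [finrank_top, h3] at hL
    omega
  obtain ⟨φ, hφ, hle⟩ := Submodule.exists_le_ker_of_lt_top L hlt
  obtain ⟨a, ha⟩ := hsurj (φ ∘ₗ (e.symm : V →ₗ[ZMod p] (Fin 3 → ZMod p)))
  have ha0 : a ≠ 0 := by
    rintro rfl
    apply hφ
    ext x
    have := ha (e (Pi.single x 1))
    simpa using this.symm
  refine ⟨a, ha0, ?_⟩
  apply Submodule.eq_of_le_of_finrank_eq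
  · intro x hx
    rw [mem_lnS, ha]
    simpa using hle hx
  · rw [hL, finrank_lnS e β hinj ha0]

include e hinj hsurj in
/-- Main reduction: a signing of the nonzero vectors (as points) and of the nonzero vectors
(as lines) with all margins at least two gives a 1-internal partition. -/
theorem hasInternalPartition_of_signs
    (f g : V → ℤ) (hf : ∀ v, v ≠ 0 → f v = 1 ∨ f v = -1)
    (hfs : ∀ v, v ≠ 0 → ∀ c : ZMod p, c ≠ 0 → f (c • v) = f v)
    (hg : ∀ a, a ≠ 0 → g a = 1 ∨ g a = -1)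
    (hgs : ∀ a, a ≠ 0 → ∀ c : ZMod p, c ≠ 0 → g (c • a) = g a)
    (hpos : ∃ v, v ≠ 0 ∧ f v = 1) (hneg : ∃ v, v ≠ 0 ∧ f v = -1)
    (h1 : ∀ a, a ≠ 0 →
      2 * ((p : ℤ) - 1) ≤ g a * ∑ v ∈ univ.filter (fun v => v ≠ 0 ∧ β v a = 0), f v)
    (h2 : ∀ v, v ≠ 0 →
      2 * ((p : ℤ) - 1) ≤ f v * ∑ a ∈ univ.filter (fun a => a ≠ 0 ∧ β v a = 0), g a) :
    HasInternalPartition (incidenceGraph (ZMod p)) 1 := by
  classical
  -- the sign of a vertex
  set A : Set (Point (ZMod p) ⊕ Line (ZMod p)) := {x | (∃ (v : V) (hv : v ≠ 0), x = Sum.inl ⟨ptS e v,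
    finrank_ptS e hv⟩ ∧ f v = 1) ∨ (∃ (a : V) (ha : a ≠ 0), x = Sum.inr ⟨lnS e β a,
    finrank_lnS e β hinj ha⟩ ∧ g a = 1)} with hA
  have memA_pt : ∀ (v : V) (hv : v ≠ 0),
      (Sum.inl ⟨ptS e v, finrank_ptS e hv⟩ : Point (ZMod p) ⊕ Line (ZMod p)) ∈ A ↔ f v = 1 := by
    intro v hv
    constructor
    · rintro (⟨w, hw, hvw, hfw⟩ | ⟨a, ha, h, _⟩)
      · have hvw' : ptS e w = ptS e v := by
          have := Sum.inl.inj hvw
          exact (congrArg Subtype.val this).symm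
        obtain ⟨c, hc, rfl⟩ := (ptS_eq_iff e w v hw hv).1 hvw'
        rw [hfs w hw c hc, hfw]
      · cases h
    · intro h
      exact Or.inl ⟨v, hv, rfl, h⟩
  have memA_ln : ∀ (a : V) (ha : a ≠ 0),
      (Sum.inr ⟨lnS e β a, finrank_lnS e β hinj ha⟩ : Point (ZMod p) ⊕ Line (ZMod p)) ∈ A ↔ g a = 1 := by
    intro v hv
    constructor
    · rintro (⟨a, ha, h, _⟩ | ⟨w, hw, hvw, hfw⟩)
      · cases h
      · have hvw' : lnS e β w = lnS e β v := by
          have := Sum.inr.inj hvw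
          exact (congrArg Subtype.val this).symm
        obtain ⟨c, hc, rfl⟩ := (lnS_eq_iff e β hinj w v hw hv).1 hvw'
        rw [hgs w hw c hc, hfw]
    · intro h
      exact Or.inr ⟨v, hv, rfl, h⟩
  have memAc_pt : ∀ (v : V) (hv : v ≠ 0),
      (Sum.inl ⟨ptS e v, finrank_ptS e hv⟩ : Point (ZMod p) ⊕ Line (ZMod p)) ∈ Aᶜ ↔ f v = -1 := by
    intro v hv
    rw [Set.mem_compl_iff, memA_pt v hv]
    rcases hf v hv with h | h <;> simp [h]
  have memAc_ln : ∀ (a : V) (ha : a ≠ 0),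
      (Sum.inr ⟨lnS e β a, finrank_lnS e β hinj ha⟩ : Point (ZMod p) ⊕ Line (ZMod p)) ∈ Aᶜ ↔ g a = -1 := by
    intro v hv
    rw [Set.mem_compl_iff, memA_ln v hv]
    rcases hg v hv with h | h <;> simp [h]
  -- neighbours of a point
  have nb_pt : ∀ (v : V) (hv : v ≠ 0) (Q : Set (Point (ZMod p) ⊕ Line (ZMod p))) (q : V → Prop)
      [DecidablePred q],
      (∀ (a : V) (ha : a ≠ 0),
        (Sum.inr ⟨lnS e β a, finrank_lnS e β hinj ha⟩ : Point (ZMod p) ⊕ Line (ZMod p)) ∈ Q ↔ q a) →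
      ((incidenceGraph (ZMod p)).neighborSet (Sum.inl ⟨ptS e v, finrank_ptS e hv⟩) ∩ Q).ncard
        = (((univ.filter (fun a => a ≠ 0 ∧ β v a = 0)).filter q).image (lnS e β)).card := by
    intro v hv Q q _ hq
    have himg : (fun L : Line (ZMod p) => L.1) '' {L : Line (ZMod p) | Sum.inr L ∈
        (incidenceGraph (ZMod p)).neighborSet (Sum.inl ⟨ptS e v, finrank_ptS e hv⟩) ∩ Q}
        = (((univ.filter (fun a => a ≠ 0 ∧ β v a = 0)).filter q).image (lnS e β) :
          Finset _) := by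
      ext L
      simp only [Set.mem_image, Set.mem_setOf_eq, coe_image, coe_filter, mem_filter, mem_univ,
        true_and]
      constructor
      · rintro ⟨⟨L, hL⟩, ⟨hadj, hQ⟩, rfl⟩
        obtain ⟨a, ha, rfl⟩ := exists_lnS e β hinj hsurj L hL
        refine ⟨a, ⟨⟨ha, ?_⟩, (hq a ha).1 hQ⟩, rfl⟩
        obtain ⟨P, L, hPL, ⟨h, h'⟩ | ⟨h, h'⟩⟩ := hadj
        · have hP := Sum.inl.inj h
          have hL := Sum.inr.inj h'
          rw [← ptS_le_lnS e β]
          rw [← hP, ← hL] at hPL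
          exact hPL
        · cases h
      · rintro ⟨a, ⟨⟨ha, hva⟩, hqa⟩, rfl⟩
        refine ⟨⟨lnS e β a, finrank_lnS e β hinj ha⟩, ⟨?_, (hq a ha).2 hqa⟩, rfl⟩
        exact ⟨⟨ptS e v, finrank_ptS e hv⟩, ⟨lnS e β a, finrank_lnS e β hinj ha⟩,
          (ptS_le_lnS e β v a).2 hva, Or.inl ⟨rfl, rfl⟩⟩
    have hinr : (incidenceGraph (ZMod p)).neighborSet (Sum.inl ⟨ptS e v, finrank_ptS e hv⟩) ∩ Q
        = Sum.inr '' {L : Line (ZMod p) | Sum.inr L ∈
        (incidenceGraph (ZMod p)).neighborSet (Sum.inl ⟨ptS e v, finrank_ptS e hv⟩) ∩ Q} := by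
      ext x
      constructor
      · intro hx
        obtain ⟨P, L, hPL, ⟨h, h'⟩ | ⟨h, h'⟩⟩ := hx.1
        · exact ⟨L, by rw [h'] at hx; exact hx, h'.symm⟩
        · cases h
      · rintro ⟨L, hL, rfl⟩
        exact hL
    rw [hinr, Set.ncard_image_of_injective _ Sum.inr_injective,
      ← Set.ncard_image_of_injective _ Subtype.val_injective]
    rw [himg, Set.ncard_coe_finset]
  -- neighbours of a line
  have nb_ln : ∀ (a : V) (ha : a ≠ 0) (Q : Set (Point (ZMod p) ⊕ Line (ZMod p))) (q : V → Prop)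
      [DecidablePred q],
      (∀ (v : V) (hv : v ≠ 0),
        (Sum.inl ⟨ptS e v, finrank_ptS e hv⟩ : Point (ZMod p) ⊕ Line (ZMod p)) ∈ Q ↔ q v) →
      ((incidenceGraph (ZMod p)).neighborSet (Sum.inr ⟨lnS e β a, finrank_lnS e β hinj ha⟩) ∩ Q).ncard
        = (((univ.filter (fun v => v ≠ 0 ∧ β v a = 0)).filter q).image (ptS e)).card := by
    intro a ha Q q _ hq
    have himg : (fun L : Point (ZMod p) => L.1) '' {L : Point (ZMod p) | Sum.inl L ∈
        (incidenceGraph (ZMod p)).neighborSet (Sum.inr ⟨lnS e β a, finrank_lnS e β hinj ha⟩) ∩ Q}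
        = (((univ.filter (fun v => v ≠ 0 ∧ β v a = 0)).filter q).image (ptS e) :
          Finset _) := by
      ext P
      simp only [Set.mem_image, Set.mem_setOf_eq, coe_image, coe_filter, mem_filter, mem_univ,
        true_and]
      constructor
      · rintro ⟨⟨P, hP⟩, ⟨hadj, hQ⟩, rfl⟩
        obtain ⟨v, hv, rfl⟩ := exists_ptS e P hP
        refine ⟨v, ⟨⟨hv, ?_⟩, (hq v hv).1 hQ⟩, rfl⟩
        obtain ⟨P, L, hPL, ⟨h, h'⟩ | ⟨h, h'⟩⟩ := hadj
        · cases h
        · have hP := Sum.inr.inj h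
          have hL := Sum.inl.inj h'
          rw [← ptS_le_lnS e β]
          rw [← hP, ← hL] at hPL
          exact hPL
      · rintro ⟨v, ⟨⟨hv, hva⟩, hqa⟩, rfl⟩
        refine ⟨⟨ptS e v, finrank_ptS e hv⟩, ⟨?_, (hq v hv).2 hqa⟩, rfl⟩
        exact ⟨⟨ptS e v, finrank_ptS e hv⟩, ⟨lnS e β a, finrank_lnS e β hinj ha⟩,
          (ptS_le_lnS e β v a).2 hva, Or.inr ⟨rfl, rfl⟩⟩
    have hinl : (incidenceGraph (ZMod p)).neighborSet (Sum.inr ⟨lnS e β a, finrank_lnS e β hinj ha⟩) ∩ Q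
        = Sum.inl '' {L : Point (ZMod p) | Sum.inl L ∈
        (incidenceGraph (ZMod p)).neighborSet (Sum.inr ⟨lnS e β a, finrank_lnS e β hinj ha⟩) ∩ Q} := by
      ext x
      constructor
      · intro hx
        obtain ⟨P, L, hPL, ⟨h, h'⟩ | ⟨h, h'⟩⟩ := hx.1
        · cases h
        · exact ⟨P, by rw [h'] at hx; exact hx, h'.symm⟩
      · rintro ⟨L, hL, rfl⟩
        exact hL
    rw [hinl, Set.ncard_image_of_injective _ Sum.inl_injective,
      ← Set.ncard_image_of_injective _ Subtype.val_injective]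
    rw [himg, Set.ncard_coe_finset]
  -- conclusion
  have fin_pt : ∀ (v : V) (hv : v ≠ 0) (s : ℤ) (hs : s = 1 ∨ s = -1) (hfv : f v = s)
      (Q : Set (Point (ZMod p) ⊕ Line (ZMod p))) (hQ : ∀ (a : V) (ha : a ≠ 0),
        (Sum.inr ⟨lnS e β a, finrank_lnS e β hinj ha⟩ : Point (ZMod p) ⊕ Line (ZMod p)) ∈ Q ↔ g a = s),
      (((incidenceGraph (ZMod p)).neighborSet (Sum.inl ⟨ptS e v, finrank_ptS e hv⟩)).ncard : ℚ) / 2
        + ((1 : ℤ) : ℚ) ≤ ((((incidenceGraph (ZMod p)).neighborSet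
          (Sum.inl ⟨ptS e v, finrank_ptS e hv⟩)) ∩ Q).ncard : ℚ) := by
    intro v hv s hs hfv Q hQ
    have e1 := nb_pt v hv Q (fun a => g a = s) hQ
    have e2 := nb_pt v hv Set.univ (fun _ => True) (by simp)
    rw [Set.inter_univ, Finset.filter_true] at e2
    rw [e1, e2]
    have := bip_count (p := p) (lnS e β) (fun a b ha hb => lnS_eq_iff e β hinj a b ha hb)
      (univ.filter (fun a => a ≠ 0 ∧ β v a = 0)) (fun a ha => (mem_filter.1 ha).2.1)
      (fun a ha c hc => by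
        simp only [mem_filter, mem_univ, true_and] at ha ⊢
        exact ⟨smul_ne_zero hc ha.1, by rw [map_smul, ha.2, smul_zero]⟩)
      g hg hgs s hs (by rw [← hfv]; exact h2 v hv)
    push_cast
    exact this
  have fin_ln : ∀ (a : V) (ha : a ≠ 0) (s : ℤ) (hs : s = 1 ∨ s = -1) (hga : g a = s)
      (Q : Set (Point (ZMod p) ⊕ Line (ZMod p))) (hQ : ∀ (v : V) (hv : v ≠ 0),
        (Sum.inl ⟨ptS e v, finrank_ptS e hv⟩ : Point (ZMod p) ⊕ Line (ZMod p)) ∈ Q ↔ f v = s),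
      (((incidenceGraph (ZMod p)).neighborSet (Sum.inr ⟨lnS e β a,
        finrank_lnS e β hinj ha⟩)).ncard : ℚ) / 2
        + ((1 : ℤ) : ℚ) ≤ ((((incidenceGraph (ZMod p)).neighborSet
          (Sum.inr ⟨lnS e β a, finrank_lnS e β hinj ha⟩)) ∩ Q).ncard : ℚ) := by
    intro a ha s hs hfv Q hQ
    have e1 := nb_ln a ha Q (fun a => f a = s) hQ
    have e2 := nb_ln a ha Set.univ (fun _ => True) (by simp)
    rw [Set.inter_univ, Finset.filter_true] at e2
    rw [e1, e2]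
    have := bip_count (p := p) (ptS e) (fun a b ha hb => ptS_eq_iff e a b ha hb)
      (univ.filter (fun v => v ≠ 0 ∧ β v a = 0)) (fun a ha => (mem_filter.1 ha).2.1)
      (fun v hv c hc => by
        simp only [mem_filter, mem_univ, true_and] at hv ⊢
        exact ⟨smul_ne_zero hc hv.1, by rw [map_smul, LinearMap.smul_apply, hv.2, smul_zero]⟩)
      f hf hfs s hs (by rw [← hfv]; exact h1 a ha)
    push_cast
    exact this
  refine ⟨A, Aᶜ, ?_, ?_, disjoint_compl_right, Set.union_compl_self A, ?_, ?_⟩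
  · obtain ⟨v, hv, hfv⟩ := hpos
    exact ⟨_, (memA_pt v hv).2 hfv⟩
  · obtain ⟨v, hv, hfv⟩ := hneg
    exact ⟨_, (memAc_pt v hv).2 hfv⟩
  · rintro (⟨P, hP⟩ | ⟨L, hL⟩) hx
    · obtain ⟨v, hv, rfl⟩ := exists_ptS e P hP
      exact fin_pt v hv 1 (Or.inl rfl) ((memA_pt v hv).1 hx) A memA_ln
    · obtain ⟨a, ha, rfl⟩ := exists_lnS e β hinj hsurj L hL
      exact fin_ln a ha 1 (Or.inl rfl) ((memA_ln a ha).1 hx) A memA_pt
  · rintro (⟨P, hP⟩ | ⟨L, hL⟩) hx
    · obtain ⟨v, hv, rfl⟩ := exists_ptS e P hP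
      exact fin_pt v hv (-1) (Or.inr rfl) ((memAc_pt v hv).1 hx) Aᶜ memAc_ln
    · obtain ⟨a, ha, rfl⟩ := exists_lnS e β hinj hsurj L hL
      exact fin_ln a ha (-1) (Or.inr rfl) ((memAc_ln a ha).1 hx) Aᶜ memAc_pt

end main

end Pool.Agent.Lib.MP_42b82d_co
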