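import Pool.Agent.Lib.MP_42b82d_co.PgTorus

/-!
# Optimal class functions, Parseval, Frobenius
-/

set_option linter.unusedSectionVars false
set_option linter.unusedVariables false
set_option linter.unusedSimpArgs false
set_option linter.deprecated false

namespace Pool.Agent.Lib.MP_42b82d_co

open Finset

variable {p : ℕ} [Fact p.Prime] {E : Type*} [Field E] [Fintype E] [DecidableEq E]
  [Algebra (ZMod p) E] (hE : Module.finrank (ZMod p) E = 2) {m : ℕ} [NeZero m] (D : DLog p E m)

lemma neg_w : - D.w = D.w := neg_eq_of_add_eq_zero_left D.w_add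

lemma Fl_add_w (X : ZMod m → ℤˣ) (hX : ∀ j, X (j + D.w) = - X j) (i : ZMod m) :
    Fl D X (i + D.w) = - Fl D X i := by
  unfold Fl
  rw [← sum_neg_distrib]
  apply sum_congr rfl
  intro t _
  have : D.κ t - (i + D.w) = (D.κ t - i) + D.w := by
    nth_rw 2 [← neg_w D]
    ring
  rw [this, hX]
  simp

include hE in
lemma Fl_odd (hp : Odd p) (X : ZMod m → ℤˣ) (i : ZMod m) : Odd (Fl D X i) := by
  have h : (Fl D X i) % 2 = 1 := by
    have h1 : ∀ t ∈ univ.filter (fun t : E => Tr p E t = 1),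
        (X (D.κ t - i) : ℤ) % 2 = 1 % 2 := by
      intro t _
      rcases units_cases (X (D.κ t - i)) with h | h <;> rw [h] <;> rfl
    unfold Fl
    rw [Finset.sum_int_mod, sum_congr rfl h1, ← Finset.sum_int_mod, sum_const, card_tr hE]
    obtain ⟨k, rfl⟩ := hp
    simp only [nsmul_eq_mul, mul_one]
    push_cast
    omega
  exact Int.odd_iff.2 h

/-- the bilinear form to be maximised -/
noncomputable def Bf (X Y : ZMod m → ℤˣ) : ℤ := ∑ i, (Y i : ℤ) * Fl D X i

lemma Bf_symm (X Y : ZMod m → ℤˣ) : Bf D X Y = Bf D Y X := by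
  have h : ∀ X Y : ZMod m → ℤˣ, Bf D X Y
      = ∑ t ∈ univ.filter (fun t : E => Tr p E t = 1), ∑ i, (Y i : ℤ) * (X (D.κ t - i) : ℤ) := by
    intro X Y
    unfold Bf Fl
    rw [sum_comm]
    apply sum_congr rfl
    intro i _
    rw [mul_sum]
  rw [h X Y, h Y X]
  apply sum_congr rfl
  intro t _
  rw [← (Equiv.subLeft (D.κ t)).sum_comp]
  apply sum_congr rfl
  intro i _
  simp only [Equiv.subLeft_apply, sub_sub_cancel]
  ring

/-- flip an odd sign function at one orbit -/
def flip (Y : ZMod m → ℤˣ) (i0 : ZMod m) : ZMod m → ℤˣ :=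
  fun i => if i = i0 ∨ i = i0 + D.w then - Y i else Y i

lemma flip_odd (Y : ZMod m → ℤˣ) (hY : ∀ j, Y (j + D.w) = - Y j) (i0 : ZMod m) :
    ∀ j, flip D Y i0 (j + D.w) = - flip D Y i0 j := by
  intro j
  unfold flip
  have h1 : j + D.w = i0 ↔ j = i0 + D.w := by
    constructor
    · intro h
      rw [← h, add_assoc, D.w_add, add_zero]
    · intro h
      rw [h, add_assoc, D.w_add, add_zero]
  have h2 : j + D.w = i0 + D.w ↔ j = i0 := add_left_inj _
  by_cases h : j = i0 ∨ j = i0 + D.w
  · rw [if_pos h, if_pos (h.symm.imp h1.2 h2.2), hY]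
  · rw [if_neg h, if_neg (fun h' => h (h'.symm.imp h2.1 h1.1)), hY]

lemma Bf_flip (X Y : ZMod m → ℤˣ) (hX : ∀ j, X (j + D.w) = - X j)
    (hY : ∀ j, Y (j + D.w) = - Y j) (i0 : ZMod m) :
    Bf D X (flip D Y i0) = Bf D X Y - 4 * ((Y i0 : ℤ) * Fl D X i0) := by
  have hne : i0 ≠ i0 + D.w := by
    intro h
    exact D.w_ne (by simpa using h)
  have h : ∀ i, (flip D Y i0 i : ℤ) * Fl D X i = (Y i : ℤ) * Fl D X i
      - ((if i = i0 then 2 * ((Y i : ℤ) * Fl D X i) else 0)
        + (if i = i0 + D.w then 2 * ((Y i : ℤ) * Fl D X i) else 0)) := by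
    intro i
    unfold flip
    by_cases h1 : i = i0
    · subst h1
      simp [hne]
      ring
    · by_cases h2 : i = i0 + D.w
      · simp [h1, h2]
        have : ¬ (D.w = 0) := D.w_ne
        simp [this]
        ring
      · simp [h1, h2]
  unfold Bf
  rw [sum_congr rfl (fun i _ => h i), sum_sub_distrib, sum_add_distrib]
  rw [sum_ite_eq' univ i0, sum_ite_eq' univ (i0 + D.w), if_pos (mem_univ _), if_pos (mem_univ _)]
  rw [hY, Fl_add_w D X hX]
  push_cast
  ring

theorem exists_opt (h0 : ∃ X : ZMod m → ℤˣ, ∀ j, X (j + D.w) = - X j) :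
    ∃ X Y : ZMod m → ℤˣ, (∀ j, X (j + D.w) = - X j) ∧ (∀ j, Y (j + D.w) = - Y j) ∧
      (∀ i, 0 ≤ (Y i : ℤ) * Fl D X i) ∧ (∀ i, 0 ≤ (X i : ℤ) * Fl D Y i) := by
  classical
  obtain ⟨X0, hX0⟩ := h0
  haveI : Nonempty {X : ZMod m → ℤˣ // ∀ j, X (j + D.w) = - X j} := ⟨⟨X0, hX0⟩⟩
  obtain ⟨⟨⟨X, hX⟩, ⟨Y, hY⟩⟩, hmax⟩ := Finite.exists_max
    (fun q : {X : ZMod m → ℤˣ // ∀ j, X (j + D.w) = - X j} ×
      {X : ZMod m → ℤˣ // ∀ j, X (j + D.w) = - X j} => Bf D q.1.1 q.2.1)
  refine ⟨X, Y, hX, hY, ?_, ?_⟩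
  · intro i
    have h := hmax (⟨X, hX⟩, ⟨flip D Y i, flip_odd D Y hY i⟩)
    simp only at h
    rw [Bf_flip D X Y hX hY] at h
    linarith
  · intro i
    have h := hmax (⟨flip D X i, flip_odd D X hX i⟩, ⟨Y, hY⟩)
    simp only at h
    rw [Bf_symm D X Y, Bf_symm D _ Y, Bf_flip D Y X hY hX] at h
    linarith

include hE in
/-- General criterion. -/
theorem internal_of_no_unit_field (hp : Odd p) (h0 : ∃ X : ZMod m → ℤˣ, ∀ j, X (j + D.w) = - X j)
    (hex : ∀ X : ZMod m → ℤˣ, (∀ j, X (j + D.w) = - X j) → ∀ i,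
      Fl D X i ≠ 1 ∧ Fl D X i ≠ -1) :
    HasInternalPartition (incidenceGraph (ZMod p)) 1 := by
  have hp3 : 3 ≤ p := by
    have h2 := (Fact.out : p.Prime).two_le
    obtain ⟨k, hk⟩ := hp
    omega
  obtain ⟨X, Y, hX, hY, h1, h2⟩ := exists_opt D h0
  have key : ∀ X Y : ZMod m → ℤˣ, (∀ j, X (j + D.w) = - X j) → ∀ i,
      0 ≤ (Y i : ℤ) * Fl D X i → 3 ≤ (Y i : ℤ) * Fl D X i := by
    intro X Y hX i hi
    obtain ⟨k, hk⟩ := Fl_odd hE D hp X i
    obtain ⟨h3, h4⟩ := hex X hX i
    rcases units_cases (Y i) with h | h <;> rw [h] at hi ⊢ <;> omega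
  exact internal_of_fields hE D hp3 X Y hX hY (fun i => key X Y hX i (h1 i))
    (fun i => key Y X hY i (h2 i))

/-- class counts -/
noncomputable def Nc (D : DLog p E m) (j : ZMod m) : ℤ :=
  ((univ.filter (fun t : E => Tr p E t = 1 ∧ D.κ t = j)).card : ℤ)

lemma Fl_eq (X : ZMod m → ℤˣ) (i : ZMod m) :
    Fl D X i = ∑ j, Nc D j * (X (j - i) : ℤ) := by
  unfold Fl
  rw [← sum_fiberwise_of_maps_to (s := univ.filter (fun t : E => Tr p E t = 1)) (t := univ)
    (g := D.κ) (fun _ _ => mem_univ _)]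
  apply sum_congr rfl
  intro j _
  rw [filter_filter]
  rw [sum_congr rfl (g := fun _ => (X (j - i) : ℤ))]
  · rw [sum_const, nsmul_eq_mul]
    rfl
  · intro t ht
    rw [(mem_filter.1 ht).2.2]

/-- number of `t` with `Tr t = Tr (t h) = 1` -/
noncomputable def nh (p : ℕ) [Fact p.Prime] {E : Type*} [Field E] [Fintype E] [DecidableEq E]
  [Algebra (ZMod p) E] (h : E) : ℤ :=
  ((univ.filter (fun t : E => Tr p E t = 1 ∧ Tr p E (t * h) = 1)).card : ℤ)

include hE in
lemma nh_of_not_mem (h : E) (hh : ∀ c : ZMod p, h ≠ algebraMap (ZMod p) E c) : nh p h = 1 := by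
  have hcard : Fintype.card (ZMod p × ZMod p) = Fintype.card E := by
    rw [Fintype.card_prod, ZMod.card, card_E hE, sq]
  -- {1, h} spans
  have hsp : Function.Bijective (fun q : ZMod p × ZMod p =>
      algebraMap (ZMod p) E q.1 + q.2 • h) := by
    rw [Fintype.bijective_iff_injective_and_card]
    refine ⟨?_, hcard⟩
    rintro ⟨a, b⟩ ⟨a', b'⟩ hab
    simp only [Algebra.smul_def] at hab
    by_cases hb : b = b'
    · subst hb
      have : algebraMap (ZMod p) E a = algebraMap (ZMod p) E a' := add_right_cancel hab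
      rw [(algebraMap (ZMod p) E).injective this]
    · exfalso
      have hb' : algebraMap (ZMod p) E (b - b') ≠ 0 := algebraMap_ne_zero' (sub_ne_zero.2 hb)
      apply hh ((a' - a) * (b - b')⁻¹)
      rw [map_mul, map_inv₀, map_sub]
      rw [eq_mul_inv_iff_mul_eq₀ hb', map_sub]
      linear_combination hab
  have hΦ : Function.Bijective (fun t : E => (Tr p E t, Tr p E (t * h))) := by
    rw [Fintype.bijective_iff_injective_and_card]
    refine ⟨?_, hcard.symm⟩
    intro t t' htt
    simp only [Prod.mk.injEq] at htt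
    rw [← sub_eq_zero]
    apply tr_nondeg (p := p)
    intro u
    obtain ⟨⟨a, b⟩, rfl⟩ := hsp.2 u
    simp only [Algebra.smul_def]
    have e1 : (algebraMap (ZMod p) E a + algebraMap (ZMod p) E b * h) * (t - t')
        = a • (t - t') + b • (t * h - t' * h) := by
      rw [Algebra.smul_def, Algebra.smul_def]; ring
    rw [e1, map_add, map_smul, map_smul, map_sub, map_sub, htt.1, htt.2]
    simp
  obtain ⟨t0, ht0⟩ := hΦ.2 (1, 1)
  unfold nh
  have : univ.filter (fun t : E => Tr p E t = 1 ∧ Tr p E (t * h) = 1) = {t0} := by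
    ext t
    simp only [mem_filter, mem_univ, true_and, mem_singleton]
    constructor
    · rintro ⟨h1, h2⟩
      apply hΦ.1
      rw [ht0]
      simp [h1, h2]
    · rintro rfl
      simp only [Prod.mk.injEq] at ht0
      exact ht0
  rw [this]
  simp

include hE in
lemma nh_algebraMap (c : ZMod p) :
    nh p (algebraMap (ZMod p) E c) = if c = 1 then (p : ℤ) else 0 := by
  unfold nh
  have h1 : ∀ t : E, Tr p E (t * algebraMap (ZMod p) E c) = c * Tr p E t := by
    intro t
    rw [mul_comm, ← Algebra.smul_def, map_smul, smul_eq_mul]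
  split_ifs with hc
  · subst hc
    have : univ.filter (fun t : E => Tr p E t = 1 ∧
        Tr p E (t * algebraMap (ZMod p) E 1) = 1) = univ.filter (fun t : E => Tr p E t = 1) := by
      apply filter_congr
      intro t _
      simp
    rw [this, card_tr hE]
  · have : univ.filter (fun t : E => Tr p E t = 1 ∧
        Tr p E (t * algebraMap (ZMod p) E c) = 1) = ∅ := by
      apply filter_false_of_mem
      rintro t _ ⟨h2, h3⟩
      rw [h1, h2, mul_one] at h3
      exact hc h3
    rw [this]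
    simp

lemma corr_eq (k : ZMod m) : ∑ j, Nc D j * Nc D (j + k)
    = ∑ h ∈ univ.filter (fun h : E => h ≠ 0 ∧ D.κ h = k), nh p h := by
  have h1 : ∑ j, Nc D j * Nc D (j + k)
      = ∑ t ∈ univ.filter (fun t : E => Tr p E t = 1), Nc D (D.κ t + k) := by
    rw [← sum_fiberwise_of_maps_to (s := univ.filter (fun t : E => Tr p E t = 1)) (t := univ)
      (g := D.κ) (fun _ _ => mem_univ _)]
    apply sum_congr rfl
    intro j _
    rw [filter_filter]
    rw [sum_congr rfl (g := fun _ => Nc D (j + k))]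
    · rw [sum_const, nsmul_eq_mul]
      rfl
    · intro t ht
      rw [(mem_filter.1 ht).2.2]
  rw [h1]
  have h2 : ∀ t ∈ univ.filter (fun t : E => Tr p E t = 1), Nc D (D.κ t + k)
      = ∑ h ∈ univ.filter (fun h : E => h ≠ 0 ∧ D.κ h = k),
        if Tr p E (t * h) = 1 then (1 : ℤ) else 0 := by
    intro t ht
    have ht1 : Tr p E t = 1 := by simpa using ht
    have ht0 : t ≠ 0 := by
      rintro rfl
      rw [map_zero] at ht1
      exact zero_ne_one ht1
    rw [sum_boole, filter_filter]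
    unfold Nc
    congr 1
    symm
    apply Finset.card_bij (fun h _ => t * h)
    · intro h hh
      simp only [mem_filter, mem_univ, true_and] at hh ⊢
      refine ⟨hh.2, ?_⟩
      rw [D.κ_mul _ _ ht0 hh.1.1, hh.1.2]
    · intro a _ b _ hab
      exact mul_left_cancel₀ ht0 hab
    · intro s hs
      simp only [mem_filter, mem_univ, true_and] at hs
      have hs0 : s ≠ 0 := by
        rintro rfl
        rw [map_zero] at hs
        exact zero_ne_one hs.1
      refine ⟨t⁻¹ * s, ?_, by rw [← mul_assoc, mul_inv_cancel₀ ht0, one_mul]⟩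
      simp only [mem_filter, mem_univ, true_and]
      refine ⟨⟨mul_ne_zero (inv_ne_zero ht0) hs0, ?_⟩, ?_⟩
      · rw [D.κ_mul _ _ (inv_ne_zero ht0) hs0, κ_inv D ht0, hs.2]
        ring
      · rw [← mul_assoc, mul_inv_cancel₀ ht0, one_mul]
        exact hs.1
  rw [sum_congr rfl h2, sum_comm]
  apply sum_congr rfl
  intro h _
  rw [sum_boole, filter_filter]
  rfl

include hE in
/-- Correlations: Parseval and orthogonality -/
theorem corr_general (k : ZMod m) (hk : k ≠ D.w) :
    ∑ j, Nc D j * Nc D (j + k) - ∑ j, Nc D j * Nc D (j + (k + D.w))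
      = if k = 0 then (p : ℤ) else 0 := by
  rw [corr_eq, corr_eq]
  have h1 : ∑ h ∈ univ.filter (fun h : E => h ≠ 0 ∧ D.κ h = k + D.w), nh p h
      = ∑ h ∈ univ.filter (fun h : E => h ≠ 0 ∧ D.κ h = k), nh p (D.ν • h) := by
    symm
    have hν : κF D D.ν = D.w := D.κ_ν
    apply sum_nbij' (i := fun h => D.ν • h) (j := fun h => D.ν⁻¹ • h)
    · intro h hh
      simp only [mem_filter, mem_univ, true_and] at hh ⊢
      refine ⟨smul_ne_zero D.ν_ne hh.1, ?_⟩
      rw [κ_smul D D.ν_ne hh.1, hh.2, hν, add_comm]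
    · intro h hh
      simp only [mem_filter, mem_univ, true_and] at hh ⊢
      refine ⟨smul_ne_zero (inv_ne_zero D.ν_ne) hh.1, ?_⟩
      rw [κ_smul D (inv_ne_zero D.ν_ne) hh.1, hh.2, κF_inv D D.ν_ne, hν]
      ring
    · intro h _
      rw [smul_smul, inv_mul_cancel₀ D.ν_ne, one_smul]
    · intro h _
      rw [smul_smul, mul_inv_cancel₀ D.ν_ne, one_smul]
    · intro h _
      rfl
  rw [h1, ← sum_sub_distrib]
  have h2 : ∀ h ∈ univ.filter (fun h : E => h ≠ 0 ∧ D.κ h = k),
      nh p h - nh p (D.ν • h) = if h = 1 then (p : ℤ) else 0 := by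
    intro h hh
    simp only [mem_filter, mem_univ, true_and] at hh
    by_cases hc : ∃ c : ZMod p, h = algebraMap (ZMod p) E c
    · obtain ⟨c, rfl⟩ := hc
      have hc0 : c ≠ 0 := by
        rintro rfl
        exact hh.1 (map_zero _)
      rw [Algebra.smul_def, ← map_mul, nh_algebraMap hE, nh_algebraMap hE]
      have hne : D.ν * c ≠ 1 := by
        intro h'
        have h3 := κF_mul D D.ν_ne hc0
        have hν : κF D D.ν = D.w := D.κ_ν
        have hcz : κF D c = k := hh.2
        rw [h', hν, hcz] at h3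
        have : κF D (1 : ZMod p) = 0 := by
          unfold κF
          rw [map_one, κ_one]
        rw [this] at h3
        apply hk
        have h4 : k = - D.w := by linear_combination (-1 : ZMod m) * h3
        rw [h4, neg_w]
      rw [if_neg hne, sub_zero]
      have : (algebraMap (ZMod p) E c = 1) ↔ c = 1 := by
        rw [← map_one (algebraMap (ZMod p) E)]
        exact (algebraMap (ZMod p) E).injective.eq_iff
      simp only [this]
    · push Not at hc
      rw [nh_of_not_mem hE h hc, nh_of_not_mem hE (D.ν • h)]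
      · rw [sub_self, if_neg]
        rintro rfl
        exact hc 1 (map_one _).symm
      · intro c hcc
        apply hc (D.ν⁻¹ * c)
        rw [map_mul, ← hcc, Algebra.smul_def, ← mul_assoc, ← map_mul, inv_mul_cancel₀ D.ν_ne,
          map_one, one_mul]
  rw [sum_congr rfl h2, sum_ite_eq' _ (1 : E)]
  simp only [mem_filter, mem_univ, true_and, κ_one]
  by_cases h : k = 0
  · rw [if_pos ⟨one_ne_zero, h.symm⟩, if_pos h]
  · rw [if_neg (fun h' => h h'.2.symm), if_neg h]

include hE in
/-- Parseval -/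
theorem parseval : ∑ j, Nc D j * Nc D j - ∑ j, Nc D j * Nc D (j + D.w) = (p : ℤ) := by
  have := corr_general hE D 0 (fun h => D.w_ne h.symm)
  simpa using this

lemma κ_pow {x : E} (hx : x ≠ 0) (n : ℕ) : D.κ (x ^ n) = (n : ZMod m) * D.κ x := by
  induction n with
  | zero => simp [κ_one]
  | succ n ih =>
    rw [pow_succ, D.κ_mul _ _ (pow_ne_zero _ hx) hx, ih]
    push_cast
    ring

include hE in
lemma tr_frob (x : E) : Tr p E (x ^ p) = Tr p E x := by
  apply (algebraMap (ZMod p) E).injective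
  have h := fun y : E => FiniteField.algebraMap_trace_eq_sum_pow (ZMod p) E y
  rw [h, h, hE]
  simp only [sum_range_succ, range_zero, sum_empty, pow_zero, pow_one, zero_add, Nat.card_zmod]
  have : (x ^ p) ^ p = x := by
    rw [← pow_mul, ← sq, ← card_E hE]
    exact FiniteField.pow_card x
  rw [this]
  ring

include hE in
lemma Nc_frob (hm : m ∣ p ^ 2 - 1) (j : ZMod m) : Nc D ((p : ZMod m) * j) = Nc D j := by
  have hp2 : ((p : ZMod m)) * (p : ZMod m) = 1 := by
    have h1 : ((p ^ 2 - 1 : ℕ) : ZMod m) = 0 := (ZMod.natCast_eq_zero_iff _ _).2 hm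
    have hp1 : 1 ≤ p ^ 2 := Nat.one_le_pow _ _ (Fact.out : p.Prime).pos
    rw [Nat.cast_sub hp1] at h1
    push_cast at h1
    linear_combination h1
  have key : ∀ j : ZMod m, Nc D j ≤ Nc D ((p : ZMod m) * j) := by
    intro j
    unfold Nc
    norm_cast
    apply Finset.card_le_card_of_injOn (fun t => t ^ p)
    · intro t ht
      simp only [coe_filter, mem_univ, true_and, Set.mem_setOf_eq] at ht ⊢
      have ht0 : t ≠ 0 := by
        rintro rfl
        rw [map_zero] at ht
        exact zero_ne_one ht.1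
      exact ⟨by rw [tr_frob hE, ht.1], by rw [κ_pow D ht0, ht.2]⟩
    · intro a _ b _ hab
      have h : ∀ x : E, (x ^ p) ^ p = x := by
        intro x
        rw [← pow_mul, ← sq, ← card_E hE]
        exact FiniteField.pow_card x
      simp only at hab
      rw [← h a, ← h b, hab]
  apply le_antisymm
  · have := key ((p : ZMod m) * j)
    rwa [← mul_assoc, hp2, one_mul] at this
  · exact key j

/-- existence of the discrete logarithm -/
theorem exists_dlog {p : ℕ} [Fact p.Prime] {E : Type*} [Field E] [Fintype E] [DecidableEq E]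
    [Algebra (ZMod p) E] (hE : Module.finrank (ZMod p) E = 2) (m : ℕ) [NeZero m]
    (hm : m ∣ p ^ 2 - 1) (w : ZMod m) (hw : ((p + 1 : ℕ) : ZMod m) = w) (hww : w + w = 0)
    (hw0 : w ≠ 0) : ∃ D : DLog p E m, D.w = w := by
  classical
  obtain ⟨g, hg⟩ := IsCyclic.exists_generator (α := Eˣ)
  have hn : Nat.card Eˣ = p ^ 2 - 1 := by
    rw [Nat.card_units, Nat.card_eq_fintype_card, card_E hE]
  set φ := zmodMulEquivOfGenerator hg hn with hφ
  set cst := ZMod.castHom hm (ZMod m) with hcst
  set κ : E → ZMod m := fun x => if h : x = 0 then 0 else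
    cst (Multiplicative.toAdd (φ.symm (Units.mk0 x h))) with hκ
  have κ_unit : ∀ u : Eˣ, κ (u : E) = cst (Multiplicative.toAdd (φ.symm u)) := by
    intro u
    simp only [hκ]
    rw [dif_neg u.ne_zero, Units.mk0_val]
  have κ_mul : ∀ x y : E, x ≠ 0 → y ≠ 0 → κ (x * y) = κ x + κ y := by
    intro x y hx hy
    have h1 := κ_unit (Units.mk0 x hx * Units.mk0 y hy)
    have h2 := κ_unit (Units.mk0 x hx)
    have h3 := κ_unit (Units.mk0 y hy)
    rw [map_mul, toAdd_mul, map_add, ← h2, ← h3] at h1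
    simpa using h1
  have κg : κ (g : E) = 1 := by
    rw [κ_unit, hφ, zmodMulEquivOfGenerator_symm_apply_generator]
    simp
  have κpow : ∀ n : ℕ, κ ((g : E) ^ n) = n := by
    intro n
    induction n with
    | zero =>
      have := κ_mul 1 1 one_ne_zero one_ne_zero
      rw [mul_one] at this
      simpa using this
    | succ n ih =>
      rw [pow_succ, κ_mul _ _ (pow_ne_zero _ g.ne_zero) g.ne_zero, ih, κg]
      push_cast
      ring
  have hnorm : algebraMap (ZMod p) E (Algebra.norm (ZMod p) (g : E)) = (g : E) ^ (p + 1) := by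
    rw [FiniteField.algebraMap_norm_eq_pow, Nat.card_eq_fintype_card, Nat.card_zmod, card_E hE]
    congr 1
    have hp1 : 1 < p := (Fact.out : p.Prime).one_lt
    have : p ^ 2 - 1 = (p + 1) * (p - 1) := by
      have := Nat.sq_sub_sq p 1
      simpa using this
    rw [this, Nat.mul_div_cancel _ (by omega)]
  refine ⟨⟨κ, w, κ_mul, hww, hw0, Algebra.norm (ZMod p) (g : E), ?_, ?_⟩, rfl⟩
  · rw [Ne, Algebra.norm_eq_zero_iff]
    exact g.ne_zero
  · rw [hnorm, κpow]
    exact hw

end Pool.Agent.Lib.MP_42b82d_co
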