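import Pool.Agent.Lib.MP_42b82d_co.PgMain

/-!
# Explicit sign patterns given by bit masks
-/

set_option linter.unusedSectionVars false
set_option linter.unusedVariables false
set_option linter.unusedSimpArgs false
set_option linter.deprecated false

namespace Pool.Agent.Lib.MP_42b82d_co

open Finset

/-- The value at `j` of the `n`-antiperiodic sign sequence with bit mask `X`. -/
def sb (n X j : ℕ) : ℤ :=
  if j % (2 * n) < n then (if X.testBit (j % (2 * n)) then -1 else 1)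
  else (if X.testBit (j % (2 * n) - n) then 1 else -1)

lemma sb_cases (n X j : ℕ) : sb n X j = 1 ∨ sb n X j = -1 := by
  unfold sb
  split_ifs <;> simp

lemma sb_mod (n X j : ℕ) : sb n X (j % (2 * n)) = sb n X j := by
  unfold sb
  rw [Nat.mod_mod]

lemma sb_add (n X j : ℕ) (hn : 0 < n) : sb n X (j + n) = - sb n X j := by
  unfold sb
  have h1 : j % (2 * n) < 2 * n := Nat.mod_lt _ (by omega)
  by_cases h : j % (2 * n) < n
  · have h2 : (j + n) % (2 * n) = j % (2 * n) + n := by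
      rw [Nat.add_mod, Nat.mod_eq_of_lt (a := n) (by omega), Nat.mod_eq_of_lt (by omega)]
    rw [h2, if_neg (by omega), if_pos h, Nat.add_sub_cancel]
    split_ifs <;> simp
  · have h2 : (j + n) % (2 * n) = j % (2 * n) - n := by
      rw [Nat.add_mod, Nat.mod_eq_of_lt (a := n) (by omega)]
      have h3 : j % (2 * n) + n = (j % (2 * n) - n) + 2 * n := by omega
      rw [h3, Nat.add_mod_right, Nat.mod_eq_of_lt (by omega)]
    rw [h2, if_pos (by omega), if_neg h]
    split_ifs <;> simp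

instance neZero_two_mul (n : ℕ) [NeZero n] : NeZero (2 * n) :=
  ⟨by have := NeZero.ne n; omega⟩

variable {p : ℕ} [Fact p.Prime] {E : Type*} [Field E] [Fintype E] [DecidableEq E]
  [Algebra (ZMod p) E] (hE : Module.finrank (ZMod p) E = 2) {n : ℕ} [NeZero n]

/-- the sign pattern as a function on `ZMod (2 n)` -/
def Xf (n X : ℕ) : ZMod (2 * n) → ℤˣ := fun j => if sb n X j.val = 1 then 1 else -1

lemma Xf_coe (X : ℕ) (j : ZMod (2 * n)) : (Xf n X j : ℤ) = sb n X j.val := by
  unfold Xf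
  rcases sb_cases n X j.val with h | h <;> simp [h]

lemma Xf_coe_nat (X : ℕ) (j : ℕ) : (Xf n X (j : ZMod (2 * n)) : ℤ) = sb n X j := by
  rw [Xf_coe, ZMod.val_natCast, sb_mod]

lemma Xf_odd (X : ℕ) (j : ZMod (2 * n)) : Xf n X (j + (n : ZMod (2 * n))) = - Xf n X j := by
  have hn : 0 < n := Nat.pos_of_ne_zero (NeZero.ne n)
  have h : j = ((j.val : ℕ) : ZMod (2 * n)) := (ZMod.natCast_zmod_val j).symm
  apply Units.ext
  rw [Units.val_neg]
  rw [h, ← Nat.cast_add, Xf_coe_nat, Xf_coe_nat, sb_add _ _ _ hn]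

/-- the differences of opposite class counts -/
noncomputable def cc (D : DLog p E (2 * n)) (j : ℕ) : ℤ :=
  Nc D (j : ZMod (2 * n)) - Nc D ((j : ZMod (2 * n)) + (n : ZMod (2 * n)))

lemma sum_zmod_eq_range {m : ℕ} [NeZero m] (f : ZMod m → ℤ) :
    ∑ j, f j = ∑ j ∈ range m, f (j : ZMod m) := by
  apply sum_nbij' (i := fun j : ZMod m => j.val) (j := fun j : ℕ => (j : ZMod m))
  · intro j _
    simpa using ZMod.val_lt j
  · intro j _
    simp
  · intro j _
    exact ZMod.natCast_zmod_val j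
  · intro j hj
    exact ZMod.val_cast_of_lt (by simpa using hj)
  · intro j _
    rw [ZMod.natCast_zmod_val]

lemma sum_zmod_eq_half (f : ZMod (2 * n) → ℤ) :
    ∑ j, f j = ∑ j ∈ range n, (f (j : ZMod (2 * n)) + f ((j : ZMod (2 * n)) + n)) := by
  have h : ∀ g : ℕ → ℤ, ∑ j ∈ range (2 * n), g j = ∑ j ∈ range n, (g j + g (j + n)) := by
    intro g
    rw [two_mul, sum_range_add, sum_add_distrib]
    congr 1
    apply sum_congr rfl
    intro j _
    rw [add_comm]
  rw [sum_zmod_eq_range, h]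
  apply sum_congr rfl
  intro j _
  push_cast
  rfl

variable (D : DLog p E (2 * n)) (hw : D.w = (n : ZMod (2 * n)))

include hw in
lemma Fl_half (X : ZMod (2 * n) → ℤˣ) (hX : ∀ j, X (j + D.w) = - X j) (i : ZMod (2 * n)) :
    Fl D X i = ∑ j ∈ range n, cc D j * (X ((j : ZMod (2 * n)) - i) : ℤ) := by
  rw [Fl_eq, sum_zmod_eq_half]
  apply sum_congr rfl
  intro j _
  have h : (j : ZMod (2 * n)) + n - i = ((j : ZMod (2 * n)) - i) + D.w := by
    rw [hw]; ring
  rw [h, hX]
  unfold cc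
  push_cast
  ring

include hw in
lemma Fl_pat (X i : ℕ) (hi : i ≤ 2 * n) :
    Fl D (Xf n X) (i : ZMod (2 * n)) = ∑ j ∈ range n, cc D j * sb n X (j + (2 * n - i)) := by
  rw [Fl_half D hw (Xf n X) (by rw [hw]; exact Xf_odd X)]
  apply sum_congr rfl
  intro j _
  have h : (j : ZMod (2 * n)) - (i : ZMod (2 * n)) = ((j + (2 * n - i) : ℕ) : ZMod (2 * n)) := by
    have h0 : ((2 * n : ℕ) : ZMod (2 * n)) = 0 := ZMod.natCast_self _
    rw [Nat.cast_add, Nat.cast_sub hi, h0]
    ring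
  rw [h, Xf_coe_nat]

/-- all row margins of the pattern `(X, Y)` are at least 3 -/
def rowsOK (n : ℕ) (c : ℕ → ℤ) (X Y : ℕ) : Prop :=
  ∀ i, i < n → 3 ≤ sb n Y i * ∑ j ∈ range n, c j * sb n X (j + (2 * n - i))

include hw in
lemma rows_of_rowsOK (X Y : ℕ) (h : rowsOK n (cc D) X Y) (i : ZMod (2 * n)) :
    3 ≤ (Xf n Y i : ℤ) * Fl D (Xf n X) i := by
  have hn : 0 < n := Nat.pos_of_ne_zero (NeZero.ne n)
  have key : ∀ i : ℕ, i < n →
      3 ≤ (Xf n Y (i : ZMod (2 * n)) : ℤ) * Fl D (Xf n X) (i : ZMod (2 * n)) := by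
    intro i hi
    rw [Fl_pat D hw X i (by omega), Xf_coe_nat]
    exact h i hi
  have hi : i = ((i.val : ℕ) : ZMod (2 * n)) := (ZMod.natCast_zmod_val i).symm
  have hlt := ZMod.val_lt i
  by_cases h1 : i.val < n
  · rw [hi]
    exact key _ h1
  · have h2 : i = ((i.val - n : ℕ) : ZMod (2 * n)) + (n : ZMod (2 * n)) := by
      rw [← Nat.cast_add, Nat.sub_add_cancel (by omega)]
      exact hi
    rw [h2, Xf_odd]
    have h3 : ((i.val - n : ℕ) : ZMod (2 * n)) + (n : ZMod (2 * n))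
        = ((i.val - n : ℕ) : ZMod (2 * n)) + D.w := by rw [hw]
    rw [h3, Fl_add_w D (Xf n X) (by rw [hw]; exact Xf_odd X)]
    have := key (i.val - n) (by omega)
    push_cast
    linarith

include hE hw in
theorem internal_of_pattern (hp3 : 3 ≤ p) (X Y : ℕ) (h : rowsOK n (cc D) X Y)
    (h' : rowsOK n (cc D) Y X) : HasInternalPartition (incidenceGraph (ZMod p)) 1 :=
  internal_of_fields hE D hp3 (Xf n X) (Xf n Y) (by rw [hw]; exact Xf_odd X)
    (by rw [hw]; exact Xf_odd Y) (rows_of_rowsOK D hw X Y h) (rows_of_rowsOK D hw Y X h')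

end Pool.Agent.Lib.MP_42b82d_co
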