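import Pool.Agent.Lib.MP_42b82d_co.PgShift
import Pool.Agent.Lib.MP_42b82d_co.PgCover6

/-!
# Power sums over the line of trace one, and the character sums modulo `p`
-/

set_option linter.unusedSectionVars false
set_option linter.unusedVariables false
set_option linter.unusedSimpArgs false

namespace Pool.Agent.Lib.MP_42b82d_co

open Finset

variable {p : ℕ} [Fact p.Prime] {E : Type*} [Field E] [Fintype E] [DecidableEq E]
  [Algebra (ZMod p) E] (hE : Module.finrank (ZMod p) E = 2)

/-- existence of the discrete logarithm, with the residue symbol -/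
theorem exists_dlog' {p : ℕ} [Fact p.Prime] {E : Type*} [Field E] [Fintype E] [DecidableEq E]
    [Algebra (ZMod p) E] (hE : Module.finrank (ZMod p) E = 2) (m : ℕ) [NeZero m]
    (hm : m ∣ p ^ 2 - 1) (w : ZMod m) (k0 : ℕ) (hw : (((p + 1) * k0 : ℕ) : ZMod m) = w)
    (hww : w + w = 0) (hw0 : w ≠ 0) :
    ∃ (D : DLog p E m) (ξ : E), D.w = w ∧
      (∀ t : E, t ≠ 0 → t ^ ((p ^ 2 - 1) / m) = ξ ^ (D.κ t).val) ∧
      (∀ j : ℕ, ξ ^ j = 1 ↔ m ∣ j) := by
  classical
  obtain ⟨g, hg⟩ := IsCyclic.exists_generator (α := Eˣ)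
  have hn : Nat.card Eˣ = p ^ 2 - 1 := by
    rw [Nat.card_units, Nat.card_eq_fintype_card, card_E hE]
  have hord : orderOf g = p ^ 2 - 1 := by
    rw [orderOf_eq_card_of_forall_mem_zpowers hg, hn]
  set φ := zmodMulEquivOfGenerator hg hn with hφ
  set cst := ZMod.castHom hm (ZMod m) with hcst
  set κ : E → ZMod m := fun x => if h : x = 0 then 0 else
    cst (Multiplicative.toAdd (φ.symm (Units.mk0 x h))) with hκ
  have κ_unit : ∀ u : Eˣ, κ (u : E) = cst (Multiplicative.toAdd (φ.symm u)) := by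
    intro u
    simp only [hκ]
    rw [dif_neg u.ne_zero, Units.mk0_val]
  have κ_mul : ∀ x y : E, x ≠ 0 → y ≠ 0 → κ (x * y) = κ x + κ y := by
    intro x y hx hy
    have h1 := κ_unit (Units.mk0 x hx * Units.mk0 y hy)
    have h2 := κ_unit (Units.mk0 x hx)
    have h3 := κ_unit (Units.mk0 y hy)
    rw [map_mul, toAdd_mul, map_add, ← h2, ← h3] at h1
    simpa using h1
  have κg : κ (g : E) = 1 := by
    rw [κ_unit, hφ, zmodMulEquivOfGenerator_symm_apply_generator]
    simp
  have κpow : ∀ n : ℕ, κ ((g : E) ^ n) = n := by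
    intro n
    induction n with
    | zero =>
      have := κ_mul 1 1 one_ne_zero one_ne_zero
      rw [mul_one] at this
      simpa using this
    | succ n ih =>
      rw [pow_succ, κ_mul _ _ (pow_ne_zero _ g.ne_zero) g.ne_zero, ih, κg]
      push_cast
      ring
  have hnorm : algebraMap (ZMod p) E (Algebra.norm (ZMod p) (g : E)) = (g : E) ^ (p + 1) := by
    rw [FiniteField.algebraMap_norm_eq_pow, Nat.card_eq_fintype_card, Nat.card_zmod, card_E hE]
    congr 1
    have hp1 : 1 < p := (Fact.out : p.Prime).one_lt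
    have : p ^ 2 - 1 = (p + 1) * (p - 1) := by
      have := Nat.sq_sub_sq p 1
      simpa using this
    rw [this, Nat.mul_div_cancel _ (by omega)]
  have hm0 : 0 < m := Nat.pos_of_ne_zero (NeZero.ne m)
  have hN : m * ((p ^ 2 - 1) / m) = p ^ 2 - 1 := Nat.mul_div_cancel' hm
  have hp2 : 0 < p ^ 2 - 1 := by
    have h2 := (Fact.out : p.Prime).two_le
    have : 2 ^ 2 ≤ p ^ 2 := Nat.pow_le_pow_left h2 2
    omega
  have hξ : ∀ j : ℕ, ((g : E) ^ ((p ^ 2 - 1) / m)) ^ j = 1 ↔ m ∣ j := by
    intro j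
    rw [← pow_mul]
    have h1 : (g : E) ^ ((p ^ 2 - 1) / m * j) = 1 ↔ g ^ ((p ^ 2 - 1) / m * j) = 1 := by
      rw [← Units.val_pow_eq_pow_val, Units.val_eq_one]
    rw [h1, ← orderOf_dvd_iff_pow_eq_one, hord]
    constructor
    · intro h
      have h2 : m * ((p ^ 2 - 1) / m) ∣ j * ((p ^ 2 - 1) / m) := by
        rw [hN, mul_comm j]
        exact h
      exact Nat.dvd_of_mul_dvd_mul_right (Nat.pos_of_ne_zero (by
        rintro h0
        rw [h0, mul_zero] at hN
        omega)) h2
    · rintro ⟨c, rfl⟩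
      refine ⟨c, ?_⟩
      calc (p ^ 2 - 1) / m * (m * c) = (m * ((p ^ 2 - 1) / m)) * c := by ring
        _ = _ := by rw [hN]
  refine ⟨⟨κ, w, κ_mul, hww, hw0, (Algebra.norm (ZMod p) (g : E)) ^ k0, ?_, ?_⟩,
    (g : E) ^ ((p ^ 2 - 1) / m), rfl, ?_, hξ⟩
  · apply pow_ne_zero
    rw [Ne, Algebra.norm_eq_zero_iff]
    exact g.ne_zero
  · rw [map_pow, hnorm, ← pow_mul, κpow]
    exact hw
  · intro t ht
    obtain ⟨k, hk⟩ : ∃ k : ℕ, g ^ k = Units.mk0 t ht := by
      have := hg (Units.mk0 t ht)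
      rwa [← mem_powers_iff_mem_zpowers, Submonoid.mem_powers_iff] at this
    have ht' : t = (g : E) ^ k := by
      have := congrArg (fun u : Eˣ => (u : E)) hk
      simpa using this.symm
    change t ^ ((p ^ 2 - 1) / m) = ((g : E) ^ ((p ^ 2 - 1) / m)) ^ (κ t).val
    rw [ht', κpow, ZMod.val_natCast, ← pow_mul, mul_comm k, pow_mul]
    conv_lhs => rw [← Nat.div_add_mod k m, pow_add, pow_mul]
    have h1 : ((g : E) ^ ((p ^ 2 - 1) / m)) ^ m = 1 := (hξ m).2 dvd_rfl
    rw [h1, one_pow, one_mul]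

include hE in
/-- power sums over the line of trace one vanish in low degree -/
theorem sum_pow_trace (n : ℕ) (hn : n < p - 1) :
    ∑ t ∈ univ.filter (fun t : E => Tr p E t = 1), t ^ n = 0 := by
  classical
  have hpos : 0 < p := (Fact.out : p.Prime).pos
  -- a point of trace one
  obtain ⟨t1, ht1⟩ : ∃ t : E, Tr p E t = 1 := by
    have h : 0 < (univ.filter (fun u : E => Tr p E u = 1)).card := by
      rw [card_tr hE]; exact hpos
    obtain ⟨t, ht⟩ := card_pos.1 h
    exact ⟨t, (mem_filter.1 ht).2⟩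
  obtain ⟨δ, hδ, hδ0⟩ : ∃ δ : E, Tr p E δ = 0 ∧ δ ≠ 0 := by
    have h : 1 < (univ.filter (fun u : E => Tr p E u = 0)).card := by
      rw [card_tr hE]; exact (Fact.out : p.Prime).one_lt
    obtain ⟨δ, hδ, h0⟩ := exists_mem_ne h 0
    exact ⟨δ, (mem_filter.1 hδ).2, h0⟩
  have hset : univ.filter (fun t : E => Tr p E t = 1)
      = (univ : Finset (ZMod p)).image (fun s => t1 + s • δ) := by
    symm
    apply eq_of_subset_of_card_le
    · intro t ht
      obtain ⟨s, _, rfl⟩ := mem_image.1 ht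
      simp only [mem_filter, mem_univ, true_and]
      rw [map_add, map_smul, ht1, hδ, smul_zero, add_zero]
    · rw [card_image_of_injective, card_univ, ZMod.card, card_tr hE]
      intro a b hab
      exact smul_left_injective _ hδ0 (add_left_cancel hab)
  rw [hset, sum_image]
  swap
  · intro a _ b _ hab
    exact smul_left_injective _ hδ0 (add_left_cancel hab)
  have h1 : ∀ s : ZMod p, (t1 + s • δ) ^ n
      = ∑ i ∈ range (n + 1), t1 ^ i * δ ^ (n - i) * (n.choose i : E)
        * algebraMap (ZMod p) E (s ^ (n - i)) := by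
    intro s
    rw [add_pow]
    apply sum_congr rfl
    intro i _
    rw [Algebra.smul_def, mul_pow, map_pow]
    ring
  rw [sum_congr rfl (fun s _ => h1 s), sum_comm]
  apply sum_eq_zero
  intro i hi
  rw [← mul_sum, ← map_sum]
  have h2 : ∑ s : ZMod p, s ^ (n - i) = 0 := by
    apply FiniteField.sum_pow_lt_card_sub_one
    rw [ZMod.card]
    omega
  rw [h2, map_zero, mul_zero]

include hE in
theorem sum_pow_pow (a b : ℕ) (hab : a + b < p - 1) :
    ∑ t ∈ univ.filter (fun t : E => Tr p E t = 1), t ^ a * (1 - t) ^ b = 0 := by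
  have h1 : ∀ t : E, t ^ a * (1 - t) ^ b
      = ∑ i ∈ range (b + 1), ((-1) ^ (b - i) * (b.choose i : E)) * t ^ (a + (b - i)) := by
    intro t
    rw [sub_eq_add_neg, add_pow, mul_sum]
    apply sum_congr rfl
    intro i _
    rw [neg_pow t, pow_add]
    ring
  rw [sum_congr rfl (fun t _ => h1 t), sum_comm]
  apply sum_eq_zero
  intro i hi
  rw [← mul_sum, sum_pow_trace hE _ (by omega), mul_zero]

include hE in
lemma pow_p_of_trace (t : E) (ht : Tr p E t = 1) : t ^ p = 1 - t := by
  have h := FiniteField.algebraMap_trace_eq_sum_pow (ZMod p) E t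
  rw [hE] at h
  simp only [sum_range_succ, range_zero, sum_empty, pow_zero, pow_one, zero_add,
    Nat.card_zmod] at h
  rw [ht, map_one] at h
  linear_combination -h

include hE in
theorem sum_pow_frob (a b : ℕ) (hab : a + b < p - 1) :
    ∑ t ∈ univ.filter (fun t : E => Tr p E t = 1), t ^ (a + p * b) = 0 := by
  rw [← sum_pow_pow hE a b hab]
  apply sum_congr rfl
  intro t ht
  rw [pow_add, pow_mul, pow_p_of_trace hE t (by simpa using ht)]

section chars

variable {n : ℕ} [NeZero n] (D : DLog p E (2 * n)) (hw : D.w = (n : ZMod (2 * n)))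

include hw in
/-- the character sums in terms of the class differences -/
theorem char_sum (ξ : E) (e : ℕ) (hξ : ∀ t : E, t ≠ 0 → t ^ e = ξ ^ (D.κ t).val) (k : ℕ)
    (hk : (ξ ^ k) ^ n = -1) :
    ∑ t ∈ univ.filter (fun t : E => Tr p E t = 1), t ^ (e * k)
      = ∑ j ∈ range n, (fD D (j : ZMod (2 * n)) : E) * (ξ ^ k) ^ j := by
  have h1 : ∑ t ∈ univ.filter (fun t : E => Tr p E t = 1), t ^ (e * k)
      = ∑ j : ZMod (2 * n), (Nc D j : E) * (ξ ^ k) ^ j.val := by
    rw [← sum_fiberwise_of_maps_to (s := univ.filter (fun t : E => Tr p E t = 1)) (t := univ)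
      (g := D.κ) (fun _ _ => mem_univ _)]
    apply sum_congr rfl
    intro j _
    rw [filter_filter]
    rw [sum_congr rfl (g := fun _ => (ξ ^ k) ^ j.val)]
    · rw [sum_const, nsmul_eq_mul]
      unfold Nc
      simp
    · intro t ht
      have ht2 := (mem_filter.1 ht).2
      have ht0 : t ≠ 0 := by
        rintro rfl
        rw [map_zero] at ht2
        exact zero_ne_one ht2.1
      rw [pow_mul, hξ t ht0, ht2.2, ← pow_mul, ← pow_mul, mul_comm]
  have hn : 0 < n := Nat.pos_of_ne_zero (NeZero.ne n)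
  rw [h1]
  -- pass to a sum over the range
  have h2 : ∑ j : ZMod (2 * n), (Nc D j : E) * (ξ ^ k) ^ j.val
      = ∑ j ∈ range (2 * n), (Nc D (j : ZMod (2 * n)) : E) * (ξ ^ k) ^ j := by
    apply sum_nbij' (i := fun j : ZMod (2 * n) => j.val) (j := fun j : ℕ => (j : ZMod (2 * n)))
    · intro j _
      simpa using ZMod.val_lt j
    · intro j _
      simp
    · intro j _
      exact ZMod.natCast_zmod_val j
    · intro j hj
      exact ZMod.val_cast_of_lt (by simpa using hj)
    · intro j _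
      rw [ZMod.natCast_zmod_val]
  have h3 : ∀ g : ℕ → E, ∑ j ∈ range (2 * n), g j = ∑ j ∈ range n, (g j + g (j + n)) := by
    intro g
    rw [two_mul, sum_range_add, sum_add_distrib]
    congr 1
    apply sum_congr rfl
    intro j _
    rw [add_comm]
  rw [h2, h3]
  apply sum_congr rfl
  intro j _
  unfold fD
  rw [pow_add, hk, hw]
  push_cast
  ring

end chars

end Pool.Agent.Lib.MP_42b82d_co
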