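import Pool.Agent.Lib.MP_42b82d_co.PgSym

/-!
# Patterns applied to shifted class differences
-/

set_option linter.unusedSectionVars false
set_option linter.unusedVariables false
set_option linter.unusedSimpArgs false

namespace Pool.Agent.Lib.MP_42b82d_co

open Finset

variable {p : ℕ} [Fact p.Prime] {E : Type*} [Field E] [Fintype E] [DecidableEq E]
  [Algebra (ZMod p) E] (hE : Module.finrank (ZMod p) E = 2)
  {n : ℕ} [NeZero n] (D : DLog p E (2 * n)) (hw : D.w = (n : ZMod (2 * n)))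

lemma Fl_shift (X : ZMod (2 * n) → ℤˣ) (i k : ZMod (2 * n)) :
    Fl D X (i + k) = ∑ x, Nc D (x + k) * (X (x - i) : ℤ) := by
  rw [Fl_eq, ← Equiv.sum_comp (Equiv.addRight k)]
  apply sum_congr rfl
  intro x _
  simp only [Equiv.coe_addRight]
  congr 3
  ring

include hw in
lemma Fl_shift_half (X : ZMod (2 * n) → ℤˣ) (hX : ∀ j, X (j + D.w) = - X j)
    (i k : ZMod (2 * n)) :
    Fl D X (i + k) = ∑ j ∈ range n, fD D ((j : ZMod (2 * n)) + k)
      * (X ((j : ZMod (2 * n)) - i) : ℤ) := by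
  rw [Fl_shift, sum_zmod_eq_half]
  apply sum_congr rfl
  intro j _
  have h : (j : ZMod (2 * n)) + n - i = ((j : ZMod (2 * n)) - i) + D.w := by
    rw [hw]; ring
  have h2 : (j : ZMod (2 * n)) + n + k = ((j : ZMod (2 * n)) + k) + D.w := by
    rw [hw]; ring
  rw [h, hX, h2]
  unfold fD
  push_cast
  ring

include hw in
lemma rows_shift (k : ZMod (2 * n)) (s : ℤ) (X Y : ℕ)
    (h : rowsOK n (fun j => s * fD D ((j : ZMod (2 * n)) + k)) X Y) (i : ZMod (2 * n)) :
    3 ≤ s * (Xf n Y i : ℤ) * Fl D (Xf n X) (i + k) := by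
  have hn : 0 < n := Nat.pos_of_ne_zero (NeZero.ne n)
  have hXo : ∀ j, Xf n X (j + D.w) = - Xf n X j := by rw [hw]; exact Xf_odd X
  have key : ∀ i : ℕ, i < n →
      3 ≤ s * (Xf n Y (i : ZMod (2 * n)) : ℤ) * Fl D (Xf n X) ((i : ZMod (2 * n)) + k) := by
    intro i hi
    have h1 := h i hi
    rw [Fl_shift_half D hw _ hXo, Xf_coe_nat]
    have h2 : ∀ j ∈ range n, s * fD D ((j : ZMod (2 * n)) + k) * sb n X (j + (2 * n - i))
        = s * (fD D ((j : ZMod (2 * n)) + k) * (Xf n X ((j : ZMod (2 * n))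
          - (i : ZMod (2 * n))) : ℤ)) := by
      intro j _
      have h3 : (j : ZMod (2 * n)) - (i : ZMod (2 * n))
          = ((j + (2 * n - i) : ℕ) : ZMod (2 * n)) := by
        have h0 : ((2 * n : ℕ) : ZMod (2 * n)) = 0 := ZMod.natCast_self _
        rw [Nat.cast_add, Nat.cast_sub (by omega), h0]
        ring
      rw [h3, Xf_coe_nat]
      ring
    rw [sum_congr rfl h2, ← mul_sum] at h1
    calc (3 : ℤ) ≤ _ := h1
      _ = _ := by ring
  have hi : i = ((i.val : ℕ) : ZMod (2 * n)) := (ZMod.natCast_zmod_val i).symm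
  have hlt := ZMod.val_lt i
  by_cases h1 : i.val < n
  · rw [hi]
    exact key _ h1
  · have h2 : i = ((i.val - n : ℕ) : ZMod (2 * n)) + (n : ZMod (2 * n)) := by
      rw [← Nat.cast_add, Nat.sub_add_cancel (by omega)]
      exact hi
    rw [h2, Xf_odd]
    have h3 : ((i.val - n : ℕ) : ZMod (2 * n)) + (n : ZMod (2 * n)) + k
        = (((i.val - n : ℕ) : ZMod (2 * n)) + k) + D.w := by rw [hw]; ring
    rw [h3, Fl_add_w D (Xf n X) hXo]
    have := key (i.val - n) (by omega)
    push_cast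
    linarith

include hE hw in
theorem internal_of_pattern_shift (hp3 : 3 ≤ p) (k : ZMod (2 * n)) (s : ℤ)
    (hs : s = 1 ∨ s = -1) (X Y : ℕ)
    (h : rowsOK n (fun j => s * fD D ((j : ZMod (2 * n)) + k)) X Y)
    (h' : rowsOK n (fun j => s * fD D ((j : ZMod (2 * n)) + k)) Y X) :
    HasInternalPartition (incidenceGraph (ZMod p)) 1 := by
  have hXo : ∀ j, Xf n X (j + D.w) = - Xf n X j := by rw [hw]; exact Xf_odd X
  have hYo : ∀ j, Xf n Y (j + D.w) = - Xf n Y j := by rw [hw]; exact Xf_odd Y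
  obtain ⟨σ, hσ⟩ : ∃ σ : ℤˣ, (σ : ℤ) = s := by
    rcases hs with rfl | rfl
    · exact ⟨1, rfl⟩
    · exact ⟨-1, rfl⟩
  have hFY : ∀ i, Fl D (fun j => σ * Xf n Y (j - k)) i = s * Fl D (Xf n Y) (i + k) := by
    intro i
    unfold Fl
    rw [mul_sum]
    apply sum_congr rfl
    intro t _
    push_cast
    rw [hσ]
    congr 3
    ring
  apply internal_of_fields hE D hp3 (Xf n X) (fun j => σ * Xf n Y (j - k)) hXo
  · intro j
    have : j + D.w - k = (j - k) + D.w := by ring
    rw [this, hYo]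
    simp
  · intro i
    have h1 := rows_shift D hw k s X Y h (i - k)
    rw [sub_add_cancel] at h1
    push_cast
    rw [hσ]
    exact h1
  · intro i
    have h1 := rows_shift D hw k s Y X h' i
    rw [hFY]
    linarith

end Pool.Agent.Lib.MP_42b82d_co
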