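import Pool.Agent.Lib.MP_42b82d_co.PgFinal
import Pool.Agent.Lib.MP_42b82d_co.H78SplitMain

/-!
# Transfer of the split torus theorem to the incidence graph of PgDefs
-/

set_option linter.unusedSectionVars false

namespace Pool.Agent.Lib.MP_42b82d_co

/-- the vertex of `PGGraph` given by a point or a line -/
def toV (p : ℕ) [Fact p.Prime] : Point (ZMod p) ⊕ Line (ZMod p) → MP42b82d.PGVertex p
  | Sum.inl P => ⟨P.1, Or.inl P.2⟩
  | Sum.inr L => ⟨L.1, Or.inr L.2⟩

theorem toV_bijective (p : ℕ) [Fact p.Prime] : Function.Bijective (toV p) := by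
  constructor
  · intro x y h
    rcases x with P | L <;> rcases y with P' | L'
    · have := congrArg Subtype.val h
      exact congrArg Sum.inl (Subtype.ext this)
    · have h1 : P.1 = L'.1 := congrArg Subtype.val h
      have h2 := P.2
      have h3 := L'.2
      rw [h1] at h2
      omega
    · have h1 : L.1 = P'.1 := congrArg Subtype.val h
      have h2 := L.2
      have h3 := P'.2
      rw [h1] at h2
      omega
    · have := congrArg Subtype.val h
      exact congrArg Sum.inr (Subtype.ext this)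
  · rintro ⟨W, hW | hW⟩
    · exact ⟨Sum.inl ⟨W, hW⟩, rfl⟩
    · exact ⟨Sum.inr ⟨W, hW⟩, rfl⟩

theorem adj_toV (p : ℕ) [Fact p.Prime] (x y : Point (ZMod p) ⊕ Line (ZMod p)) :
    (MP42b82d.PGGraph p).Adj (toV p x) (toV p y) ↔ (incidenceGraph (ZMod p)).Adj x y := by
  have key : ∀ (P : Point (ZMod p)) (L : Line (ZMod p)),
      (incidenceGraph (ZMod p)).Adj (Sum.inl P) (Sum.inr L) ↔ P.1 ≤ L.1 := by
    intro P L
    constructor
    · rintro ⟨P', L', h, ⟨h1, h2⟩ | ⟨h1, h2⟩⟩
      · cases h1
        cases h2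
        exact h
      · cases h1
    · intro h
      exact ⟨P, L, h, Or.inl ⟨rfl, rfl⟩⟩
  have hlt : ∀ (P : Point (ZMod p)) (L : Line (ZMod p)), P.1 < L.1 ↔ P.1 ≤ L.1 := by
    intro P L
    constructor
    · exact fun h => h.le
    · intro h
      refine lt_of_le_of_ne h ?_
      intro h1
      have h2 := P.2
      have h3 := L.2
      rw [h1] at h2
      omega
  have hnlt : ∀ (P : Point (ZMod p)) (L : Line (ZMod p)), ¬ (L.1 < P.1) := by
    intro P L h
    have h1 := Submodule.finrank_mono h.le
    have h2 := P.2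
    have h3 := L.2
    omega
  have hnPP : ∀ (P P' : Point (ZMod p)), ¬ (P.1 < P'.1) := by
    intro P P' h
    have h1 := Submodule.finrank_lt_finrank_of_lt h
    have h2 := P.2
    have h3 := P'.2
    omega
  have hnLL : ∀ (P P' : Line (ZMod p)), ¬ (P.1 < P'.1) := by
    intro P P' h
    have h1 := Submodule.finrank_lt_finrank_of_lt h
    have h2 := P.2
    have h3 := P'.2
    omega
  rcases x with P | L <;> rcases y with P' | L'
  · constructor
    · rintro (h | h)
      · exact absurd h (hnPP P P')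
      · exact absurd h (hnPP P' P)
    · rintro ⟨P'', L'', h, ⟨h1, h2⟩ | ⟨h1, h2⟩⟩
      · cases h2
      · cases h1
  · rw [key]
    constructor
    · rintro (h | h)
      · exact (hlt P L').1 h
      · exact absurd h (hnlt P L')
    · intro h
      exact Or.inl ((hlt P L').2 h)
  · rw [SimpleGraph.adj_comm (incidenceGraph (ZMod p)), key]
    constructor
    · rintro (h | h)
      · exact absurd h (hnlt P' L)
      · exact (hlt P' L).1 h
    · intro h
      exact Or.inr ((hlt P' L).2 h)
  · constructor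
    · rintro (h | h)
      · exact absurd h (hnLL L L')
      · exact absurd h (hnLL L' L)
    · rintro ⟨P'', L'', h, ⟨h1, h2⟩ | ⟨h1, h2⟩⟩
      · cases h1
      · cases h2

/-- transfer of internal partitions -/
theorem hasInternal_of_PGGraph (p : ℕ) [Fact p.Prime] (t : ℤ) (A : Set (MP42b82d.PGVertex p))
    (h : MP42b82d.IsInternalPartition (MP42b82d.PGGraph p) t A) :
    HasInternalPartition (incidenceGraph (ZMod p)) t := by
  obtain ⟨⟨a, ha⟩, ⟨b, hb⟩, hA, hB⟩ := h
  have hbij := toV_bijective p
  have hnb : ∀ (x : Point (ZMod p) ⊕ Line (ZMod p)) (S : Set (MP42b82d.PGVertex p)),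
      ((incidenceGraph (ZMod p)).neighborSet x ∩ toV p ⁻¹' S).ncard =
        ((MP42b82d.PGGraph p).neighborSet (toV p x) ∩ S).ncard := by
    intro x S
    have : (incidenceGraph (ZMod p)).neighborSet x ∩ toV p ⁻¹' S =
        toV p ⁻¹' ((MP42b82d.PGGraph p).neighborSet (toV p x) ∩ S) := by
      ext y
      simp only [Set.mem_inter_iff, SimpleGraph.mem_neighborSet, Set.mem_preimage, adj_toV]
    rw [this, Set.ncard_preimage_of_injective_subset_range hbij.1]
    intro y _
    exact hbij.2 y
  have hnb' : ∀ (x : Point (ZMod p) ⊕ Line (ZMod p)),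
      ((incidenceGraph (ZMod p)).neighborSet x).ncard =
        ((MP42b82d.PGGraph p).neighborSet (toV p x)).ncard := by
    intro x
    have := hnb x Set.univ
    simpa using this
  refine ⟨toV p ⁻¹' A, toV p ⁻¹' Aᶜ, ?_, ?_, ?_, ?_, ?_, ?_⟩
  · obtain ⟨x, hx⟩ := hbij.2 a
    exact ⟨x, by simpa [hx] using ha⟩
  · obtain ⟨x, hx⟩ := hbij.2 b
    exact ⟨x, by simpa [hx] using hb⟩
  · exact Disjoint.preimage _ disjoint_compl_right
  · rw [← Set.preimage_union, Set.union_compl_self, Set.preimage_univ]
  · intro v hv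
    rw [hnb v A, hnb' v]
    exact hA _ hv
  · intro v hv
    rw [hnb v Aᶜ, hnb' v]
    exact hB _ hv

/-- the internal partition, for all primes `p ≥ 40000` with `p = 1` modulo `6` -/
theorem internal_split (p : ℕ) [Fact p.Prime] (hp : 40000 ≤ p) (h6 : 6 ∣ p - 1) :
    HasInternalPartition (incidenceGraph (ZMod p)) 1 := by
  have h1 := MP42b82d.split_main p hp h6
  unfold MP42b82d.intimacy at h1
  set S : Set ℤ := {t : ℤ | ∃ A : Set (MP42b82d.PGVertex p),
    MP42b82d.IsInternalPartition (MP42b82d.PGGraph p) t A} with hS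
  have hne : S.Nonempty := by
    rw [Set.nonempty_iff_ne_empty]
    intro he
    rw [he, Int.csSup_empty] at h1
    omega
  have hbd : BddAbove S := by
    by_contra hb
    rw [Int.csSup_of_not_bddAbove hb] at h1
    omega
  obtain ⟨m, hm⟩ : ∃ m : ℤ, m = sSup S := ⟨_, rfl⟩
  have hmem : m ∈ S := by
    rw [hm]
    exact Int.csSup_mem hne hbd
  obtain ⟨A, hA1, hA2, hA3, hA4⟩ := hmem
  rw [← hm] at h1
  have h2 : ((1 : ℤ) : ℚ) ≤ ((m : ℤ) : ℚ) := by exact_mod_cast h1
  refine hasInternal_of_PGGraph p 1 A ⟨hA1, hA2, ?_, ?_⟩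
  · intro v hv
    exact le_trans (add_le_add le_rfl h2) (hA3 v hv)
  · intro v hv
    exact le_trans (add_le_add le_rfl h2) (hA4 v hv)

/-- the internal partition, for all primes `p > 23` with `16` not dividing `p + 1`, and all primes
`p ≥ 40000` with `3` dividing `p - 1` -/
theorem internal_all' (p : ℕ) [Fact p.Prime] (hp : 23 < p)
    (h : ¬ 16 ∣ p + 1 ∨ (40000 ≤ p ∧ 3 ∣ p - 1)) :
    HasInternalPartition (incidenceGraph (ZMod p)) 1 := by
  rcases h with h | ⟨h1, h3⟩
  · exact internal_all p hp h
  · apply internal_split p h1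
    have hodd : p % 2 = 1 := by
      rcases (Fact.out : p.Prime).eq_two_or_odd with h | h
      · omega
      · exact h
    omega

/-- The intimacy of the incidence graph of PG(2,p) is at least 1 for every prime p > 23 with
16 not dividing p + 1, and for every prime p >= 40000 with 3 dividing p - 1. -/
theorem one_le_intimacy' (p : ℕ) [Fact p.Prime] (hp : 23 < p)
    (h : ¬ 16 ∣ p + 1 ∨ (40000 ≤ p ∧ 3 ∣ p - 1)) :
    1 ≤ intimacy (incidenceGraph (ZMod p)) :=
  le_intimacy _ _ (internal_all' p hp h)

/-- The intimacy of the incidence graph of PG(2,p) is at least 1 for every prime p >= 40000 which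
is not 47 modulo 48. -/
theorem one_le_intimacy_48 (p : ℕ) [Fact p.Prime] (hp : 40000 ≤ p) (h : p % 48 ≠ 47) :
    1 ≤ intimacy (incidenceGraph (ZMod p)) := by
  apply one_le_intimacy' p (by omega)
  by_cases h16 : 16 ∣ p + 1
  · right
    refine ⟨hp, ?_⟩
    have h3 : p % 3 ≠ 0 := by
      intro h
      have := (Nat.prime_dvd_prime_iff_eq Nat.prime_three (Fact.out : p.Prime)).1
        (Nat.dvd_of_mod_eq_zero h)
      omega
    have h1 : p % 48 = 15 ∨ p % 48 = 31 ∨ p % 48 = 47 := by
      clear h h3 hp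
      omega
    rcases h1 with h1 | h1 | h1
    · exfalso
      apply h3
      clear h h3 hp
      omega
    · clear h h3
      omega
    · exact absurd h1 h
  · exact Or.inl h16

end Pool.Agent.Lib.MP_42b82d_co
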