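import Pool.Agent.Lib.MP_42b82d_co.PgPat

/-!
# Symmetries of the discrete logarithm and correlation identities
-/

set_option linter.unusedSectionVars false
set_option linter.unusedVariables false
set_option linter.unusedSimpArgs false

namespace Pool.Agent.Lib.MP_42b82d_co

open Finset

variable {p : ℕ} [Fact p.Prime] {E : Type*} [Field E] [Fintype E] [DecidableEq E]
  [Algebra (ZMod p) E] (hE : Module.finrank (ZMod p) E = 2)

lemma rowsOK_congr {n : ℕ} {c c' : ℕ → ℤ} (h : ∀ j, j < n → c j = c' j) {X Y : ℕ}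
    (hr : rowsOK n c X Y) : rowsOK n c' X Y := by
  intro i hi
  have := hr i hi
  rw [sum_congr rfl (g := fun j => c' j * sb n X (j + (2 * n - i)))
    (fun j hj => by rw [h j (by simpa using hj)])] at this
  exact this

section pat

variable {n : ℕ} [NeZero n] (D : DLog p E (2 * n)) (hw : D.w = (n : ZMod (2 * n)))

include hE hw in
theorem internal_of_pattern_sign (hp3 : 3 ≤ p) (s : ℤ) (hs : s = 1 ∨ s = -1) (X Y : ℕ)
    (h : rowsOK n (fun j => s * cc D j) X Y)
    (h' : rowsOK n (fun j => s * cc D j) Y X) : HasInternalPartition (incidenceGraph (ZMod p)) 1 := by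
  rcases hs with rfl | rfl
  · exact internal_of_pattern hE D hw hp3 X Y (rowsOK_congr (fun j _ => by ring) h)
      (rowsOK_congr (fun j _ => by ring) h')
  · have hXo : ∀ j, Xf n X (j + D.w) = - Xf n X j := by rw [hw]; exact Xf_odd X
    have hYo : ∀ j, Xf n Y (j + D.w) = - Xf n Y j := by rw [hw]; exact Xf_odd Y
    have hFneg : ∀ i, Fl D (fun j => - Xf n Y j) i = - Fl D (Xf n Y) i := by
      intro i
      unfold Fl
      rw [← sum_neg_distrib]
      apply sum_congr rfl
      intro t _
      simp
    have hn : 0 < n := Nat.pos_of_ne_zero (NeZero.ne n)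
    have key : ∀ X Y : ℕ, rowsOK n (fun j => (-1) * cc D j) X Y → ∀ i : ZMod (2 * n),
        (Xf n Y i : ℤ) * Fl D (Xf n X) i ≤ -3 := by
      intro X Y h i
      have hXo : ∀ j, Xf n X (j + D.w) = - Xf n X j := by rw [hw]; exact Xf_odd X
      have key : ∀ i : ℕ, i < n →
          (Xf n Y (i : ZMod (2 * n)) : ℤ) * Fl D (Xf n X) (i : ZMod (2 * n)) ≤ -3 := by
        intro i hi
        rw [Fl_pat D hw X i (by omega), Xf_coe_nat]
        have h1 := h i hi
        have h2 : ∑ j ∈ range n, -1 * cc D j * sb n X (j + (2 * n - i))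
            = - ∑ j ∈ range n, cc D j * sb n X (j + (2 * n - i)) := by
          rw [← sum_neg_distrib]
          apply sum_congr rfl
          intro j _
          ring
        rw [h2] at h1
        linarith
      have hi : i = ((i.val : ℕ) : ZMod (2 * n)) := (ZMod.natCast_zmod_val i).symm
      have hlt := ZMod.val_lt i
      by_cases h1 : i.val < n
      · rw [hi]
        exact key _ h1
      · have h2 : i = ((i.val - n : ℕ) : ZMod (2 * n)) + (n : ZMod (2 * n)) := by
          rw [← Nat.cast_add, Nat.sub_add_cancel (by omega)]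
          exact hi
        rw [h2, Xf_odd]
        have h3 : ((i.val - n : ℕ) : ZMod (2 * n)) + (n : ZMod (2 * n))
            = ((i.val - n : ℕ) : ZMod (2 * n)) + D.w := by rw [hw]
        rw [h3, Fl_add_w D (Xf n X) hXo]
        have := key (i.val - n) (by omega)
        push_cast
        linarith
    apply internal_of_fields hE D hp3 (Xf n X) (fun j => - Xf n Y j) hXo
      (fun j => by rw [hYo])
    · intro i
      have := key X Y h i
      push_cast
      linarith
    · intro i
      have := key Y X h' i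
      rw [hFneg]
      linarith

end pat

section general

variable {m : ℕ} [NeZero m] (D : DLog p E m)

/-- difference of opposite class counts -/
noncomputable def fD (D : DLog p E m) (x : ZMod m) : ℤ := Nc D x - Nc D (x + D.w)

lemma fD_add_w (x : ZMod m) : fD D (x + D.w) = - fD D x := by
  unfold fD
  rw [add_assoc, D.w_add, add_zero]
  ring

include hE in
lemma fD_frob (hm : m ∣ p ^ 2 - 1) (hpw : (p : ZMod m) * D.w = D.w) (x : ZMod m) :
    fD D ((p : ZMod m) * x) = fD D x := by
  unfold fD
  rw [Nc_frob hE D hm, ← Nc_frob hE D hm (x + D.w), mul_add, hpw]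

/-- multiply the discrete logarithm by a unit fixing `w` -/
def DLog.scale (D : DLog p E m) (u : ZMod m) (hu : u * D.w = D.w) : DLog p E m where
  κ x := u * D.κ x
  w := D.w
  κ_mul x y hx hy := by rw [D.κ_mul x y hx hy, mul_add]
  w_add := D.w_add
  w_ne := D.w_ne
  ν := D.ν
  ν_ne := D.ν_ne
  κ_ν := by rw [D.κ_ν, hu]

lemma Nc_scale (u v : ZMod m) (hu : u * D.w = D.w) (hvu : v * u = 1) (j : ZMod m) :
    Nc (D.scale u hu) j = Nc D (v * j) := by
  unfold Nc
  congr 2
  apply filter_congr
  intro t _
  have : (D.scale u hu).κ t = u * D.κ t := rfl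
  rw [this]
  constructor
  · rintro ⟨h1, h2⟩
    refine ⟨h1, ?_⟩
    rw [← h2, ← mul_assoc, hvu, one_mul]
  · rintro ⟨h1, h2⟩
    refine ⟨h1, ?_⟩
    rw [h2, ← mul_assoc, mul_comm u v, hvu, one_mul]

lemma fD_scale (u v : ZMod m) (hu : u * D.w = D.w) (hvu : v * u = 1) (x : ZMod m) :
    fD (D.scale u hu) x = fD D (v * x) := by
  have hv : v * D.w = D.w := by
    have h1 : v * (u * D.w) = D.w := by rw [← mul_assoc, hvu, one_mul]
    rwa [hu] at h1
  unfold fD
  rw [Nc_scale D u v hu hvu, Nc_scale D u v hu hvu]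
  have : (D.scale u hu).w = D.w := rfl
  rw [this, mul_add, hv]

end general

section corr

variable {n : ℕ} [NeZero n] (D : DLog p E (2 * n)) (hw : D.w = (n : ZMod (2 * n)))

include hw in
lemma cc_eq_fD (j : ℕ) : cc D j = fD D (j : ZMod (2 * n)) := by
  unfold cc fD
  rw [hw]

include hE hw in
theorem corr_half (k : ZMod (2 * n)) (hk : k ≠ D.w) :
    ∑ j ∈ range n, fD D (j : ZMod (2 * n)) * fD D ((j : ZMod (2 * n)) + k)
      = if k = 0 then (p : ℤ) else 0 := by
  rw [← corr_general hE D k hk, ← sum_sub_distrib, sum_zmod_eq_half]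
  apply sum_congr rfl
  intro j _
  have e1 : (j : ZMod (2 * n)) + n + k = (j : ZMod (2 * n)) + k + D.w := by rw [hw]; ring
  have e2 : (j : ZMod (2 * n)) + n + (k + D.w) = (j : ZMod (2 * n)) + k := by
    have : D.w + D.w = 0 := D.w_add
    rw [← hw]
    linear_combination this
  have e3 : (j : ZMod (2 * n)) + (k + D.w) = (j : ZMod (2 * n)) + k + D.w := by ring
  rw [e1, e2, e3]
  unfold fD
  rw [hw]
  ring

end corr

end Pool.Agent.Lib.MP_42b82d_co
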