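import Pool.Agent.Lib.MP_42b82d_co.PgGeo

/-!
# Class functions on the torus `F_{p^2}^*` and the margins of the associated signings
-/

set_option linter.unusedSectionVars false
set_option linter.unusedVariables false
set_option linter.unusedSimpArgs false
set_option linter.deprecated false

namespace Pool.Agent.Lib.MP_42b82d_co

open Finset

/-- A discrete logarithm modulo `m` on the quadratic extension `E` of `F_p`, for which the
elements of `F_p` have class `0` or `w`. -/
structure DLog (p : ℕ) [Fact p.Prime] (E : Type*) [Field E] [Algebra (ZMod p) E] (m : ℕ) where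
  κ : E → ZMod m
  w : ZMod m
  κ_mul : ∀ x y : E, x ≠ 0 → y ≠ 0 → κ (x * y) = κ x + κ y
  w_add : w + w = 0
  w_ne : w ≠ 0
  ν : ZMod p
  ν_ne : ν ≠ 0
  κ_ν : κ (algebraMap (ZMod p) E ν) = w

variable {p : ℕ} [Fact p.Prime] {E : Type*} [Field E] [Fintype E] [DecidableEq E]
  [Algebra (ZMod p) E] (hE : Module.finrank (ZMod p) E = 2)

/-- trace -/
noncomputable abbrev Tr (p : ℕ) [Fact p.Prime] (E : Type*) [Field E] [Algebra (ZMod p) E] :
    E →ₗ[ZMod p] ZMod p := Algebra.trace (ZMod p) E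

lemma algebraMap_ne_zero' {c : ZMod p} (hc : c ≠ 0) : algebraMap (ZMod p) E c ≠ 0 := by
  rw [Ne, map_eq_zero_iff _ (algebraMap (ZMod p) E).injective]
  exact hc

lemma tr_nondeg {α : E} (h : ∀ u, Tr p E (u * α) = 0) : α = 0 := by
  have htr := (traceForm_nondegenerate (ZMod p) E).1 α
  simp_rw [Algebra.traceForm_apply] at htr
  apply htr
  intro u
  rw [mul_comm]
  exact h u

include hE in
lemma card_E : Fintype.card E = p ^ 2 := by
  rw [Module.card_eq_pow_finrank (K := ZMod p) (V := E), hE, ZMod.card]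

include hE in
/-- fibres of a nonzero functional -/
lemma card_fiber (φ : E →ₗ[ZMod p] ZMod p) (hφ : φ ≠ 0) (b : ZMod p) :
    (univ.filter (fun u : E => φ u = b)).card = p := by
  have hs : Function.Surjective φ := LinearMap.surjective hφ
  have h1 : ∀ c : ZMod p, (univ.filter (fun u : E => φ u = c)).card
      = (univ.filter (fun u : E => φ u = b)).card := by
    intro c
    obtain ⟨u0, hu0⟩ := hs (b - c)
    apply Finset.card_bij (fun u _ => u + u0)
    · intro u hu
      simp only [mem_filter, mem_univ, true_and] at hu ⊢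
      rw [map_add, hu, hu0]; ring
    · intro u _ v _ h
      exact add_right_cancel h
    · intro u hu
      simp only [mem_filter, mem_univ, true_and] at hu
      refine ⟨u - u0, ?_, by simp⟩
      simp only [mem_filter, mem_univ, true_and]
      rw [map_sub, hu, hu0]; ring
  have h2 : Fintype.card E = ∑ c : ZMod p, (univ.filter (fun u : E => φ u = c)).card := by
    rw [← card_univ]
    exact Finset.card_eq_sum_card_fiberwise (fun _ _ => mem_univ _)
  rw [sum_congr rfl (fun c _ => h1 c), sum_const, card_univ, ZMod.card, card_E hE,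
    smul_eq_mul, sq] at h2
  exact (Nat.eq_of_mul_eq_mul_left (Fact.out : p.Prime).pos h2).symm

/-- the functional `u ↦ Tr (u α)` -/
noncomputable def trMul (p : ℕ) [Fact p.Prime] {E : Type*} [Field E] [Algebra (ZMod p) E]
    (α : E) : E →ₗ[ZMod p] ZMod p := (Tr p E) ∘ₗ (LinearMap.mulRight (ZMod p) α)

@[simp] lemma trMul_apply (α u : E) : trMul p α u = Tr p E (u * α) := rfl

lemma trMul_ne {α : E} (hα : α ≠ 0) : trMul p α ≠ 0 := by
  intro h
  apply hα
  apply tr_nondeg (p := p)
  intro u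
  rw [← trMul_apply, h]
  rfl

include hE in
lemma card_tr_mul {α : E} (hα : α ≠ 0) (b : ZMod p) :
    (univ.filter (fun u : E => Tr p E (u * α) = b)).card = p := by
  have h2 : (univ.filter (fun u : E => Tr p E (u * α) = b))
      = univ.filter (fun u : E => trMul p α u = b) := by
    apply filter_congr
    intro u _
    exact Iff.rfl
  rw [h2]
  exact card_fiber hE (trMul p α) (trMul_ne hα) b

include hE in
lemma card_tr (b : ZMod p) : (univ.filter (fun u : E => Tr p E u = b)).card = p := by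
  have := card_tr_mul hE (one_ne_zero (α := E)) b
  simpa using this

include hE in
lemma card_tr_mul_ne {α : E} (hα : α ≠ 0) :
    (univ.filter (fun u : E => u ≠ 0 ∧ Tr p E (u * α) = 0)).card = p - 1 := by
  have h : (univ.filter (fun u : E => u ≠ 0 ∧ Tr p E (u * α) = 0))
      = (univ.filter (fun u : E => Tr p E (u * α) = 0)).erase 0 := by
    ext u
    simp [and_comm]
  rw [h, card_erase_of_mem (by simp), card_tr_mul hE hα]

/-- the symmetric form on `E × F_p` -/
noncomputable def βf (p : ℕ) [Fact p.Prime] (E : Type*) [Field E] [Algebra (ZMod p) E] :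
    (E × ZMod p) →ₗ[ZMod p] (E × ZMod p) →ₗ[ZMod p] ZMod p :=
  LinearMap.mk₂ (ZMod p) (fun v a => Tr p E (v.1 * a.1) - v.2 * a.2)
    (by intro a b c; simp only [Prod.fst_add, Prod.snd_add, add_mul, map_add]; ring)
    (by intro c a b; simp only [Prod.smul_fst, Prod.smul_snd, smul_mul_assoc, map_smul,
          smul_eq_mul]; ring)
    (by intro a b c; simp only [Prod.fst_add, Prod.snd_add, mul_add, map_add]; ring)
    (by intro c a b; simp only [Prod.smul_fst, Prod.smul_snd, mul_smul_comm, map_smul,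
          smul_eq_mul]; ring)

lemma βf_apply (v a : E × ZMod p) : βf p E v a = Tr p E (v.1 * a.1) - v.2 * a.2 := rfl

lemma βf_symm (v a : E × ZMod p) : βf p E v a = βf p E a v := by
  rw [βf_apply, βf_apply, mul_comm v.1, mul_comm v.2]

lemma βf_inj (a : E × ZMod p) (h : ∀ v, βf p E v a = 0) : a = 0 := by
  have h2 : a.2 = 0 := by
    have := h (0, 1)
    rw [βf_apply] at this
    simpa using this
  have h1 : a.1 = 0 := by
    apply tr_nondeg (p := p)
    intro u
    have := h (u, 0)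
    rw [βf_apply] at this
    simpa using this
  exact Prod.ext h1 h2

lemma βf_surj (φ : (E × ZMod p) →ₗ[ZMod p] ZMod p) : ∃ a, ∀ v, βf p E v a = φ v := by
  have hfin : FiniteDimensional (ZMod p) (E × ZMod p) := inferInstance
  set T : (E × ZMod p) →ₗ[ZMod p] Module.Dual (ZMod p) (E × ZMod p) := (βf p E).flip with hT
  have hinj : Function.Injective T := by
    rw [← LinearMap.ker_eq_bot, LinearMap.ker_eq_bot']
    intro a ha
    apply βf_inj
    intro v
    have := congrArg (fun f => f v) ha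
    simpa [hT] using this
  have hsurj : Function.Surjective T :=
    (LinearMap.injective_iff_surjective_of_finrank_eq_finrank
      (Subspace.dual_finrank_eq (K := ZMod p) (V := E × ZMod p)).symm).1 hinj
  obtain ⟨a, ha⟩ := hsurj φ
  refine ⟨a, fun v => ?_⟩
  have := congrArg (fun f => f v) ha
  simpa [hT] using this

section signs

variable {m : ℕ} (D : DLog p E m)

/-- class of an element of `F_p` -/
def κF (D : DLog p E m) (c : ZMod p) : ZMod m := D.κ (algebraMap (ZMod p) E c)

lemma κ_one : D.κ 1 = 0 := by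
  have := D.κ_mul 1 1 one_ne_zero one_ne_zero
  rw [mul_one] at this
  simpa using this

lemma κ_inv {x : E} (hx : x ≠ 0) : D.κ x⁻¹ = - D.κ x := by
  have := D.κ_mul x x⁻¹ hx (inv_ne_zero hx)
  rw [mul_inv_cancel₀ hx, κ_one] at this
  exact (neg_eq_of_add_eq_zero_right this.symm).symm

lemma κF_mul {x y : ZMod p} (hx : x ≠ 0) (hy : y ≠ 0) : κF D (x * y) = κF D x + κF D y := by
  unfold κF
  rw [map_mul, D.κ_mul _ _ (algebraMap_ne_zero' hx) (algebraMap_ne_zero' hy)]

lemma κF_inv {x : ZMod p} (hx : x ≠ 0) : κF D x⁻¹ = - κF D x := by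
  unfold κF
  rw [map_inv₀, κ_inv D (algebraMap_ne_zero' hx)]

lemma κ_smul {c : ZMod p} {x : E} (hc : c ≠ 0) (hx : x ≠ 0) :
    D.κ (c • x) = κF D c + D.κ x := by
  rw [Algebra.smul_def, D.κ_mul _ _ (algebraMap_ne_zero' hc) hx]
  rfl

/-- the signing of the nonzero vectors attached to a class function -/
def sg (D : DLog p E m) (X : ZMod m → ℤˣ) (v : E × ZMod p) : ℤ :=
  if v.1 = 0 ∨ v.2 = 0 then 1 else (X (D.κ v.1 - κF D v.2) : ℤ)

lemma units_cases (x : ℤˣ) : (x : ℤ) = 1 ∨ (x : ℤ) = -1 := by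
  rcases Int.units_eq_one_or x with h | h <;> simp [h]

lemma sg_cases (X : ZMod m → ℤˣ) (v : E × ZMod p) : sg D X v = 1 ∨ sg D X v = -1 := by
  unfold sg
  split_ifs
  · left; rfl
  · exact units_cases _

lemma sg_smul (X : ZMod m → ℤˣ) (v : E × ZMod p) (c : ZMod p) (hc : c ≠ 0) :
    sg D X (c • v) = sg D X v := by
  unfold sg
  simp only [Prod.smul_fst, Prod.smul_snd, smul_eq_zero, smul_eq_mul, mul_eq_zero, hc, false_or]
  split_ifs with h
  · rfl
  · push Not at h
    rw [κ_smul D hc h.1, κF_mul D hc h.2]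
    have e1 : κF D c + D.κ v.1 - (κF D c + κF D v.2) = D.κ v.1 - κF D v.2 := by ring
    rw [e1]

/-- the fields -/
noncomputable def Fl (D : DLog p E m) (X : ZMod m → ℤˣ) (i : ZMod m) : ℤ :=
  ∑ t ∈ univ.filter (fun t : E => Tr p E t = 1), (X (D.κ t - i) : ℤ)

lemma sum_split (f : E × ZMod p → ℤ) (a : E × ZMod p) :
    ∑ v ∈ univ.filter (fun v => v ≠ 0 ∧ βf p E v a = 0), f v
      = ∑ z : ZMod p, ∑ u : E, if ((u, z) ≠ (0 : E × ZMod p) ∧ Tr p E (u * a.1) = z * a.2)
        then f (u, z) else 0 := by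
  rw [sum_filter, Fintype.sum_prod_type_right]
  apply sum_congr rfl
  intro z _
  apply sum_congr rfl
  intro u _
  simp only [βf_apply, sub_eq_zero]

lemma sum_zmod_split (f : ZMod p → ℤ) :
    ∑ z : ZMod p, f z = f 0 + ∑ z ∈ univ.filter (fun z : ZMod p => z ≠ 0), f z := by
  have h : (univ.filter (fun c : ZMod p => c ≠ 0)) = univ.erase 0 := by
    ext c; simp
  rw [h, add_sum_erase _ _ (mem_univ _)]

include hE in
lemma inner_zero (X : ZMod m → ℤˣ) (a : E × ZMod p) (ha : a.1 ≠ 0) :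
    (∑ u : E, if ((u, (0 : ZMod p)) ≠ (0 : E × ZMod p) ∧ Tr p E (u * a.1) = 0 * a.2)
        then sg D X (u, 0) else 0) = (p : ℤ) - 1 := by
  have h1 : ∀ u : E, (if ((u, (0 : ZMod p)) ≠ (0 : E × ZMod p) ∧ Tr p E (u * a.1) = 0 * a.2)
        then sg D X (u, 0) else 0) = if (u ≠ 0 ∧ Tr p E (u * a.1) = 0) then (1 : ℤ) else 0 := by
    intro u
    simp [sg, Prod.ext_iff]
  rw [sum_congr rfl (fun u _ => h1 u), sum_boole, card_tr_mul_ne hE ha]
  have hp1 : 1 < p := (Fact.out : p.Prime).one_lt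
  push_cast [Nat.cast_sub hp1.le]
  ring

lemma inner_reg (X : ZMod m → ℤˣ) (a : E × ZMod p) (ha : a.1 ≠ 0) (hc : a.2 ≠ 0)
    (z : ZMod p) (hz : z ≠ 0) :
    (∑ u : E, if ((u, z) ≠ (0 : E × ZMod p) ∧ Tr p E (u * a.1) = z * a.2)
        then sg D X (u, z) else 0) = Fl D X (D.κ a.1 - κF D a.2) := by
  have hzc : z * a.2 ≠ 0 := mul_ne_zero hz hc
  rw [← sum_filter]
  unfold Fl
  apply sum_nbij' (i := fun u => (z * a.2)⁻¹ • (u * a.1)) (j := fun t => (z * a.2) • (t * a.1⁻¹))
  · intro u hu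
    simp only [mem_filter, mem_univ, true_and] at hu ⊢
    rw [map_smul, hu.2, smul_eq_mul, inv_mul_cancel₀ hzc]
  · intro t ht
    simp only [mem_filter, mem_univ, true_and] at ht ⊢
    refine ⟨fun h => hz (by simpa using congrArg Prod.snd h), ?_⟩
    rw [smul_mul_assoc, mul_assoc, inv_mul_cancel₀ ha, mul_one, map_smul, ht, smul_eq_mul,
      mul_one]
  · intro u hu
    rw [smul_mul_assoc, mul_assoc, mul_inv_cancel₀ ha, mul_one, smul_smul,
      mul_inv_cancel₀ hzc, one_smul]
  · intro t ht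
    rw [smul_mul_assoc, mul_assoc, inv_mul_cancel₀ ha, mul_one, smul_smul,
      inv_mul_cancel₀ hzc, one_smul]
  · intro u hu
    simp only [mem_filter, mem_univ, true_and] at hu
    have hu0 : u ≠ 0 := by
      rintro rfl
      rw [zero_mul, map_zero] at hu
      exact hzc hu.2.symm
    unfold sg
    rw [if_neg (by push Not; exact ⟨hu0, hz⟩)]
    rw [κ_smul D (inv_ne_zero hzc) (mul_ne_zero hu0 ha), κF_inv D hzc, κF_mul D hz hc,
      D.κ_mul _ _ hu0 ha]
    have e1 : -(κF D z + κF D a.2) + (D.κ u + D.κ a.1) - (D.κ a.1 - κF D a.2)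
        = D.κ u - κF D z := by ring
    rw [e1]

lemma κF_scale_sum (X : ZMod m → ℤˣ) (hX : ∀ j, X (j + D.w) = - X j) (k : ZMod m) :
    ∑ z ∈ univ.filter (fun z : ZMod p => z ≠ 0), (X (k - κF D z) : ℤ) = 0 := by
  have h : ∑ z ∈ univ.filter (fun z : ZMod p => z ≠ 0), (X (k - κF D z) : ℤ)
      = ∑ z ∈ univ.filter (fun z : ZMod p => z ≠ 0), - (X (k - κF D z) : ℤ) := by
    symm
    apply sum_nbij' (i := fun z => D.ν⁻¹ * z) (j := fun z => D.ν * z)
    · intro z hz
      simp only [mem_filter, mem_univ, true_and] at hz ⊢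
      exact mul_ne_zero (inv_ne_zero D.ν_ne) hz
    · intro z hz
      simp only [mem_filter, mem_univ, true_and] at hz ⊢
      exact mul_ne_zero D.ν_ne hz
    · intro z _
      rw [← mul_assoc, mul_inv_cancel₀ D.ν_ne, one_mul]
    · intro z _
      rw [← mul_assoc, inv_mul_cancel₀ D.ν_ne, one_mul]
    · intro z hz
      simp only [mem_filter, mem_univ, true_and] at hz
      have hν : κF D D.ν = D.w := D.κ_ν
      rw [κF_mul D (inv_ne_zero D.ν_ne) hz, κF_inv D D.ν_ne, hν]
      have : k - (-D.w + κF D z) = (k - κF D z) + D.w := by ring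
      rw [this, hX]
      simp
  rw [sum_neg_distrib] at h
  omega

include hE in
lemma sum_reg (X : ZMod m → ℤˣ) (a : E × ZMod p) (ha : a.1 ≠ 0) (hc : a.2 ≠ 0) :
    ∑ v ∈ univ.filter (fun v => v ≠ 0 ∧ βf p E v a = 0), sg D X v
      = ((p : ℤ) - 1) * (1 + Fl D X (D.κ a.1 - κF D a.2)) := by
  rw [sum_split, sum_zmod_split, inner_zero hE D X a ha]
  rw [sum_congr rfl (fun z hz => inner_reg D X a ha hc z (by simpa using hz))]
  rw [sum_const, card_nonzero]
  have hp1 : 1 < p := (Fact.out : p.Prime).one_lt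
  rw [nsmul_eq_mul]
  push_cast [Nat.cast_sub hp1.le]
  ring

include hE in
lemma sum_orig (X : ZMod m → ℤˣ) (hX : ∀ j, X (j + D.w) = - X j) (a : E × ZMod p)
    (ha : a.1 ≠ 0) (hc : a.2 = 0) :
    ∑ v ∈ univ.filter (fun v => v ≠ 0 ∧ βf p E v a = 0), sg D X v = 2 * ((p : ℤ) - 1) := by
  rw [sum_split, sum_zmod_split, inner_zero hE D X a ha]
  have h1 : ∀ z ∈ univ.filter (fun z : ZMod p => z ≠ 0),
      (∑ u : E, if ((u, z) ≠ (0 : E × ZMod p) ∧ Tr p E (u * a.1) = z * a.2)
        then sg D X (u, z) else 0)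
      = 1 + ∑ u ∈ univ.filter (fun u : E => u ≠ 0 ∧ Tr p E (u * a.1) = 0),
        (X (D.κ u - κF D z) : ℤ) := by
    intro z hz
    have hz : z ≠ 0 := by simpa using hz
    rw [← sum_filter]
    have hset : univ.filter (fun u : E => (u, z) ≠ (0 : E × ZMod p) ∧ Tr p E (u * a.1) = z * a.2)
        = insert 0 (univ.filter (fun u : E => u ≠ 0 ∧ Tr p E (u * a.1) = 0)) := by
      ext u
      simp only [mem_filter, mem_univ, true_and, mem_insert, hc, mul_zero]
      constructor
      · rintro ⟨_, h⟩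
        by_cases hu : u = 0
        · left; exact hu
        · right; exact ⟨hu, h⟩
      · rintro (rfl | ⟨hu, h⟩)
        · exact ⟨fun h => hz (by simpa using congrArg Prod.snd h), by simp⟩
        · exact ⟨fun h => hz (by simpa using congrArg Prod.snd h), h⟩
    rw [hset, sum_insert (by simp)]
    congr 1
    · simp [sg]
    · apply sum_congr rfl
      intro u hu
      simp only [mem_filter, mem_univ, true_and] at hu
      unfold sg
      rw [if_neg (by push Not; exact ⟨hu.1, hz⟩)]
  rw [sum_congr rfl h1, sum_add_distrib, sum_comm]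
  rw [sum_congr rfl (fun u _ => κF_scale_sum D X hX (D.κ u))]
  rw [sum_const, card_nonzero, sum_const_zero]
  have hp1 : 1 < p := (Fact.out : p.Prime).one_lt
  rw [nsmul_eq_mul]
  push_cast [Nat.cast_sub hp1.le]
  ring

include hE in
lemma sum_inf (X : ZMod m → ℤˣ) (a : E × ZMod p) (ha : a.1 = 0) (hc : a.2 ≠ 0) :
    ∑ v ∈ univ.filter (fun v => v ≠ 0 ∧ βf p E v a = 0), sg D X v = (p : ℤ) ^ 2 - 1 := by
  rw [sum_split, sum_zmod_split]
  have h1 : ∀ z ∈ univ.filter (fun z : ZMod p => z ≠ 0),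
      (∑ u : E, if ((u, z) ≠ (0 : E × ZMod p) ∧ Tr p E (u * a.1) = z * a.2)
        then sg D X (u, z) else 0) = 0 := by
    intro z hz
    have hz : z ≠ 0 := by simpa using hz
    apply sum_eq_zero
    intro u _
    rw [if_neg]
    rintro ⟨_, h⟩
    rw [ha, mul_zero, map_zero] at h
    exact mul_ne_zero hz hc h.symm
  rw [sum_eq_zero h1, add_zero]
  have h2 : ∀ u : E, (if ((u, (0 : ZMod p)) ≠ (0 : E × ZMod p) ∧ Tr p E (u * a.1) = 0 * a.2)
        then sg D X (u, 0) else 0) = if (u ≠ 0) then (1 : ℤ) else 0 := by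
    intro u
    simp [sg, Prod.ext_iff, ha]
  rw [sum_congr rfl (fun u _ => h2 u), sum_boole]
  have hset : univ.filter (fun u : E => u ≠ 0) = univ.erase 0 := by ext; simp
  rw [hset, card_erase_of_mem (mem_univ _), card_univ, card_E hE]
  have hp1 : 1 ≤ p ^ 2 := Nat.one_le_pow _ _ (Fact.out : p.Prime).pos
  push_cast [Nat.cast_sub hp1]
  ring

include hE in
lemma margin (hp3 : 3 ≤ p) (X Y : ZMod m → ℤˣ) (hX : ∀ j, X (j + D.w) = - X j)
    (h : ∀ i, 3 ≤ (Y i : ℤ) * Fl D X i) (a : E × ZMod p) (ha : a ≠ 0) :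
    2 * ((p : ℤ) - 1) ≤ sg D Y a *
      ∑ v ∈ univ.filter (fun v => v ≠ 0 ∧ βf p E v a = 0), sg D X v := by
  have hp3' : (3 : ℤ) ≤ p := by exact_mod_cast hp3
  by_cases h1 : a.1 = 0
  · have h2 : a.2 ≠ 0 := fun h2 => ha (Prod.ext h1 h2)
    rw [sum_inf hE D X a h1 h2]
    have : sg D Y a = 1 := by simp [sg, h1]
    rw [this]
    nlinarith
  · by_cases h2 : a.2 = 0
    · rw [sum_orig hE D X hX a h1 h2]
      have : sg D Y a = 1 := by simp [sg, h2]
      rw [this, one_mul]
    · rw [sum_reg hE D X a h1 h2]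
      have hs : sg D Y a = (Y (D.κ a.1 - κF D a.2) : ℤ) := by
        unfold sg
        rw [if_neg (by push Not; exact ⟨h1, h2⟩)]
      rw [hs]
      have h3 := h (D.κ a.1 - κF D a.2)
      rcases units_cases (Y (D.κ a.1 - κF D a.2)) with h4 | h4
      · rw [h4] at h3 ⊢
        nlinarith
      · rw [h4] at h3 ⊢
        nlinarith

include hE in
theorem internal_of_fields (hp3 : 3 ≤ p) (X Y : ZMod m → ℤˣ)
    (hX : ∀ j, X (j + D.w) = - X j) (hY : ∀ j, Y (j + D.w) = - Y j)
    (h : ∀ i, 3 ≤ (Y i : ℤ) * Fl D X i) (h' : ∀ i, 3 ≤ (X i : ℤ) * Fl D Y i) :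
    HasInternalPartition (incidenceGraph (ZMod p)) 1 := by
  have hfr : Module.finrank (ZMod p) (Fin 3 → ZMod p) = Module.finrank (ZMod p) (E × ZMod p) := by
    rw [Module.finrank_prod, hE]
    simp
  have e : (Fin 3 → ZMod p) ≃ₗ[ZMod p] (E × ZMod p) := LinearEquiv.ofFinrankEq _ _ hfr
  have hone : (1 : ZMod p) ≠ 0 := one_ne_zero
  apply hasInternalPartition_of_signs e (βf p E) βf_inj βf_surj (sg D X) (sg D Y)
  · intro v _; exact sg_cases D X v
  · intro v _ c hc; exact sg_smul D X v c hc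
  · intro v _; exact sg_cases D Y v
  · intro v _ c hc; exact sg_smul D Y v c hc
  · refine ⟨(1, 0), ?_, ?_⟩
    · intro h; exact one_ne_zero (α := E) (congrArg Prod.fst h)
    · simp [sg]
  · by_cases h0 : X 0 = 1
    · refine ⟨(algebraMap (ZMod p) E D.ν, 1), ?_, ?_⟩
      · intro h; exact hone (congrArg Prod.snd h)
      · unfold sg
        rw [if_neg (by push Not; exact ⟨algebraMap_ne_zero' D.ν_ne, hone⟩)]
        simp only [κF, map_one, κ_one, D.κ_ν, sub_zero]
        have := hX 0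
        rw [zero_add, h0] at this
        rw [this]; simp
    · refine ⟨(1, 1), ?_, ?_⟩
      · intro h; exact hone (congrArg Prod.snd h)
      · unfold sg
        rw [if_neg (by push Not; exact ⟨one_ne_zero, hone⟩)]
        simp only [κF, map_one, κ_one, sub_zero]
        rcases Int.units_eq_one_or (X 0) with h | h
        · exact absurd h h0
        · rw [h]; simp
  · intro a ha
    exact margin hE D hp3 X Y hX h a ha
  · intro v hv
    have := margin hE D hp3 Y X hY h' v hv
    convert this using 4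
    rw [βf_symm]

end signs

end Pool.Agent.Lib.MP_42b82d_co
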