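import Pool.Agent.Lib.MP_42b82d_co.PgPow

/-!
# p = 1 mod 4
-/

set_option linter.unusedSectionVars false
set_option linter.unusedVariables false
set_option linter.unusedSimpArgs false
set_option maxHeartbeats 4000000

namespace Pool.Agent.Lib.MP_42b82d_co

open Finset

lemma classify6 (p a b c d : ℤ) (hp : 0 < p) (n1 : a ^ 2 + 2 * b ^ 2 + 2 * c ^ 2 + d ^ 2 = p)
    (n2 : 2 * (a * c) + 2 * (b * d) = b ^ 2 + c ^ 2)
    (hdiv : p ∣ (a - 2 * c) * (b + d) - (2 * b - d) * (a + c)) :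
    (c = 0 ∧ b = 2 * d) ∨ (b = 0 ∧ c = 2 * a) ∨ (b = -c ∧ d = a - c) ∨
      (b = c ∧ d = -(a - c)) := by
  obtain ⟨k, hk⟩ := hdiv
  have hAB : (a + c) ^ 2 + (b + d) ^ 2 = p := by linear_combination n1 + n2
  have hPQ : (a - 2 * c) ^ 2 + (2 * b - d) ^ 2 = p := by linear_combination n1 - 2 * n2
  obtain ⟨A, hA⟩ : ∃ A, A = a + c := ⟨_, rfl⟩
  obtain ⟨B, hB⟩ : ∃ B, B = b + d := ⟨_, rfl⟩
  obtain ⟨P, hP⟩ : ∃ P, P = a - 2 * c := ⟨_, rfl⟩
  obtain ⟨Q, hQ⟩ : ∃ Q, Q = 2 * b - d := ⟨_, rfl⟩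
  rw [← hA, ← hB] at hAB
  rw [← hP, ← hQ] at hPQ
  rw [← hP, ← hB, ← hQ, ← hA] at hk
  have h1 : (p * k) ^ 2 + (P * A + Q * B) ^ 2 = p ^ 2 := by
    rw [← hk]
    have : (P * B - Q * A) ^ 2 + (P * A + Q * B) ^ 2 = (P ^ 2 + Q ^ 2) * (A ^ 2 + B ^ 2) := by
      ring
    rw [this, hPQ, hAB]
    ring
  have hk2 : k ^ 2 ≤ 1 := by
    by_contra h
    push Not at h
    have h2 : 2 ≤ k ^ 2 := by omega
    have h3 : p ^ 2 * 2 ≤ p ^ 2 * k ^ 2 := mul_le_mul_of_nonneg_left h2 (sq_nonneg p)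
    have h4 : 0 < p ^ 2 := by positivity
    nlinarith [sq_nonneg (P * A + Q * B)]
  have hk3 : k = 0 ∨ k = 1 ∨ k = -1 := by
    have h5 : -1 ≤ k := by nlinarith
    have h6 : k ≤ 1 := by nlinarith
    omega
  have sq0 : ∀ x y : ℤ, x ^ 2 + y ^ 2 = 0 → x = 0 ∧ y = 0 := by
    intro x y h
    constructor
    · have : x ^ 2 = 0 := by nlinarith [sq_nonneg x, sq_nonneg y]
      exact pow_eq_zero_iff (two_ne_zero) |>.1 this
    · have : y ^ 2 = 0 := by nlinarith [sq_nonneg x, sq_nonneg y]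
      exact pow_eq_zero_iff (two_ne_zero) |>.1 this
  rcases hk3 with rfl | rfl | rfl
  · rw [mul_zero] at h1 hk
    have h2 : (P * A + Q * B - p) * (P * A + Q * B + p) = 0 := by linear_combination h1
    rcases mul_eq_zero.1 h2 with h3 | h3
    · obtain ⟨h4, h5⟩ := sq0 (P - A) (Q - B) (by linear_combination hPQ + hAB - 2 * h3)
      left
      constructor <;> omega
    · obtain ⟨h4, h5⟩ := sq0 (P + A) (Q + B) (by linear_combination hPQ + hAB + 2 * h3)
      right; left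
      constructor <;> omega
  · rw [mul_one] at hk
    obtain ⟨h4, h5⟩ := sq0 (P - B) (Q + A) (by linear_combination hPQ + hAB - 2 * hk)
    right; right; left
    constructor <;> omega
  · have hk' : P * B - Q * A = -p := by rw [hk]; ring
    obtain ⟨h4, h5⟩ := sq0 (P + B) (Q - A) (by linear_combination hPQ + hAB + 2 * hk')
    right; right; right
    constructor <;> omega

lemma parity9 (x y p : ℤ) (h : x ^ 2 + 9 * y ^ 2 = p) (hp : p % 2 = 1) : (x + y) % 2 = 1 := by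
  rcases Int.even_or_odd' x with ⟨k, rfl | rfl⟩ <;> rcases Int.even_or_odd' y with ⟨l, rfl | rfl⟩
  · exfalso
    have : p = 2 * (2 * k ^ 2 + 18 * l ^ 2) := by rw [← h]; ring
    omega
  · omega
  · omega
  · exfalso
    have : p = 2 * (2 * k ^ 2 + 2 * k + 18 * l ^ 2 + 18 * l + 5) := by rw [← h]; ring
    omega

lemma parity5 (s t p : ℤ) (h : 5 * s ^ 2 - 8 * (s * t) + 5 * t ^ 2 = p) (hp : p % 2 = 1) :
    (s + t) % 2 = 1 := by
  rcases Int.even_or_odd' s with ⟨k, rfl | rfl⟩ <;> rcases Int.even_or_odd' t with ⟨l, rfl | rfl⟩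
  · exfalso
    have : p = 2 * (10 * k ^ 2 - 16 * (k * l) + 10 * l ^ 2) := by rw [← h]; ring
    omega
  · omega
  · omega
  · exfalso
    have : p = 2 * (10 * k ^ 2 + 10 * k + 10 * l ^ 2 + 10 * l + 5
      - 4 * ((2 * k + 1) * (2 * l + 1))) := by rw [← h]; ring
    omega

variable {p : ℕ} [Fact p.Prime] {E : Type*} [Field E] [Fintype E] [DecidableEq E]
  [Algebra (ZMod p) E] (hE : Module.finrank (ZMod p) E = 2)

lemma prime_ne_sq (x : ℤ) : (p : ℤ) ≠ x ^ 2 := by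
  intro h
  have hp : Prime (p : ℤ) := Nat.prime_iff_prime_int.1 (Fact.out : p.Prime)
  exact hp.irreducible.not_isSquare ⟨x, by rw [h]; ring⟩

/-- the integers `a, b, c, d` of an admissible vector have a good pair of patterns -/
lemma good6_of_classify (hp2 : p % 2 = 1) (hp13 : 13 < p) (a b c d : ℤ)
    (n1 : a ^ 2 + 2 * b ^ 2 + 2 * c ^ 2 + d ^ 2 = (p : ℤ))
    (n2 : 2 * (a * c) + 2 * (b * d) = b ^ 2 + c ^ 2)
    (hdiv : (p : ℤ) ∣ (a - 2 * c) * (b + d) - (2 * b - d) * (a + c)) :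
    ∃ s : ℤ, (s = 1 ∨ s = -1) ∧ Good6 (fun j => s * vec6 a b c d j) := by
  have hpos : (0 : ℤ) < p := by exact_mod_cast (Fact.out : p.Prime).pos
  have hpr : (p : ℤ) % 2 = 1 := by omega
  have hp13' : (13 : ℤ) < p := by exact_mod_cast hp13
  have hp25 : (p : ℤ) ≠ 25 := by
    intro h
    exact prime_ne_sq (p := p) 5 (by rw [h]; norm_num)
  have hcongr : ∀ (s : ℤ) (v : ℕ → ℤ), (∀ j, v j = s * vec6 a b c d j) → Good6 v →
      Good6 (fun j => s * vec6 a b c d j) := by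
    intro s v hv hg
    have : v = fun j => s * vec6 a b c d j := funext hv
    rwa [this] at hg
  have hvec : ∀ (s : ℤ) (j : ℕ), vec6 (s * a) (s * b) (s * c) (s * d) j
      = s * vec6 a b c d j := by
    intro s j
    unfold vec6
    split <;> ring
  have sgn : ∀ x : ℤ, x ≠ 0 → ∃ s : ℤ, (s = 1 ∨ s = -1) ∧ 0 < s * x := by
    intro x hx
    rcases lt_or_gt_of_ne hx with h | h
    · exact ⟨-1, Or.inr rfl, by linarith⟩
    · exact ⟨1, Or.inl rfl, by linarith⟩
  rcases classify6 p a b c d hpos n1 n2 hdiv with ⟨h1, h2⟩ | ⟨h1, h2⟩ | ⟨h1, h2⟩ | ⟨h1, h2⟩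
  · -- (iv)
    subst h1 h2
    have hq : a ^ 2 + 9 * d ^ 2 = (p : ℤ) := by rw [← n1]; ring
    have ha : a ≠ 0 := by
      rintro rfl
      exact prime_ne_sq (p := p) (3 * d) (by rw [← hq]; ring)
    have hd : d ≠ 0 := by
      rintro rfl
      exact prime_ne_sq (p := p) a (by rw [← hq]; ring)
    obtain ⟨s, hs, hsa⟩ := sgn a ha
    have hs2 : s ^ 2 = 1 := by rcases hs with rfl | rfl <;> norm_num
    have hq' : (s * a) ^ 2 + 9 * (s * d) ^ 2 = (p : ℤ) := by
      rw [← hq]; linear_combination (a ^ 2 + 9 * d ^ 2) * hs2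
    refine ⟨s, hs, hcongr s _ (fun j => ?_) (fam4 (s * a) (s * d) hsa ?_
      (parity9 _ _ _ hq' hpr) (by rw [hq']; exact hp13') (by rw [hq']; exact hp25))⟩
    · rw [← hvec]
      congr 1
      · ring
      · ring
    · rcases hs with rfl | rfl <;> simpa using hd
  · -- (v)
    subst h1 h2
    have hq : d ^ 2 + 9 * a ^ 2 = (p : ℤ) := by rw [← n1]; ring
    have ha : a ≠ 0 := by
      rintro rfl
      exact prime_ne_sq (p := p) d (by rw [← hq]; ring)
    have hd : d ≠ 0 := by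
      rintro rfl
      exact prime_ne_sq (p := p) (3 * a) (by rw [← hq]; ring)
    obtain ⟨s, hs, hsd⟩ := sgn d hd
    have hs2 : s ^ 2 = 1 := by rcases hs with rfl | rfl <;> norm_num
    have hq' : (s * d) ^ 2 + 9 * (s * a) ^ 2 = (p : ℤ) := by
      rw [← hq]; linear_combination (d ^ 2 + 9 * a ^ 2) * hs2
    have hq'' : 9 * (s * a) ^ 2 + (s * d) ^ 2 = (p : ℤ) := by rw [← hq']; ring
    have hpar := parity9 _ _ _ hq' hpr
    refine ⟨s, hs, hcongr s _ (fun j => ?_) (fam5 (s * a) (s * d) hsd ?_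
      (by rw [add_comm]; exact hpar) (by rw [hq'']; exact hp13') (by rw [hq'']; exact hp25))⟩
    · rw [← hvec]
      congr 1
      · ring
      · ring
    · rcases hs with rfl | rfl <;> simpa using ha
  · -- (iii +)
    subst h1
    have hq : 5 * a ^ 2 - 8 * (a * d) + 5 * d ^ 2 = (p : ℤ) := by
      rw [← n1]
      have hc : c = a - d := by omega
      rw [hc]; ring
    have ha : a ≠ 0 := by
      rintro rfl
      have h5 : (5 : ℤ) ∣ p := ⟨d ^ 2, by rw [← hq]; ring⟩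
      have h6 : 5 ∣ p := by exact_mod_cast h5
      have := (Nat.prime_dvd_prime_iff_eq (by norm_num) (Fact.out : p.Prime)).1 h6
      omega
    obtain ⟨s, hs, hsa⟩ := sgn a ha
    have hs2 : s ^ 2 = 1 := by rcases hs with rfl | rfl <;> norm_num
    have hq' : 5 * (s * a) ^ 2 - 8 * ((s * a) * (s * d)) + 5 * (s * d) ^ 2 = (p : ℤ) := by
      rw [← hq]; linear_combination (5 * a ^ 2 - 8 * (a * d) + 5 * d ^ 2) * hs2
    refine ⟨s, hs, hcongr s _ (fun j => ?_) (fam3p (s * a) (s * d) hsa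
      (parity5 _ _ _ hq' hpr) ?_)⟩
    · rw [← hvec]
      have hc : c = a - d := by omega
      rw [hc]
      congr 1
      · ring
      · ring
    · rintro ⟨h3, h4⟩
      rw [h3, h4] at hq'
      norm_num at hq'
      omega
  · -- (iii -)
    subst h1
    have hq : 5 * a ^ 2 - 8 * (a * (-d)) + 5 * (-d) ^ 2 = (p : ℤ) := by
      rw [← n1]
      have hc : b = a + d := by omega
      rw [hc]; ring
    have ha : a ≠ 0 := by
      rintro rfl
      have h5 : (5 : ℤ) ∣ p := ⟨d ^ 2, by rw [← hq]; ring⟩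
      have h6 : 5 ∣ p := by exact_mod_cast h5
      have := (Nat.prime_dvd_prime_iff_eq (by norm_num) (Fact.out : p.Prime)).1 h6
      omega
    obtain ⟨s, hs, hsa⟩ := sgn a ha
    have hs2 : s ^ 2 = 1 := by rcases hs with rfl | rfl <;> norm_num
    have hq' : 5 * (s * a) ^ 2 - 8 * ((s * a) * (s * (-d))) + 5 * (s * (-d)) ^ 2
        = (p : ℤ) := by
      rw [← hq]; linear_combination (5 * a ^ 2 - 8 * (a * (-d)) + 5 * (-d) ^ 2) * hs2
    refine ⟨s, hs, hcongr s _ (fun j => ?_) (fam3n (s * a) (s * (-d)) hsa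
      (parity5 _ _ _ hq' hpr) ?_)⟩
    · rw [← hvec]
      have hc : b = a + d := by omega
      rw [hc]
      congr 1
      · ring
      · ring
      · ring
    · rintro ⟨h3, h4⟩
      rw [h3, h4] at hq'
      norm_num at hq'
      omega

end Pool.Agent.Lib.MP_42b82d_co
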