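import Pool.Agent.Lib.MP_42b82d_co.PgV1

/-!
# p = 1 mod 4, conclusion
-/

set_option linter.unusedSectionVars false
set_option linter.unusedVariables false
set_option linter.unusedSimpArgs false
set_option maxHeartbeats 4000000

namespace Pool.Agent.Lib.MP_42b82d_co

open Finset

variable {p : ℕ} [Fact p.Prime] {E : Type*} [Field E] [Fintype E] [DecidableEq E]
  [Algebra (ZMod p) E] (hE : Module.finrank (ZMod p) E = 2)

lemma int_dvd_of_cast (n : ℤ) (h : ((n : ℤ) : E) = 0) : (p : ℤ) ∣ n := by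
  haveI : CharP E p := charP_of_injective_algebraMap (algebraMap (ZMod p) E).injective p
  exact (CharP.intCast_eq_zero_iff E p n).1 h

lemma two_ne_zero_E (hp2 : p % 2 = 1) : (2 : E) ≠ 0 := by
  haveI : CharP E p := charP_of_injective_algebraMap (algebraMap (ZMod p) E).injective p
  intro h
  have h2 : ((2 : ℕ) : E) = 0 := by exact_mod_cast h
  have := (CharP.cast_eq_zero_iff E p 2).1 h2
  have h3 := (Nat.prime_dvd_prime_iff_eq (Fact.out : p.Prime) Nat.prime_two).1 this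
  omega

section core

variable (D : DLog p E (2 * 6)) (hw : D.w = 6)

include hw in
lemma fD_six (j : ZMod (2 * 6)) : fD D (j + 6) = - fD D j := by
  rw [← hw, fD_add_w]

include hE hw in
/-- correlations at 0 and 2 for `m = 12` -/
lemma corr6 : (fD D 0) ^ 2 + (fD D 1) ^ 2 + (fD D 2) ^ 2 + (fD D 3) ^ 2 + (fD D 4) ^ 2
      + (fD D 5) ^ 2 = (p : ℤ) ∧
    fD D 0 * fD D 2 + fD D 1 * fD D 3 + fD D 2 * fD D 4 + fD D 3 * fD D 5
      - fD D 4 * fD D 0 - fD D 5 * fD D 1 = 0 := by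
  have hw' : D.w = ((6 : ℕ) : ZMod (2 * 6)) := by rw [hw]; rfl
  have c0 : ((0 : ℕ) : ZMod (2 * 6)) = 0 := rfl
  have c1 : ((1 : ℕ) : ZMod (2 * 6)) = 1 := rfl
  have c2 : ((2 : ℕ) : ZMod (2 * 6)) = 2 := rfl
  have c3 : ((3 : ℕ) : ZMod (2 * 6)) = 3 := rfl
  have c4 : ((4 : ℕ) : ZMod (2 * 6)) = 4 := rfl
  have c5 : ((5 : ℕ) : ZMod (2 * 6)) = 5 := rfl
  constructor
  · have h := corr_half hE D hw' 0 (by rw [hw]; decide)
    simp only [sum_range_succ, range_zero, sum_empty, zero_add, add_zero, if_true] at h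
    rw [c0, c1, c2, c3, c4, c5] at h
    rw [← h]
    ring
  · have h := corr_half hE D hw' 2 (by rw [hw]; decide)
    rw [if_neg (by decide)] at h
    simp only [sum_range_succ, range_zero, sum_empty, zero_add] at h
    have s0 : (0 + 2 : ZMod (2 * 6)) = 2 := by decide
    have s1 : (1 + 2 : ZMod (2 * 6)) = 3 := by decide
    have s2 : (2 + 2 : ZMod (2 * 6)) = 4 := by decide
    have s3 : (3 + 2 : ZMod (2 * 6)) = 5 := by decide
    have s4 : (4 + 2 : ZMod (2 * 6)) = 0 + 6 := by decide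
    have s5 : (5 + 2 : ZMod (2 * 6)) = 1 + 6 := by decide
    rw [c0, c1, c2, c3, c4, c5, s0, s1, s2, s3, s4, s5, fD_six D hw, fD_six D hw] at h
    linear_combination h

include hE hw in
lemma core6 (hp2 : p % 2 = 1) (hp13 : 13 < p) (k : ZMod (2 * 6)) (ι : E)
    (hι : ι ^ 2 = -1)
    (r4 : fD D (k + 4) = - fD D (k + 2)) (r5 : fD D (k + 5) = fD D (k + 1))
    (n1 : (fD D k) ^ 2 + 2 * (fD D (k + 1)) ^ 2 + 2 * (fD D (k + 2)) ^ 2
      + (fD D (k + 3)) ^ 2 = (p : ℤ))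
    (n2 : 2 * (fD D k * fD D (k + 2)) + 2 * (fD D (k + 1) * fD D (k + 3))
      = (fD D (k + 1)) ^ 2 + (fD D (k + 2)) ^ 2)
    (hA : ((fD D k : E) + fD D (k + 2)) + ((fD D (k + 1) : E) + fD D (k + 3)) * ι = 0)
    (hP : ((fD D k : E) - 2 * fD D (k + 2)) + (2 * (fD D (k + 1) : E) - fD D (k + 3)) * ι
      = 0) :
    HasInternalPartition (incidenceGraph (ZMod p)) 1 := by
  have hw' : D.w = ((6 : ℕ) : ZMod (2 * 6)) := by rw [hw]; rfl
  have hdiv : (p : ℤ) ∣ (fD D k - 2 * fD D (k + 2)) * (fD D (k + 1) + fD D (k + 3))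
      - (2 * fD D (k + 1) - fD D (k + 3)) * (fD D k + fD D (k + 2)) := by
    apply int_dvd_of_cast (E := E)
    push_cast
    linear_combination ((fD D (k + 1) : E) + fD D (k + 3)) * hP
      - (2 * (fD D (k + 1) : E) - fD D (k + 3)) * hA
  obtain ⟨s, hs, X, Y, g1, g2⟩ := good6_of_classify hp2 hp13 _ _ _ _ n1 n2 hdiv
  have hc : ∀ j, j < 6 → s * vec6 (fD D k) (fD D (k + 1)) (fD D (k + 2)) (fD D (k + 3)) j
      = s * fD D ((j : ZMod (2 * 6)) + k) := by
    intro j hj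
    congr 1
    interval_cases j
    · change fD D k = fD D (0 + k)
      rw [zero_add]
    · change fD D (k + 1) = fD D (1 + k)
      rw [add_comm 1 k]
    · change fD D (k + 2) = fD D (2 + k)
      rw [add_comm 2 k]
    · change fD D (k + 3) = fD D (3 + k)
      rw [add_comm 3 k]
    · change - fD D (k + 2) = fD D (4 + k)
      rw [add_comm 4 k, r4]
    · change fD D (k + 1) = fD D (5 + k)
      rw [add_comm 5 k, r5]
  exact internal_of_pattern_shift hE D hw' (by omega) k s hs X Y (rowsOK_congr hc g1)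
    (rowsOK_congr hc g2)

end core

/-- algebra in `ℤ[ζ₁₂]`: the shape of the vector -/
lemma shape12 (p z0 z1 z2 z3 A B y0 y1 y2 y3 : ℤ) (hp : 0 < p) (hAB : A ^ 2 + B ^ 2 = p)
    (hN : z0 ^ 2 + z0 * z2 + z2 ^ 2 + z1 ^ 2 + z1 * z3 + z3 ^ 2 = p)
    (e0 : A * z0 + B * (z1 + z3) = p * y0) (e1 : A * z1 + B * z2 = p * y1)
    (e2 : A * z2 - B * z1 = p * y2) (e3 : A * z3 - B * (z0 + z2) = p * y3) :
    (z1 = 0 ∧ z2 = 0) ∨ (z3 = 0 ∧ z0 + z2 = 0) ∨ (z0 = 0 ∧ z1 + z3 = 0) := by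
  have hNy : y0 ^ 2 + y0 * y2 + y2 ^ 2 + y1 ^ 2 + y1 * y3 + y3 ^ 2 = 1 := by
    have h1 : p ^ 2 * (y0 ^ 2 + y0 * y2 + y2 ^ 2 + y1 ^ 2 + y1 * y3 + y3 ^ 2)
        = (A ^ 2 + B ^ 2) * (z0 ^ 2 + z0 * z2 + z2 ^ 2 + z1 ^ 2 + z1 * z3 + z3 ^ 2) := by
      have : p ^ 2 * (y0 ^ 2 + y0 * y2 + y2 ^ 2 + y1 ^ 2 + y1 * y3 + y3 ^ 2)
          = (p * y0) ^ 2 + (p * y0) * (p * y2) + (p * y2) ^ 2 + (p * y1) ^ 2
            + (p * y1) * (p * y3) + (p * y3) ^ 2 := by ring
      rw [this, ← e0, ← e1, ← e2, ← e3]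
      ring
    rw [hAB, hN] at h1
    have h2 : p ^ 2 * (y0 ^ 2 + y0 * y2 + y2 ^ 2 + y1 ^ 2 + y1 * y3 + y3 ^ 2) = p ^ 2 * 1 := by
      rw [h1]; ring
    exact mul_left_cancel₀ (by positivity) h2
  have z0e : z0 = A * y0 - B * (y1 + y3) := by
    apply mul_left_cancel₀ hp.ne'
    nth_rw 1 [← hAB]
    linear_combination A * e0 - B * e1 - B * e3
  have z1e : z1 = A * y1 - B * y2 := by
    apply mul_left_cancel₀ hp.ne'
    nth_rw 1 [← hAB]
    linear_combination A * e1 - B * e2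
  have z2e : z2 = A * y2 + B * y1 := by
    apply mul_left_cancel₀ hp.ne'
    nth_rw 1 [← hAB]
    linear_combination A * e2 + B * e1
  have z3e : z3 = A * y3 + B * (y0 + y2) := by
    apply mul_left_cancel₀ hp.ne'
    nth_rw 1 [← hAB]
    linear_combination A * e3 + B * e0 + B * e2
  -- the two hexagonal norms
  have hex : ∀ x y : ℤ, x ^ 2 + x * y + y ^ 2 = 0 → x = 0 ∧ y = 0 := by
    intro x y h
    have h1 : (2 * x + y) ^ 2 + 3 * y ^ 2 = 0 := by linear_combination 4 * h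
    have hy : y = 0 := by
      have : y ^ 2 = 0 := by nlinarith [sq_nonneg (2 * x + y), sq_nonneg y]
      exact pow_eq_zero_iff (two_ne_zero) |>.1 this
    subst hy
    have : x ^ 2 = 0 := by linear_combination h
    exact ⟨pow_eq_zero_iff (two_ne_zero) |>.1 this, rfl⟩
  have hex1 : ∀ x y : ℤ, x ^ 2 + x * y + y ^ 2 = 1 → x = 0 ∨ y = 0 ∨ x + y = 0 := by
    intro x y h
    have h1 : (2 * x + y) ^ 2 + 3 * y ^ 2 = 4 := by linear_combination 4 * h
    have hy : y ^ 2 ≤ 1 := by nlinarith [sq_nonneg (2 * x + y)]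
    have hy1 : -1 ≤ y := by nlinarith
    have hy2 : y ≤ 1 := by nlinarith
    have hy3 : y = 0 ∨ y = 1 ∨ y = -1 := by omega
    rcases hy3 with rfl | rfl | rfl
    · right; left; rfl
    · have : x * (x + 1) = 0 := by linear_combination h
      rcases mul_eq_zero.1 this with h | h
      · left; exact h
      · right; right; exact h
    · have : x * (x + -1) = 0 := by linear_combination h
      rcases mul_eq_zero.1 this with h | h
      · left; exact h
      · right; right; exact h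
  have nn : ∀ x y : ℤ, 0 ≤ x ^ 2 + x * y + y ^ 2 := by
    intro x y
    nlinarith [sq_nonneg (2 * x + y), sq_nonneg y]
  have h02 := nn y0 y2
  have h13 := nn y1 y3
  have hcase : (y0 ^ 2 + y0 * y2 + y2 ^ 2 = 0 ∧ y1 ^ 2 + y1 * y3 + y3 ^ 2 = 1) ∨
      (y0 ^ 2 + y0 * y2 + y2 ^ 2 = 1 ∧ y1 ^ 2 + y1 * y3 + y3 ^ 2 = 0) := by omega
  rcases hcase with ⟨h1, h2⟩ | ⟨h1, h2⟩
  · obtain ⟨h3, h4⟩ := hex _ _ h1
    subst h3 h4
    rcases hex1 _ _ h2 with h5 | h5 | h5
    · left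
      rw [z1e, z2e, h5]
      constructor <;> ring
    · right; left
      rw [z3e, z0e, z2e, h5]
      constructor <;> ring
    · right; right
      rw [z0e, z1e, z3e]
      constructor
      · rw [h5]; ring
      · linear_combination A * h5
  · obtain ⟨h3, h4⟩ := hex _ _ h2
    subst h3 h4
    rcases hex1 _ _ h1 with h5 | h5 | h5
    · right; right
      rw [z0e, z1e, z3e, h5]
      constructor <;> ring
    · left
      rw [z1e, z2e, h5]
      constructor <;> ring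
    · right; left
      rw [z3e, z0e, z2e]
      constructor
      · rw [h5]; ring
      · linear_combination A * h5

include hE in
/-- The case p = 5 mod 12. -/
theorem internal_five (hp : p % 12 = 5) (hp13 : 13 < p) :
    HasInternalPartition (incidenceGraph (ZMod p)) 1 := by
  obtain ⟨q, hq⟩ : ∃ q, p = 12 * q + 5 := ⟨p / 12, by omega⟩
  have hsq : p ^ 2 - 1 = 12 * (12 * q ^ 2 + 10 * q + 2) := by
    rw [hq]
    have : (12 * q + 5) ^ 2 = 12 * (12 * q ^ 2 + 10 * q + 2) + 1 := by ring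
    rw [this]; rfl
  have hm : 2 * 6 ∣ p ^ 2 - 1 := ⟨_, hsq⟩
  have he : (p ^ 2 - 1) / (2 * 6) = 12 * q ^ 2 + 10 * q + 2 := by
    rw [hsq]; exact Nat.mul_div_cancel_left _ (by norm_num)
  obtain ⟨D, ξ, hw, hξt, hξ⟩ := exists_dlog' hE (2 * 6) hm 6 1 (by
    have : ((p + 1) * 1) % 12 = 6 % 12 := by omega
    exact (ZMod.natCast_eq_natCast_iff' ((p + 1) * 1) 6 (2 * 6)).2 this) (by decide) (by decide)
  rw [he] at hξt
  have hw' : D.w = ((6 : ℕ) : ZMod (2 * 6)) := by rw [hw]; rfl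
  have hp5 : (p : ZMod (2 * 6)) = 5 :=
    (ZMod.natCast_eq_natCast_iff' p 5 (2 * 6)).2 (by omega)
  have hF : ∀ x, fD D (5 * x) = fD D x := by
    intro x
    have := fD_frob hE D hm (by rw [hp5, hw]; decide) x
    rwa [hp5] at this
  have r5 : fD D 5 = fD D 1 := by
    have h1 := hF 1
    rwa [mul_one] at h1
  have r4 : fD D 4 = - fD D 2 := by
    have h1 := hF 2
    have h2 : (5 * 2 : ZMod (2 * 6)) = 4 + 6 := by decide
    rw [h2, fD_six D hw] at h1
    omega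
  -- the root of unity
  have h6 : ξ ^ 6 = -1 := by
    have h12 : ξ ^ 12 = 1 := (hξ 12).2 (by norm_num)
    have h6' : ξ ^ 6 ≠ 1 := by
      intro h
      have := (hξ 6).1 h
      omega
    have : (ξ ^ 6 - 1) * (ξ ^ 6 + 1) = 0 := by linear_combination h12
    rcases mul_eq_zero.1 this with h | h
    · exact absurd (sub_eq_zero.1 h) h6'
    · linear_combination h
  have hΦ : ξ ^ 4 - ξ ^ 2 + 1 = 0 := by
    have : (ξ ^ 2 + 1) * (ξ ^ 4 - ξ ^ 2 + 1) = 0 := by linear_combination h6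
    rcases mul_eq_zero.1 this with h | h
    · exfalso
      have h4 : ξ ^ 4 = 1 := by linear_combination (ξ ^ 2 - 1) * h
      have := (hξ 4).1 h4
      omega
    · exact h
  have T1 := char_sum D hw' ξ _ hξt 1 (by rw [pow_one, h6])
  have T3 := char_sum D hw' ξ _ hξt 3 (by
    rw [← pow_mul]
    calc ξ ^ (3 * 6) = (ξ ^ 6) ^ 3 := by ring
      _ = -1 := by rw [h6]; ring)
  have S1 : ∑ t ∈ univ.filter (fun t : E => Tr p E t = 1),
      t ^ ((12 * q ^ 2 + 10 * q + 2) * 1) = 0 := by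
    have : (12 * q ^ 2 + 10 * q + 2) * 1 = (5 * q + 2) + p * q := by rw [hq]; ring
    rw [this]
    exact sum_pow_frob hE _ _ (by omega)
  have S3 : ∑ t ∈ univ.filter (fun t : E => Tr p E t = 1),
      t ^ ((12 * q ^ 2 + 10 * q + 2) * 3) = 0 := by
    have : (12 * q ^ 2 + 10 * q + 2) * 3 = (3 * q + 1) + p * (3 * q + 1) := by rw [hq]; ring
    rw [this]
    exact sum_pow_frob hE _ _ (by omega)
  rw [S1] at T1
  rw [S3] at T3
  have c0 : ((0 : ℕ) : ZMod (2 * 6)) = 0 := rfl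
  have c1 : ((1 : ℕ) : ZMod (2 * 6)) = 1 := rfl
  have c2 : ((2 : ℕ) : ZMod (2 * 6)) = 2 := rfl
  have c3 : ((3 : ℕ) : ZMod (2 * 6)) = 3 := rfl
  have c4 : ((4 : ℕ) : ZMod (2 * 6)) = 4 := rfl
  have c5 : ((5 : ℕ) : ZMod (2 * 6)) = 5 := rfl
  simp only [sum_range_succ, range_zero, sum_empty, zero_add] at T1 T3
  rw [c0, c1, c2, c3, c4, c5, r4, r5] at T1 T3
  push_cast at T1 T3
  obtain ⟨q1, q2⟩ := corr6 hE D hw
  rw [r4, r5] at q1 q2
  have hι : (ξ ^ 3) ^ 2 = -1 := by rw [← h6]; ring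
  apply core6 hE D hw (by omega) hp13 0 (ξ ^ 3) hι
  · rw [zero_add, zero_add, r4]
  · rw [zero_add, zero_add, r5]
  · rw [zero_add, zero_add, zero_add]
    linear_combination q1
  · rw [zero_add, zero_add, zero_add]
    linear_combination q2
  · rw [zero_add, zero_add, zero_add]
    linear_combination -T1 + (fD D 2 : E) * hΦ - (fD D 1 : E) * ξ * hΦ
  · rw [zero_add, zero_add, zero_add]
    linear_combination -T3 + ((fD D 2 : E) * ((ξ ^ 3) ^ 2 - 2) - (fD D 3 : E) * ξ ^ 3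
      + (fD D 1 : E) * ξ ^ 3 * (1 - (ξ ^ 3) ^ 2)) * hι

end Pool.Agent.Lib.MP_42b82d_co
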