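import Pool.Agent.Lib.MP_42b82d_co.PgV1b

/-!
# p = 1 mod 12, and the conclusion for p = 1 mod 4
-/

set_option linter.unusedSectionVars false
set_option linter.unusedVariables false
set_option linter.unusedSimpArgs false
set_option maxHeartbeats 4000000

namespace Pool.Agent.Lib.MP_42b82d_co

open Finset

variable {p : ℕ} [Fact p.Prime] {E : Type*} [Field E] [Fintype E] [DecidableEq E]
  [Algebra (ZMod p) E] (hE : Module.finrank (ZMod p) E = 2)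

/-- four roots of `Φ₁₂` force the coordinates to vanish modulo `p` -/
lemma coord_zero (ξ : E) (h2 : (2 : E) ≠ 0) (hξ0 : ξ ≠ 0) (h8 : ξ ^ 8 ≠ 1)
    (Y0 Y1 Y2 Y3 : E)
    (e1 : Y0 + Y1 * ξ + Y2 * ξ ^ 2 + Y3 * ξ ^ 3 = 0)
    (e2 : Y0 - Y1 * ξ + Y2 * ξ ^ 2 - Y3 * ξ ^ 3 = 0)
    (e3 : Y0 + Y1 * ξ ^ 5 + Y2 * ξ ^ 10 + Y3 * ξ ^ 15 = 0)
    (e4 : Y0 - Y1 * ξ ^ 5 + Y2 * ξ ^ 10 - Y3 * ξ ^ 15 = 0) :
    Y0 = 0 ∧ Y1 = 0 ∧ Y2 = 0 ∧ Y3 = 0 := by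
  have h8' : ξ ^ 8 - 1 ≠ 0 := sub_ne_zero.2 h8
  have a1 : Y0 + Y2 * ξ ^ 2 = 0 := by
    apply mul_left_cancel₀ h2
    linear_combination e1 + e2
  have a2 : Y0 + Y2 * ξ ^ 10 = 0 := by
    apply mul_left_cancel₀ h2
    linear_combination e3 + e4
  have b1 : Y1 + Y3 * ξ ^ 2 = 0 := by
    apply mul_left_cancel₀ (mul_ne_zero h2 hξ0)
    linear_combination e1 - e2
  have b2 : Y1 + Y3 * ξ ^ 10 = 0 := by
    apply mul_left_cancel₀ (mul_ne_zero h2 (pow_ne_zero 5 hξ0))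
    linear_combination e3 - e4
  have y2 : Y2 = 0 := by
    apply mul_left_cancel₀ (mul_ne_zero (pow_ne_zero 2 hξ0) h8')
    linear_combination a2 - a1
  have y3 : Y3 = 0 := by
    apply mul_left_cancel₀ (mul_ne_zero (pow_ne_zero 2 hξ0) h8')
    linear_combination b2 - b1
  subst y2 y3
  refine ⟨by linear_combination a1, by linear_combination b1, rfl, rfl⟩

include hE in
/-- The case p = 1 mod 12. -/
theorem internal_one12 (hp : p % 12 = 1) (hp13 : 13 < p) :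
    HasInternalPartition (incidenceGraph (ZMod p)) 1 := by
  obtain ⟨q, hq⟩ : ∃ q, p = 12 * q + 1 := ⟨p / 12, by omega⟩
  have hsq : p ^ 2 - 1 = 12 * (12 * q ^ 2 + 2 * q) := by
    rw [hq]
    have : (12 * q + 1) ^ 2 = 12 * (12 * q ^ 2 + 2 * q) + 1 := by ring
    rw [this]; rfl
  have hm : 2 * 6 ∣ p ^ 2 - 1 := ⟨_, hsq⟩
  have he : (p ^ 2 - 1) / (2 * 6) = 12 * q ^ 2 + 2 * q := by
    rw [hsq]; exact Nat.mul_div_cancel_left _ (by norm_num)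
  obtain ⟨D, ξ, hw, hξt, hξ⟩ := exists_dlog' hE (2 * 6) hm 6 3 (by
    have : ((p + 1) * 3) % 12 = 6 % 12 := by omega
    exact (ZMod.natCast_eq_natCast_iff' ((p + 1) * 3) 6 (2 * 6)).2 this) (by decide) (by decide)
  rw [he] at hξt
  have hw' : D.w = ((6 : ℕ) : ZMod (2 * 6)) := by rw [hw]; rfl
  -- the root of unity
  have h6 : ξ ^ 6 = -1 := by
    have h12 : ξ ^ 12 = 1 := (hξ 12).2 (by norm_num)
    have h6' : ξ ^ 6 ≠ 1 := by
      intro h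
      have := (hξ 6).1 h
      omega
    have : (ξ ^ 6 - 1) * (ξ ^ 6 + 1) = 0 := by linear_combination h12
    rcases mul_eq_zero.1 this with h | h
    · exact absurd (sub_eq_zero.1 h) h6'
    · linear_combination h
  have hΦ : ξ ^ 4 - ξ ^ 2 + 1 = 0 := by
    have : (ξ ^ 2 + 1) * (ξ ^ 4 - ξ ^ 2 + 1) = 0 := by linear_combination h6
    rcases mul_eq_zero.1 this with h | h
    · exfalso
      have h4 : ξ ^ 4 = 1 := by linear_combination (ξ ^ 2 - 1) * h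
      have := (hξ 4).1 h4
      omega
    · exact h
  have hξ0 : ξ ≠ 0 := by
    rintro rfl
    rw [zero_pow (by norm_num)] at h6
    exact one_ne_zero (neg_eq_zero.1 h6.symm)
  have h8 : ξ ^ 8 ≠ 1 := by
    intro h
    have := (hξ 8).1 h
    omega
  have T1 := char_sum D hw' ξ _ hξt 1 (by rw [pow_one, h6])
  have T3 := char_sum D hw' ξ _ hξt 3 (by
    rw [← pow_mul]
    calc ξ ^ (3 * 6) = (ξ ^ 6) ^ 3 := by ring
      _ = -1 := by rw [h6]; ring)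
  have T5 := char_sum D hw' ξ _ hξt 5 (by
    rw [← pow_mul]
    calc ξ ^ (5 * 6) = (ξ ^ 6) ^ 5 := by ring
      _ = -1 := by rw [h6]; ring)
  have S : ∀ k, k < 6 → ∑ t ∈ univ.filter (fun t : E => Tr p E t = 1),
      t ^ ((12 * q ^ 2 + 2 * q) * k) = 0 := by
    intro k hk
    have : (12 * q ^ 2 + 2 * q) * k = (k * q) + p * (k * q) := by rw [hq]; ring
    rw [this]
    apply sum_pow_frob hE _ _
    have : k * q ≤ 5 * q := Nat.mul_le_mul_right _ (by omega)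
    omega
  rw [S 1 (by norm_num)] at T1
  rw [S 3 (by norm_num)] at T3
  rw [S 5 (by norm_num)] at T5
  have c0 : ((0 : ℕ) : ZMod (2 * 6)) = 0 := rfl
  have c1 : ((1 : ℕ) : ZMod (2 * 6)) = 1 := rfl
  have c2 : ((2 : ℕ) : ZMod (2 * 6)) = 2 := rfl
  have c3 : ((3 : ℕ) : ZMod (2 * 6)) = 3 := rfl
  have c4 : ((4 : ℕ) : ZMod (2 * 6)) = 4 := rfl
  have c5 : ((5 : ℕ) : ZMod (2 * 6)) = 5 := rfl
  simp only [sum_range_succ, range_zero, sum_empty, zero_add] at T1 T3 T5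
  rw [c0, c1, c2, c3, c4, c5] at T1 T3 T5
  obtain ⟨q1, q2⟩ := corr6 hE D hw
  have hι : (ξ ^ 3) ^ 2 = -1 := by rw [← h6]; ring
  have d6 : fD D 6 = - fD D 0 := by
    have := fD_six D hw 0
    rwa [zero_add] at this
  have d7 : fD D (2 + 5) = - fD D 1 := by
    have h2 : (2 + 5 : ZMod (2 * 6)) = 1 + 6 := by decide
    rw [h2, fD_six D hw]
  have k14 : (1 + 4 : ZMod (2 * 6)) = 5 := by decide
  have k12 : (1 + 2 : ZMod (2 * 6)) = 3 := by decide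
  have k15 : (1 + 5 : ZMod (2 * 6)) = 6 := by decide
  have k11 : (1 + 1 : ZMod (2 * 6)) = 2 := by decide
  have k13 : (1 + 3 : ZMod (2 * 6)) = 4 := by decide
  have k24 : (2 + 4 : ZMod (2 * 6)) = 6 := by decide
  have k22 : (2 + 2 : ZMod (2 * 6)) = 4 := by decide
  have k21 : (2 + 1 : ZMod (2 * 6)) = 3 := by decide
  have k23 : (2 + 3 : ZMod (2 * 6)) = 5 := by decide
  obtain ⟨f0, hf0⟩ : ∃ x, x = fD D 0 := ⟨_, rfl⟩
  obtain ⟨f1, hf1⟩ : ∃ x, x = fD D 1 := ⟨_, rfl⟩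
  obtain ⟨f2, hf2⟩ : ∃ x, x = fD D 2 := ⟨_, rfl⟩
  obtain ⟨f3, hf3⟩ : ∃ x, x = fD D 3 := ⟨_, rfl⟩
  obtain ⟨f4, hf4⟩ : ∃ x, x = fD D 4 := ⟨_, rfl⟩
  obtain ⟨f5, hf5⟩ : ∃ x, x = fD D 5 := ⟨_, rfl⟩
  rw [← hf0, ← hf1, ← hf2, ← hf3, ← hf4, ← hf5] at T1 T3 T5 q1 q2
  rw [← hf0] at d6
  rw [← hf1] at d7
  -- the relation at the fourth root of unity
  have hAB0 : ((f0 : E) - f2 + f4) + ((f1 : E) - f3 + f5) * ξ ^ 3 = 0 := by
    linear_combination -T3 - ((f2 : E) + f3 * ξ ^ 3 + f4 * ((ξ ^ 3) ^ 2 - 1)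
      + f5 * ξ ^ 3 * ((ξ ^ 3) ^ 2 - 1)) * hι
  have hz : ((f0 : E) - f4) + ((f1 : E) - f5) * ξ + ((f2 : E) + f4) * ξ ^ 2
      + ((f3 : E) + f5) * ξ ^ 3 = 0 := by
    linear_combination -T1 - ((f4 : E) + f5 * ξ) * hΦ
  have hΦ5 : (ξ ^ 5) ^ 4 - (ξ ^ 5) ^ 2 + 1 = 0 := by
    linear_combination (ξ ^ 14 - ξ ^ 8 + ξ ^ 2 - ξ ^ 4) * h6 + hΦ
  have hz5 : ((f0 : E) - f4) + ((f1 : E) - f5) * ξ ^ 5 + ((f2 : E) + f4) * (ξ ^ 5) ^ 2
      + ((f3 : E) + f5) * (ξ ^ 5) ^ 3 = 0 := by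
    linear_combination -T5 - ((f4 : E) + f5 * ξ ^ 5) * hΦ5
  have h15 : ξ ^ 15 = ξ ^ 3 := by linear_combination (ξ ^ 9 - ξ ^ 3) * h6
  obtain ⟨y0, y1, y2, y3⟩ := coord_zero ξ (two_ne_zero_E (p := p) (by omega)) hξ0 h8
    (((f0 : E) - f2 + f4) * (f0 - f4) + (f1 - f3 + f5) * ((f1 - f5) + (f3 + f5)))
    (((f0 : E) - f2 + f4) * (f1 - f5) + (f1 - f3 + f5) * (f2 + f4))
    (((f0 : E) - f2 + f4) * (f2 + f4) - (f1 - f3 + f5) * (f1 - f5))
    (((f0 : E) - f2 + f4) * (f3 + f5) - (f1 - f3 + f5) * ((f0 - f4) + (f2 + f4)))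
    (by
      linear_combination (((f0 : E) - f2 + f4) - (f1 - f3 + f5) * ξ ^ 3) * hz
        + ((f1 : E) - f3 + f5) * (((f1 : E) - f5) + (f2 + f4) * ξ
          + (f3 + f5) * (ξ ^ 2 + 1)) * hΦ)
    (by
      linear_combination (((f0 : E) - f4) - (f1 - f5) * ξ + (f2 + f4) * ξ ^ 2
          - (f3 + f5) * ξ ^ 3) * hAB0
        + ((f1 : E) - f3 + f5) * (((f1 : E) - f5) - (f2 + f4) * ξ
          + (f3 + f5) * (ξ ^ 2 + 1)) * hΦ)
    (by
      linear_combination (((f0 : E) - f2 + f4) - (f1 - f3 + f5) * ξ ^ 15) * hz5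
        + ((f1 : E) - f3 + f5) * (((f1 : E) - f5) + (f2 + f4) * ξ ^ 5
          + (f3 + f5) * (ξ ^ 10 + 1)) * hΦ5)
    (by
      linear_combination (((f0 : E) - f4) - (f1 - f5) * ξ ^ 5 + (f2 + f4) * ξ ^ 10
          - (f3 + f5) * ξ ^ 15) * hAB0
        + (((f0 : E) - f4) - (f1 - f5) * ξ ^ 5 + (f2 + f4) * ξ ^ 10
          - (f3 + f5) * ξ ^ 15) * (f1 - f3 + f5) * h15
        + ((f1 : E) - f3 + f5) * (((f1 : E) - f5) - (f2 + f4) * ξ ^ 5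
          + (f3 + f5) * (ξ ^ 10 + 1)) * hΦ5)
  obtain ⟨y0, hy0⟩ : (p : ℤ) ∣ ((f0 - f2 + f4) * (f0 - f4)
      + (f1 - f3 + f5) * ((f1 - f5) + (f3 + f5))) :=
    int_dvd_of_cast (E := E) _ (by push_cast; exact y0)
  obtain ⟨y1, hy1⟩ : (p : ℤ) ∣ ((f0 - f2 + f4) * (f1 - f5) + (f1 - f3 + f5) * (f2 + f4)) :=
    int_dvd_of_cast (E := E) _ (by push_cast; exact y1)
  obtain ⟨y2, hy2⟩ : (p : ℤ) ∣ ((f0 - f2 + f4) * (f2 + f4) - (f1 - f3 + f5) * (f1 - f5)) :=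
    int_dvd_of_cast (E := E) _ (by push_cast; exact y2)
  obtain ⟨y3, hy3⟩ : (p : ℤ) ∣ ((f0 - f2 + f4) * (f3 + f5)
      - (f1 - f3 + f5) * ((f0 - f4) + (f2 + f4))) :=
    int_dvd_of_cast (E := E) _ (by push_cast; exact y3)
  have hpos : (0 : ℤ) < p := by exact_mod_cast (Fact.out : p.Prime).pos
  rcases shape12 p (f0 - f4) (f1 - f5) (f2 + f4) (f3 + f5) (f0 - f2 + f4) (f1 - f3 + f5)
    y0 y1 y2 y3 hpos (by linear_combination q1 - 2 * q2) (by linear_combination q1 + q2)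
    hy0 hy1 hy2 hy3 with ⟨g1, g2⟩ | ⟨g1, g2⟩ | ⟨g1, g2⟩
  · -- `f₅ = f₁`, `f₄ = - f₂`
    have r5 : f5 = f1 := by linear_combination -g1
    have r4 : f4 = -f2 := by linear_combination g2
    rw [r4, r5] at q1 q2 T1 T3
    push_cast at T1 T3
    apply core6 hE D hw (by omega) hp13 0 (ξ ^ 3) hι
    · rw [zero_add, zero_add, ← hf4, ← hf2, r4]
    · rw [zero_add, zero_add, ← hf5, ← hf1, r5]
    · rw [zero_add, zero_add, zero_add, ← hf0, ← hf1, ← hf2, ← hf3]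
      linear_combination q1
    · rw [zero_add, zero_add, zero_add, ← hf0, ← hf1, ← hf2, ← hf3]
      linear_combination q2
    · rw [zero_add, zero_add, zero_add, ← hf0, ← hf1, ← hf2, ← hf3]
      linear_combination -T1 + (f2 : E) * hΦ - (f1 : E) * ξ * hΦ
    · rw [zero_add, zero_add, zero_add, ← hf0, ← hf1, ← hf2, ← hf3]
      linear_combination -T3 + ((f2 : E) * ((ξ ^ 3) ^ 2 - 2) - (f3 : E) * ξ ^ 3
        + (f1 : E) * ξ ^ 3 * (1 - (ξ ^ 3) ^ 2)) * hι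
  · -- `f₅ = - f₃`, `f₀ = - f₂`
    have r5 : f5 = -f3 := by linear_combination g1
    have r0 : f0 = -f2 := by linear_combination g2
    rw [r0, r5] at q1 q2 T1 T3
    rw [r0] at d6
    push_cast at T1 T3
    apply core6 hE D hw (by omega) hp13 1 (ξ ^ 3) hι
    · rw [k14, k12, ← hf5, ← hf3, r5]
    · rw [k15, k11, d6, ← hf2, neg_neg]
    · rw [k11, k12, k13, ← hf1, ← hf2, ← hf3, ← hf4]
      linear_combination q1
    · rw [k11, k12, k13, ← hf1, ← hf2, ← hf3, ← hf4]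
      linear_combination q2
    · rw [k11, k12, k13, ← hf1, ← hf2, ← hf3, ← hf4]
      apply mul_left_cancel₀ hξ0
      linear_combination -T1 + (f2 : E) * hΦ + (f3 : E) * ξ * hΦ
    · rw [k11, k12, k13, ← hf1, ← hf2, ← hf3, ← hf4]
      linear_combination ξ ^ 3 * T3 + ((f1 : E) + f2 * ξ ^ 3
        - f3 * ((ξ ^ 3) ^ 4 - 2 * (ξ ^ 3) ^ 2 + 2) + f4 * ξ ^ 3 * ((ξ ^ 3) ^ 2 - 1)) * hι
  · -- `f₄ = f₀`, `f₃ = - f₁`
    have r0 : f0 = f4 := by linear_combination g1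
    have r1 : f1 = -f3 := by linear_combination g2
    rw [r0, r1] at q1 q2 T1 T3
    rw [r0] at d6
    rw [r1] at d7
    push_cast at T1 T3
    apply core6 hE D hw (by omega) hp13 2 (ξ ^ 3) hι
    · rw [k24, k22, d6, ← hf4]
    · rw [k21, d7, ← hf3, neg_neg]
    · rw [k21, k22, k23, ← hf2, ← hf3, ← hf4, ← hf5]
      linear_combination q1
    · rw [k21, k22, k23, ← hf2, ← hf3, ← hf4, ← hf5]
      linear_combination q2
    · rw [k21, k22, k23, ← hf2, ← hf3, ← hf4, ← hf5]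
      apply mul_left_cancel₀ (pow_ne_zero 2 hξ0)
      linear_combination -T1 - (f4 : E) * hΦ + (f3 : E) * ξ * hΦ
    · rw [k21, k22, k23, ← hf2, ← hf3, ← hf4, ← hf5]
      linear_combination T3 + ((f2 : E) + f4 * ((ξ ^ 3) ^ 2 - 1) + f3 * ξ ^ 3
        + f5 * ξ ^ 3 * ((ξ ^ 3) ^ 2 - 1)) * hι

/-- The case p = 1 mod 4. -/
theorem internal_one (hE : Module.finrank (ZMod p) E = 2) (hp : p % 4 = 1) (hp13 : 13 < p) :
    HasInternalPartition (incidenceGraph (ZMod p)) 1 := by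
  have h3 : p % 3 ≠ 0 := by
    intro h
    have := (Nat.prime_dvd_prime_iff_eq Nat.prime_three (Fact.out : p.Prime)).1
      (Nat.dvd_of_mod_eq_zero h)
    omega
  rcases (by omega : p % 12 = 1 ∨ p % 12 = 5) with h | h
  · exact internal_one12 hE h hp13
  · exact internal_five hE h hp13

end Pool.Agent.Lib.MP_42b82d_co
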