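import Pool.Agent.Lib.MP_42b82d_co.PgV1b
import Pool.Agent.Lib.MP_42b82d_co.PgCover12b

/-!
# p = 11 mod 24
-/

set_option linter.unusedSectionVars false
set_option linter.unusedVariables false
set_option linter.unusedSimpArgs false
set_option maxHeartbeats 4000000

namespace Pool.Agent.Lib.MP_42b82d_co

open Finset

/-- the integer part of the argument -/
lemma shape24 (p f0 f1 f2 f3 f4 f5 : ℤ) (hp : p % 24 = 11) (hpos : 0 < p)
    (E1 : f0 ^ 2 + 2 * f1 ^ 2 + 2 * f2 ^ 2 + 2 * f3 ^ 2 + 2 * f4 ^ 2 + 2 * f5 ^ 2 = p)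
    (E2 : 2 * (f0 * f4) + 2 * (f1 * f5) + 2 * (f3 * f5) - f4 ^ 2 - 2 * (f1 * f3) + f2 ^ 2 = 0)
    (G1 : p ∣ 2 * (f0 + f4) ^ 2 + 3 * (f1 + f5) ^ 2)
    (G2 : p ∣ (2 * f3 - f1 + f5) ^ 2 + 6 * f2 ^ 2) :
    f4 = - f0 ∧ f5 = - f1 ∧ 3 * f2 ^ 2 + 2 * (f1 - f3) ^ 2 = p ∧
      9 * f0 ^ 2 + 2 * (2 * f1 + f3) ^ 2 = p := by
  have sq3 : ∀ x : ℤ, ∃ k, x ^ 2 = 3 * k ∨ x ^ 2 = 3 * k + 1 := by
    intro x
    have h : x % 3 = 0 ∨ x % 3 = 1 ∨ x % 3 = 2 := by omega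
    rcases h with h | h | h
    · obtain ⟨k, hk⟩ : ∃ k, x = 3 * k := ⟨x / 3, by omega⟩
      exact ⟨3 * k ^ 2, Or.inl (by rw [hk]; ring)⟩
    · obtain ⟨k, hk⟩ : ∃ k, x = 3 * k + 1 := ⟨x / 3, by omega⟩
      exact ⟨3 * k ^ 2 + 2 * k, Or.inr (by rw [hk]; ring)⟩
    · obtain ⟨k, hk⟩ : ∃ k, x = 3 * k + 2 := ⟨x / 3, by omega⟩
      exact ⟨3 * k ^ 2 + 4 * k + 1, Or.inr (by rw [hk]; ring)⟩
  obtain ⟨u, hu⟩ := G1
  obtain ⟨v, hv⟩ := G2
  have huv : u + v = 2 := by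
    apply mul_left_cancel₀ hpos.ne'
    linear_combination 2 * E1 + 2 * E2 - hu - hv
  have hu0 : 0 ≤ u := by
    by_contra h
    have h1 : u ≤ -1 := by omega
    have h2 : p * u ≤ p * (-1) := mul_le_mul_of_nonneg_left h1 hpos.le
    nlinarith [sq_nonneg (f0 + f4), sq_nonneg (f1 + f5)]
  have hv0 : 0 ≤ v := by
    by_contra h
    have h1 : v ≤ -1 := by omega
    have h2 : p * v ≤ p * (-1) := mul_le_mul_of_nonneg_left h1 hpos.le
    nlinarith [sq_nonneg (2 * f3 - f1 + f5), sq_nonneg f2]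
  have hcase : u = 0 ∨ u = 1 ∨ u = 2 := by omega
  rcases hcase with rfl | rfl | rfl
  · have hv2 : v = 2 := by omega
    subst hv2
    have z1 : (f0 + f4) ^ 2 = 0 := by nlinarith [sq_nonneg (f0 + f4), sq_nonneg (f1 + f5)]
    have z2 : (f1 + f5) ^ 2 = 0 := by nlinarith [sq_nonneg (f0 + f4), sq_nonneg (f1 + f5)]
    have z1' : f0 + f4 = 0 := pow_eq_zero_iff (two_ne_zero) |>.1 z1
    have z2' : f1 + f5 = 0 := pow_eq_zero_iff (two_ne_zero) |>.1 z2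
    have r4 : f4 = -f0 := by omega
    have r5 : f5 = -f1 := by omega
    subst r4 r5
    have w : 3 * f2 ^ 2 + 2 * (f1 - f3) ^ 2 = p := by
      have : 2 * (3 * f2 ^ 2 + 2 * (f1 - f3) ^ 2) = 2 * p := by linear_combination hv
      omega
    refine ⟨rfl, rfl, w, ?_⟩
    linear_combination 3 * E1 - 2 * w
  · have hv1 : v = 1 := by omega
    subst hv1
    exfalso
    obtain ⟨k, hk | hk⟩ := sq3 (2 * f3 - f1 + f5) <;> omega
  · have hv1 : v = 0 := by omega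
    subst hv1
    exfalso
    obtain ⟨c, hc⟩ : ∃ c, c = f1 + f5 := ⟨_, rfl⟩
    rw [← hc] at hu
    rcases Int.even_or_odd' c with ⟨k, hk | hk⟩
    · have h1 : (f0 + f4) ^ 2 + 6 * k ^ 2 = p := by
        have : 2 * ((f0 + f4) ^ 2 + 6 * k ^ 2) = 2 * p := by
          rw [hk] at hu; linear_combination hu
        omega
      obtain ⟨l, hl | hl⟩ := sq3 (f0 + f4) <;> omega
    · rw [hk] at hu
      have : 2 * ((f0 + f4) ^ 2 + 6 * k ^ 2 + 6 * k + 1) + 1 = 2 * p := by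
        linear_combination hu
      omega

section core

variable {p : ℕ} [Fact p.Prime] {E : Type*} [Field E] [Fintype E] [DecidableEq E]
  [Algebra (ZMod p) E] (hE : Module.finrank (ZMod p) E = 2)
  (D : DLog p E (2 * 12)) (hw : D.w = 12) (hF : ∀ x, fD D (11 * x) = fD D x)

include hw in
lemma fD_twelve (j : ZMod (2 * 12)) : fD D (j + 12) = - fD D j := by
  rw [← hw, fD_add_w]

include hw hF in
lemma rel12 : fD D 6 = 0 ∧ fD D 7 = fD D 5 ∧ fD D 8 = - fD D 4 ∧ fD D 9 = fD D 3 ∧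
    fD D 10 = - fD D 2 ∧ fD D 11 = fD D 1 := by
  refine ⟨?_, ?_, ?_, ?_, ?_, ?_⟩
  · have h1 := hF 6
    have h2 : (11 * 6 : ZMod (2 * 12)) = 6 + 12 := by decide
    rw [h2, fD_twelve D hw] at h1
    omega
  · have h1 := hF 5
    have h2 : (11 * 5 : ZMod (2 * 12)) = 7 := by decide
    rw [h2] at h1
    exact h1
  · have h1 := hF 4
    have h2 : (11 * 4 : ZMod (2 * 12)) = 8 + 12 := by decide
    rw [h2, fD_twelve D hw] at h1
    omega
  · have h1 := hF 3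
    have h2 : (11 * 3 : ZMod (2 * 12)) = 9 := by decide
    rw [h2] at h1
    exact h1
  · have h1 := hF 2
    have h2 : (11 * 2 : ZMod (2 * 12)) = 10 + 12 := by decide
    rw [h2, fD_twelve D hw] at h1
    omega
  · have h1 := hF 1
    have h2 : (11 * 1 : ZMod (2 * 12)) = 11 := by decide
    rw [h2] at h1
    exact h1

include hE hw hF in
lemma corr12 : (fD D 0) ^ 2 + 2 * (fD D 1) ^ 2 + 2 * (fD D 2) ^ 2 + 2 * (fD D 3) ^ 2
      + 2 * (fD D 4) ^ 2 + 2 * (fD D 5) ^ 2 = (p : ℤ) ∧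
    2 * (fD D 0 * fD D 4) + 2 * (fD D 1 * fD D 5) + 2 * (fD D 3 * fD D 5) - (fD D 4) ^ 2
      - 2 * (fD D 1 * fD D 3) + (fD D 2) ^ 2 = 0 := by
  obtain ⟨r6, r7, r8, r9, r10, r11⟩ := rel12 D hw hF
  have hw' : D.w = ((12 : ℕ) : ZMod (2 * 12)) := by rw [hw]; rfl
  have c0 : ((0 : ℕ) : ZMod (2 * 12)) = 0 := rfl
  have c1 : ((1 : ℕ) : ZMod (2 * 12)) = 1 := rfl
  have c2 : ((2 : ℕ) : ZMod (2 * 12)) = 2 := rfl
  have c3 : ((3 : ℕ) : ZMod (2 * 12)) = 3 := rfl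
  have c4 : ((4 : ℕ) : ZMod (2 * 12)) = 4 := rfl
  have c5 : ((5 : ℕ) : ZMod (2 * 12)) = 5 := rfl
  have c6 : ((6 : ℕ) : ZMod (2 * 12)) = 6 := rfl
  have c7 : ((7 : ℕ) : ZMod (2 * 12)) = 7 := rfl
  have c8 : ((8 : ℕ) : ZMod (2 * 12)) = 8 := rfl
  have c9 : ((9 : ℕ) : ZMod (2 * 12)) = 9 := rfl
  have c10 : ((10 : ℕ) : ZMod (2 * 12)) = 10 := rfl
  have c11 : ((11 : ℕ) : ZMod (2 * 12)) = 11 := rfl
  constructor
  · have h := corr_half hE D hw' 0 (by rw [hw]; decide)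
    simp only [sum_range_succ, range_zero, sum_empty, zero_add, add_zero, if_true] at h
    rw [c0, c1, c2, c3, c4, c5, c6, c7, c8, c9, c10, c11, r6, r7, r8, r9, r10, r11] at h
    rw [← h]
    ring
  · have h := corr_half hE D hw' 4 (by rw [hw]; decide)
    rw [if_neg (by decide)] at h
    simp only [sum_range_succ, range_zero, sum_empty, zero_add] at h
    have s0 : (0 + 4 : ZMod (2 * 12)) = 4 := by decide
    have s1 : (1 + 4 : ZMod (2 * 12)) = 5 := by decide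
    have s2 : (2 + 4 : ZMod (2 * 12)) = 6 := by decide
    have s3 : (3 + 4 : ZMod (2 * 12)) = 7 := by decide
    have s4 : (4 + 4 : ZMod (2 * 12)) = 8 := by decide
    have s5 : (5 + 4 : ZMod (2 * 12)) = 9 := by decide
    have s6 : (6 + 4 : ZMod (2 * 12)) = 10 := by decide
    have s7 : (7 + 4 : ZMod (2 * 12)) = 11 := by decide
    have s8 : (8 + 4 : ZMod (2 * 12)) = 0 + 12 := by decide
    have s9 : (9 + 4 : ZMod (2 * 12)) = 1 + 12 := by decide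
    have s10 : (10 + 4 : ZMod (2 * 12)) = 2 + 12 := by decide
    have s11 : (11 + 4 : ZMod (2 * 12)) = 3 + 12 := by decide
    rw [c0, c1, c2, c3, c4, c5, c6, c7, c8, c9, c10, c11, s0, s1, s2, s3, s4, s5, s6, s7, s8,
      s9, s10, s11, fD_twelve D hw, fD_twelve D hw, fD_twelve D hw, fD_twelve D hw,
      r6, r7, r8, r9, r10, r11] at h
    linear_combination h

include hE hw hF in
/-- the normalised case -/
lemma core24 (hp : p % 24 = 11) (hp11 : 11 < p) (r4 : fD D 4 = - fD D 0)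
    (r5 : fD D 5 = - fD D 1) (s : ℤ) (hs : s = 1 ∨ s = -1)
    (h1 : 9 * (fD D 0) ^ 2 + 2 * (2 * fD D 1 + fD D 3) ^ 2 = (p : ℤ))
    (h2 : 3 * (fD D 2) ^ 2 + 2 * (fD D 1 - fD D 3) ^ 2 = (p : ℤ))
    (ha : 0 < s * fD D 0) (hc : 0 < s * fD D 2) (hB : 0 < s * (2 * fD D 1 + fD D 3)) :
    HasInternalPartition (incidenceGraph (ZMod p)) 1 := by
  obtain ⟨r6, r7, r8, r9, r10, r11⟩ := rel12 D hw hF
  have hs2 : s ^ 2 = 1 := by rcases hs with rfl | rfl <;> norm_num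
  have hw' : D.w = ((12 : ℕ) : ZMod (2 * 12)) := by rw [hw]; rfl
  obtain ⟨X, Y, g1, g2⟩ := cover12 (p : ℤ) (s * fD D 0) (s * fD D 1) (s * fD D 2) (s * fD D 3)
    ha hc (by linarith)
    (by
      rw [← h1]
      linear_combination (9 * (fD D 0) ^ 2 + 2 * (2 * fD D 1 + fD D 3) ^ 2) * hs2)
    (by
      rw [← h2]
      linear_combination (3 * (fD D 2) ^ 2 + 2 * (fD D 1 - fD D 3) ^ 2) * hs2)
    (by omega) (by omega)
  have hv : ∀ j, j < 12 → vec12 (s * fD D 0) (s * fD D 1) (s * fD D 2) (s * fD D 3) j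
      = s * cc D j := by
    intro j hj
    rw [cc_eq_fD D hw']
    interval_cases j
    · rfl
    · rfl
    · rfl
    · rfl
    · change -(s * fD D 0) = s * fD D 4
      rw [r4]; ring
    · change -(s * fD D 1) = s * fD D 5
      rw [r5]; ring
    · change 0 = s * fD D 6
      rw [r6, mul_zero]
    · change -(s * fD D 1) = s * fD D 7
      rw [r7, r5]; ring
    · change s * fD D 0 = s * fD D 8
      rw [r8, r4]; ring
    · change s * fD D 3 = s * fD D 9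
      rw [r9]
    · change -(s * fD D 2) = s * fD D 10
      rw [r10]; ring
    · change s * fD D 1 = s * fD D 11
      rw [r11]
  exact internal_of_pattern_sign hE D hw' (by omega) s hs X Y (rowsOK_congr hv g1)
    (rowsOK_congr hv g2)

end core

variable {p : ℕ} [Fact p.Prime] {E : Type*} [Field E] [Fintype E] [DecidableEq E]
  [Algebra (ZMod p) E] (hE : Module.finrank (ZMod p) E = 2)

include hE in
/-- The case p = 11 mod 24. -/
theorem internal_eleven (hp : p % 24 = 11) (hp11 : 11 < p) :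
    HasInternalPartition (incidenceGraph (ZMod p)) 1 := by
  obtain ⟨q, hq⟩ : ∃ q, p = 24 * q + 11 := ⟨p / 24, by omega⟩
  have hsq : p ^ 2 - 1 = 24 * (24 * q ^ 2 + 22 * q + 5) := by
    rw [hq]
    have : (24 * q + 11) ^ 2 = 24 * (24 * q ^ 2 + 22 * q + 5) + 1 := by ring
    rw [this]; rfl
  have hm : 2 * 12 ∣ p ^ 2 - 1 := ⟨_, hsq⟩
  have he : (p ^ 2 - 1) / (2 * 12) = 24 * q ^ 2 + 22 * q + 5 := by
    rw [hsq]; exact Nat.mul_div_cancel_left _ (by norm_num)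
  obtain ⟨D, ξ, hw, hξt, hξ⟩ := exists_dlog' hE (2 * 12) hm 12 1 (by
    have : ((p + 1) * 1) % 24 = 12 % 24 := by omega
    exact (ZMod.natCast_eq_natCast_iff' ((p + 1) * 1) 12 (2 * 12)).2 this) (by decide)
    (by decide)
  rw [he] at hξt
  have hw' : D.w = ((12 : ℕ) : ZMod (2 * 12)) := by rw [hw]; rfl
  have hp11' : (p : ZMod (2 * 12)) = 11 :=
    (ZMod.natCast_eq_natCast_iff' p 11 (2 * 12)).2 (by omega)
  have hF : ∀ x, fD D (11 * x) = fD D x := by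
    intro x
    have := fD_frob hE D hm (by rw [hp11', hw]; decide) x
    rwa [hp11'] at this
  -- the root of unity
  have h12 : ξ ^ 12 = -1 := by
    have h24 : ξ ^ 24 = 1 := (hξ 24).2 (by norm_num)
    have h12' : ξ ^ 12 ≠ 1 := by
      intro h
      have := (hξ 12).1 h
      omega
    have : (ξ ^ 12 - 1) * (ξ ^ 12 + 1) = 0 := by linear_combination h24
    rcases mul_eq_zero.1 this with h | h
    · exact absurd (sub_eq_zero.1 h) h12'
    · linear_combination h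
  have hΦ : ξ ^ 8 - ξ ^ 4 + 1 = 0 := by
    have : (ξ ^ 4 + 1) * (ξ ^ 8 - ξ ^ 4 + 1) = 0 := by linear_combination h12
    rcases mul_eq_zero.1 this with h | h
    · exfalso
      have h8 : ξ ^ 8 = 1 := by linear_combination (ξ ^ 4 - 1) * h
      have := (hξ 8).1 h8
      omega
    · exact h
  have T1 := char_sum D hw' ξ _ hξt 1 (by rw [pow_one, h12])
  have T5 := char_sum D hw' ξ _ hξt 5 (by
    rw [← pow_mul]
    calc ξ ^ (5 * 12) = (ξ ^ 12) ^ 5 := by ring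
      _ = -1 := by rw [h12]; ring)
  have S1 : ∑ t ∈ univ.filter (fun t : E => Tr p E t = 1),
      t ^ ((24 * q ^ 2 + 22 * q + 5) * 1) = 0 := by
    have : (24 * q ^ 2 + 22 * q + 5) * 1 = (11 * q + 5) + p * q := by rw [hq]; ring
    rw [this]
    exact sum_pow_frob hE _ _ (by omega)
  have S5 : ∑ t ∈ univ.filter (fun t : E => Tr p E t = 1),
      t ^ ((24 * q ^ 2 + 22 * q + 5) * 5) = 0 := by
    have : (24 * q ^ 2 + 22 * q + 5) * 5 = (7 * q + 3) + p * (5 * q + 2) := by rw [hq]; ring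
    rw [this]
    exact sum_pow_frob hE _ _ (by omega)
  rw [S1] at T1
  rw [S5] at T5
  obtain ⟨r6, r7, r8, r9, r10, r11⟩ := rel12 D hw hF
  obtain ⟨q1, q2⟩ := corr12 hE D hw hF
  have c0 : ((0 : ℕ) : ZMod (2 * 12)) = 0 := rfl
  have c1 : ((1 : ℕ) : ZMod (2 * 12)) = 1 := rfl
  have c2 : ((2 : ℕ) : ZMod (2 * 12)) = 2 := rfl
  have c3 : ((3 : ℕ) : ZMod (2 * 12)) = 3 := rfl
  have c4 : ((4 : ℕ) : ZMod (2 * 12)) = 4 := rfl
  have c5 : ((5 : ℕ) : ZMod (2 * 12)) = 5 := rfl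
  have c6 : ((6 : ℕ) : ZMod (2 * 12)) = 6 := rfl
  have c7 : ((7 : ℕ) : ZMod (2 * 12)) = 7 := rfl
  have c8 : ((8 : ℕ) : ZMod (2 * 12)) = 8 := rfl
  have c9 : ((9 : ℕ) : ZMod (2 * 12)) = 9 := rfl
  have c10 : ((10 : ℕ) : ZMod (2 * 12)) = 10 := rfl
  have c11 : ((11 : ℕ) : ZMod (2 * 12)) = 11 := rfl
  simp only [sum_range_succ, range_zero, sum_empty, zero_add] at T1 T5
  rw [c0, c1, c2, c3, c4, c5, c6, c7, c8, c9, c10, c11, r6, r7, r8, r9, r10, r11] at T1 T5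
  push_cast at T1 T5
  have e3 : (ξ ^ 5) ^ 3 = - ξ ^ 3 := by
    calc (ξ ^ 5) ^ 3 = ξ ^ 12 * ξ ^ 3 := by ring
      _ = - ξ ^ 3 := by rw [h12]; ring
  have e4 : (ξ ^ 5) ^ 4 = - ξ ^ 8 := by
    calc (ξ ^ 5) ^ 4 = ξ ^ 12 * ξ ^ 8 := by ring
      _ = - ξ ^ 8 := by rw [h12]; ring
  have e5 : (ξ ^ 5) ^ 5 = ξ := by
    calc (ξ ^ 5) ^ 5 = (ξ ^ 12) ^ 2 * ξ := by ring
      _ = ξ := by rw [h12]; ring
  have e7 : (ξ ^ 5) ^ 7 = ξ ^ 11 := by
    calc (ξ ^ 5) ^ 7 = (ξ ^ 12) ^ 2 * ξ ^ 11 := by ring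
      _ = ξ ^ 11 := by rw [h12]; ring
  have e8 : (ξ ^ 5) ^ 8 = - ξ ^ 4 := by
    calc (ξ ^ 5) ^ 8 = (ξ ^ 12) ^ 3 * ξ ^ 4 := by ring
      _ = - ξ ^ 4 := by rw [h12]; ring
  have e9 : (ξ ^ 5) ^ 9 = - ξ ^ 9 := by
    calc (ξ ^ 5) ^ 9 = (ξ ^ 12) ^ 3 * ξ ^ 9 := by ring
      _ = - ξ ^ 9 := by rw [h12]; ring
  have e10 : (ξ ^ 5) ^ 10 = ξ ^ 2 := by
    calc (ξ ^ 5) ^ 10 = (ξ ^ 12) ^ 4 * ξ ^ 2 := by ring
      _ = ξ ^ 2 := by rw [h12]; ring
  have e11 : (ξ ^ 5) ^ 11 = ξ ^ 7 := by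
    calc (ξ ^ 5) ^ 11 = (ξ ^ 12) ^ 4 * ξ ^ 7 := by ring
      _ = ξ ^ 7 := by rw [h12]; ring
  rw [e3, e4, e5, e7, e8, e9, e10, e11] at T5
  obtain ⟨f0, hf0⟩ : ∃ x, x = fD D 0 := ⟨_, rfl⟩
  obtain ⟨f1, hf1⟩ : ∃ x, x = fD D 1 := ⟨_, rfl⟩
  obtain ⟨f2, hf2⟩ : ∃ x, x = fD D 2 := ⟨_, rfl⟩
  obtain ⟨f3, hf3⟩ : ∃ x, x = fD D 3 := ⟨_, rfl⟩
  obtain ⟨f4, hf4⟩ : ∃ x, x = fD D 4 := ⟨_, rfl⟩
  obtain ⟨f5, hf5⟩ : ∃ x, x = fD D 5 := ⟨_, rfl⟩
  rw [← hf0, ← hf1, ← hf2, ← hf3, ← hf4, ← hf5] at T1 T5 q1 q2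
  have P1 : 2 * ((f0 : E) + f4) + ((f1 : E) + f5) * (ξ + ξ ^ 5 + ξ ^ 7 + ξ ^ 11) = 0 := by
    linear_combination -T1 - T5 + 2 * (f4 : E) * hΦ
  have P2 : (2 * (f3 : E) - f1 + f5) * (ξ ^ 3 + ξ ^ 9) + 2 * (f2 : E) * (ξ ^ 2 - ξ ^ 10) = 0 := by
    linear_combination -T1 + T5 - ((f1 : E) - f5) * (ξ + ξ ^ 3) * hΦ
  have R1 : (ξ + ξ ^ 5 + ξ ^ 7 + ξ ^ 11) ^ 2 = -6 := by
    linear_combination (ξ ^ 2 + ξ ^ 10 + 2 * ξ ^ 4 + 2 * ξ ^ 6 + 4) * h12 + 2 * hΦ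
  have R3 : (ξ ^ 3 + ξ ^ 9) ^ 2 = -2 := by
    linear_combination (2 + ξ ^ 6) * h12
  have R2 : (ξ ^ 2 - ξ ^ 10) ^ 2 = 3 := by
    linear_combination (ξ ^ 8 - 2) * h12 - hΦ
  have h2E : (2 : E) ≠ 0 := two_ne_zero_E (p := p) (by omega)
  have G1 : (p : ℤ) ∣ 2 * (f0 + f4) ^ 2 + 3 * (f1 + f5) ^ 2 := by
    apply int_dvd_of_cast (E := E)
    push_cast
    apply mul_left_cancel₀ h2E
    linear_combination (2 * ((f0 : E) + f4) - ((f1 : E) + f5) * (ξ + ξ ^ 5 + ξ ^ 7 + ξ ^ 11)) * P1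
      + ((f1 : E) + f5) ^ 2 * R1
  have G2 : (p : ℤ) ∣ (2 * f3 - f1 + f5) ^ 2 + 6 * f2 ^ 2 := by
    apply int_dvd_of_cast (E := E)
    push_cast
    apply mul_left_cancel₀ h2E
    linear_combination (-(2 * (f3 : E) - f1 + f5) * (ξ ^ 3 + ξ ^ 9)
      + 2 * (f2 : E) * (ξ ^ 2 - ξ ^ 10)) * P2 + (2 * (f3 : E) - f1 + f5) ^ 2 * R3
      - 4 * (f2 : E) ^ 2 * R2
  have hpos : (0 : ℤ) < p := by exact_mod_cast (Fact.out : p.Prime).pos
  obtain ⟨g4, g5, w2, w1⟩ := shape24 (p : ℤ) f0 f1 f2 f3 f4 f5 (by omega) hpos q1 q2 G1 G2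
  -- none of the three vanishes
  have n0 : f0 ≠ 0 := by
    rintro rfl
    have : 2 * (2 * f1 + f3) ^ 2 = (p : ℤ) := by linear_combination w1
    omega
  have n2 : f2 ≠ 0 := by
    rintro rfl
    have : 2 * (f1 - f3) ^ 2 = (p : ℤ) := by linear_combination w2
    omega
  have nB : 2 * f1 + f3 ≠ 0 := by
    intro h
    rw [h] at w1
    have : 9 * f0 ^ 2 = (p : ℤ) := by linear_combination w1
    omega
  have f12 : ∀ j : ZMod (2 * 12), fD D (j + 12) = - fD D j := fD_twelve D hw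
  -- scaled versions
  have scaled : ∀ (u : ZMod (2 * 12)) (hu : u * D.w = D.w) (huu : u * u = 1)
      (x1 x2 x3 : ℤ) (_ : fD D (u * 1) = x1) (_ : fD D (u * 2) = x2) (_ : fD D (u * 3) = x3)
      (_ : fD D (u * 4) = - f0) (_ : fD D (u * 5) = - x1)
      (_ : 9 * f0 ^ 2 + 2 * (2 * x1 + x3) ^ 2 = (p : ℤ))
      (_ : 3 * x2 ^ 2 + 2 * (x1 - x3) ^ 2 = (p : ℤ))
      (s : ℤ) (hs : s = 1 ∨ s = -1) (_ : 0 < s * f0) (_ : 0 < s * x2)
      (_ : 0 < s * (2 * x1 + x3)),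
      HasInternalPartition (incidenceGraph (ZMod p)) 1 := by
    intro u hu huu x1 x2 x3 e1 e2 e3 e4 e5 k1 k2 s hs h0 h2 h3
    have hF' : ∀ x, fD (D.scale u hu) (11 * x) = fD (D.scale u hu) x := by
      intro x
      rw [fD_scale D u u hu huu, fD_scale D u u hu huu]
      have : u * (11 * x) = 11 * (u * x) := by ring
      rw [this, hF]
    have z0 : fD (D.scale u hu) 0 = f0 := by
      rw [fD_scale D u u hu huu, mul_zero, hf0]
    have z1 : fD (D.scale u hu) 1 = x1 := by rw [fD_scale D u u hu huu, e1]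
    have z2 : fD (D.scale u hu) 2 = x2 := by rw [fD_scale D u u hu huu, e2]
    have z3 : fD (D.scale u hu) 3 = x3 := by rw [fD_scale D u u hu huu, e3]
    apply core24 hE (D.scale u hu) hw hF' hp hp11 _ _ s hs
    · rw [z0, z1, z3]; exact k1
    · rw [z1, z2, z3]; exact k2
    · rw [z0]; exact h0
    · rw [z2]; exact h2
    · rw [z1, z3]; exact h3
    · rw [fD_scale D u u hu huu, e4, z0]
    · rw [fD_scale D u u hu huu, e5, z1]
  have g1 := scaled 1 (by rw [hw]; decide) (by decide) f1 f2 f3 (by rw [hf1]; congr 1)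
    (by rw [hf2]; congr 1) (by rw [hf3]; congr 1) (by rw [← g4, hf4]; congr 1)
    (by rw [← g5, hf5]; congr 1) w1 w2
  have g13 := scaled 13 (by rw [hw]; decide) (by decide) (-f1) f2 (-f3)
    (by rw [hf1, ← f12]; congr 1) (by rw [hf2]; congr 1) (by rw [hf3, ← f12]; congr 1)
    (by rw [← g4, hf4]; congr 1)
    (by
      have h : (13 * 5 : ZMod (2 * 12)) = 5 + 12 := by decide
      rw [h, f12, ← hf5, g5])
    (by rw [← w1]; ring) (by rw [← w2]; ring)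
  have g17 := scaled 17 (by rw [hw]; decide) (by decide) f1 (-f2) f3
    (by
      have h : (17 * 1 : ZMod (2 * 12)) = 5 + 12 := by decide
      rw [h, f12, ← hf5, g5, neg_neg])
    (by
      have h : (17 * 2 : ZMod (2 * 12)) = 10 := by decide
      rw [h, r10, hf2])
    (by rw [hf3]; congr 1)
    (by
      have h : (17 * 4 : ZMod (2 * 12)) = 8 + 12 := by decide
      rw [h, f12, r8, ← hf4, g4, neg_neg])
    (by
      have h : (17 * 5 : ZMod (2 * 12)) = 1 + 12 := by decide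
      rw [h, f12, ← hf1])
    (by rw [← w1]) (by rw [← w2]; ring)
  have g5' := scaled 5 (by rw [hw]; decide) (by decide) (-f1) (-f2) (-f3)
    (by
      have h : (5 * 1 : ZMod (2 * 12)) = 5 := by decide
      rw [h, ← hf5, g5])
    (by
      have h : (5 * 2 : ZMod (2 * 12)) = 10 := by decide
      rw [h, r10, hf2])
    (by
      have h : (5 * 3 : ZMod (2 * 12)) = 3 + 12 := by decide
      rw [h, f12, ← hf3])
    (by
      have h : (5 * 4 : ZMod (2 * 12)) = 8 + 12 := by decide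
      rw [h, f12, r8, ← hf4, g4, neg_neg])
    (by
      have h : (5 * 5 : ZMod (2 * 12)) = 1 := by decide
      rw [h, ← hf1, neg_neg])
    (by rw [← w1]; ring) (by rw [← w2]; ring)
  rcases lt_or_gt_of_ne n0 with k0 | k0
  · rcases lt_or_gt_of_ne n2 with k2 | k2 <;> rcases lt_or_gt_of_ne nB with kB | kB
    · exact g1 (-1) (Or.inr rfl) (by linarith) (by linarith) (by linarith)
    · exact g13 (-1) (Or.inr rfl) (by linarith) (by linarith) (by linarith)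
    · exact g17 (-1) (Or.inr rfl) (by linarith) (by linarith) (by linarith)
    · exact g5' (-1) (Or.inr rfl) (by linarith) (by linarith) (by linarith)
  · rcases lt_or_gt_of_ne n2 with k2 | k2 <;> rcases lt_or_gt_of_ne nB with kB | kB
    · exact g5' 1 (Or.inl rfl) (by linarith) (by linarith) (by linarith)
    · exact g17 1 (Or.inl rfl) (by linarith) (by linarith) (by linarith)
    · exact g13 1 (Or.inl rfl) (by linarith) (by linarith) (by linarith)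
    · exact g1 1 (Or.inl rfl) (by linarith) (by linarith) (by linarith)

end Pool.Agent.Lib.MP_42b82d_co
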