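import Pool.Agent.Lib.MP_42b82d_co.PgV2
import Pool.Agent.Lib.MP_42b82d_co.PgCover19

/-!
# p = 19 mod 24
-/

set_option linter.unusedSectionVars false
set_option linter.unusedVariables false
set_option linter.unusedSimpArgs false
set_option maxHeartbeats 4000000

namespace Pool.Agent.Lib.MP_42b82d_co

open Finset

/-- the integer part of the argument -/
lemma shape19 (p f0 f1 f3 f4 f5 f8 : ℤ) (hpos : 0 < p)
    (E1 : f0 ^ 2 + 2 * f1 ^ 2 + 2 * f3 ^ 2 + f4 ^ 2 + 2 * f5 ^ 2 + f8 ^ 2 = p)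
    (E2 : f0 * f4 + 2 * (f1 * f5) - 2 * (f1 * f3) + f4 * f8 + 2 * (f3 * f5) - f0 * f8 = 0)
    (G1 : p ∣ (f0 - f8) ^ 2 + (f0 - f8) * (f4 + f8) + (f4 + f8) ^ 2)
    (G2 : p ∣ (f3 + f5) ^ 2 - (f3 + f5) * (f1 + f5) + (f1 + f5) ^ 2) :
    f3 = f1 ∧ f5 = - f1 ∧ f0 ^ 2 + f4 ^ 2 + f8 ^ 2 + 6 * f1 ^ 2 = p ∧
      f0 * (-f4) + (-f4) * f8 + f8 * f0 = - 6 * f1 ^ 2 := by
  obtain ⟨u, hu⟩ := G1
  obtain ⟨v, hv⟩ := G2
  have huv : u + 2 * v = 1 := by
    apply mul_left_cancel₀ hpos.ne'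
    linear_combination E1 + E2 - hu - 2 * hv
  have nn : ∀ a b : ℤ, 0 ≤ a ^ 2 + a * b + b ^ 2 := by
    intro a b
    nlinarith [sq_nonneg (2 * a + b), sq_nonneg b]
  have nn' : ∀ a b : ℤ, 0 ≤ a ^ 2 - a * b + b ^ 2 := by
    intro a b
    nlinarith [sq_nonneg (2 * a - b), sq_nonneg b]
  have hu0 : 0 ≤ u := by
    by_contra h
    have h1 : u ≤ -1 := by omega
    have h2 : p * u ≤ p * (-1) := mul_le_mul_of_nonneg_left h1 hpos.le
    have := nn (f0 - f8) (f4 + f8)
    linarith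
  have hv0 : 0 ≤ v := by
    by_contra h
    have h1 : v ≤ -1 := by omega
    have h2 : p * v ≤ p * (-1) := mul_le_mul_of_nonneg_left h1 hpos.le
    have := nn' (f3 + f5) (f1 + f5)
    linarith
  have hv1 : v = 0 := by omega
  subst hv1
  rw [mul_zero] at hv
  have h1 : (2 * (f3 + f5) - (f1 + f5)) ^ 2 + 3 * (f1 + f5) ^ 2 = 0 := by
    linear_combination 4 * hv
  have z1 : (f1 + f5) ^ 2 = 0 := by
    nlinarith [sq_nonneg (2 * (f3 + f5) - (f1 + f5)), sq_nonneg (f1 + f5)]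
  have z1' : f1 + f5 = 0 := pow_eq_zero_iff (two_ne_zero) |>.1 z1
  rw [z1'] at hv
  have z2' : f3 + f5 = 0 := by
    have : (f3 + f5) ^ 2 = 0 := by linear_combination hv
    exact pow_eq_zero_iff (two_ne_zero) |>.1 this
  have r5 : f5 = -f1 := by omega
  have r3 : f3 = f1 := by omega
  subst r5 r3
  refine ⟨rfl, rfl, by linear_combination E1, by linear_combination -E2⟩

section core

variable {p : ℕ} [Fact p.Prime] {E : Type*} [Field E] [Fintype E] [DecidableEq E]
  [Algebra (ZMod p) E] (hE : Module.finrank (ZMod p) E = 2)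
  (D : DLog p E (2 * 12)) (hw : D.w = 12) (hF : ∀ x, fD D (19 * x) = fD D x)

include hw hF in
lemma rel19 : fD D 2 = 0 ∧ fD D 6 = 0 ∧ fD D 7 = - fD D 1 ∧ fD D 9 = fD D 3 ∧
    fD D 10 = 0 ∧ fD D 11 = - fD D 5 := by
  refine ⟨?_, ?_, ?_, ?_, ?_, ?_⟩
  · have h1 := hF 2
    have h2 : (19 * 2 : ZMod (2 * 12)) = 2 + 12 := by decide
    rw [h2, fD_twelve D hw] at h1
    omega
  · have h1 := hF 6
    have h2 : (19 * 6 : ZMod (2 * 12)) = 6 + 12 := by decide
    rw [h2, fD_twelve D hw] at h1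
    omega
  · have h1 := hF 1
    have h2 : (19 * 1 : ZMod (2 * 12)) = 7 + 12 := by decide
    rw [h2, fD_twelve D hw] at h1
    omega
  · have h1 := hF 3
    have h2 : (19 * 3 : ZMod (2 * 12)) = 9 := by decide
    rw [h2] at h1
    exact h1
  · have h1 := hF 10
    have h2 : (19 * 10 : ZMod (2 * 12)) = 10 + 12 := by decide
    rw [h2, fD_twelve D hw] at h1
    omega
  · have h1 := hF 5
    have h2 : (19 * 5 : ZMod (2 * 12)) = 11 + 12 := by decide
    rw [h2, fD_twelve D hw] at h1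
    omega

include hE hw hF in
lemma corr19 : (fD D 0) ^ 2 + 2 * (fD D 1) ^ 2 + 2 * (fD D 3) ^ 2
      + (fD D 4) ^ 2 + 2 * (fD D 5) ^ 2 + (fD D 8) ^ 2 = (p : ℤ) ∧
    fD D 0 * fD D 4 + 2 * (fD D 1 * fD D 5) - 2 * (fD D 1 * fD D 3) + fD D 4 * fD D 8
      + 2 * (fD D 3 * fD D 5) - fD D 0 * fD D 8 = 0 := by
  obtain ⟨r2, r6, r7, r9, r10, r11⟩ := rel19 D hw hF
  have hw' : D.w = ((12 : ℕ) : ZMod (2 * 12)) := by rw [hw]; rfl
  have c0 : ((0 : ℕ) : ZMod (2 * 12)) = 0 := rfl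
  have c1 : ((1 : ℕ) : ZMod (2 * 12)) = 1 := rfl
  have c2 : ((2 : ℕ) : ZMod (2 * 12)) = 2 := rfl
  have c3 : ((3 : ℕ) : ZMod (2 * 12)) = 3 := rfl
  have c4 : ((4 : ℕ) : ZMod (2 * 12)) = 4 := rfl
  have c5 : ((5 : ℕ) : ZMod (2 * 12)) = 5 := rfl
  have c6 : ((6 : ℕ) : ZMod (2 * 12)) = 6 := rfl
  have c7 : ((7 : ℕ) : ZMod (2 * 12)) = 7 := rfl
  have c8 : ((8 : ℕ) : ZMod (2 * 12)) = 8 := rfl
  have c9 : ((9 : ℕ) : ZMod (2 * 12)) = 9 := rfl
  have c10 : ((10 : ℕ) : ZMod (2 * 12)) = 10 := rfl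
  have c11 : ((11 : ℕ) : ZMod (2 * 12)) = 11 := rfl
  constructor
  · have h := corr_half hE D hw' 0 (by rw [hw]; decide)
    simp only [sum_range_succ, range_zero, sum_empty, zero_add, add_zero, if_true] at h
    rw [c0, c1, c2, c3, c4, c5, c6, c7, c8, c9, c10, c11, r2, r6, r7, r9, r10, r11] at h
    rw [← h]
    ring
  · have h := corr_half hE D hw' 4 (by rw [hw]; decide)
    rw [if_neg (by decide)] at h
    simp only [sum_range_succ, range_zero, sum_empty, zero_add] at h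
    have s0 : (0 + 4 : ZMod (2 * 12)) = 4 := by decide
    have s1 : (1 + 4 : ZMod (2 * 12)) = 5 := by decide
    have s2 : (2 + 4 : ZMod (2 * 12)) = 6 := by decide
    have s3 : (3 + 4 : ZMod (2 * 12)) = 7 := by decide
    have s4 : (4 + 4 : ZMod (2 * 12)) = 8 := by decide
    have s5 : (5 + 4 : ZMod (2 * 12)) = 9 := by decide
    have s6 : (6 + 4 : ZMod (2 * 12)) = 10 := by decide
    have s7 : (7 + 4 : ZMod (2 * 12)) = 11 := by decide
    have s8 : (8 + 4 : ZMod (2 * 12)) = 0 + 12 := by decide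
    have s9 : (9 + 4 : ZMod (2 * 12)) = 1 + 12 := by decide
    have s10 : (10 + 4 : ZMod (2 * 12)) = 2 + 12 := by decide
    have s11 : (11 + 4 : ZMod (2 * 12)) = 3 + 12 := by decide
    rw [c0, c1, c2, c3, c4, c5, c6, c7, c8, c9, c10, c11, s0, s1, s2, s3, s4, s5, s6, s7, s8,
      s9, s10, s11, fD_twelve D hw, fD_twelve D hw, fD_twelve D hw, fD_twelve D hw,
      r2, r6, r7, r9, r10, r11] at h
    linear_combination h

include hE hw in
/-- a shifted and signed version of the pattern criterion -/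
lemma core19 (hp : p % 24 = 19) (hp19 : 19 < p) (k : ZMod (2 * 12)) (s : ℤ)
    (hs : s = 1 ∨ s = -1) (x y z b : ℤ)
    (v0 : fD D (0 + k) = x) (v1 : fD D (1 + k) = b) (v2 : fD D (2 + k) = 0)
    (v3 : fD D (3 + k) = b) (v4 : fD D (4 + k) = -y) (v5 : fD D (5 + k) = -b)
    (v6 : fD D (6 + k) = 0) (v7 : fD D (7 + k) = -b) (v8 : fD D (8 + k) = z)
    (v9 : fD D (9 + k) = b) (v10 : fD D (10 + k) = 0) (v11 : fD D (11 + k) = b)
    (h1 : x ^ 2 + y ^ 2 + z ^ 2 + 6 * b ^ 2 = (p : ℤ))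
    (h2 : x * y + y * z + z * x = - 6 * b ^ 2)
    (hb : 0 < s * b) (hA : 0 < s * (x + y + z)) (hxy : s * y ≤ s * x) (hyz : s * z ≤ s * y) :
    HasInternalPartition (incidenceGraph (ZMod p)) 1 := by
  have hs2 : s ^ 2 = 1 := by rcases hs with rfl | rfl <;> norm_num
  have hw' : D.w = ((12 : ℕ) : ZMod (2 * 12)) := by rw [hw]; rfl
  obtain ⟨X, Y, g1, g2⟩ := cover19 (p : ℤ) (s * x) (s * y) (s * z) (s * b)
    hb (by linarith) hxy hyz
    (by
      rw [← h1]
      linear_combination (x ^ 2 + y ^ 2 + z ^ 2 + 6 * b ^ 2) * hs2)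
    (by linear_combination s ^ 2 * h2)
    (by omega) (by omega)
  have hv : ∀ j, j < 12 → vec19 (s * x) (s * y) (s * z) (s * b) j
      = s * fD D ((j : ZMod (2 * 12)) + k) := by
    intro j hj
    interval_cases j
    · change s * x = s * fD D (0 + k)
      rw [v0]
    · change s * b = s * fD D (1 + k)
      rw [v1]
    · change 0 = s * fD D (2 + k)
      rw [v2, mul_zero]
    · change s * b = s * fD D (3 + k)
      rw [v3]
    · change -(s * y) = s * fD D (4 + k)
      rw [v4]; ring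
    · change -(s * b) = s * fD D (5 + k)
      rw [v5]; ring
    · change 0 = s * fD D (6 + k)
      rw [v6, mul_zero]
    · change -(s * b) = s * fD D (7 + k)
      rw [v7]; ring
    · change s * z = s * fD D (8 + k)
      rw [v8]
    · change s * b = s * fD D (9 + k)
      rw [v9]
    · change 0 = s * fD D (10 + k)
      rw [v10, mul_zero]
    · change s * b = s * fD D (11 + k)
      rw [v11]
  exact internal_of_pattern_shift hE D hw' (by omega) k s hs X Y (rowsOK_congr hv g1)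
    (rowsOK_congr hv g2)

include hE hw in
/-- all cyclic orders -/
lemma core19' (hp : p % 24 = 19) (hp19 : 19 < p) (s : ℤ)
    (hs : s = 1 ∨ s = -1) (x y z b : ℤ)
    (v0 : fD D 0 = x) (v1 : fD D 1 = b) (v2 : fD D 2 = 0)
    (v3 : fD D 3 = b) (v4 : fD D 4 = -y) (v5 : fD D 5 = -b)
    (v6 : fD D 6 = 0) (v7 : fD D 7 = -b) (v8 : fD D 8 = z)
    (v9 : fD D 9 = b) (v10 : fD D 10 = 0) (v11 : fD D 11 = b)
    (h1 : x ^ 2 + y ^ 2 + z ^ 2 + 6 * b ^ 2 = (p : ℤ))
    (h2 : x * y + y * z + z * x = - 6 * b ^ 2)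
    (hb : 0 < s * b) (hA : 0 < s * (x + y + z))
    (hord : (s * y ≤ s * x ∧ s * z ≤ s * y) ∨ (s * x ≤ s * z ∧ s * y ≤ s * x) ∨
      (s * z ≤ s * y ∧ s * x ≤ s * z)) :
    HasInternalPartition (incidenceGraph (ZMod p)) 1 := by
  have f12 : ∀ j : ZMod (2 * 12), fD D (j + 12) = - fD D j := fD_twelve D hw
  have f24 : ∀ j : ZMod (2 * 12), fD D (j + 12 + 12) = fD D j := by
    intro j; rw [f12, f12, neg_neg]
  have w12 : fD D 12 = -x := by rw [← v0, ← f12]; congr 1
  have w13 : fD D 13 = -b := by rw [← v1, ← f12]; congr 1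
  have w14 : fD D 14 = 0 := by
    have : (14 : ZMod (2 * 12)) = 2 + 12 := by decide
    rw [this, f12, v2, neg_zero]
  have w15 : fD D 15 = -b := by rw [← v3, ← f12]; congr 1
  have w16 : fD D 16 = y := by
    have : (16 : ZMod (2 * 12)) = 4 + 12 := by decide
    rw [this, f12, v4, neg_neg]
  have w17 : fD D 17 = b := by
    have : (17 : ZMod (2 * 12)) = 5 + 12 := by decide
    rw [this, f12, v5, neg_neg]
  have w18 : fD D 18 = 0 := by
    have : (18 : ZMod (2 * 12)) = 6 + 12 := by decide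
    rw [this, f12, v6, neg_zero]
  have w19 : fD D 19 = b := by
    have : (19 : ZMod (2 * 12)) = 7 + 12 := by decide
    rw [this, f12, v7, neg_neg]
  have w20 : fD D 20 = -z := by rw [← v8, ← f12]; congr 1
  have w21 : fD D 21 = -b := by rw [← v9, ← f12]; congr 1
  have w22 : fD D 22 = 0 := by
    have : (22 : ZMod (2 * 12)) = 10 + 12 := by decide
    rw [this, f12, v10, neg_zero]
  have w23 : fD D 23 = -b := by rw [← v11, ← f12]; congr 1
  rcases hord with ⟨o1, o2⟩ | ⟨o1, o2⟩ | ⟨o1, o2⟩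
  · apply core19 hE D hw hp hp19 0 s hs x y z b _ _ _ _ _ _ _ _ _ _ _ _ h1 h2 hb hA o1 o2 <;>
    rw [add_zero] <;> assumption
  · -- (z, x, y): shift by 8
    apply core19 hE D hw hp hp19 8 s hs z x y b _ _ _ _ _ _ _ _ _ _ _ _
      (by linarith) (by linarith) hb (by linarith) o1 o2
    · have : (0 + 8 : ZMod (2 * 12)) = 8 := by decide
      rw [this, v8]
    · have : (1 + 8 : ZMod (2 * 12)) = 9 := by decide
      rw [this, v9]
    · have : (2 + 8 : ZMod (2 * 12)) = 10 := by decide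
      rw [this, v10]
    · have : (3 + 8 : ZMod (2 * 12)) = 11 := by decide
      rw [this, v11]
    · have : (4 + 8 : ZMod (2 * 12)) = 12 := by decide
      rw [this, w12]
    · have : (5 + 8 : ZMod (2 * 12)) = 13 := by decide
      rw [this, w13]
    · have : (6 + 8 : ZMod (2 * 12)) = 14 := by decide
      rw [this, w14]
    · have : (7 + 8 : ZMod (2 * 12)) = 15 := by decide
      rw [this, w15]
    · have : (8 + 8 : ZMod (2 * 12)) = 16 := by decide
      rw [this, w16]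
    · have : (9 + 8 : ZMod (2 * 12)) = 17 := by decide
      rw [this, w17]
    · have : (10 + 8 : ZMod (2 * 12)) = 18 := by decide
      rw [this, w18]
    · have : (11 + 8 : ZMod (2 * 12)) = 19 := by decide
      rw [this, w19]
  · -- (y, z, x): shift by 16
    apply core19 hE D hw hp hp19 16 s hs y z x b _ _ _ _ _ _ _ _ _ _ _ _
      (by linarith) (by linarith) hb (by linarith) o1 o2
    · have : (0 + 16 : ZMod (2 * 12)) = 16 := by decide
      rw [this, w16]
    · have : (1 + 16 : ZMod (2 * 12)) = 17 := by decide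
      rw [this, w17]
    · have : (2 + 16 : ZMod (2 * 12)) = 18 := by decide
      rw [this, w18]
    · have : (3 + 16 : ZMod (2 * 12)) = 19 := by decide
      rw [this, w19]
    · have : (4 + 16 : ZMod (2 * 12)) = 20 := by decide
      rw [this, w20]
    · have : (5 + 16 : ZMod (2 * 12)) = 21 := by decide
      rw [this, w21]
    · have : (6 + 16 : ZMod (2 * 12)) = 22 := by decide
      rw [this, w22]
    · have : (7 + 16 : ZMod (2 * 12)) = 23 := by decide
      rw [this, w23]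
    · have : (8 + 16 : ZMod (2 * 12)) = 0 := by decide
      rw [this, v0]
    · have : (9 + 16 : ZMod (2 * 12)) = 1 := by decide
      rw [this, v1]
    · have : (10 + 16 : ZMod (2 * 12)) = 2 := by decide
      rw [this, v2]
    · have : (11 + 16 : ZMod (2 * 12)) = 3 := by decide
      rw [this, v3]

end core

end Pool.Agent.Lib.MP_42b82d_co
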