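import Mathlib

/-!
# Thinness of the exceptional primes (helper56)

Let `n = 2 ^ v`, `v ≥ 2`, and let `p` be a prime with `p ≡ n - 1` modulo `2 n`. If an integer
vector `m_0, …, m_{n-1}` has negacyclic autocorrelation `p δ`, then, up to finitely many factors
depending on `v` only, `S = ∑ m_k ζ ^ k` (`ζ` a primitive `2 n`-th root of unity) is a product of
conjugates of one element of the form `∑_{j < d} z_j (ζ ^ j + ζ ^ ((n - 1) j))`, `d = n / 2`, with
integers `|z_j| ≤ p ^ (1 / d)` (`structure_thm`). Hence for every `c ≠ 0` only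
`O(X ^ (1 - 1 / d))` primes `p ≤ X` have a vector of this kind for which some bounded linear
combination of the entries is equal to `c` (`thin`).
-/

set_option autoImplicit false

open Polynomial Finset

namespace Thin42b

/-! ### Lifting from the residue field -/

/-- A polynomial with integer coefficients of degree `< n`, given by its coefficients. -/
noncomputable def S (n : ℕ) (m : ℕ → ℤ) : ℤ[X] := ∑ k ∈ range n, C (m k) * X ^ k

lemma aeval_S {K : Type*} [CommRing K] (n : ℕ) (m : ℕ → ℤ) (x : K) :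
    aeval x (S n m) = ∑ k ∈ range n, (m k : K) * x ^ k := by
  simp [S]

lemma coeff_S (n : ℕ) (m : ℕ → ℤ) (k : ℕ) (hk : k < n) : (S n m).coeff k = m k := by
  simp [S, hk]

/-- An integer polynomial killed by all `n` roots of `X ^ n + 1` in a field of characteristic `p`
is, modulo `X ^ n + 1`, a multiple of `p`. -/
lemma exists_lift {F : Type*} [Field F] (p : ℕ) [CharP F p] (n : ℕ) (hn : 0 < n)
    (r : Fin n → F) (hr : Function.Injective r) (hr1 : ∀ i, r i ^ n = -1)
    (q : ℤ[X]) (hq : ∀ i, aeval (r i) q = 0) :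
    ∃ m : ℕ → ℤ, ∀ (K : Type) [Field K] (x : K), x ^ n = -1 →
      aeval x q = (p : K) * aeval x (S n m) := by
  have hmon : (X ^ n + 1 : ℤ[X]).Monic := by
    have := monic_X_pow_add_C (R := ℤ) 1 (n := n) (by omega)
    simpa using this
  have hdeg : (X ^ n + 1 : ℤ[X]).natDegree = n := by
    have := natDegree_X_pow_add_C (R := ℤ) (n := n) (r := 1)
    simpa using this
  set u := q %ₘ (X ^ n + 1) with hu
  have hud : u.degree < n := by
    have := degree_modByMonic_lt q hmon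
    rw [degree_eq_natDegree hmon.ne_zero, hdeg] at this
    exact this
  have hev : ∀ (K : Type _) [Field K] (x : K), x ^ n = -1 → aeval x q = aeval x u := by
    intro K _ x hx
    have h1 := modByMonic_add_div q (X ^ n + 1 : ℤ[X])
    have h2 : aeval x q = aeval x (u + (X ^ n + 1) * (q /ₘ (X ^ n + 1))) := by
      rw [hu, h1]
    rw [h2]
    simp [hx]
  have hevF : ∀ i, aeval (r i) u = 0 := by
    intro i
    have h1 := modByMonic_add_div q (X ^ n + 1 : ℤ[X])
    have h2 : aeval (r i) q = aeval (r i) (u + (X ^ n + 1) * (q /ₘ (X ^ n + 1))) := by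
      rw [hu, h1]
    rw [hq i] at h2
    simpa [hr1 i] using h2.symm
  classical
  -- map to F
  have hmap : u.map (Int.castRingHom F) = 0 := by
    by_contra hne
    have hroots : (Finset.univ.image r) ⊆ (u.map (Int.castRingHom F)).roots.toFinset := by
      intro y hy
      simp only [mem_image, mem_univ, true_and] at hy
      obtain ⟨i, rfl⟩ := hy
      rw [Multiset.mem_toFinset, mem_roots hne, IsRoot, eval_map]
      have := hevF i
      rw [aeval_def] at this
      simpa using this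
    have hc := Finset.card_le_card hroots
    rw [Finset.card_image_of_injective _ hr, Finset.card_univ, Fintype.card_fin] at hc
    have h3 := (Multiset.toFinset_card_le _).trans (card_roots' (u.map (Int.castRingHom F)))
    have h4 : (u.map (Int.castRingHom F)).degree < n := lt_of_le_of_lt degree_map_le hud
    have h5 : (u.map (Int.castRingHom F)).natDegree < n := by
      rw [degree_eq_natDegree hne] at h4
      exact_mod_cast h4
    omega
  have hdiv : ∀ k, (p : ℤ) ∣ u.coeff k := by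
    intro k
    have := congrArg (fun f => f.coeff k) hmap
    simp only [coeff_map, coeff_zero] at this
    rw [← CharP.intCast_eq_zero_iff F p]
    simpa using this
  refine ⟨fun k => u.coeff k / p, ?_⟩
  intro K _ x hx
  rw [hev K x hx, aeval_S, aeval_eq_sum_range' (n := n), Finset.mul_sum]
  · refine Finset.sum_congr rfl fun k _ => ?_
    obtain ⟨w, hw⟩ := hdiv k
    rw [hw]
    by_cases hp : (p : ℤ) = 0
    · simp [hp]
    · rw [Int.mul_ediv_cancel_left _ hp]
      simp [mul_assoc]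
  · by_cases h0 : u = 0
    · rw [h0]; simpa using hn
    · rw [degree_eq_natDegree h0] at hud
      exact_mod_cast hud


/-! ### Small elements of the fixed ring -/

/-- The element `∑ z_j (X ^ j + X ^ ((n - 1) j))`. -/
noncomputable def pz (n d : ℕ) (z : Fin d → ℤ) : ℤ[X] :=
  ∑ j : Fin d, C (z j) * (X ^ (j : ℕ) + X ^ ((n - 1) * (j : ℕ)))

lemma aeval_pz {K : Type*} [CommRing K] (n d : ℕ) (z : Fin d → ℤ) (x : K) :
    aeval x (pz n d z) = ∑ j : Fin d, (z j : K) * (x ^ (j : ℕ) + x ^ ((n - 1) * (j : ℕ))) := by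
  simp [pz]

lemma pz_sub {K : Type*} [CommRing K] (n d : ℕ) (z w : Fin d → ℤ) (x : K) :
    aeval x (pz n d (fun j => z j - w j)) = aeval x (pz n d z) - aeval x (pz n d w) := by
  simp only [aeval_pz, ← Finset.sum_sub_distrib]
  refine Finset.sum_congr rfl fun j _ => ?_
  push_cast
  ring

lemma two_n_one {K : Type*} [CommRing K] {n : ℕ} {x : K} (hx : x ^ n = -1) : x ^ (2 * n) = 1 := by
  rw [mul_comm, pow_mul, hx]; simp

lemma pow_modEq {K : Type*} [CommRing K] {n : ℕ} {x : K} (hx : x ^ n = -1) {a b : ℕ}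
    (h : a ≡ b [MOD 2 * n]) : x ^ a = x ^ b := by
  have h1 := two_n_one hx
  have key : ∀ a, x ^ a = x ^ (a % (2 * n)) := by
    intro a
    conv_lhs => rw [← Nat.div_add_mod a (2 * n), pow_add, pow_mul, h1, one_pow, one_mul]
  rw [key a, key b, h]

/-- Integer polynomials commute with the Frobenius. -/
lemma frob_aeval {F : Type*} [Field F] (p : ℕ) [Fact p.Prime] [CharP F p] (x : F) (q : ℤ[X]) :
    (aeval x q) ^ p = aeval (x ^ p) q := by
  rw [← frobenius_def, aeval_def, aeval_def, hom_eval₂, frobenius_def]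
  congr 1
  exact RingHom.ext_int _ _

lemma pow_odd_mod {v n : ℕ} (hn : n = 2 ^ v) {c : ℕ} (hc : Odd c) : c ^ n ≡ 1 [MOD 2 * n] := by
  have h1 : Nat.totient (2 * n) = n := by
    rw [hn, ← pow_succ', Nat.totient_prime_pow_succ Nat.prime_two]
    simp
  have h2 : Nat.Coprime c (2 * n) := by
    rw [hn, ← pow_succ']
    exact Nat.Coprime.pow_right _ hc.coprime_two_right
  have := Nat.ModEq.pow_totient h2
  rwa [h1] at this

lemma pow_odd_inj {K : Type*} [CommRing K] {v n : ℕ} (hn : n = 2 ^ v) {x y : K}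
    (hx : x ^ n = -1) (hy : y ^ n = -1) {c : ℕ} (hc : Odd c) (h : x ^ c = y ^ c) : x = y := by
  have hpos : 0 < n := by rw [hn]; positivity
  have key : ∀ x : K, x ^ n = -1 → (x ^ c) ^ (c ^ (n - 1)) = x := by
    intro x hx
    rw [← pow_mul, ← pow_succ', Nat.sub_add_cancel hpos, pow_modEq hx (pow_odd_mod hn hc), pow_one]
  rw [← key x hx, ← key y hy, h]

/-- nonvanishing of the small elements at primitive roots of unity -/
lemma pz_ne_zero {v n d : ℕ} (hv : 2 ≤ v) (hn : n = 2 ^ v) (hd : d = 2 ^ (v - 1))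
    (z : Fin d → ℤ) (hz : z ≠ 0) (x : ℂ) (hx : x ^ n = -1) : aeval x (pz n d z) ≠ 0 := by
  have hnd : n = 2 * d := by
    rw [hn, hd, ← pow_succ', Nat.sub_add_cancel (by omega)]
  have hdpos : 0 < d := by rw [hd]; positivity
  have hx0 : x ≠ 0 := by
    rintro rfl
    rw [zero_pow (by omega)] at hx
    norm_num at hx
  have hprim : IsPrimitiveRoot x (2 * n) := by
    have h1 : orderOf x = 2 ^ (v + 1) := by
      apply orderOf_eq_prime_pow
      · rw [← hn, hx]; norm_num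
      · rw [pow_succ', ← hn]; exact two_n_one hx
    have h2 : 2 * n = orderOf x := by rw [h1, hn, pow_succ']
    rw [h2]
    exact IsPrimitiveRoot.orderOf x
  intro h0
  let q : ℤ[X] := ∑ j : Fin d, C (z j) *
    (X ^ (j : ℕ) + if (j : ℕ) = 0 then 1 else - C ((-1) ^ (j : ℕ)) * X ^ (n - (j : ℕ)))
  have hq : aeval x q = 0 := by
    rw [← h0, aeval_pz]
    simp only [q, map_sum, map_mul, map_add]
    refine Finset.sum_congr rfl fun j _ => ?_
    have h1 : aeval x (C (z j)) = (z j : ℂ) := by simp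
    rw [h1]
    congr 1
    have h2 : aeval x (X ^ (j : ℕ) : ℤ[X]) = x ^ (j : ℕ) := by simp
    rw [h2]
    congr 1
    by_cases hj : (j : ℕ) = 0
    · simp [hj]
    · rw [if_neg hj]
      have hjd := j.2
      have hxj : x ^ (j : ℕ) ≠ 0 := pow_ne_zero _ hx0
      apply mul_right_cancel₀ hxj
      have h3 : x ^ ((n - 1) * (j : ℕ)) * x ^ (j : ℕ) = (-1) ^ (j : ℕ) := by
        rw [← pow_add]
        have : (n - 1) * (j : ℕ) + (j : ℕ) = n * j := by
          obtain ⟨k, rfl⟩ : ∃ k, n = k + 1 := ⟨n - 1, by omega⟩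
          simp; ring
        rw [this, pow_mul, hx]
      rw [h3]
      have h4 : x ^ (n - (j : ℕ)) * x ^ (j : ℕ) = -1 := by
        rw [← pow_add, Nat.sub_add_cancel (by omega), hx]
      have h5 : aeval x (C ((-1 : ℤ) ^ (j : ℕ))) = ((-1 : ℂ) ^ (j : ℕ)) := by simp
      rw [map_mul, map_neg, h5, map_pow, aeval_X, neg_mul, neg_mul, mul_assoc, h4]
      simp
  have hqdeg : q.degree < n := by
    refine lt_of_le_of_lt (degree_sum_le _ _) ?_
    rw [Finset.sup_lt_iff (by exact_mod_cast WithBot.bot_lt_coe n)]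
    intro j _
    have hjd := j.2
    rw [← smul_eq_C_mul]
    refine lt_of_le_of_lt (degree_smul_le _ _) ?_
    refine lt_of_le_of_lt (degree_add_le _ _) ?_
    rw [max_lt_iff]
    constructor
    · refine lt_of_le_of_lt (degree_X_pow_le _) ?_
      exact_mod_cast (by omega : (j : ℕ) < n)
    · by_cases hj : (j : ℕ) = 0
      · rw [if_pos hj]
        refine lt_of_le_of_lt degree_one_le ?_
        exact_mod_cast (by omega : 0 < n)
      · rw [if_neg hj, neg_mul, degree_neg]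
        refine lt_of_le_of_lt (degree_C_mul_X_pow_le _ _) ?_
        exact_mod_cast (by omega : n - (j : ℕ) < n)
  have hcoeff : ∀ i : Fin d, q.coeff i = z i + if (i : ℕ) = 0 then z i else 0 := by
    intro i
    simp only [q, finsetSum_coeff, coeff_C_mul, coeff_add, coeff_X_pow]
    rw [Finset.sum_eq_single i]
    · have hid := i.2
      by_cases hi : (i : ℕ) = 0
      · simp [hi]; ring
      · rw [if_neg hi, if_neg hi]
        have : ¬ ((i : ℕ) = n - (i : ℕ)) := by omega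
        rw [neg_mul, coeff_neg, coeff_C_mul, coeff_X_pow, if_neg this]
        simp
    · intro j _ hji
      have hid := i.2
      have hjd := j.2
      have hne : ¬ ((i : ℕ) = (j : ℕ)) := fun h => hji (Fin.ext h.symm)
      rw [if_neg hne]
      by_cases hj : (j : ℕ) = 0
      · rw [if_pos hj]
        have : (i : ℕ) ≠ 0 := by omega
        simp [coeff_one, this]
      · rw [if_neg hj]
        have : ¬ ((i : ℕ) = n - (j : ℕ)) := by omega
        rw [neg_mul, coeff_neg, coeff_C_mul, coeff_X_pow, if_neg this]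
        simp
    · simp
  have hqne : q ≠ 0 := by
    intro hq0
    apply hz
    funext i
    have := hcoeff i
    rw [hq0, coeff_zero] at this
    by_cases hi : (i : ℕ) = 0
    · rw [if_pos hi] at this
      show z i = 0
      omega
    · rw [if_neg hi] at this
      show z i = 0
      omega
  have hmin := minpoly.isIntegrallyClosed_dvd (R := ℤ) (S := ℂ) (hprim.isIntegral (by omega)) hq
  rw [← cyclotomic_eq_minpoly hprim (by omega)] at hmin
  have hle := natDegree_le_of_dvd hmin hqne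
  rw [natDegree_cyclotomic] at hle
  have h1 : Nat.totient (2 * n) = n := by
    rw [hn, ← pow_succ', Nat.totient_prime_pow_succ Nat.prime_two]
    simp
  rw [h1] at hle
  rw [degree_eq_natDegree hqne] at hqdeg
  have : q.natDegree < n := by exact_mod_cast hqdeg
  omega

/-! ### Fourier inversion -/

lemma prim_of_pow {v n : ℕ} (hn : n = 2 ^ v) {x : ℂ} (hx : x ^ n = -1) :
    IsPrimitiveRoot x (2 * n) := by
  have h1 : orderOf x = 2 ^ (v + 1) := by
    apply orderOf_eq_prime_pow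
    · rw [← hn, hx]; norm_num
    · rw [pow_succ', ← hn]; exact two_n_one hx
  have h2 : 2 * n = orderOf x := by rw [h1, hn, pow_succ']
  rw [h2]
  exact IsPrimitiveRoot.orderOf x

lemma sum_inv {v n : ℕ} (hn : n = 2 ^ v) {ζ : ℂ} (hζ : ζ ^ n = -1) {j k : ℕ} (hj : j < n)
    (hk : k < n) :
    ∑ i ∈ range n, (ζ ^ (2 * i + 1)) ^ j * ((ζ ^ (2 * i + 1)) ^ k)⁻¹ = if j = k then (n : ℂ) else 0 := by
  have hprim := prim_of_pow hn hζ
  have hζ0 : ζ ≠ 0 := by
    rintro rfl
    rw [zero_pow (by omega)] at hζ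
    norm_num at hζ
  by_cases hjk : j = k
  · subst hjk
    rw [if_pos rfl]
    have : ∀ i ∈ range n, (ζ ^ (2 * i + 1)) ^ j * ((ζ ^ (2 * i + 1)) ^ j)⁻¹ = 1 := by
      intro i _
      exact mul_inv_cancel₀ (pow_ne_zero _ (pow_ne_zero _ hζ0))
    rw [Finset.sum_congr rfl this]
    simp
  · rw [if_neg hjk]
    set ρ : ℂ := ζ ^ (2 * j) * (ζ ^ (2 * k))⁻¹ with hρ
    have hρ1 : ρ ≠ 1 := by
      intro h
      rw [hρ, mul_inv_eq_one₀ (pow_ne_zero _ hζ0)] at h
      have := hprim.pow_inj (by omega) (by omega) h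
      omega
    have hρn : ρ ^ n = 1 := by
      rw [hρ, mul_pow, inv_pow, ← pow_mul, ← pow_mul]
      have h1 : ∀ a : ℕ, ζ ^ (2 * a * n) = 1 := by
        intro a
        rw [show 2 * a * n = 2 * n * a by ring, pow_mul, two_n_one hζ, one_pow]
      rw [h1, h1]; simp
    have h1 : ∀ i ∈ range n, (ζ ^ (2 * i + 1)) ^ j * ((ζ ^ (2 * i + 1)) ^ k)⁻¹
        = (ζ ^ j * (ζ ^ k)⁻¹) * ρ ^ i := by
      intro i _
      rw [hρ, mul_pow, inv_pow, ← pow_mul, ← pow_mul, ← pow_mul, ← pow_mul]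
      rw [show (2 * i + 1) * j = j + 2 * j * i by ring, show (2 * i + 1) * k = k + 2 * k * i by ring,
        pow_add, pow_add, mul_inv]
      ring
    rw [Finset.sum_congr rfl h1, ← Finset.mul_sum, geom_sum_eq hρ1, hρn]
    simp

lemma inversion {v n : ℕ} (hn : n = 2 ^ v) {ζ : ℂ} (hζ : ζ ^ n = -1) (m : ℕ → ℤ) {k : ℕ}
    (hk : k < n) :
    ∑ i ∈ range n, aeval (ζ ^ (2 * i + 1)) (S n m) * ((ζ ^ (2 * i + 1)) ^ k)⁻¹ = n * (m k : ℂ) := by
  simp only [aeval_S, Finset.sum_mul]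
  rw [Finset.sum_comm]
  have h1 : ∀ j ∈ range n, ∑ i ∈ range n, (m j : ℂ) * (ζ ^ (2 * i + 1)) ^ j *
      ((ζ ^ (2 * i + 1)) ^ k)⁻¹ = (m j : ℂ) * if j = k then (n : ℂ) else 0 := by
    intro j hj
    rw [← sum_inv hn hζ (Finset.mem_range.1 hj) hk, Finset.mul_sum]
    refine Finset.sum_congr rfl fun i _ => by ring
  rw [Finset.sum_congr rfl h1, Finset.sum_eq_single k]
  · rw [if_pos rfl]; ring
  · intro j _ hjk
    rw [if_neg hjk, mul_zero]
  · intro h
    exact absurd (Finset.mem_range.2 hk) h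

/-! ### The structure theorem -/

/-- pigeonhole: a small element vanishing at `g`. -/
lemma exists_small {F : Type*} [Field F] {n d : ℕ} (hn2 : 2 ≤ n) (hn : Even n)
    (p : ℕ) [Fact p.Prime] [CharP F p] (hp : p % (2 * n) = n - 1) (g : F) (hg : g ^ n = -1)
    (B : ℕ) (hB : p < (B + 1) ^ d) :
    ∃ z : Fin d → ℤ, z ≠ 0 ∧ (∀ j, |z j| ≤ B) ∧ aeval g (pz n d z) = 0 := by
  classical
  have hpp : p.Prime := Fact.out
  have hfix : ∀ z : Fin d → ℤ, (aeval g (pz n d z)) ^ p = aeval g (pz n d z) := by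
    intro z
    rw [frob_aeval, aeval_pz, aeval_pz]
    refine Finset.sum_congr rfl fun j _ => ?_
    congr 1
    have h1 : g ^ p = g ^ (n - 1) := by
      apply pow_modEq hg
      rw [Nat.ModEq, hp, Nat.mod_eq_of_lt (by omega)]
    rw [h1, ← pow_mul, ← pow_mul, add_comm]
    congr 1
    apply pow_modEq hg
    have h2 : (n - 1) * (n - 1) ≡ 1 [MOD 2 * n] := by
      obtain ⟨r, hr⟩ := hn
      have hr1 : 1 ≤ r := by omega
      obtain ⟨s, rfl⟩ : ∃ s, r = s + 1 := ⟨r - 1, by omega⟩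
      have h3 : (n - 1) * (n - 1) = 1 + (2 * n) * s := by
        subst hr
        have : s + 1 + (s + 1) - 1 = 2 * s + 1 := by omega
        rw [this]
        ring
      rw [h3, Nat.ModEq, Nat.add_mul_mod_self_left]
    calc (n - 1) * ((n - 1) * (j : ℕ)) = ((n - 1) * (n - 1)) * j := by ring
      _ ≡ 1 * j [MOD 2 * n] := h2.mul_right _
      _ = j := one_mul _
  set R : Finset F := (X ^ p - X : F[X]).roots.toFinset with hR
  have hRc : R.card ≤ p := by
    have h1 := (Multiset.toFinset_card_le _).trans (card_roots' (X ^ p - X : F[X]))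
    rw [FiniteField.X_pow_card_sub_X_natDegree_eq F hpp.one_lt] at h1
    exact h1
  have hne : (X ^ p - X : F[X]) ≠ 0 := FiniteField.X_pow_card_sub_X_ne_zero F hpp.one_lt
  have hmaps : ∀ w ∈ (Finset.univ : Finset (Fin d → Fin (B + 1))),
      aeval g (pz n d (fun j => ((w j : ℕ) : ℤ))) ∈ R := by
    intro w _
    rw [hR, Multiset.mem_toFinset, mem_roots hne, IsRoot]
    simp only [eval_sub, eval_pow, eval_X]
    rw [hfix, sub_self]
  have hcard : R.card < (Finset.univ : Finset (Fin d → Fin (B + 1))).card := by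
    rw [Finset.card_univ, Fintype.card_fun, Fintype.card_fin, Fintype.card_fin]
    omega
  obtain ⟨w1, _, w2, _, hw, hev⟩ := Finset.exists_ne_map_eq_of_card_lt_of_maps_to hcard hmaps
  refine ⟨fun j => ((w1 j : ℕ) : ℤ) - ((w2 j : ℕ) : ℤ), ?_, ?_, ?_⟩
  · intro h0
    apply hw
    funext j
    have := congrFun h0 j
    simp only [Pi.zero_apply, sub_eq_zero] at this
    exact Fin.ext (by exact_mod_cast this)
  · intro j
    have h1 := (w1 j).2
    have h2 := (w2 j).2
    show |((w1 j : ℕ) : ℤ) - ((w2 j : ℕ) : ℤ)| ≤ B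
    rw [abs_le]
    constructor <;> omega
  · rw [pz_sub, hev, sub_self]

lemma roots_exist {F : Type*} [Field F] {v n : ℕ} (hn : n = 2 ^ v) (g : F) (hg : g ^ n = -1)
    (h2 : (2 : F) ≠ 0) {x : F} (hx : x ^ n = -1) : ∃ c, Odd c ∧ c < 2 * n ∧ x ^ c = g := by
  have hpos : 0 < n := by rw [hn]; positivity
  have hprim : IsPrimitiveRoot x (2 * n) := by
    have h1 : orderOf x = 2 ^ (v + 1) := by
      apply orderOf_eq_prime_pow
      · rw [← hn, hx]
        intro h
        apply h2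
        linear_combination -h
      · rw [pow_succ', ← hn]; exact two_n_one hx
    have h2 : 2 * n = orderOf x := by rw [h1, hn, pow_succ']
    rw [h2]
    exact IsPrimitiveRoot.orderOf x
  have : NeZero (2 * n) := ⟨by omega⟩
  obtain ⟨c, hc, hcg⟩ := hprim.eq_pow_of_pow_eq_one (two_n_one hg)
  refine ⟨c, ?_, hc, hcg⟩
  by_contra hodd
  rw [Nat.not_odd_iff_even] at hodd
  obtain ⟨k, rfl⟩ := hodd
  rw [← hcg, ← pow_mul, mul_comm, ← two_mul, ← mul_assoc, mul_comm n 2, pow_mul, two_n_one hx,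
    one_pow] at hg
  apply h2
  linear_combination hg

/-- The set of exponents. -/
lemma exponent_set {F : Type} [Field F] {v n d : ℕ} (hv : 2 ≤ v) (hn : n = 2 ^ v)
    (hd : d = 2 ^ (v - 1))
    (p : ℕ) [Fact p.Prime] [CharP F p] (hp : p % (2 * n) = n - 1) (m : ℕ → ℤ)
    (hF : ∀ x : F, x ^ n = -1 →
      aeval x (S n m) * aeval (x ^ (2 * n - 1)) (S n m) = p)
    (g : F) (hg : g ^ n = -1) :
    ∃ Ψ : Finset (Fin d), 2 * Ψ.card ≤ d ∧ ∀ x : F, x ^ n = -1 →
      aeval (x ^ (2 * n - 1)) (S n m) ≠ 0 → ∃ i ∈ Ψ, x ^ (4 * (i : ℕ) + 1) = g ∨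
        x ^ (4 * (i : ℕ) + 1) = g ^ p := by
  classical
  have hpp : p.Prime := Fact.out
  have hnd : n = 2 * d := by
    rw [hn, hd, ← pow_succ', Nat.sub_add_cancel (by omega)]
  have hdpos : 0 < d := by rw [hd]; positivity
  obtain ⟨e, he⟩ : ∃ e, d = 2 * e := by
    refine ⟨2 ^ (v - 2), ?_⟩
    rw [hd, ← pow_succ']
    congr 1
    omega
  have hn4 : n = 4 * e := by omega
  have hepos : 0 < e := by omega
  have h2F : (2 : F) ≠ 0 := by
    intro h
    have h1 : ((2 : ℕ) : F) = 0 := by exact_mod_cast h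
    rw [CharP.cast_eq_zero_iff F p] at h1
    have := (Nat.prime_dvd_prime_iff_eq hpp Nat.prime_two).1 h1
    subst this
    rw [Nat.mod_eq_of_lt (by omega)] at hp
    omega
  -- the elements y_i
  let y : Fin d → F := fun i => g ^ ((4 * (i : ℕ) + 1) ^ (n - 1))
  have hodd : ∀ i : Fin d, Odd (4 * (i : ℕ) + 1) := fun i => ⟨2 * i, by ring⟩
  have hyn : ∀ i, y i ^ n = -1 := by
    intro i
    show (g ^ ((4 * (i : ℕ) + 1) ^ (n - 1))) ^ n = -1
    rw [← pow_mul, mul_comm, pow_mul, hg]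
    exact Odd.neg_one_pow ((hodd i).pow)
  have hyg : ∀ i, y i ^ (4 * (i : ℕ) + 1) = g := by
    intro i
    show (g ^ ((4 * (i : ℕ) + 1) ^ (n - 1))) ^ (4 * (i : ℕ) + 1) = g
    rw [← pow_mul, ← pow_succ, Nat.sub_add_cancel (by omega), pow_modEq hg (pow_odd_mod hn (hodd i)),
      pow_one]
  have hpn1 : ∀ x : F, x ^ n = -1 → x ^ p = x ^ (n - 1) := by
    intro x hx
    apply pow_modEq hx
    rw [Nat.ModEq, hp, Nat.mod_eq_of_lt (by omega)]
  have hinv : ∀ x : F, x ^ n = -1 → x ^ (2 * n - 1) = - x ^ p := by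
    intro x hx
    rw [hpn1 x hx, show 2 * n - 1 = n + (n - 1) by omega, pow_add, hx]
    ring
  have hpp2 : ∀ x : F, x ^ n = -1 → (x ^ p) ^ p = x := by
    intro x hx
    rw [hpn1 x hx]
    have h1 : (x ^ (n - 1)) ^ p = (x ^ p) ^ (n - 1) := by rw [← pow_mul, ← pow_mul, mul_comm]
    rw [h1, hpn1 x hx, ← pow_mul]
    have h2 : (n - 1) * (n - 1) ≡ 1 [MOD 2 * n] := by
      obtain ⟨s, rfl⟩ : ∃ s, e = s + 1 := ⟨e - 1, by omega⟩
      have h3 : (n - 1) * (n - 1) = 1 + (2 * n) * (2 * s + 1) := by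
        subst hn4
        have : 4 * (s + 1) - 1 = 4 * s + 3 := by omega
        rw [this]
        ring
      rw [h3, Nat.ModEq, Nat.add_mul_mod_self_left]
    rw [pow_modEq hx h2, pow_one]
  have hpn : ∀ x : F, x ^ n = -1 → (x ^ p) ^ n = -1 := by
    intro x hx
    rw [← pow_mul, mul_comm, pow_mul, hx]
    apply Odd.neg_one_pow
    rcases hpp.eq_two_or_odd' with h | h
    · exfalso
      subst h
      rw [Nat.mod_eq_of_lt (by omega)] at hp
      omega
    · exact h
  -- `T x = S(x)`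
  let T : F → F := fun x => aeval x (S n m)
  have hTfrob : ∀ x : F, T x ^ p = T (x ^ p) := fun x => frob_aeval p x _
  have hT0 : ∀ x, T x = 0 → T (x ^ p) = 0 := by
    intro x hx
    rw [← hTfrob, hx, zero_pow hpp.ne_zero]
  have hmul : ∀ x : F, x ^ n = -1 → T x * T (- x ^ p) = 0 := by
    intro x hx
    have := hF x hx
    rw [hinv x hx, CharP.cast_eq_zero F p] at this
    exact this
  have hnegn : ∀ x : F, x ^ n = -1 → (-x) ^ n = -1 := by
    intro x hx
    rw [Even.neg_pow ⟨2 * e, by omega⟩, hx]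
  have hpodd : Odd p := by
    rcases hpp.eq_two_or_odd' with h | h
    · exfalso
      subst h
      rw [Nat.mod_eq_of_lt (by omega)] at hp
      omega
    · exact h
  let Ψ : Finset (Fin d) := Finset.univ.filter (fun i => T (- (y i) ^ p) ≠ 0)
  refine ⟨Ψ, ?_, ?_⟩
  · -- the involution
    let τ : Fin d → Fin d := fun i => ⟨(i + e) % d, Nat.mod_lt _ hdpos⟩
    have hτinj : Function.Injective τ := by
      intro i j hij
      have h1 : ((i : ℕ) + e) % d = ((j : ℕ) + e) % d := congrArg Fin.val hij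
      have hi := i.2
      have hj := j.2
      apply Fin.ext
      have h2 : ((i : ℕ) + e) ≡ ((j : ℕ) + e) [MOD d] := h1
      have h3 := Nat.ModEq.add_right_cancel' e h2
      rw [Nat.ModEq, Nat.mod_eq_of_lt hi, Nat.mod_eq_of_lt hj] at h3
      exact h3
    have hyτ : ∀ i, y (τ i) = - y i := by
      intro i
      have hi := i.2
      -- (- y i) ^ (4 (i+e) + 1) = g
      apply pow_odd_inj hn (hyn _) (hnegn _ (hyn i)) (hodd (τ i))
      rw [hyg, (hodd (τ i)).neg_pow]
      have h1 : (4 * ((τ i : Fin d) : ℕ) + 1) ≡ 4 * (i : ℕ) + 1 + n [MOD 2 * n] := by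
        have h2 : ((τ i : Fin d) : ℕ) = ((i : ℕ) + e) % d := rfl
        rw [h2]
        have h3 : (4 * (((i : ℕ) + e) % d)) = (4 * ((i : ℕ) + e)) % (4 * d) := by
          rw [Nat.mul_mod_mul_left]
        have h4 : 4 * d = 2 * n := by omega
        rw [h3, h4]
        have h5 : (4 * ((i : ℕ) + e)) % (2 * n) ≡ 4 * ((i : ℕ) + e) [MOD 2 * n] := Nat.mod_modEq _ _
        calc (4 * ((i : ℕ) + e)) % (2 * n) + 1 ≡ 4 * ((i : ℕ) + e) + 1 [MOD 2 * n] :=
              h5.add_right 1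
          _ = 4 * (i : ℕ) + 1 + n := by omega
      rw [pow_modEq (hyn i) h1, pow_add, hyg, hyn]
      ring
    have hdisj : Disjoint Ψ (Ψ.image τ) := by
      rw [Finset.disjoint_left]
      intro i hi hi2
      rw [Finset.mem_image] at hi2
      obtain ⟨j, hj, rfl⟩ := hi2
      simp only [Ψ, Finset.mem_filter, Finset.mem_univ, true_and] at hi hj
      rw [hyτ, hpodd.neg_pow, neg_neg] at hi
      -- T (y j ^ p) ≠ 0, T (- y j ^ p) ≠ 0
      have h1 := hmul (y j) (hyn j)
      rcases mul_eq_zero.1 h1 with h | h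
      · exact hi (hT0 _ h)
      · exact hj h
    have h1 := Finset.card_union_of_disjoint hdisj
    rw [Finset.card_image_of_injective _ hτinj] at h1
    have h2 := Finset.card_le_univ (Ψ ∪ Ψ.image τ)
    rw [Fintype.card_fin] at h2
    omega
  · intro x hx hx0
    rw [hinv x hx] at hx0
    obtain ⟨c, hcodd, hc, hcg⟩ := roots_exist hn g hg h2F hx
    have hmod : c % 4 = 1 ∨ c % 4 = 3 := by
      obtain ⟨k, rfl⟩ := hcodd
      omega
    rcases hmod with h1 | h3
    · have hi : c / 4 < d := by omega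
      have hc4 : 4 * (c / 4) + 1 = c := by omega
      refine ⟨⟨c / 4, hi⟩, ?_, Or.inl ?_⟩
      · simp only [Ψ, Finset.mem_filter, Finset.mem_univ, true_and]
        have : y ⟨c / 4, hi⟩ = x := by
          apply pow_odd_inj hn (hyn _) hx hcodd
          have := hyg ⟨c / 4, hi⟩
          simp only [hc4] at this
          rw [this, hcg]
        rw [this]
        exact hx0
      · simp only [hc4]
        exact hcg
    · -- c ≡ 3 mod 4
      let c' := (p * c) % (2 * n)
      have hc' : c' < 2 * n := Nat.mod_lt _ (by omega)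
      have hc'4 : c' % 4 = 1 := by
        have hp4 : p % 4 = 3 := by
          have : (4 : ℕ) ∣ 2 * n := ⟨2 * e, by omega⟩
          rw [← Nat.mod_mod_of_dvd p this, hp]
          omega
        show (p * c) % (2 * n) % 4 = 1
        rw [Nat.mod_mod_of_dvd _ ⟨2 * e, by omega⟩, Nat.mul_mod, hp4, h3]
      have hi : c' / 4 < d := by omega
      have hc4 : 4 * (c' / 4) + 1 = c' := by omega
      have hc'odd : Odd c' := by
        rw [Nat.odd_iff]; omega
      have hxc' : x ^ c' = g ^ p := by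
        have : x ^ c' = x ^ (p * c) := pow_modEq hx (Nat.mod_modEq _ _)
        rw [this, mul_comm, pow_mul, hcg]
      refine ⟨⟨c' / 4, hi⟩, ?_, Or.inr ?_⟩
      · simp only [Ψ, Finset.mem_filter, Finset.mem_univ, true_and]
        have hyp : y ⟨c' / 4, hi⟩ ^ p = x := by
          apply pow_odd_inj hn (hpn _ (hyn _)) hx hc'odd
          rw [← pow_mul, mul_comm, pow_mul]
          have := hyg ⟨c' / 4, hi⟩
          simp only [hc4] at this
          rw [this, hxc']
        have hyx : y ⟨c' / 4, hi⟩ = x ^ p := by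
          rw [← hyp, hpp2 _ (hyn _)]
        rw [hyx]
        have h5 : (- (x ^ p)) ^ p = - ((x ^ p) ^ p) := hpodd.neg_pow _
        intro h0
        apply hx0
        -- T(-(x^p)^p) = 0; want T(- x^p) = 0
        have h6 := hT0 _ h0
        rw [hpodd.neg_pow, hpp2 x hx] at h6
        exact h6
      · simp only [hc4]
        exact hxc'

lemma norm_one_of_pow {n : ℕ} (hn : 0 < n) {x : ℂ} (hx : x ^ n = -1) : ‖x‖ = 1 := by
  have h : ‖x‖ ^ n = 1 := by rw [← norm_pow, hx]; simp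
  exact (pow_eq_one_iff_of_nonneg (norm_nonneg _) (by omega)).1 h

lemma conj_eq_pow {n : ℕ} (hn : 0 < n) {x : ℂ} (hx : x ^ n = -1) :
    (starRingEnd ℂ) x = x ^ (2 * n - 1) := by
  have h1 : x * (starRingEnd ℂ) x = 1 := by
    rw [Complex.mul_conj, Complex.normSq_eq_norm_sq, norm_one_of_pow hn hx]; simp
  have hx0 : x ≠ 0 := by
    intro h; rw [h] at h1; simp at h1
  apply mul_left_cancel₀ hx0
  rw [h1, ← pow_succ', Nat.sub_add_cancel (by omega), two_n_one hx]

lemma aeval_conj (q : ℤ[X]) (x : ℂ) :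
    aeval ((starRingEnd ℂ) x) q = (starRingEnd ℂ) (aeval x q) := by
  rw [aeval_def, aeval_def, hom_eval₂]
  congr 1
  exact RingHom.ext_int _ _

lemma normsq_S {n : ℕ} (hn : 0 < n) {q : ℤ[X]} {p : ℕ} {x : ℂ} (hx : x ^ n = -1)
    (h : aeval x q * aeval (x ^ (2 * n - 1)) q = (p : ℂ)) : ‖aeval x q‖ ^ 2 = p := by
  rw [← conj_eq_pow hn hx, aeval_conj, Complex.mul_conj, Complex.normSq_eq_norm_sq] at h
  exact_mod_cast h

lemma norm_pz {n d : ℕ} (hn : 0 < n) (z : Fin d → ℤ) (B : ℕ) (hB : ∀ j, |z j| ≤ B) {x : ℂ}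
    (hx : x ^ n = -1) : ‖aeval x (pz n d z)‖ ≤ 2 * d * B := by
  rw [aeval_pz]
  have h1 := norm_one_of_pow hn hx
  calc ‖∑ j : Fin d, (z j : ℂ) * (x ^ (j : ℕ) + x ^ ((n - 1) * (j : ℕ)))‖
      ≤ ∑ j : Fin d, ‖(z j : ℂ) * (x ^ (j : ℕ) + x ^ ((n - 1) * (j : ℕ)))‖ := norm_sum_le _ _
    _ ≤ ∑ j : Fin d, (B : ℝ) * 2 := by
        refine Finset.sum_le_sum fun j _ => ?_
        rw [norm_mul]
        refine mul_le_mul ?_ ?_ (norm_nonneg _) (by positivity)
        · rw [Complex.norm_intCast]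
          exact_mod_cast hB j
        · refine (norm_add_le _ _).trans ?_
          rw [norm_pow, norm_pow, h1]
          norm_num
    _ = 2 * d * B := by simp; ring

lemma pow_odd_neg_one {n : ℕ} {x : ℂ} (hx : x ^ n = -1) {c : ℕ} (hc : Odd c) :
    (x ^ c) ^ n = -1 := by
  rw [← pow_mul, mul_comm, pow_mul, hx]
  exact hc.neg_one_pow

/-- The main structure theorem: the vector is, up to finitely many possibilities, a product of
conjugates of one small element. -/
theorem structure_thm {F : Type} [Field F] [IsAlgClosed F] {v n d : ℕ} (hv : 2 ≤ v)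
    (hn : n = 2 ^ v) (hd : d = 2 ^ (v - 1))
    (p : ℕ) [Fact p.Prime] [CharP F p] (hp : p % (2 * n) = n - 1) (m : ℕ → ℤ)
    (hm : ∑ k ∈ range n, m k ^ 2 = p)
    (hC : ∀ x : ℂ, x ^ n = -1 → aeval x (S n m) * aeval (x ^ (2 * n - 1)) (S n m) = p)
    (hF : ∀ x : F, x ^ n = -1 → aeval x (S n m) * aeval (x ^ (2 * n - 1)) (S n m) = p)
    (B : ℕ) (hB1 : B ^ d ≤ p) (hB2 : p < (B + 1) ^ d) :
    ∃ (Ψ : Finset (Fin d)) (z : Fin d → ℤ) (β : ℕ → ℤ), Ψ.Nonempty ∧ z ≠ 0 ∧ (∀ j, |z j| ≤ B) ∧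
      (∀ x : ℂ, x ^ n = -1 → ‖aeval x (S n β)‖ ≤ (2 * d : ℝ) ^ d) ∧
      (∀ x : ℂ, x ^ n = -1 → aeval x (S n β) * aeval x (S n m)
        = ∏ i ∈ Ψ, aeval (x ^ (4 * (i : ℕ) + 1)) (pz n d z)) := by
  classical
  have hpp : p.Prime := Fact.out
  have hp0 : (p : ℂ) ≠ 0 := by exact_mod_cast hpp.ne_zero
  have hnd : n = 2 * d := by
    rw [hn, hd, ← pow_succ', Nat.sub_add_cancel (by omega)]
  have hdpos : 0 < d := by rw [hd]; positivity
  have hnpos : 0 < n := by omega
  have h2F : (2 : F) ≠ 0 := by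
    intro h
    have h1 : ((2 : ℕ) : F) = 0 := by exact_mod_cast h
    rw [CharP.cast_eq_zero_iff F p] at h1
    have := (Nat.prime_dvd_prime_iff_eq hpp Nat.prime_two).1 h1
    subst this
    have hn4 : 4 ≤ n := by
      rw [hn]
      calc 4 = 2 ^ 2 := by norm_num
        _ ≤ 2 ^ v := Nat.pow_le_pow_right (by norm_num) hv
    rw [Nat.mod_eq_of_lt (by omega)] at hp
    omega
  obtain ⟨g, hg⟩ : ∃ g : F, g ^ n = -1 := IsAlgClosed.exists_pow_nat_eq (-1 : F) (by omega)
  obtain ⟨z, hz0, hzB, hzg⟩ := exists_small (d := d) (by omega) ⟨d, by omega⟩ p hp g hg B hB2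
  obtain ⟨Ψ, hΨcard, hΨ⟩ := exponent_set hv hn hd p hp m hF g hg
  -- the n roots
  have hgprim : IsPrimitiveRoot g (2 * n) := by
    have h1 : orderOf g = 2 ^ (v + 1) := by
      apply orderOf_eq_prime_pow
      · rw [← hn, hg]
        intro h
        apply h2F
        linear_combination -h
      · rw [pow_succ', ← hn]; exact two_n_one hg
    have h2 : 2 * n = orderOf g := by rw [h1, hn, pow_succ']
    rw [h2]
    exact IsPrimitiveRoot.orderOf g
  let r : Fin n → F := fun i => g ^ (2 * (i : ℕ) + 1)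
  have hr1 : ∀ i, r i ^ n = -1 := by
    intro i
    show (g ^ (2 * (i : ℕ) + 1)) ^ n = -1
    rw [← pow_mul, mul_comm, pow_mul, hg]
    exact Odd.neg_one_pow ⟨i, rfl⟩
  have hrinj : Function.Injective r := by
    intro i j hij
    have hi := i.2
    have hj := j.2
    have := hgprim.pow_inj (by omega) (by omega) hij
    apply Fin.ext
    omega
  let Z : ℤ[X] := (S n m).comp (X ^ (2 * n - 1)) * ∏ i ∈ Ψ, (pz n d z).comp (X ^ (4 * (i : ℕ) + 1))
  have hZev : ∀ (K : Type) [Field K] (x : K), aeval x Z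
      = aeval (x ^ (2 * n - 1)) (S n m) * ∏ i ∈ Ψ, aeval (x ^ (4 * (i : ℕ) + 1)) (pz n d z) := by
    intro K _ x
    simp only [Z, map_mul, map_prod, aeval_comp, map_pow, aeval_X]
  have hZ0 : ∀ i, aeval (r i) Z = 0 := by
    intro i
    rw [hZev]
    by_cases h0 : aeval (r i ^ (2 * n - 1)) (S n m) = 0
    · rw [h0, zero_mul]
    · obtain ⟨j, hj, hj2⟩ := hΨ (r i) (hr1 i) h0
      have : aeval (r i ^ (4 * (j : ℕ) + 1)) (pz n d z) = 0 := by
        rcases hj2 with h | h
        · rw [h, hzg]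
        · rw [h, ← frob_aeval, hzg, zero_pow hpp.ne_zero]
      rw [Finset.prod_eq_zero hj this, mul_zero]
  obtain ⟨β, hβ⟩ := exists_lift p n hnpos r hrinj hr1 Z hZ0
  have hβC : ∀ x : ℂ, x ^ n = -1 → aeval x (S n β) * aeval x (S n m)
        = ∏ i ∈ Ψ, aeval (x ^ (4 * (i : ℕ) + 1)) (pz n d z) := by
    intro x hx
    have h1 := hβ ℂ x hx
    rw [hZev] at h1
    have h2 := hC x hx
    apply mul_left_cancel₀ hp0
    rw [← mul_assoc, ← h1, ← h2]
    ring
  refine ⟨Ψ, z, β, ?_, hz0, hzB, ?_, hβC⟩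
  · -- nonempty
    rw [Finset.nonempty_iff_ne_empty]
    intro hΨ0
    -- all values of S(x^{2n-1}) vanish in F
    have hS0 : ∀ i, aeval (r i) ((S n m).comp (X ^ (2 * n - 1))) = 0 := by
      intro i
      rw [aeval_comp, map_pow, aeval_X]
      by_contra h0
      obtain ⟨j, hj, _⟩ := hΨ (r i) (hr1 i) h0
      rw [hΨ0] at hj
      simp at hj
    have hS1 : ∀ i, aeval (r i) (S n m) = 0 := by
      intro i
      have h1 := hS0
      -- r i = (x)^(2n-1) for x = (r i)^(2n-1)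
      obtain ⟨c, hcodd, hc, hcg⟩ := roots_exist hn (r i ^ (2 * n - 1)) (by
        rw [← pow_mul, mul_comm, pow_mul, hr1]
        exact Odd.neg_one_pow ⟨n - 1, by omega⟩) h2F hg
      have h2 := hS0 ⟨c / 2, by omega⟩
      obtain ⟨k, rfl⟩ := hcodd
      have h3 : r ⟨(2 * k + 1) / 2, by omega⟩ = r i ^ (2 * n - 1) := by
        rw [← hcg]
        show g ^ (2 * ((2 * k + 1) / 2) + 1) = g ^ (2 * k + 1)
        congr 2
        omega
      rw [h3, aeval_comp, map_pow, aeval_X, ← pow_mul] at h2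
      have h4 : (2 * n - 1) * (2 * n - 1) ≡ 1 [MOD 2 * n] := by
        obtain ⟨s, hs⟩ : ∃ s, n = s + 1 := ⟨n - 1, by omega⟩
        have h3 : (2 * n - 1) * (2 * n - 1) = 1 + (2 * n) * (2 * s) := by
          subst hs
          have : 2 * (s + 1) - 1 = 2 * s + 1 := by omega
          rw [this]
          ring
        rw [h3, Nat.ModEq, Nat.add_mul_mod_self_left]
      rw [pow_modEq (hr1 i) h4, pow_one] at h2
      exact h2
    obtain ⟨μ, hμ⟩ := exists_lift p n hnpos r hrinj hr1 (S n m) hS1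
    obtain ⟨ζ, hζ⟩ : ∃ ζ : ℂ, ζ ^ n = -1 := IsAlgClosed.exists_pow_nat_eq (-1 : ℂ) hnpos
    have hnC : (n : ℂ) ≠ 0 := by exact_mod_cast hnpos.ne'
    have hdiv : ∀ k ∈ range n, m k = p * μ k := by
      intro k hk
      have h1 := inversion hn hζ m (Finset.mem_range.1 hk)
      have h2 := inversion hn hζ μ (Finset.mem_range.1 hk)
      have h3 : ∑ i ∈ range n, aeval (ζ ^ (2 * i + 1)) (S n m) * ((ζ ^ (2 * i + 1)) ^ k)⁻¹
          = p * ∑ i ∈ range n, aeval (ζ ^ (2 * i + 1)) (S n μ) * ((ζ ^ (2 * i + 1)) ^ k)⁻¹ := by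
        rw [Finset.mul_sum]
        refine Finset.sum_congr rfl fun i _ => ?_
        rw [hμ ℂ _ (pow_odd_neg_one hζ ⟨i, rfl⟩)]
        ring
      rw [h1, h2] at h3
      have h4 : (m k : ℂ) = p * μ k := by
        apply mul_left_cancel₀ hnC
        rw [h3]; ring
      exact_mod_cast h4
    have h5 : (p : ℤ) ^ 2 ∣ ∑ k ∈ range n, m k ^ 2 := by
      refine Finset.dvd_sum fun k hk => ?_
      rw [hdiv k hk, mul_pow]
      exact Dvd.intro _ rfl
    rw [hm] at h5
    have h6 : (p : ℕ) ^ 2 ∣ p := by exact_mod_cast h5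
    have h7 := Nat.le_of_dvd hpp.pos h6
    have := hpp.two_le
    nlinarith
  · intro x hx
    have h1 := hβC x hx
    have h2 := normsq_S hnpos hx (hC x hx)
    have h3 : ‖aeval x (S n β)‖ ^ 2 * p ≤ (2 * d : ℝ) ^ d * p := by
      rw [← h2, ← mul_pow, ← norm_mul, h1, norm_prod]
      have hBpos : 0 < B := by
        by_contra hB0
        have : B = 0 := by omega
        subst this
        simp at hB2
        have := hpp.two_le
        omega
      have hb1 : (1 : ℝ) ≤ 2 * d * B := by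
        have : 1 ≤ 2 * d * B := Nat.one_le_iff_ne_zero.2 (by positivity)
        exact_mod_cast this
      have h4 : ∏ i ∈ Ψ, ‖aeval (x ^ (4 * (i : ℕ) + 1)) (pz n d z)‖ ≤ (2 * d * B : ℝ) ^ Ψ.card := by
        rw [← Finset.prod_const]
        refine Finset.prod_le_prod (fun _ _ => norm_nonneg _) fun i _ => ?_
        exact norm_pz hnpos z B hzB (pow_odd_neg_one hx ⟨2 * i, by ring⟩)
      calc (∏ i ∈ Ψ, ‖aeval (x ^ (4 * (i : ℕ) + 1)) (pz n d z)‖) ^ 2
          ≤ ((2 * d * B : ℝ) ^ Ψ.card) ^ 2 := by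
            gcongr
        _ = (2 * d * B : ℝ) ^ (2 * Ψ.card) := by rw [← pow_mul, mul_comm Ψ.card 2]
        _ ≤ (2 * d * B : ℝ) ^ d := pow_le_pow_right₀ hb1 hΨcard
        _ = (2 * d : ℝ) ^ d * (B : ℝ) ^ d := by rw [mul_pow]
        _ ≤ (2 * d : ℝ) ^ d * p := by
            gcongr
            exact_mod_cast hB1
        _ = (2 * d : ℝ) ^ d * ‖aeval x (S n m)‖ ^ 2 := by rw [h2]
    have hp1 : (0 : ℝ) < p := by exact_mod_cast hpp.pos
    have h5 : ‖aeval x (S n β)‖ ^ 2 ≤ (2 * d : ℝ) ^ d := le_of_mul_le_mul_right h3 hp1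
    have h6 : (1 : ℝ) ≤ (2 * d : ℝ) ^ d := by
      apply one_le_pow₀
      have : 1 ≤ 2 * d := by omega
      exact_mod_cast this
    nlinarith [norm_nonneg (aeval x (S n β))]

/-! ### Counting -/

/-- The polynomial whose zeros are the exceptional small elements (before subtracting `c`). -/
noncomputable def Pol (ζ : ℂ) (n d : ℕ) (Ψ : Finset (Fin d)) (β E : ℕ → ℤ) :
    MvPolynomial (Fin d) ℂ :=
  ∑ i ∈ range n, MvPolynomial.C ((∑ k ∈ range n, (E k : ℂ) * ((ζ ^ (2 * i + 1)) ^ k)⁻¹) /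
      (n * aeval (ζ ^ (2 * i + 1)) (S n β))) *
    ∏ l ∈ Ψ, ∑ j : Fin d, MvPolynomial.C ((((ζ ^ (2 * i + 1)) ^ (4 * (l : ℕ) + 1)) ^ (j : ℕ)) +
      (((ζ ^ (2 * i + 1)) ^ (4 * (l : ℕ) + 1)) ^ ((n - 1) * (j : ℕ)))) * MvPolynomial.X j

lemma eval_Pol {v n d : ℕ} (hn : n = 2 ^ v) {ζ : ℂ} (hζ : ζ ^ n = -1) (Ψ : Finset (Fin d))
    (β E m : ℕ → ℤ) (z : Fin d → ℤ) (hβ : ∀ x : ℂ, x ^ n = -1 → aeval x (S n β) ≠ 0)
    (hrel : ∀ x : ℂ, x ^ n = -1 → aeval x (S n β) * aeval x (S n m)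
        = ∏ i ∈ Ψ, aeval (x ^ (4 * (i : ℕ) + 1)) (pz n d z)) :
    MvPolynomial.eval (fun j => (z j : ℂ)) (Pol ζ n d Ψ β E) = ∑ k ∈ range n, (E k : ℂ) * m k := by
  have hnpos : 0 < n := by rw [hn]; positivity
  have hnC : (n : ℂ) ≠ 0 := by exact_mod_cast hnpos.ne'
  have h1 : ∀ i ∈ range n, MvPolynomial.eval (fun j => (z j : ℂ))
      (MvPolynomial.C ((∑ k ∈ range n, (E k : ℂ) * ((ζ ^ (2 * i + 1)) ^ k)⁻¹) /
      (n * aeval (ζ ^ (2 * i + 1)) (S n β))) *
    ∏ l ∈ Ψ, ∑ j : Fin d, MvPolynomial.C ((((ζ ^ (2 * i + 1)) ^ (4 * (l : ℕ) + 1)) ^ (j : ℕ)) +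
      (((ζ ^ (2 * i + 1)) ^ (4 * (l : ℕ) + 1)) ^ ((n - 1) * (j : ℕ)))) * MvPolynomial.X j)
      = ∑ k ∈ range n, (E k : ℂ) * (((n : ℂ))⁻¹ * (aeval (ζ ^ (2 * i + 1)) (S n m) *
        ((ζ ^ (2 * i + 1)) ^ k)⁻¹)) := by
    intro i _
    have hx : (ζ ^ (2 * i + 1)) ^ n = -1 := pow_odd_neg_one hζ ⟨i, rfl⟩
    have h2 := hrel _ hx
    have h3 := hβ _ hx
    simp only [map_mul, map_prod, map_sum, MvPolynomial.eval_C, MvPolynomial.eval_X]
    have h4 : ∀ l ∈ Ψ, ∑ j : Fin d, (((ζ ^ (2 * i + 1)) ^ (4 * (l : ℕ) + 1)) ^ (j : ℕ) +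
        ((ζ ^ (2 * i + 1)) ^ (4 * (l : ℕ) + 1)) ^ ((n - 1) * (j : ℕ))) * (z j : ℂ)
        = aeval ((ζ ^ (2 * i + 1)) ^ (4 * (l : ℕ) + 1)) (pz n d z) := by
      intro l _
      rw [aeval_pz]
      exact Finset.sum_congr rfl fun j _ => mul_comm _ _
    rw [Finset.prod_congr rfl h4, ← h2]
    have h5 : (∑ k ∈ range n, (E k : ℂ) * ((ζ ^ (2 * i + 1)) ^ k)⁻¹) /
        (n * aeval (ζ ^ (2 * i + 1)) (S n β)) *
        (aeval (ζ ^ (2 * i + 1)) (S n β) * aeval (ζ ^ (2 * i + 1)) (S n m))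
        = (∑ k ∈ range n, (E k : ℂ) * ((ζ ^ (2 * i + 1)) ^ k)⁻¹) * ((n : ℂ)⁻¹ *
          aeval (ζ ^ (2 * i + 1)) (S n m)) := by
      field_simp
    rw [h5, Finset.sum_mul]
    exact Finset.sum_congr rfl fun k _ => by ring
  rw [Pol, map_sum, Finset.sum_congr rfl h1, Finset.sum_comm]
  refine Finset.sum_congr rfl fun k hk => ?_
  rw [← Finset.mul_sum, ← Finset.mul_sum, inversion hn hζ m (Finset.mem_range.1 hk)]
  field_simp

lemma Pol_degree (ζ : ℂ) (n d : ℕ) (Ψ : Finset (Fin d)) (β E : ℕ → ℤ) :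
    (Pol ζ n d Ψ β E).totalDegree ≤ d := by
  unfold Pol
  refine (MvPolynomial.totalDegree_finsetSum _ _).trans (Finset.sup_le fun i _ => ?_)
  refine (MvPolynomial.totalDegree_mul _ _).trans ?_
  rw [MvPolynomial.totalDegree_C, zero_add]
  refine (MvPolynomial.totalDegree_finsetProd _ _).trans ?_
  have h1 : ∀ l ∈ Ψ, (∑ j : Fin d, MvPolynomial.C ((((ζ ^ (2 * i + 1)) ^ (4 * (l : ℕ) + 1)) ^ (j : ℕ)) +
      (((ζ ^ (2 * i + 1)) ^ (4 * (l : ℕ) + 1)) ^ ((n - 1) * (j : ℕ)))) *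
        MvPolynomial.X j : MvPolynomial (Fin d) ℂ).totalDegree ≤ 1 := by
    intro l _
    refine (MvPolynomial.totalDegree_finsetSum _ _).trans (Finset.sup_le fun j _ => ?_)
    refine (MvPolynomial.totalDegree_mul _ _).trans ?_
    rw [MvPolynomial.totalDegree_C, zero_add, MvPolynomial.totalDegree_X]
  refine (Finset.sum_le_sum h1).trans ?_
  have h2 := Finset.card_le_univ Ψ
  rw [Fintype.card_fin] at h2
  simpa using h2

lemma Pol_sub_ne_zero (ζ : ℂ) (n d : ℕ) (Ψ : Finset (Fin d)) (hΨ : Ψ.Nonempty) (β E : ℕ → ℤ)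
    (c : ℂ) (hc : c ≠ 0) : Pol ζ n d Ψ β E - MvPolynomial.C c ≠ 0 := by
  intro h
  have h1 := congrArg (MvPolynomial.eval (fun _ : Fin d => (0 : ℂ))) h
  rw [map_sub, MvPolynomial.eval_C, map_zero] at h1
  apply hc
  have h2 : MvPolynomial.eval (fun _ : Fin d => (0 : ℂ)) (Pol ζ n d Ψ β E) = 0 := by
    unfold Pol
    simp only [map_sum, map_mul, map_prod, MvPolynomial.eval_C, MvPolynomial.eval_X, mul_zero,
      Finset.sum_const_zero]
    rw [Finset.prod_const, zero_pow (Finset.card_pos.2 hΨ).ne']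
    simp
  rw [h2] at h1
  linear_combination -h1

lemma zeros_le {d : ℕ} (hd : 0 < d) (P : MvPolynomial (Fin d) ℂ) (hP : P ≠ 0)
    (hdeg : P.totalDegree ≤ d) (B : ℕ) :
    ((Fintype.piFinset (fun _ : Fin d => Finset.Icc (-(B : ℤ)) B)).filter
      (fun z => MvPolynomial.eval (fun j => (z j : ℂ)) P = 0)).card ≤ d * (2 * B + 1) ^ (d - 1) := by
  classical
  set T : Finset ℂ := (Finset.Icc (-(B : ℤ)) B).image (fun a : ℤ => (a : ℂ)) with hT
  have hTcard : T.card = 2 * B + 1 := by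
    rw [hT, Finset.card_image_of_injective _ Int.cast_injective, Int.card_Icc]
    omega
  have h1 := MvPolynomial.schwartz_zippel_totalDegree hP T
  have h2 : ((Fintype.piFinset (fun _ : Fin d => Finset.Icc (-(B : ℤ)) B)).filter
      (fun z => MvPolynomial.eval (fun j => (z j : ℂ)) P = 0)).card ≤
      ((Fintype.piFinset fun _ : Fin d => T).filter (fun f => MvPolynomial.eval f P = 0)).card := by
    refine Finset.card_le_card_of_injOn (fun z => fun j => (z j : ℂ)) ?_ ?_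
    · intro z hz
      rw [Finset.mem_coe, Finset.mem_filter, Fintype.mem_piFinset] at hz
      rw [Finset.mem_coe, Finset.mem_filter, Fintype.mem_piFinset]
      exact ⟨fun j => Finset.mem_image_of_mem _ (hz.1 j), hz.2⟩
    · intro z _ w _ hzw
      funext j
      have : ((z j : ℤ) : ℂ) = ((w j : ℤ) : ℂ) := congrFun hzw j
      exact_mod_cast this
  refine h2.trans ?_
  rw [hTcard] at h1
  have hpos : (0 : ℚ≥0) < ((2 * B + 1 : ℕ) : ℚ≥0) := by exact_mod_cast Nat.succ_pos _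
  have h3 : ((((Fintype.piFinset fun _ : Fin d => T).filter
      (fun f => MvPolynomial.eval f P = 0)).card : ℕ) : ℚ≥0) ≤
      ((d * (2 * B + 1) ^ (d - 1) : ℕ) : ℚ≥0) := by
    rw [div_le_iff₀ (pow_pos hpos _)] at h1
    refine h1.trans ?_
    obtain ⟨e, rfl⟩ : ∃ e, d = e + 1 := ⟨d - 1, by omega⟩
    rw [pow_succ, Nat.add_sub_cancel]
    have h4 : (P.totalDegree : ℚ≥0) / ((2 * B + 1 : ℕ) : ℚ≥0) *
        (((2 * B + 1 : ℕ) : ℚ≥0) ^ e * ((2 * B + 1 : ℕ) : ℚ≥0)) =
        (P.totalDegree : ℚ≥0) * ((2 * B + 1 : ℕ) : ℚ≥0) ^ e := by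
      field_simp
    rw [h4]
    push_cast
    gcongr
    exact_mod_cast hdeg
  exact_mod_cast h3

/-- extension by zero -/
def ext0 {n : ℕ} (w : Fin n → ℤ) (k : ℕ) : ℤ := if h : k < n then w ⟨k, h⟩ else 0

lemma ext0_apply {n : ℕ} (m : ℕ → ℤ) {k : ℕ} (hk : k < n) :
    ext0 (fun i : Fin n => m i) k = m k := by
  simp [ext0, hk]

lemma S_ext0 (n : ℕ) (m : ℕ → ℤ) : S n (ext0 (fun i : Fin n => m i)) = S n m := by
  unfold S
  refine Finset.sum_congr rfl fun k hk => ?_
  rw [ext0_apply m (Finset.mem_range.1 hk)]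

/-- Hypothesis on the integer vector attached to a prime `p`. -/
structure Vec (n p : ℕ) (m : ℕ → ℤ) : Prop where
  sq : ∑ k ∈ range n, m k ^ 2 = p
  mul : ∀ (K : Type) [Field K] (x : K), (2 : K) ≠ 0 → x ^ n = -1 →
    aeval x (S n m) * aeval (x ^ (2 * n - 1)) (S n m) = (p : K)

/-- coefficient bound -/
lemma coeff_bound {v n : ℕ} (hn : n = 2 ^ v) (β : ℕ → ℤ) (K : ℕ)
    (hK : ∀ x : ℂ, x ^ n = -1 → ‖aeval x (S n β)‖ ≤ K) {k : ℕ} (hk : k < n) : |β k| ≤ K := by
  obtain ⟨ζ, hζ⟩ : ∃ ζ : ℂ, ζ ^ n = -1 := IsAlgClosed.exists_pow_nat_eq (-1 : ℂ) (by omega)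
  have h1 := inversion hn hζ β hk
  have h2 : ‖∑ i ∈ range n, aeval (ζ ^ (2 * i + 1)) (S n β) * ((ζ ^ (2 * i + 1)) ^ k)⁻¹‖
      ≤ n * (K : ℝ) := by
    refine (norm_sum_le _ _).trans ?_
    have : ∀ i ∈ range n, ‖aeval (ζ ^ (2 * i + 1)) (S n β) * ((ζ ^ (2 * i + 1)) ^ k)⁻¹‖ ≤ (K : ℝ) := by
      intro i _
      have hx : (ζ ^ (2 * i + 1)) ^ n = -1 := pow_odd_neg_one hζ ⟨i, rfl⟩
      rw [norm_mul, norm_inv, norm_pow, norm_one_of_pow (by omega) hx]
      simpa using hK _ hx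
    refine (Finset.sum_le_sum this).trans ?_
    simp
  rw [h1, norm_mul, Complex.norm_natCast, Complex.norm_intCast] at h2
  have hn0 : (0 : ℝ) < n := by exact_mod_cast (by omega : 0 < n)
  have h3 := le_of_mul_le_mul_left h2 hn0
  exact_mod_cast h3

theorem thin_core {v n d : ℕ} (hv : 2 ≤ v) (hn : n = 2 ^ v) (hd : d = 2 ^ (v - 1)) (L : ℕ) (c : ℤ)
    (hc : c ≠ 0) : ∃ C₀ : ℕ, ∀ (B : ℕ) (P : Finset ℕ),
      (∀ p ∈ P, p.Prime ∧ p % (2 * n) = n - 1 ∧ p < (B + 1) ^ d ∧ ∃ m : ℕ → ℤ, Vec n p m ∧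
        ∃ E : ℕ → ℤ, (∀ k, k < n → |E k| ≤ L) ∧ ∑ k ∈ range n, E k * m k = c) →
      P.card ≤ C₀ * (B + 1) ^ (d - 1) := by
  classical
  have hnd : n = 2 * d := by
    rw [hn, hd, ← pow_succ', Nat.sub_add_cancel (by omega)]
  have hdpos : 0 < d := by rw [hd]; positivity
  have hnpos : 0 < n := by omega
  obtain ⟨ζ, hζ⟩ : ∃ ζ : ℂ, ζ ^ n = -1 := IsAlgClosed.exists_pow_nat_eq (-1 : ℂ) hnpos
  let K : ℕ := (2 * d) ^ d
  let I : Finset (Finset (Fin d) × (Fin n → ℤ) × (Fin n → ℤ)) :=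
    (Finset.univ.filter (fun Ψ : Finset (Fin d) => Ψ.Nonempty)) ×ˢ
      ((Fintype.piFinset (fun _ : Fin n => Finset.Icc (-(K : ℤ)) K)) ×ˢ
        (Fintype.piFinset (fun _ : Fin n => Finset.Icc (-(L : ℤ)) L)))
  refine ⟨I.card * (d * 2 ^ (d - 1)), ?_⟩
  intro B P hP
  let Q : (Finset (Fin d) × (Fin n → ℤ) × (Fin n → ℤ)) → MvPolynomial (Fin d) ℂ := fun ι =>
    Pol ζ n d ι.1 (ext0 ι.2.1) (ext0 ι.2.2) - MvPolynomial.C (c : ℂ)
  let Zs : (Finset (Fin d) × (Fin n → ℤ) × (Fin n → ℤ)) → Finset (Fin d → ℤ) := fun ι =>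
    (Fintype.piFinset (fun _ : Fin d => Finset.Icc (-(B : ℤ)) B)).filter
      (fun z => MvPolynomial.eval (fun j => (z j : ℂ)) (Q ι) = 0)
  let val : (Finset (Fin d) × (Fin n → ℤ) × (Fin n → ℤ)) → (Fin d → ℤ) → ℂ := fun ι z =>
    (∏ i ∈ ι.1, aeval (ζ ^ (4 * (i : ℕ) + 1)) (pz n d z)) / aeval ζ (S n (ext0 ι.2.1)) *
    ((∏ i ∈ ι.1, aeval ((ζ ^ (2 * n - 1)) ^ (4 * (i : ℕ) + 1)) (pz n d z)) /
      aeval (ζ ^ (2 * n - 1)) (S n (ext0 ι.2.1)))
  have hsub : P.image (fun p : ℕ => (p : ℂ)) ⊆ I.biUnion (fun ι => (Zs ι).image (val ι)) := by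
    intro w hw
    rw [Finset.mem_image] at hw
    obtain ⟨p, hp, rfl⟩ := hw
    obtain ⟨hprime, hpmod, hpB, m, hm, E, hE, hEc⟩ := hP p hp
    have : Fact p.Prime := ⟨hprime⟩
    -- choose the root
    obtain ⟨b, hb1, hb2⟩ : ∃ b : ℕ, b ^ d ≤ p ∧ p < (b + 1) ^ d := by
      have hex : ∃ b : ℕ, p < (b + 1) ^ d := ⟨B, hpB⟩
      refine ⟨Nat.find hex, ?_, Nat.find_spec hex⟩
      by_cases h0 : Nat.find hex = 0
      · rw [h0, zero_pow hdpos.ne']; exact Nat.zero_le _
      · have := Nat.find_min hex (m := Nat.find hex - 1) (by omega)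
        rw [Nat.sub_add_cancel (by omega)] at this
        omega
    have hbB : b ≤ B := by
      by_contra h
      have h1 : B + 1 ≤ b := by omega
      have h2 : (B + 1) ^ d ≤ b ^ d := Nat.pow_le_pow_left h1 d
      omega
    have h2F : (2 : AlgebraicClosure (ZMod p)) ≠ 0 := by
      intro h
      have h1 : ((2 : ℕ) : AlgebraicClosure (ZMod p)) = 0 := by exact_mod_cast h
      rw [CharP.cast_eq_zero_iff (AlgebraicClosure (ZMod p)) p] at h1
      have := (Nat.prime_dvd_prime_iff_eq hprime Nat.prime_two).1 h1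
      subst this
      have hn4 : 4 ≤ n := by
        rw [hn]
        calc 4 = 2 ^ 2 := by norm_num
          _ ≤ 2 ^ v := Nat.pow_le_pow_right (by norm_num) hv
      rw [Nat.mod_eq_of_lt (by omega)] at hpmod
      omega
    obtain ⟨Ψ, z, β, hΨ, hz0, hzb, hβK, hrel⟩ := structure_thm (F := AlgebraicClosure (ZMod p)) hv hn
      hd p hpmod m hm.sq (fun x hx => hm.mul ℂ x two_ne_zero hx)
      (fun x hx => hm.mul (AlgebraicClosure (ZMod p)) x h2F hx) b hb1 hb2
    have hne : ∀ x : ℂ, x ^ n = -1 → ∏ i ∈ Ψ, aeval (x ^ (4 * (i : ℕ) + 1)) (pz n d z) ≠ 0 := by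
      intro x hx
      rw [Finset.prod_ne_zero_iff]
      intro i _
      exact pz_ne_zero hv hn hd z hz0 _ (pow_odd_neg_one hx ⟨2 * i, by ring⟩)
    have hβne : ∀ x : ℂ, x ^ n = -1 → aeval x (S n β) ≠ 0 := by
      intro x hx h0
      apply hne x hx
      rw [← hrel x hx, h0, zero_mul]
    have hβb : ∀ k, k < n → |β k| ≤ K := by
      intro k hk
      apply coeff_bound hn β K _ hk
      intro x hx
      have := hβK x hx
      simpa [K] using this
    rw [Finset.mem_biUnion]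
    refine ⟨(Ψ, (fun i => β i), (fun i => E i)), ?_, ?_⟩
    · simp only [I, Finset.mem_product, Finset.mem_filter, Finset.mem_univ, true_and,
        Fintype.mem_piFinset, Finset.mem_Icc]
      exact ⟨hΨ, fun i => abs_le.1 (hβb i i.2), fun i => abs_le.1 (hE i i.2)⟩
    · rw [Finset.mem_image]
      refine ⟨z, ?_, ?_⟩
      · simp only [Zs, Finset.mem_filter, Fintype.mem_piFinset, Finset.mem_Icc, Q]
        refine ⟨fun j => abs_le.1 ((hzb j).trans (by exact_mod_cast hbB)), ?_⟩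
        rw [map_sub, MvPolynomial.eval_C, eval_Pol hn hζ Ψ (ext0 fun i : Fin n => β i)
          (ext0 fun i : Fin n => E i) m z]
        · have h1 : ∑ k ∈ range n, ((ext0 (fun i : Fin n => E i) k : ℤ) : ℂ) * m k
              = ((∑ k ∈ range n, E k * m k : ℤ) : ℂ) := by
            push_cast
            refine Finset.sum_congr rfl fun k hk => ?_
            rw [ext0_apply E (Finset.mem_range.1 hk)]
          rw [h1, hEc, sub_self]
        · intro x hx
          rw [S_ext0]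
          exact hβne x hx
        · intro x hx
          rw [S_ext0]
          exact hrel x hx
      · simp only [val]
        rw [S_ext0]
        have hζ' : (ζ ^ (2 * n - 1)) ^ n = -1 := pow_odd_neg_one hζ ⟨n - 1, by omega⟩
        rw [← hrel ζ hζ, ← hrel _ hζ', mul_div_cancel_left₀ _ (hβne ζ hζ),
          mul_div_cancel_left₀ _ (hβne _ hζ')]
        exact hm.mul ℂ ζ two_ne_zero hζ
  have hcard := Finset.card_le_card hsub
  rw [Finset.card_image_of_injective _ Nat.cast_injective] at hcard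
  refine hcard.trans (Finset.card_biUnion_le.trans ?_)
  have h1 : ∀ ι ∈ I, ((Zs ι).image (val ι)).card ≤ d * (2 * B + 1) ^ (d - 1) := by
    intro ι hι
    refine Finset.card_image_le.trans ?_
    apply zeros_le hdpos
    · apply Pol_sub_ne_zero
      · simp only [I, Finset.mem_product, Finset.mem_filter, Finset.mem_univ, true_and] at hι
        exact hι.1
      · exact_mod_cast hc
    · refine (MvPolynomial.totalDegree_sub _ _).trans ?_
      rw [MvPolynomial.totalDegree_C, max_le_iff]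
      exact ⟨Pol_degree _ _ _ _ _ _, Nat.zero_le _⟩
  refine (Finset.sum_le_sum h1).trans ?_
  rw [Finset.sum_const, smul_eq_mul]
  have h2 : (2 * B + 1) ^ (d - 1) ≤ 2 ^ (d - 1) * (B + 1) ^ (d - 1) := by
    rw [← mul_pow]
    exact Nat.pow_le_pow_left (by omega) _
  calc I.card * (d * (2 * B + 1) ^ (d - 1)) ≤ I.card * (d * (2 ^ (d - 1) * (B + 1) ^ (d - 1))) := by
        gcongr
    _ = I.card * (d * 2 ^ (d - 1)) * (B + 1) ^ (d - 1) := by ring

/-! ### From functions on `ZMod (2 n)` -/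

lemma sum_zmod {M : Type*} [AddCommMonoid M] (N : ℕ) [NeZero N] (F : ZMod N → M) :
    ∑ a : ZMod N, F a = ∑ k ∈ range N, F (k : ZMod N) := by
  symm
  refine Finset.sum_bij (fun k _ => (k : ZMod N)) (fun _ _ => Finset.mem_univ _) ?_ ?_ ?_
  · intro a ha b hb hab
    rw [ZMod.natCast_eq_natCast_iff'] at hab
    rwa [Nat.mod_eq_of_lt (Finset.mem_range.1 ha), Nat.mod_eq_of_lt (Finset.mem_range.1 hb)] at hab
  · intro b _
    exact ⟨b.val, Finset.mem_range.2 (ZMod.val_lt b), ZMod.natCast_zmod_val b⟩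
  · intro _ _
    rfl

lemma sum_zmod_two {M : Type*} [AddCommMonoid M] (n : ℕ) [NeZero (2 * n)] (F : ZMod (2 * n) → M) :
    ∑ a : ZMod (2 * n), F a = ∑ k ∈ range n, (F (k : ZMod (2 * n)) + F ((k : ZMod (2 * n)) + (n : ℕ))) := by
  have key : ∀ G : ℕ → M, ∑ k ∈ range (2 * n), G k = ∑ k ∈ range n, (G k + G (k + n)) := by
    intro G
    rw [two_mul, Finset.sum_range_add, Finset.sum_add_distrib]
    congr 1
    refine Finset.sum_congr rfl fun k _ => ?_
    rw [add_comm n k]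
  rw [sum_zmod, key (fun k : ℕ => F (k : ZMod (2 * n)))]
  refine Finset.sum_congr rfl fun k _ => ?_
  push_cast
  rfl

/-- odd function with negacyclic autocorrelation `p` -/
theorem vec_of_zmod {n p : ℕ} (hn : 0 < n) [NeZero (2 * n)] (f : ZMod (2 * n) → ℤ)
    (hodd : ∀ a, f (a + (n : ℕ)) = - f a)
    (hcorr : ∀ j : ZMod (2 * n), ∑ a, f a * f (a + j) =
      if j = 0 then 2 * (p : ℤ) else if j = ((n : ℕ) : ZMod (2 * n)) then - (2 * (p : ℤ)) else 0) :
    Vec n p (fun k => f (k : ZMod (2 * n))) := by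
  classical
  constructor
  · have h1 := hcorr 0
    rw [if_pos rfl, sum_zmod_two] at h1
    have h2 : ∀ k ∈ range n, (f (k : ZMod (2 * n)) * f ((k : ZMod (2 * n)) + 0) +
        f ((k : ZMod (2 * n)) + (n : ℕ)) * f ((k : ZMod (2 * n)) + (n : ℕ) + 0))
        = 2 * f (k : ZMod (2 * n)) ^ 2 := by
      intro k _
      rw [add_zero, add_zero, hodd]
      ring
    rw [Finset.sum_congr rfl h2, ← Finset.mul_sum] at h1
    linarith
  · intro K _ x h2 hx
    have hval : ∀ y : K, y ^ n = -1 → ∀ a b : ZMod (2 * n),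
        y ^ (a + b).val = y ^ a.val * y ^ b.val := by
      intro y hy a b
      rw [ZMod.val_add, ← pow_add]
      exact pow_modEq hy (Nat.mod_modEq _ _)
    have hSx : ∀ y : K, y ^ n = -1 → ∑ a : ZMod (2 * n), (f a : K) * y ^ a.val
        = 2 * aeval y (S n (fun k => f (k : ZMod (2 * n)))) := by
      intro y hy
      rw [sum_zmod_two, aeval_S, Finset.mul_sum]
      refine Finset.sum_congr rfl fun k hk => ?_
      have hk' := Finset.mem_range.1 hk
      have e1 : ((k : ℕ) : ZMod (2 * n)).val = k := ZMod.val_natCast_of_lt (by omega)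
      have e2 : (((n : ℕ)) : ZMod (2 * n)).val = n := ZMod.val_natCast_of_lt (by omega)
      rw [hodd, hval y hy, e1, e2, hy]
      push_cast
      ring
    have hx' : (x ^ (2 * n - 1)) ^ n = -1 := by
      rw [← pow_mul, mul_comm, pow_mul, hx]
      exact Odd.neg_one_pow ⟨n - 1, by omega⟩
    have hneg : ∀ b : ZMod (2 * n), (x ^ (2 * n - 1)) ^ b.val = x ^ (-b).val := by
      intro b
      have h1 : x ^ (-b).val * x ^ b.val = 1 := by
        rw [← hval x hx, neg_add_cancel]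
        simp
      have h3 : (x ^ (2 * n - 1)) ^ b.val * x ^ b.val = 1 := by
        rw [← mul_pow, ← pow_succ, Nat.sub_add_cancel (by omega), two_n_one hx, one_pow]
      have hx0 : x ^ b.val ≠ 0 := by
        intro h0
        rw [h0, mul_zero] at h1
        exact zero_ne_one h1
      exact mul_right_cancel₀ hx0 (h3.trans h1.symm)
    have h4 : (2 * aeval x (S n (fun k => f (k : ZMod (2 * n))))) *
        (2 * aeval (x ^ (2 * n - 1)) (S n (fun k => f (k : ZMod (2 * n))))) = 4 * p := by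
      rw [← hSx x hx, ← hSx _ hx', Finset.sum_mul_sum]
      simp_rw [hneg]
      have h5 : ∀ a : ZMod (2 * n), ∑ b : ZMod (2 * n), (f a : K) * x ^ a.val * ((f b : K) *
          x ^ (-b).val) = ∑ b : ZMod (2 * n), ((f a * f b : ℤ) : K) * x ^ (a - b).val := by
        intro a
        refine Finset.sum_congr rfl fun b _ => ?_
        rw [sub_eq_add_neg, hval x hx]
        push_cast
        ring
      simp_rw [h5]
      rw [Finset.sum_comm]
      -- substitute a = b + j
      have h6 : ∀ b : ZMod (2 * n), ∑ a : ZMod (2 * n), ((f a * f b : ℤ) : K) * x ^ (a - b).val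
          = ∑ j : ZMod (2 * n), ((f b * f (b + j) : ℤ) : K) * x ^ j.val := by
        intro b
        rw [← Equiv.sum_comp (Equiv.addLeft b)]
        refine Finset.sum_congr rfl fun j _ => ?_
        simp only [Equiv.coe_addLeft, add_sub_cancel_left]
        rw [mul_comm (f (b + j))]
      simp_rw [h6]
      rw [Finset.sum_comm]
      have h7 : ∀ j : ZMod (2 * n), ∑ b : ZMod (2 * n), ((f b * f (b + j) : ℤ) : K) * x ^ j.val
          = ((if j = 0 then 2 * (p : ℤ) else if j = ((n : ℕ) : ZMod (2 * n)) then - (2 * (p : ℤ))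
            else 0 : ℤ) : K) * x ^ j.val := by
        intro j
        rw [← Finset.sum_mul, ← hcorr j]
        push_cast
        rfl
      simp_rw [h7]
      have hn0 : ((n : ℕ) : ZMod (2 * n)) ≠ 0 := by
        intro h
        rw [ZMod.natCast_eq_zero_iff] at h
        have := Nat.le_of_dvd hn h
        omega
      rw [← Finset.sum_subset (Finset.subset_univ {(0 : ZMod (2 * n)), ((n : ℕ) : ZMod (2 * n))})]
      · rw [Finset.sum_pair hn0.symm, if_pos rfl, if_neg hn0, if_pos rfl]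
        have e2 : (((n : ℕ)) : ZMod (2 * n)).val = n := ZMod.val_natCast_of_lt (by omega)
        rw [e2, hx]
        simp
        ring
      · intro j _ hj
        rw [Finset.mem_insert, Finset.mem_singleton, not_or] at hj
        rw [if_neg hj.1, if_neg hj.2]
        simp
    have h40 : (4 : K) ≠ 0 := by
      have : (4 : K) = 2 * 2 := by norm_num
      rw [this]
      exact mul_ne_zero h2 h2
    apply mul_left_cancel₀ h40
    rw [← h4]
    ring

/-- Thinness: for `2 ^ v` exactly dividing `p + 1` (`v ≥ 2`), the primes `p ≤ X` for which some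
vector `f` with negacyclic autocorrelation `p` has a small linear combination equal to `c` are at
most `C X ^ (1 - 1 / 2 ^ (v - 1))`. -/
theorem thin (v : ℕ) (hv : 2 ≤ v) (L : ℕ) (c : ℤ) (hc : c ≠ 0) : ∃ C : ℝ, 0 ≤ C ∧
    ∀ (X : ℕ) (P : Finset ℕ), (∀ p ∈ P, p ≤ X ∧ p.Prime ∧ p % 2 ^ (v + 1) = 2 ^ v - 1 ∧
      ∃ f : ZMod (2 * 2 ^ v) → ℤ, (∀ a, f (a + ((2 ^ v : ℕ) : ZMod (2 * 2 ^ v))) = - f a) ∧
        (∀ j : ZMod (2 * 2 ^ v), ∑ a, f a * f (a + j) =
          if j = 0 then 2 * (p : ℤ) else if j = ((2 ^ v : ℕ) : ZMod (2 * 2 ^ v)) then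
            - (2 * (p : ℤ)) else 0) ∧
        ∃ E : ZMod (2 * 2 ^ v) → ℤ, (∀ a, |E a| ≤ L) ∧ ∑ a, E a * f a = c) →
      (P.card : ℝ) ≤ C * (X : ℝ) ^ (1 - 1 / (2 : ℝ) ^ (v - 1)) := by
  classical
  set n : ℕ := 2 ^ v with hn
  set d : ℕ := 2 ^ (v - 1) with hd
  have hdpos : 0 < d := by rw [hd]; positivity
  have hnpos : 0 < n := by rw [hn]; positivity
  obtain ⟨C₀, hC₀⟩ := thin_core hv hn hd (2 * L) c hc
  refine ⟨C₀ * 2 ^ (d - 1), by positivity, ?_⟩
  intro X P hP
  -- choose B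
  obtain ⟨B, hB1, hB2⟩ : ∃ B : ℕ, B ^ d ≤ X ∧ X < (B + 1) ^ d := by
    have hex : ∃ b : ℕ, X < (b + 1) ^ d := by
      refine ⟨X, ?_⟩
      calc X < X + 1 := Nat.lt_succ_self _
        _ ≤ (X + 1) ^ d := Nat.le_self_pow hdpos.ne' _
    refine ⟨Nat.find hex, ?_, Nat.find_spec hex⟩
    by_cases h0 : Nat.find hex = 0
    · rw [h0, zero_pow hdpos.ne']; exact Nat.zero_le _
    · have := Nat.find_min hex (m := Nat.find hex - 1) (by omega)
      rw [Nat.sub_add_cancel (by omega)] at this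
      omega
  have hcard := hC₀ B P (by
    intro p hp
    obtain ⟨hpX, hprime, hpmod, f, hodd, hcorr, E, hE, hEc⟩ := hP p hp
    refine ⟨hprime, ?_, lt_of_le_of_lt hpX hB2, fun k => f (k : ZMod (2 * n)), ?_, ?_⟩
    · rw [← hpmod, pow_succ']
    · exact vec_of_zmod hnpos f hodd hcorr
    · refine ⟨fun k => E (k : ZMod (2 * n)) - E ((k : ZMod (2 * n)) + (n : ℕ)), ?_, ?_⟩
      · intro k _
        have h1 := hE (k : ZMod (2 * n))
        have h2 := hE ((k : ZMod (2 * n)) + (n : ℕ))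
        rw [abs_le] at h1 h2 ⊢
        push_cast
        constructor <;> linarith
      · rw [sum_zmod_two] at hEc
        rw [← hEc]
        refine Finset.sum_congr rfl fun k _ => ?_
        rw [hodd]
        ring)
  by_cases hX : X = 0
  · -- no primes
    have : P = ∅ := by
      rw [Finset.eq_empty_iff_forall_notMem]
      intro p hp
      obtain ⟨hpX, hprime, _⟩ := hP p hp
      have := hprime.two_le
      omega
    rw [this]
    simp only [Finset.card_empty, Nat.cast_zero]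
    positivity
  · have hX1 : 1 ≤ X := by omega
    have hB0 : 1 ≤ B := by
      by_contra h
      have : B = 0 := by omega
      subst this
      simp at hB2
      omega
    have h1 : ((B : ℝ)) ^ (d - 1) ≤ (X : ℝ) ^ (1 - 1 / (d : ℝ)) := by
      have h2 : ((B : ℝ)) ^ (d - 1) = (((B : ℝ)) ^ d) ^ (1 - 1 / (d : ℝ)) := by
        rw [← Real.rpow_natCast, ← Real.rpow_natCast, ← Real.rpow_mul (by positivity)]
        congr 1
        rw [Nat.cast_sub hdpos]
        have : (d : ℝ) ≠ 0 := by exact_mod_cast hdpos.ne'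
        field_simp
        simp
      rw [h2]
      apply Real.rpow_le_rpow (by positivity)
      · exact_mod_cast hB1
      · rw [sub_nonneg, div_le_one (by exact_mod_cast hdpos)]
        exact_mod_cast hdpos
    have h3 : ((B + 1 : ℕ) : ℝ) ^ (d - 1) ≤ 2 ^ (d - 1) * (B : ℝ) ^ (d - 1) := by
      rw [← mul_pow]
      apply pow_le_pow_left₀ (by positivity)
      push_cast
      have : (1 : ℝ) ≤ B := by exact_mod_cast hB0
      linarith
    have hdc : ((2 : ℝ) ^ (v - 1)) = (d : ℝ) := by rw [hd]; push_cast; rfl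
    rw [hdc]
    calc (P.card : ℝ) ≤ ((C₀ * (B + 1) ^ (d - 1) : ℕ) : ℝ) := by exact_mod_cast hcard
      _ = C₀ * ((B + 1 : ℕ) : ℝ) ^ (d - 1) := by push_cast; rfl
      _ ≤ C₀ * (2 ^ (d - 1) * (X : ℝ) ^ (1 - 1 / (d : ℝ))) := by
          apply mul_le_mul_of_nonneg_left _ (Nat.cast_nonneg _)
          exact h3.trans (mul_le_mul_of_nonneg_left h1 (by positivity))
      _ = C₀ * 2 ^ (d - 1) * (X : ℝ) ^ (1 - 1 / (d : ℝ)) := by ring

end Thin42b
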